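import Mathlib

set_option autoImplicit false
set_option linter.unusedSectionVars false

open MeasureTheory Filter Topology Set
open scoped InnerProductSpace

namespace Pool.Agent.R256.Alz

noncomputable section

variable {H : Type*} [NormedAddCommGroup H] [InnerProductSpace ℂ H] [CompleteSpace H]

/-- quadratic form -/
def q (T : H →L[ℂ] H) (p : H) : ℝ := (⟪T p, p⟫_ℂ).re

/-- the invariant class -/
def Cls (G' G D : H →L[ℂ] H) : Prop := ∀ p r : H,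
  (1 / 2) * ‖p‖ ^ 2 - (1 / 2) * ‖r‖ ^ 2 + (1 / 4) * q D (p - r) + q G r ≤ q G' p

/-- weighted geometric mean -/
def Phi (w : ℝ) (A B : H →L[ℂ] H) : H →L[ℂ] H :=
  B ^ ((1:ℝ) / 2) * (B ^ (-((1:ℝ) / 2)) * A * B ^ (-((1:ℝ) / 2))) ^ w * B ^ ((1:ℝ) / 2)

lemma q_nonneg {T : H →L[ℂ] H} (hT : 0 ≤ T) (p : H) : 0 ≤ q T p := by
  have := (ContinuousLinearMap.nonneg_iff_isPositive T).mp hT
  exact this.re_inner_nonneg_left p

lemma sa {T : H →L[ℂ] H} (hT : 0 ≤ T) (x y : H) : ⟪T x, y⟫_ℂ = ⟪x, T y⟫_ℂ := by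
  have := (ContinuousLinearMap.nonneg_iff_isPositive T).mp hT
  exact this.isSymmetric x y

lemma rpow_half_mul {B : H →L[ℂ] H} (hB : 0 ≤ B) (hu : IsUnit B) :
    B ^ ((1:ℝ) / 2) * B ^ ((1:ℝ) / 2) = B := by
  rw [← CFC.rpow_add hu]
  have : (1:ℝ) / 2 + 1 / 2 = 1 := by norm_num
  rw [this, CFC.rpow_one B hB]

/-- conjugates of strictly positive operators -/
lemma conj_pos {B S : H →L[ℂ] H} (hS : 0 ≤ S) (hSu : IsUnit S) (hB : 0 ≤ B) (hBu : IsUnit B) :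
    0 ≤ S * B * S ∧ IsUnit (S * B * S) := by
  refine ⟨?_, (hSu.mul hBu).mul hSu⟩
  have h := star_left_conjugate_nonneg hB S
  rwa [(IsSelfAdjoint.of_nonneg hS).star_eq] at h

section level

variable {A B : H →L[ℂ] H} (hA : 0 ≤ A) (hAu : IsUnit A) (hB : 0 ≤ B) (hBu : IsUnit B)
  {w t : ℝ} (hw : w ∈ Ioo (0:ℝ) 1) (ht : 0 < t)

/-- `C = B^{-1/2} A B^{-1/2}` -/
def Cc (A B : H →L[ℂ] H) : H →L[ℂ] H := B ^ (-((1:ℝ) / 2)) * A * B ^ (-((1:ℝ) / 2))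

include hA hB hBu in
lemma Cc_nonneg : 0 ≤ Cc A B := by
  have h := star_left_conjugate_nonneg hA (B ^ (-((1:ℝ) / 2)))
  have h2 : (0 : H →L[ℂ] H) ≤ B ^ (-((1:ℝ) / 2)) := CFC.rpow_nonneg
  rwa [(IsSelfAdjoint.of_nonneg h2).star_eq] at h

include hAu hB hBu in
lemma Cc_unit : IsUnit (Cc A B) :=
  ((hBu.cfcRpow _ hB).mul hAu).mul (hBu.cfcRpow _ hB)

/-- the level operator -/
def Rt (w t : ℝ) (A B : H →L[ℂ] H) : H →L[ℂ] H :=
  B ^ ((1:ℝ) / 2) * cfcₙ (Real.rpowIntegrand₀₁ w t) (Cc A B) * B ^ ((1:ℝ) / 2)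

include hw ht in
lemma cfc_mul_add {C : H →L[ℂ] H} (hC : 0 ≤ C) :
    cfcₙ (Real.rpowIntegrand₀₁ w t) C * (algebraMap ℝ (H →L[ℂ] H) t + C) = t ^ (w - 1) • C := by
  have hcont : ContinuousOn (Real.rpowIntegrand₀₁ w t) (spectrum ℝ C) :=
    (Real.continuousOn_rpowIntegrand₀₁_Ici hw ht).mono fun x hx => spectrum_nonneg_of_nonneg hC hx
  have hqs : ContinuousOn (Real.rpowIntegrand₀₁ w t) (quasispectrum ℝ C) :=
    (Real.continuousOn_rpowIntegrand₀₁_Ici hw ht).mono fun x hx => quasispectrum_nonneg_of_nonneg C hC x hx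
  rw [cfcₙ_eq_cfc hqs (by simp)]
  have h1 : algebraMap ℝ (H →L[ℂ] H) t + C = cfc (fun x : ℝ => t + x) C := by
    rw [cfc_const_add t (fun x => x) C, cfc_id' ℝ C]
  rw [h1, ← cfc_mul _ _ C hcont (by fun_prop)]
  have h2 : t ^ (w - 1) • C = cfc (fun x : ℝ => t ^ (w - 1) * x) C := by
    rw [cfc_const_mul (t ^ (w - 1)) (fun x => x) C, cfc_id' ℝ C]
  rw [h2]
  refine cfc_congr fun x hx => ?_
  have hx0 : 0 ≤ x := spectrum_nonneg_of_nonneg hC hx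
  rw [Real.rpowIntegrand₀₁_eq_pow_div hw ht.le hx0, div_mul_cancel₀]
  positivity

include ht in
lemma add_surj {C : H →L[ℂ] H} (hC : 0 ≤ C) (η : H) :
    ∃ ζ : H, t • ζ + C ζ = η := by
  have hu : IsUnit (algebraMap ℝ (H →L[ℂ] H) t + C) := by
    have h1 : algebraMap ℝ (H →L[ℂ] H) t + C = cfc (fun x : ℝ => t + x) C := by
      rw [cfc_const_add t (fun x => x) C, cfc_id' ℝ C]
    rw [h1, isUnit_cfc_iff (fun x : ℝ => t + x) C]
    intro x hx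
    have hx0 : 0 ≤ x := spectrum_nonneg_of_nonneg hC hx
    positivity
  obtain ⟨u, hu⟩ := hu
  refine ⟨(↑u⁻¹ : H →L[ℂ] H) η, ?_⟩
  have h2 : (algebraMap ℝ (H →L[ℂ] H) t + C) ((↑u⁻¹ : H →L[ℂ] H) η) = η := by
    rw [← hu, ← mul_apply_eq_comp, Units.mul_inv, one_apply_eq_self]
  rw [add_apply, Algebra.algebraMap_eq_smul_one] at h2
  exact h2

include hA hB hBu hw ht in
lemma F0 (p : H) : ∃ x y z : H, t • x + y = p ∧ A x = z ∧ B y = z ∧
    Rt w t A B p = t ^ (w - 1) • z := by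
  have hC := Cc_nonneg hA hB hBu
  set S := B ^ ((1:ℝ) / 2) with hS
  set S' := B ^ (-((1:ℝ) / 2)) with hS'
  have hsp : IsStrictlyPositive B := ⟨hB, hBu⟩
  have h1 : S * S' = 1 := CFC.rpow_mul_rpow_neg _ hsp
  have h2 : S' * S = 1 := CFC.rpow_neg_mul_rpow _ hsp
  have h3 : S * S = B := rpow_half_mul hB hBu
  have h1v : ∀ v, S (S' v) = v := fun v => by
    rw [← mul_apply_eq_comp, h1, one_apply_eq_self]
  have h2v : ∀ v, S' (S v) = v := fun v => by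
    rw [← mul_apply_eq_comp, h2, one_apply_eq_self]
  have h3v : ∀ v, S (S v) = B v := fun v => by
    rw [← mul_apply_eq_comp, h3]
  obtain ⟨ζ, hζ⟩ := add_surj ht hC (S p)
  refine ⟨S' ζ, S' (Cc A B ζ), S (Cc A B ζ), ?_, ?_, ?_, ?_⟩
  · have : S' (t • ζ + Cc A B ζ) = p := by rw [hζ, h2v]
    rw [← this, map_add]
    congr 1
    exact (S'.map_smul_of_tower t ζ).symm
  · have e : Cc A B ζ = S' (A (S' ζ)) := rfl
    rw [e, h1v]
  · rw [← h3v, h1v]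
  · have e : Rt w t A B p = S (cfcₙ (Real.rpowIntegrand₀₁ w t) (Cc A B) (S p)) := rfl
    have h4 := cfc_mul_add hw ht hC
    have h5 : cfcₙ (Real.rpowIntegrand₀₁ w t) (Cc A B) (t • ζ + Cc A B ζ) = t ^ (w - 1) • Cc A B ζ := by
      have := congrArg (fun T : H →L[ℂ] H => T ζ) h4
      simp only [mul_apply_eq_comp, add_apply,
        Algebra.algebraMap_eq_smul_one] at this
      exact this
    rw [e, ← hζ, h5]
    exact S.map_smul_of_tower (t ^ (w - 1)) _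

lemma re_smul (a : ℝ) (x y : H) : (⟪a • x, y⟫_ℂ).re = a * (⟪x, y⟫_ℂ).re := by
  rw [show a • x = (a : ℂ) • x from (Complex.coe_smul a x).symm, inner_smul_left]
  simp

lemma re_smul_right (a : ℝ) (x y : H) : (⟪x, a • y⟫_ℂ).re = a * (⟪x, y⟫_ℂ).re := by
  rw [show a • y = (a : ℂ) • y from (Complex.coe_smul a y).symm, inner_smul_right]
  simp

include hA hB hBu hw ht in
lemma F1 (p : H) : ∃ x y : H, t • x + y = p ∧
    q (Rt w t A B) p = t ^ (w - 1) * (t * q A x + q B y) := by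
  obtain ⟨x, y, z, h1, h2, h3, h4⟩ := F0 hA hB hBu hw ht p
  refine ⟨x, y, h1, ?_⟩
  unfold q
  rw [h4, re_smul, h2, h3]
  congr 1
  rw [← h1, inner_add_right, Complex.add_re, re_smul_right]

include hA hB hBu hw ht in
lemma F2 (x y : H) :
    q (Rt w t A B) (t • x + y) ≤ t ^ (w - 1) * (t * q A x + q B y) := by
  obtain ⟨x0, y0, z, h1, h2, h3, h4⟩ := F0 hA hB hBu hw ht (t • x + y)
  have hq : q (Rt w t A B) (t • x + y) = t ^ (w - 1) * (⟪z, t • x + y⟫_ℂ).re := by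
    unfold q
    rw [h4, re_smul]
  rw [hq]
  refine mul_le_mul_of_nonneg_left ?_ (by positivity)
  have e1 := q_nonneg hA (x - x0)
  have e2 := q_nonneg hB (y - y0)
  unfold q at e1 e2 ⊢
  rw [map_sub, inner_sub_left, inner_sub_right, inner_sub_right, h2] at e1
  rw [map_sub, inner_sub_left, inner_sub_right, inner_sub_right, h3] at e2
  have s1 : (⟪A x, x0⟫_ℂ).re = (⟪z, x⟫_ℂ).re := by
    rw [sa hA, h2, ← inner_conj_symm, Complex.conj_re]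
  have s2 : (⟪B y, y0⟫_ℂ).re = (⟪z, y⟫_ℂ).re := by
    rw [sa hB, h3, ← inner_conj_symm, Complex.conj_re]
  simp only [Complex.sub_re] at e1 e2
  rw [s1] at e1
  rw [s2] at e2
  have s3 : (⟪z, t • x + y⟫_ℂ).re = t * (⟪z, x⟫_ℂ).re + (⟪z, y⟫_ℂ).re := by
    rw [inner_add_right, Complex.add_re, re_smul_right]
  have s4 : (⟪z, t • x + y⟫_ℂ).re = t * (⟪z, x0⟫_ℂ).re + (⟪z, y0⟫_ℂ).re := by
    rw [← h1, inner_add_right, Complex.add_re, re_smul_right]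
  nlinarith [mul_nonneg ht.le e1]

end level

/-- the level inequality -/
lemma level {A' A B' B D₁ D₂ : H →L[ℂ] H} (hA' : 0 ≤ A') (hA : 0 ≤ A)
    (hB' : 0 ≤ B') (hBu' : IsUnit B') (hB : 0 ≤ B) (hBu : IsUnit B)
    (h1 : Cls A' A D₁) (h2 : Cls B' B D₂) {w t : ℝ} (hw : w ∈ Ioo (0:ℝ) 1) (ht : 0 < t) (p r : H) :
    Real.rpowIntegrand₀₁ w t 1 * ((1 / 2) * ‖p‖ ^ 2 - (1 / 2) * ‖r‖ ^ 2) +
      (1 / 4) * (Real.rpowIntegrand₀₁ w t 1 * (t / (1 + t)) * q D₁ (p - r) +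
        Real.rpowIntegrand₀₁ w t 1 * (1 - t / (1 + t)) * q D₂ (p - r)) + q (Rt w t A B) r ≤
      q (Rt w t A' B') p := by
  obtain ⟨x, y, hxy, hq⟩ := F1 hA' hB' hBu' hw ht ((1 + t) • p)
  set d := p - r with hd
  have hr : (1 + t) • r = t • (x - d) + (y - d) := by
    have : t • (x - d) + (y - d) = (t • x + y) - (1 + t) • d := by
      rw [smul_sub, add_smul, one_smul]; abel
    rw [this, hxy, hd, ← smul_sub]
    congr 1; abel
  have hF2 := F2 hA hB hBu hw ht (x - d) (y - d)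
  rw [← hr] at hF2
  have hqs : ∀ (T : H →L[ℂ] H) (v : H), q T ((1 + t) • v) = (1 + t) ^ 2 * q T v := by
    intro T v
    unfold q
    rw [show T ((1 + t) • v) = (1 + t) • T v from T.map_smul_of_tower (1 + t) v, re_smul, re_smul_right]
    ring
  rw [hqs] at hF2 hq
  have c1 := h1 x (x - d)
  have c2 := h2 y (y - d)
  have e1 : x - (x - d) = d := by abel
  have e2 : y - (y - d) = d := by abel
  rw [e1] at c1
  rw [e2] at c2
  have n1 : ‖x - d‖ ^ 2 = ‖x‖ ^ 2 - 2 * (⟪x, d⟫_ℂ).re + ‖d‖ ^ 2 := by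
    rw [@norm_sub_sq ℂ]; rfl
  have n2 : ‖y - d‖ ^ 2 = ‖y‖ ^ 2 - 2 * (⟪y, d⟫_ℂ).re + ‖d‖ ^ 2 := by
    rw [@norm_sub_sq ℂ]; rfl
  have n3 : ‖r‖ ^ 2 = ‖p‖ ^ 2 - 2 * (⟪p, d⟫_ℂ).re + ‖d‖ ^ 2 := by
    have : r = p - d := by rw [hd]; abel
    rw [this, @norm_sub_sq ℂ]; rfl
  have n4 : t * (⟪x, d⟫_ℂ).re + (⟪y, d⟫_ℂ).re = (1 + t) * (⟪p, d⟫_ℂ).re := by
    rw [← re_smul, ← re_smul, ← hxy, inner_add_left, Complex.add_re]
  have h1t : 0 < 1 + t := by linarith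
  have hmain : (1 + t) * ((1 / 2) * ‖p‖ ^ 2 - (1 / 2) * ‖r‖ ^ 2) + (1 / 4) * (t * q D₁ d + q D₂ d) +
      (t * q A (x - d) + q B (y - d)) ≤ t * q A' x + q B' y := by
    rw [n1] at c1
    rw [n2] at c2
    rw [n3]
    nlinarith [mul_le_mul_of_nonneg_left c1 ht.le]
  have hk : 0 ≤ t ^ (w - 1) := by positivity
  have hmain2 := mul_le_mul_of_nonneg_left hmain hk
  have hmain3 : t ^ (w - 1) * ((1 + t) * ((1 / 2) * ‖p‖ ^ 2 - (1 / 2) * ‖r‖ ^ 2) +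
      (1 / 4) * (t * q D₁ d + q D₂ d)) + (1 + t) ^ 2 * q (Rt w t A B) r ≤
      (1 + t) ^ 2 * q (Rt w t A' B') p := by
    rw [hq]
    nlinarith
  have hf1 : Real.rpowIntegrand₀₁ w t 1 = t ^ (w - 1) / (1 + t) := by
    rw [Real.rpowIntegrand₀₁_eq_pow_div hw ht.le zero_le_one, mul_one, add_comm]
  rw [hf1]
  have h2t : 0 < (1 + t) ^ 2 := by positivity
  refine le_of_mul_le_mul_left ?_ h2t
  refine le_trans (le_of_eq ?_) hmain3
  field_simp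
  ring

end

end Pool.Agent.R256.Alz
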