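import Mathlib
import Pool.Agent.R256.Alz1

set_option autoImplicit false
set_option linter.unusedSectionVars false

open MeasureTheory Filter Topology Set
open scoped InnerProductSpace NNReal

namespace Pool.Agent.R256.Alz

noncomputable section

variable {H : Type*} [NormedAddCommGroup H] [InnerProductSpace ℂ H] [CompleteSpace H]

/-- the functional `T ↦ re ⟪T v, v⟫` -/
def Lf (v : H) : (H →L[ℂ] H) →L[ℝ] ℝ :=
  Complex.reCLM ∘L ((innerSL ℂ v).restrictScalars ℝ) ∘L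
    ((ContinuousLinearMap.apply ℂ H v).restrictScalars ℝ)

lemma Lf_apply (v : H) (T : H →L[ℂ] H) : Lf v T = q T v := by
  have : Lf v T = (⟪v, T v⟫_ℂ).re := rfl
  rw [this, ← inner_conj_symm, Complex.conj_re]
  rfl

lemma q_conj {S T : H →L[ℂ] H} (hS : 0 ≤ S) (v : H) : q (S * T * S) v = q T (S v) := by
  unfold q
  have : (S * T * S) v = S (T (S v)) := rfl
  rw [this, sa hS]

lemma scal_alg {w t : ℝ} (hw : w ∈ Ioo (0:ℝ) 1) (ht : 0 < t) {x : ℝ} (hx : 0 ≤ x) :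
    Real.rpowIntegrand₀₁ w t x ≤ Real.rpowIntegrand₀₁ w t 1 +
      Real.rpowIntegrand₀₁ w t 1 * (t / (1 + t)) * (x - 1) := by
  rw [Real.rpowIntegrand₀₁_eq_pow_div hw ht.le hx, Real.rpowIntegrand₀₁_eq_pow_div hw ht.le zero_le_one]
  have h1 : 0 < t + x := by linarith
  have h2 : 0 < 1 + t := by linarith
  have hk : 0 ≤ t ^ (w - 1) := by positivity
  have key : x / (t + x) ≤ 1 / (1 + t) + 1 / (1 + t) * (t / (1 + t)) * (x - 1) := by
    have e : 1 / (1 + t) + 1 / (1 + t) * (t / (1 + t)) * (x - 1) - x / (t + x) =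
        t * (1 - x) ^ 2 / ((1 + t) ^ 2 * (t + x)) := by
      field_simp
      ring
    have : 0 ≤ t * (1 - x) ^ 2 / ((1 + t) ^ 2 * (t + x)) := by positivity
    linarith
  have := mul_le_mul_of_nonneg_left key hk
  calc t ^ (w - 1) * x / (t + x) = t ^ (w - 1) * (x / (t + x)) := by ring
    _ ≤ _ := this
    _ = _ := by rw [add_comm t 1]; ring

/-- the measure -/
lemma exists_measure [Nontrivial H] {w : ℝ} (hw : w ∈ Ioo (0:ℝ) 1) :
    ∃ μ : Measure ℝ,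
      (∀ C : H →L[ℂ] H, 0 ≤ C → IntegrableOn (fun t => cfcₙ (Real.rpowIntegrand₀₁ w t) C) (Ioi 0) μ ∧
        C ^ w = ∫ t in Ioi 0, cfcₙ (Real.rpowIntegrand₀₁ w t) C ∂μ) ∧
      IntegrableOn (fun t => Real.rpowIntegrand₀₁ w t 1) (Ioi 0) μ ∧
      ∫ t in Ioi 0, Real.rpowIntegrand₀₁ w t 1 ∂μ = 1 ∧
      IntegrableOn (fun t => Real.rpowIntegrand₀₁ w t 1 * (t / (1 + t))) (Ioi 0) μ ∧
      ∫ t in Ioi 0, Real.rpowIntegrand₀₁ w t 1 * (t / (1 + t)) ∂μ = w := by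
  set w' : ℝ≥0 := ⟨w, hw.1.le⟩ with hw'
  have hww : ((w' : ℝ≥0) : ℝ) = w := rfl
  have hw1 : w' ∈ Ioo (0 : ℝ≥0) 1 := ⟨hw.1, hw.2⟩
  obtain ⟨μ, hμ⟩ := CFC.exists_measure_nnrpow_eq_integral_cfcₙ_rpowIntegrand₀₁ (H →L[ℂ] H) hw1
  have hop : ∀ C : H →L[ℂ] H, 0 ≤ C →
      IntegrableOn (fun t => cfcₙ (Real.rpowIntegrand₀₁ w t) C) (Ioi 0) μ ∧
        C ^ w = ∫ t in Ioi 0, cfcₙ (Real.rpowIntegrand₀₁ w t) C ∂μ := by
    intro C hC
    obtain ⟨h1, h2⟩ := hμ C hC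
    refine ⟨h1, ?_⟩
    rw [← hww, ← CFC.nnrpow_eq_rpow (show (0 : ℝ≥0) < w' from hw.1)]
    exact h2
  -- scalars
  obtain ⟨e, he⟩ := exists_norm_eq H zero_le_one
  have hsc : ∀ x : ℝ, 0 ≤ x → IntegrableOn (fun t => Real.rpowIntegrand₀₁ w t x) (Ioi 0) μ ∧
      x ^ w = ∫ t in Ioi 0, Real.rpowIntegrand₀₁ w t x ∂μ := by
    intro x hx
    have hC : (0 : H →L[ℂ] H) ≤ algebraMap ℝ (H →L[ℂ] H) x := algebraMap_nonneg _ hx
    obtain ⟨h1, h2⟩ := hop _ hC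
    have hqa : ∀ y : ℝ, q (algebraMap ℝ (H →L[ℂ] H) y) e = y := by
      intro y
      unfold q
      rw [Algebra.algebraMap_eq_smul_one]
      have : (y • (1 : H →L[ℂ] H)) e = y • e := rfl
      rw [this, re_smul]
      have h3 := inner_self_eq_norm_sq (𝕜 := ℂ) e
      simp only [RCLike.re_to_complex] at h3
      rw [h3, he]; ring
    have hcf : ∀ t ∈ Ioi (0:ℝ), Lf e (cfcₙ (Real.rpowIntegrand₀₁ w t) (algebraMap ℝ (H →L[ℂ] H) x)) =
        Real.rpowIntegrand₀₁ w t x := by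
      intro t ht
      have hqs : ContinuousOn (Real.rpowIntegrand₀₁ w t)
          (quasispectrum ℝ (algebraMap ℝ (H →L[ℂ] H) x)) :=
        (Real.continuousOn_rpowIntegrand₀₁_Ici hw ht).mono fun y hy =>
          quasispectrum_nonneg_of_nonneg _ hC y hy
      rw [Lf_apply, cfcₙ_eq_cfc hqs (by simp), cfc_algebraMap, hqa]
    have h3 : IntegrableOn (fun t => Lf e (cfcₙ (Real.rpowIntegrand₀₁ w t) (algebraMap ℝ (H →L[ℂ] H) x)))
        (Ioi 0) μ := (Lf e).integrable_comp h1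
    refine ⟨(integrableOn_congr_fun (fun t ht => hcf t ht) measurableSet_Ioi).mp h3, ?_⟩
    have h4 := congrArg (Lf e) h2
    rw [← (Lf e).integral_comp_comm h1, setIntegral_congr_fun measurableSet_Ioi hcf] at h4
    rw [← h4, Lf_apply]
    have h5 : (algebraMap ℝ (H →L[ℂ] H) x) ^ w = algebraMap ℝ (H →L[ℂ] H) (x ^ w) := by
      rw [CFC.rpow_eq_cfc_real hC, cfc_algebraMap]
    rw [h5, hqa]
  obtain ⟨i1, m1⟩ := hsc 1 zero_le_one
  rw [Real.one_rpow] at m1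
  have hnn : ∀ t ∈ Ioi (0:ℝ), 0 ≤ Real.rpowIntegrand₀₁ w t 1 := fun t ht =>
    Real.rpowIntegrand₀₁_nonneg hw.1 (le_of_lt ht) zero_le_one
  have i2 : IntegrableOn (fun t => Real.rpowIntegrand₀₁ w t 1 * (t / (1 + t))) (Ioi 0) μ := by
    refine Integrable.mono i1 ?_ ?_
    · refine AEStronglyMeasurable.mul i1.aestronglyMeasurable ?_
      refine ContinuousOn.aestronglyMeasurable ?_ measurableSet_Ioi
      apply ContinuousOn.div (by fun_prop) (by fun_prop)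
      intro t ht
      have : (0:ℝ) < t := ht
      positivity
    · refine ae_restrict_of_forall_mem measurableSet_Ioi fun t ht => ?_
      have ht' : (0:ℝ) < t := ht
      rw [norm_mul]
      refine mul_le_of_le_one_right (norm_nonneg _) ?_
      rw [Real.norm_eq_abs, abs_of_nonneg (by positivity), div_le_one (by positivity)]
      linarith
  refine ⟨μ, hop, i1, m1.symm, i2, ?_⟩
  set a := ∫ t in Ioi 0, Real.rpowIntegrand₀₁ w t 1 * (t / (1 + t)) ∂μ with ha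
  have hineq : ∀ x : ℝ, 0 ≤ x → x ^ w ≤ 1 + a * (x - 1) := by
    intro x hx
    obtain ⟨i3, m3⟩ := hsc x hx
    rw [m3]
    calc ∫ t in Ioi 0, Real.rpowIntegrand₀₁ w t x ∂μ
        ≤ ∫ t in Ioi 0, (Real.rpowIntegrand₀₁ w t 1 +
          Real.rpowIntegrand₀₁ w t 1 * (t / (1 + t)) * (x - 1)) ∂μ := by
          refine setIntegral_mono_on i3 (i1.add (i2.mul_const _)) measurableSet_Ioi fun t ht => ?_
          exact scal_alg hw ht hx
      _ = 1 + a * (x - 1) := by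
          rw [integral_add i1 (i2.mul_const _), ← m1, integral_mul_const]
  have hder : HasDerivAt (fun x : ℝ => 1 + a * (x - 1) - x ^ w) (a * 1 - w * 1 ^ (w - 1)) 1 := by
    have h1 : HasDerivAt (fun x : ℝ => x ^ w) (w * 1 ^ (w - 1)) 1 :=
      Real.hasDerivAt_rpow_const (Or.inl one_ne_zero)
    have h2 : HasDerivAt (fun x : ℝ => 1 + a * (x - 1)) (a * 1) 1 :=
      (((hasDerivAt_id (1:ℝ)).sub_const 1).const_mul a).const_add 1
    exact h2.sub h1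
  have hmin : IsLocalMin (fun x : ℝ => 1 + a * (x - 1) - x ^ w) 1 := by
    have : ∀ᶠ x : ℝ in 𝓝 1, 0 < x := lt_mem_nhds one_pos
    filter_upwards [this] with x hx
    have := hineq x hx.le
    simp only [sub_self, mul_zero, add_zero, Real.one_rpow]
    linarith
  have := hmin.hasDerivAt_eq_zero hder
  rw [Real.one_rpow] at this
  linarith

lemma q_Phi {μ : Measure ℝ} {w : ℝ}
    (hop : ∀ C : H →L[ℂ] H, 0 ≤ C →
      IntegrableOn (fun t => cfcₙ (Real.rpowIntegrand₀₁ w t) C) (Ioi 0) μ ∧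
        C ^ w = ∫ t in Ioi 0, cfcₙ (Real.rpowIntegrand₀₁ w t) C ∂μ)
    {A B : H →L[ℂ] H} (hA : 0 ≤ A) (hB : 0 ≤ B) (hBu : IsUnit B) (r : H) :
    IntegrableOn (fun t => q (Rt w t A B) r) (Ioi 0) μ ∧
      q (Phi w A B) r = ∫ t in Ioi 0, q (Rt w t A B) r ∂μ := by
  have hC := Cc_nonneg hA hB hBu
  obtain ⟨h1, h2⟩ := hop (Cc A B) hC
  have hS : (0 : H →L[ℂ] H) ≤ B ^ ((1:ℝ) / 2) := CFC.rpow_nonneg
  have e : ∀ t, q (Rt w t A B) r = Lf (B ^ ((1:ℝ) / 2) $ r) (cfcₙ (Real.rpowIntegrand₀₁ w t) (Cc A B)) := by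
    intro t
    rw [Lf_apply, Rt, q_conj hS]
  refine ⟨?_, ?_⟩
  · simp only [e]
    exact (Lf _).integrable_comp h1
  · simp only [e]
    rw [(Lf _).integral_comp_comm h1, ← h2, Lf_apply]
    show q (B ^ ((1:ℝ) / 2) * (Cc A B) ^ w * B ^ ((1:ℝ) / 2)) r = _
    rw [q_conj hS]

theorem step [Nontrivial H] {A' A B' B D₁ D₂ : H →L[ℂ] H} (hA' : 0 ≤ A') (hA : 0 ≤ A)
    (hB' : 0 ≤ B') (hBu' : IsUnit B') (hB : 0 ≤ B) (hBu : IsUnit B)
    (h1 : Cls A' A D₁) (h2 : Cls B' B D₂) {w : ℝ} (hw : w ∈ Ioo (0:ℝ) 1) :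
    Cls (Phi w A' B') (Phi w A B) (w • D₁ + (1 - w) • D₂) := by
  obtain ⟨μ, hop, i1, m1, i2, m2⟩ := exists_measure (H := H) hw
  intro p r
  obtain ⟨j1, e1⟩ := q_Phi hop hA hB hBu r
  obtain ⟨j2, e2⟩ := q_Phi hop hA' hB' hBu' p
  set d := p - r with hd
  have hD : q (w • D₁ + (1 - w) • D₂) d = w * q D₁ d + (1 - w) * q D₂ d := by
    unfold q
    have : (w • D₁ + (1 - w) • D₂) d = w • D₁ d + (1 - w) • D₂ d := rfl
    rw [this, inner_add_left, Complex.add_re, re_smul, re_smul]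
  rw [hD, e1, e2]
  have i3 : IntegrableOn (fun t => Real.rpowIntegrand₀₁ w t 1 * (1 - t / (1 + t))) (Ioi 0) μ := by
    refine (i1.sub i2).congr (Eventually.of_forall fun t => ?_)
    simp only [Pi.sub_apply]
    ring
  have m3 : ∫ t in Ioi 0, Real.rpowIntegrand₀₁ w t 1 * (1 - t / (1 + t)) ∂μ = 1 - w := by
    have e : (fun t => Real.rpowIntegrand₀₁ w t 1 * (1 - t / (1 + t))) =
        fun t => Real.rpowIntegrand₀₁ w t 1 - Real.rpowIntegrand₀₁ w t 1 * (t / (1 + t)) := by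
      funext t; ring
    rw [e, integral_sub i1 i2, m1, m2]
  have hint : IntegrableOn (fun t => Real.rpowIntegrand₀₁ w t 1 * ((1 / 2) * ‖p‖ ^ 2 - (1 / 2) * ‖r‖ ^ 2) +
      (1 / 4) * (Real.rpowIntegrand₀₁ w t 1 * (t / (1 + t)) * q D₁ d +
        Real.rpowIntegrand₀₁ w t 1 * (1 - t / (1 + t)) * q D₂ d) + q (Rt w t A B) r) (Ioi 0) μ :=
    ((i1.mul_const _).add (((i2.mul_const _).add (i3.mul_const _)).const_mul _)).add j1
  have hle := setIntegral_mono_on hint j2 measurableSet_Ioi fun t ht =>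
    level hA' hA hB' hBu' hB hBu h1 h2 hw ht p r
  refine le_trans (le_of_eq ?_) hle
  have k1 : Integrable (fun t => Real.rpowIntegrand₀₁ w t 1 * ((1 / 2) * ‖p‖ ^ 2 - (1 / 2) * ‖r‖ ^ 2) +
      (1 / 4) * (Real.rpowIntegrand₀₁ w t 1 * (t / (1 + t)) * q D₁ d +
        Real.rpowIntegrand₀₁ w t 1 * (1 - t / (1 + t)) * q D₂ d)) (μ.restrict (Ioi 0)) :=
    (i1.mul_const _).add (((i2.mul_const _).add (i3.mul_const _)).const_mul _)
  have k2 : Integrable (fun t => Real.rpowIntegrand₀₁ w t 1 * ((1 / 2) * ‖p‖ ^ 2 - (1 / 2) * ‖r‖ ^ 2))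
      (μ.restrict (Ioi 0)) := i1.mul_const _
  have k3 : Integrable (fun t => (1 / 4) * (Real.rpowIntegrand₀₁ w t 1 * (t / (1 + t)) * q D₁ d +
        Real.rpowIntegrand₀₁ w t 1 * (1 - t / (1 + t)) * q D₂ d)) (μ.restrict (Ioi 0)) :=
    ((i2.mul_const _).add (i3.mul_const _)).const_mul _
  have k4 : Integrable (fun t => Real.rpowIntegrand₀₁ w t 1 * (t / (1 + t)) * q D₁ d)
      (μ.restrict (Ioi 0)) := i2.mul_const _
  have k5 : Integrable (fun t => Real.rpowIntegrand₀₁ w t 1 * (1 - t / (1 + t)) * q D₂ d)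
      (μ.restrict (Ioi 0)) := i3.mul_const _
  rw [integral_add k1 j1, integral_add k2 k3, integral_mul_const, m1, integral_const_mul,
    integral_add k4 k5, integral_mul_const, integral_mul_const, m2, m3]
  ring

end

end Pool.Agent.R256.Alz
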