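import Mathlib

set_option autoImplicit false

open MeasureTheory Filter Topology Set Real
open scoped Interval

namespace Pool.Agent.R256.Circ

noncomputable section

/-- Young type inequality, function `K`. -/
def K (x : ℝ) : ℝ := (1 / 2) * Real.log (1 + x ^ 2) + |x| * (π / 2 - Real.arctan |x|)

lemma K_nonneg (x : ℝ) : 0 ≤ K x := by
  unfold K
  have h1 : 0 ≤ Real.log (1 + x ^ 2) := Real.log_nonneg (by nlinarith [sq_nonneg x])
  have h2 : 0 ≤ π / 2 - Real.arctan |x| := by linarith [Real.arctan_lt_pi_div_two |x|]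
  have h3 := abs_nonneg x
  positivity

/-- The function `ℓ`. -/
def ell (t : ℝ) : ℝ := Real.log (Real.sin (min t (π / 2)))

lemma key_aux {g τ : ℝ} (hg : 0 ≤ g) (hτ : 0 < τ) (hτ2 : τ ≤ π / 2) :
    K g + Real.log (Real.sin τ) ≤ τ * g := by
  -- F g = τ g - K g is convex with minimum at cot τ
  have hs : 0 < Real.sin τ := Real.sin_pos_of_pos_of_lt_pi hτ (by linarith [Real.pi_pos])
  have hc : 0 ≤ Real.cos τ := Real.cos_nonneg_of_mem_Icc ⟨by linarith, hτ2⟩
  set x := π / 2 - Real.arctan g with hx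
  have hx1 : 0 < x := by rw [hx]; linarith [Real.arctan_lt_pi_div_two g]
  have hx2 : x ≤ π / 2 := by
    rw [hx]; linarith [Real.arctan_nonneg.mpr hg]
  have hsx : 0 < Real.sin x := Real.sin_pos_of_pos_of_lt_pi hx1 (by linarith [Real.pi_pos])
  have hcx : 0 ≤ Real.cos x := Real.cos_nonneg_of_mem_Icc ⟨by linarith, hx2⟩
  -- g = cos x / sin x, 1 + g^2 = 1 / sin^2
  have hsin : Real.sin x = 1 / √(1 + g ^ 2) := by
    rw [hx, Real.sin_pi_div_two_sub, Real.cos_arctan]
  have hcos : Real.cos x = g / √(1 + g ^ 2) := by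
    rw [hx, Real.cos_pi_div_two_sub, Real.sin_arctan]
  have hsq : 0 < √(1 + g ^ 2) := Real.sqrt_pos.mpr (by positivity)
  have hg' : g * Real.sin x = Real.cos x := by
    rw [hsin, hcos]; ring
  have hK : K g = x * g - Real.log (Real.sin x) := by
    unfold K
    rw [abs_of_nonneg hg, hsin, Real.log_div one_ne_zero hsq.ne', Real.log_one,
      Real.log_sqrt (by positivity), ← hx]
    ring
  rw [hK]
  -- log (sin τ / sin x) ≤ (τ - x) g
  have h1 : Real.log (Real.sin τ) - Real.log (Real.sin x) ≤ Real.sin τ / Real.sin x - 1 := by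
    rw [← Real.log_div hs.ne' hsx.ne']
    exact Real.log_le_sub_one_of_pos (by positivity)
  have h2 : Real.sin τ / Real.sin x = Real.cos (τ - x) + g * Real.sin (τ - x) := by
    have : Real.sin τ = Real.sin ((τ - x) + x) := by ring_nf
    rw [this, Real.sin_add, div_eq_iff hsx.ne']
    linear_combination (-Real.sin (τ - x)) * hg'
  have h3 : Real.cos (τ - x) - 1 + g * Real.sin (τ - x) ≤ (τ - x) * g := by
    rcases le_total x τ with h | h
    · have := Real.sin_le (sub_nonneg.mpr h)
      nlinarith [Real.cos_le_one (τ - x)]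
    · -- δ = x - τ
      set δ := x - τ with hδ
      have hδ0 : 0 ≤ δ := sub_nonneg.mpr h
      have e1 : τ - x = -δ := by rw [hδ]; ring
      rw [e1, Real.cos_neg, Real.sin_neg]
      rcases hδ0.eq_or_lt with h0 | h0
      · rw [← h0]; simp
      have hδx : δ < x := by rw [hδ]; linarith
      have hsd : 0 < Real.sin δ := Real.sin_pos_of_pos_of_lt_pi h0 (by linarith [Real.pi_pos])
      have hcd : 0 < Real.cos δ := Real.cos_pos_of_mem_Ioo ⟨by linarith, by linarith⟩
      -- g ≤ cos δ / sin δ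
      have hgle : g * Real.sin δ ≤ Real.cos δ := by
        have h4 : 0 < Real.sin (x - δ) :=
          Real.sin_pos_of_pos_of_lt_pi (by linarith) (by linarith [Real.pi_pos])
        rw [Real.sin_sub] at h4
        have h5 : 0 ≤ (Real.cos δ - g * Real.sin δ) * Real.sin x := by
          have : (Real.cos δ - g * Real.sin δ) * Real.sin x =
            Real.sin x * Real.cos δ - Real.cos x * Real.sin δ := by
            rw [← hg']; ring
          rw [this]; exact h4.le
        have := nonneg_of_mul_nonneg_left h5 hsx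
        linarith
      have htan : δ * Real.cos δ ≤ Real.sin δ := by
        have := Real.le_tan hδ0 (by linarith)
        rw [Real.tan_eq_sin_div_cos, le_div_iff₀ hcd] at this
        exact this
      have hsl : Real.sin δ ≤ δ := Real.sin_le hδ0
      -- g (δ - sin δ) ≤ 1 - cos δ
      have h6 : g * (δ - Real.sin δ) * Real.sin δ ≤ (1 - Real.cos δ) * Real.sin δ := by
        have : g * (δ - Real.sin δ) * Real.sin δ = (g * Real.sin δ) * (δ - Real.sin δ) := by ring
        rw [this]
        have h7 : (g * Real.sin δ) * (δ - Real.sin δ) ≤ Real.cos δ * (δ - Real.sin δ) :=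
          mul_le_mul_of_nonneg_right hgle (by linarith)
        nlinarith
      have h8 := le_of_mul_le_mul_right h6 hsd
      linarith
  linarith [h1, h2, h3]

lemma key {g τ : ℝ} (hg : 0 ≤ g) (hτ : 0 < τ) : K g + ell τ ≤ τ * g := by
  unfold ell
  rcases le_total τ (π / 2) with h | h
  · rw [min_eq_left h]; exact key_aux hg hτ h
  · rw [min_eq_right h]
    have := key_aux hg (half_pos Real.pi_pos) le_rfl
    nlinarith

lemma K_neg (x : ℝ) : K (-x) = K x := by simp [K]

lemma ell_nonpos {t : ℝ} (ht : 0 ≤ t) : ell t ≤ 0 := by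
  unfold ell
  exact Real.log_nonpos (Real.sin_nonneg_of_nonneg_of_le_pi (le_min ht (by positivity))
    (by linarith [min_le_right t (π / 2), Real.pi_pos])) (Real.sin_le_one _)

lemma ell_measurable : Measurable ell := by
  unfold ell
  fun_prop

lemma ell_of_ge {t : ℝ} (ht : π / 2 ≤ t) : ell t = 0 := by
  unfold ell; rw [min_eq_right ht]; simp

lemma ell_of_le {t : ℝ} (ht : t ≤ π / 2) : ell t = Real.log (Real.sin t) := by
  unfold ell; rw [min_eq_left ht]

lemma ell_intble_aux : IntervalIntegrable ell volume 0 (π / 2) := by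
  have h : IntervalIntegrable (fun x => Real.log (Real.sin x)) volume 0 (π / 2) := by
    apply intervalIntegrable_log_sin
  refine h.congr ?_
  intro x hx
  rw [uIoc_of_le (by positivity)] at hx
  exact (ell_of_le hx.2).symm

lemma ell_intble {T : ℝ} (hT : 0 ≤ T) : IntervalIntegrable ell volume 0 T := by
  have h2 : ∀ T, π / 2 ≤ T → IntervalIntegrable ell volume (π / 2) T := by
    intro T hT
    have : IntervalIntegrable (fun _ : ℝ => (0:ℝ)) volume (π / 2) T := by simp
    refine this.congr ?_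
    intro x hx
    rw [uIoc_of_le hT] at hx
    exact (ell_of_ge hx.1.le).symm
  rcases le_total T (π / 2) with h | h
  · exact ell_intble_aux.mono_set (by
      rw [uIcc_of_le hT, uIcc_of_le (by positivity)]
      exact Icc_subset_Icc_right h)
  · exact ell_intble_aux.trans (h2 T h)

lemma ell_integral {T : ℝ} (hT : 0 ≤ T) : -(π / 2) * Real.log 2 ≤ ∫ t in (0:ℝ)..T, ell t := by
  have hbase : ∫ t in (0:ℝ)..(π / 2), ell t = -(π / 2) * Real.log 2 := by
    have : ∫ t in (0:ℝ)..(π / 2), ell t = ∫ t in (0:ℝ)..(π / 2), Real.log (Real.sin t) := by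
      apply intervalIntegral.integral_congr
      intro x hx
      rw [uIcc_of_le (by positivity)] at hx
      exact ell_of_le hx.2
    rw [this, integral_log_sin_zero_pi_div_two]; ring
  rcases le_total T (π / 2) with h | h
  · have h1 : ∫ t in (0:ℝ)..T, ell t + 0 = ∫ t in (0:ℝ)..T, ell t := by simp
    have h2 := intervalIntegral.integral_add_adjacent_intervals (ell_intble hT)
      ((ell_intble hT).symm.trans ell_intble_aux)
    have h3 : ∫ t in T..(π / 2), ell t ≤ 0 := by
      have := intervalIntegral.integral_nonneg (μ := volume) (f := fun t => - ell t) h (fun u hu => by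
        have := ell_nonpos (t := u) (hT.trans hu.1)
        linarith)
      rw [intervalIntegral.integral_neg] at this
      linarith
    linarith
  · have h2 := intervalIntegral.integral_add_adjacent_intervals ell_intble_aux
      (ell_intble_aux.symm.trans (ell_intble hT))
    have h3 : ∫ t in (π / 2)..T, ell t = 0 := by
      have : ∫ t in (π / 2)..T, ell t = ∫ t in (π / 2)..T, (0:ℝ) := by
        apply intervalIntegral.integral_congr
        intro x hx
        rw [uIcc_of_le h] at hx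
        exact ell_of_ge hx.1
      rw [this]; simp
    linarith


variable {r : ℕ}

/-- `U`. -/
def U (σ α : Fin r → ℝ) (θ : ℝ) : ℝ := ∑ j, σ j * Real.log (2 * Real.sin ((θ - α j) / 2))

/-- `g = 2 U'`. -/
def g (σ α : Fin r → ℝ) (θ : ℝ) : ℝ :=
  ∑ j, σ j * (Real.cos ((θ - α j) / 2) / Real.sin ((θ - α j) / 2))

/-- non singular points. -/
def Good (σ α : Fin r → ℝ) (θ : ℝ) : Prop := ∀ j, σ j ≠ 0 → Real.sin ((θ - α j) / 2) ≠ 0

lemma hasDerivAt_U {σ α : Fin r → ℝ} {θ : ℝ} (h : Good σ α θ) :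
    HasDerivAt (U σ α) (g σ α θ / 2) θ := by
  have h1 : ∀ j ∈ (Finset.univ : Finset (Fin r)),
      HasDerivAt (fun θ => σ j * Real.log (2 * Real.sin ((θ - α j) / 2)))
      (σ j * (Real.cos ((θ - α j) / 2) / Real.sin ((θ - α j) / 2)) / 2) θ := by
    intro j _
    by_cases hj : σ j = 0
    · simp only [hj, zero_mul, zero_div]
      exact hasDerivAt_const _ _
    have hs := h j hj
    have e1 : HasDerivAt (fun θ : ℝ => (θ - α j) / 2) (1 / 2) θ :=
      ((hasDerivAt_id θ).sub_const _).div_const 2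
    have e2 := (e1.sin.const_mul 2).log (by positivity)
    have e3 := e2.const_mul (σ j)
    refine e3.congr_deriv ?_
    field_simp
  have h2 := HasDerivAt.fun_sum h1
  refine h2.congr_deriv ?_
  rw [g, Finset.sum_div]

lemma hasDerivAt_g {σ α : Fin r → ℝ} {θ : ℝ} (h : Good σ α θ) :
    HasDerivAt (g σ α) (∑ j, σ j * (-(1 / 2) / Real.sin ((θ - α j) / 2) ^ 2)) θ := by
  have h1 : ∀ j ∈ (Finset.univ : Finset (Fin r)),
      HasDerivAt (fun θ => σ j * (Real.cos ((θ - α j) / 2) / Real.sin ((θ - α j) / 2)))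
      (σ j * (-(1 / 2) / Real.sin ((θ - α j) / 2) ^ 2)) θ := by
    intro j _
    by_cases hj : σ j = 0
    · simp only [hj, zero_mul]
      exact hasDerivAt_const _ _
    have hs := h j hj
    have e1 : HasDerivAt (fun θ : ℝ => (θ - α j) / 2) (1 / 2) θ :=
      ((hasDerivAt_id θ).sub_const _).div_const 2
    have e2 := e1.cos.div e1.sin hs
    have e3 := e2.const_mul (σ j)
    refine e3.congr_deriv ?_
    have h3 := Real.sin_sq_add_cos_sq ((θ - α j) / 2)
    congr 1
    congr 1
    linear_combination (-(1 / 2)) * h3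
  exact HasDerivAt.fun_sum h1

lemma g_antitone {σ α : Fin r → ℝ} (hσ : ∀ j, 0 ≤ σ j) {a b : ℝ}
    (h : ∀ θ ∈ Ioo a b, Good σ α θ) : AntitoneOn (g σ α) (Ioo a b) := by
  apply antitoneOn_of_deriv_nonpos (convex_Ioo a b)
  · intro θ hθ
    exact (hasDerivAt_g (h θ hθ)).continuousAt.continuousWithinAt
  · intro θ hθ
    rw [interior_Ioo] at hθ
    exact (hasDerivAt_g (h θ hθ)).differentiableAt.differentiableWithinAt
  · intro θ hθ
    rw [interior_Ioo] at hθ
    rw [(hasDerivAt_g (h θ hθ)).deriv]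
    refine Finset.sum_nonpos fun j _ => ?_
    have : -(1 / 2) / Real.sin ((θ - α j) / 2) ^ 2 ≤ 0 := by
      apply div_nonpos_of_nonpos_of_nonneg (by norm_num) (by positivity)
    exact mul_nonpos_of_nonneg_of_nonpos (hσ j) this

lemma tendsto_mul_log (a β : ℝ) :
    Tendsto (fun θ => (θ - a) * Real.log (2 * Real.sin ((θ - β) / 2))) (𝓝 a) (𝓝 0) := by
  by_cases hs : Real.sin ((a - β) / 2) = 0
  · -- near `a`, `sin ((θ - β)/2) = ± sin ((θ - a)/2)`
    obtain ⟨n, hn⟩ := Real.sin_eq_zero_iff.mp hs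
    have hβ : ∀ θ, |Real.sin ((θ - β) / 2)| = |Real.sin ((θ - a) / 2)| := by
      intro θ
      have : (θ - β) / 2 = (θ - a) / 2 + n * π := by rw [hn]; ring
      rw [this, Real.sin_add_int_mul_pi, abs_mul]
      simp
    have hb : ∀ᶠ θ in 𝓝 a, ‖(θ - a) * Real.log (2 * Real.sin ((θ - β) / 2))‖ ≤
        (π / 2) * |(2 * Real.sin ((θ - a) / 2)) * Real.log (2 * Real.sin ((θ - a) / 2))| := by
      have hnear : ∀ᶠ θ in 𝓝 a, |(θ - a) / 2| ≤ π / 2 := by
        have : Tendsto (fun θ : ℝ => |(θ - a) / 2|) (𝓝 a) (𝓝 |(a - a) / 2|) := by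
          exact (by fun_prop : Continuous fun θ : ℝ => |(θ - a) / 2|).tendsto a
        simp only [sub_self, zero_div, abs_zero] at this
        exact (this.eventually (gt_mem_nhds (by positivity))).mono fun _ h => le_of_lt h
      filter_upwards [hnear] with θ hθ
      rw [norm_mul, Real.norm_eq_abs, Real.norm_eq_abs]
      have e1 : Real.log (2 * Real.sin ((θ - β) / 2)) = Real.log (2 * Real.sin ((θ - a) / 2)) := by
        rw [← Real.log_abs, abs_mul, hβ θ, ← abs_mul, Real.log_abs]
      rw [e1, abs_mul, ← mul_assoc]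
      refine mul_le_mul_of_nonneg_right ?_ (abs_nonneg _)
      have h3 := Real.mul_abs_le_abs_sin hθ
      rw [abs_mul, abs_two]
      have h4 : |(θ - a) / 2| = |θ - a| / 2 := by rw [abs_div, abs_two]
      rw [h4] at h3
      have hpi := Real.pi_pos
      have h5 : |θ - a| ≤ π * |Real.sin ((θ - a) / 2)| := by
        have : 2 / π * (|θ - a| / 2) = |θ - a| / π := by ring
        rw [this, div_le_iff₀ hpi] at h3
        linarith
      linarith
    refine squeeze_zero_norm' hb ?_
    have hc : Continuous fun θ : ℝ => (π / 2) *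
        |(2 * Real.sin ((θ - a) / 2)) * Real.log (2 * Real.sin ((θ - a) / 2))| := by
      have h1 := Real.continuous_mul_log.comp
        (by fun_prop : Continuous fun θ : ℝ => 2 * Real.sin ((θ - a) / 2))
      exact continuous_const.mul h1.abs
    have := hc.tendsto a
    simpa using this
  · have hc : ContinuousAt (fun θ => (θ - a) * Real.log (2 * Real.sin ((θ - β) / 2))) a := by
      apply ContinuousAt.mul (by fun_prop)
      apply ContinuousAt.log (by fun_prop)
      simpa using hs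
    have := hc.tendsto
    simpa using this

lemma tendsto_mul_U (σ α : Fin r → ℝ) (a : ℝ) :
    Tendsto (fun θ => (θ - a) * U σ α θ) (𝓝 a) (𝓝 0) := by
  have h : Tendsto (fun θ => ∑ j, σ j * ((θ - a) * Real.log (2 * Real.sin ((θ - α j) / 2))))
      (𝓝 a) (𝓝 (∑ j : Fin r, σ j * 0)) :=
    tendsto_finsetSum _ fun j _ => (tendsto_mul_log a (α j)).const_mul (σ j)
  simp only [mul_zero, Finset.sum_const_zero] at h
  refine h.congr fun θ => ?_
  rw [U, Finset.mul_sum]
  exact Finset.sum_congr rfl fun j _ => by ring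

/-- `G = exp U`, continuous. -/
def G (σ α : Fin r → ℝ) (θ : ℝ) : ℝ := ∏ j, |2 * Real.sin ((θ - α j) / 2)| ^ (σ j)

lemma G_continuous {σ α : Fin r → ℝ} (hσ : ∀ j, 0 ≤ σ j) : Continuous (G σ α) := by
  unfold G
  refine continuous_finsetProd _ fun j _ => ?_
  exact (by fun_prop : Continuous fun θ : ℝ => |2 * Real.sin ((θ - α j) / 2)|).rpow_const
    fun _ => Or.inr (hσ j)

lemma G_eq_exp {σ α : Fin r → ℝ} {θ : ℝ} (h : Good σ α θ) : G σ α θ = Real.exp (U σ α θ) := by
  unfold G U
  rw [Real.exp_sum]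
  refine Finset.prod_congr rfl fun j _ => ?_
  by_cases hj : σ j = 0
  · simp [hj]
  have h1 : 0 < |2 * Real.sin ((θ - α j) / 2)| := abs_pos.mpr (by simpa using h j hj)
  rw [Real.rpow_def_of_pos h1, Real.log_abs, mul_comm]

lemma G_pos {σ α : Fin r → ℝ} {θ : ℝ} (h : Good σ α θ) : 0 < G σ α θ := by
  rw [G_eq_exp h]; exact Real.exp_pos _

lemma G_zero {σ α : Fin r → ℝ} {θ : ℝ} (h : ¬ Good σ α θ) :
    G σ α θ = 0 := by
  unfold Good at h
  push Not at h
  obtain ⟨j, hj, hs⟩ := h
  unfold G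
  refine Finset.prod_eq_zero (Finset.mem_univ j) ?_
  rw [hs]
  simp [Real.zero_rpow hj]

/-- gap lemma -/
lemma gap {σ α : Fin r → ℝ} (hσ : ∀ j, 0 ≤ σ j) {a b : ℝ} (hab : a < b)
    (ha : ¬ Good σ α a) (hb : ¬ Good σ α b) (h : ∀ θ ∈ Ioo a b, Good σ α θ) :
    ∃ c ∈ Ioo a b, g σ α c = 0 ∧ (∀ θ ∈ Ioo a c, 0 ≤ g σ α θ) ∧ (∀ θ ∈ Ioo c b, g σ α θ ≤ 0) := by
  obtain ⟨c, hc, hmax⟩ := isCompact_Icc.exists_isMaxOn (nonempty_Icc.mpr hab.le)
    (G_continuous (α := α) hσ).continuousOn
  have hmid : (a + b) / 2 ∈ Ioo a b := ⟨by linarith, by linarith⟩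
  have hpos : 0 < G σ α c := lt_of_lt_of_le (G_pos (h _ hmid)) (hmax ⟨hmid.1.le, hmid.2.le⟩)
  have hca : c ≠ a := by
    rintro rfl
    rw [G_zero ha] at hpos
    exact lt_irrefl _ hpos
  have hcb : c ≠ b := by
    rintro rfl
    rw [G_zero hb] at hpos
    exact lt_irrefl _ hpos
  have hc' : c ∈ Ioo a b := ⟨lt_of_le_of_ne hc.1 hca.symm, lt_of_le_of_ne hc.2 hcb⟩
  have hloc : IsLocalMax (U σ α) c := by
    filter_upwards [Ioo_mem_nhds hc'.1 hc'.2] with x hx
    have h1 : G σ α x ≤ G σ α c := hmax ⟨hx.1.le, hx.2.le⟩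
    rw [G_eq_exp (h x hx), G_eq_exp (h c hc')] at h1
    exact Real.exp_le_exp.mp h1
  have hz := hloc.hasDerivAt_eq_zero (hasDerivAt_U (h c hc'))
  have hz' : g σ α c = 0 := by linarith
  have hanti := g_antitone hσ h
  refine ⟨c, hc', hz', fun θ hθ => ?_, fun θ hθ => ?_⟩
  · have := hanti ⟨hθ.1, hθ.2.trans hc'.2⟩ hc' hθ.2.le
    linarith
  · have := hanti hc' ⟨hc'.1.trans hθ.1, hθ.2⟩ hθ.1.le
    linarith

end

end Pool.Agent.R256.Circ
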