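import Pool.Agent.R256.Circ1

set_option autoImplicit false

open MeasureTheory Filter Topology Set Real
open scoped Interval

namespace Pool.Agent.R256.Circ

noncomputable section

variable {r : ℕ}

/-- the integrand. -/
def f (σ α : Fin r → ℝ) (θ : ℝ) : ℝ := U σ α θ + (1 / (r : ℝ)) * K (g σ α θ)

lemma ell_shift_intble {a c : ℝ} (hac : a ≤ c) {q : ℝ} (hq : 0 < q) :
    IntervalIntegrable (fun θ => ell (q * (θ - a))) volume a c := by
  have h1 : IntervalIntegrable ell volume 0 (q * (c - a)) :=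
    ell_intble (mul_nonneg hq.le (sub_nonneg.mpr hac))
  have h2 := h1.comp_mul_left (c := q)
  have h3 := h2.comp_sub_right a
  simpa [hq.ne', mul_div_cancel_left₀] using h3

lemma ell_shift_integral {a c : ℝ} (hac : a ≤ c) {q : ℝ} (hq : 0 < q) :
    -(1 / q) * (π / 2) * Real.log 2 ≤ ∫ θ in a..c, ell (q * (θ - a)) := by
  have h1 := intervalIntegral.integral_comp_sub_right (a := a) (b := c) (fun t => ell (q * t)) a
  have h2 := intervalIntegral.integral_comp_mul_left (a := 0) (b := c - a) ell hq.ne'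
  rw [h1, sub_self, h2, mul_zero]
  have h3 := ell_integral (T := q * (c - a)) (mul_nonneg hq.le (sub_nonneg.mpr hac))
  rw [smul_eq_mul]
  have h4 : 0 < q⁻¹ := inv_pos.mpr hq
  have h5 := mul_le_mul_of_nonneg_left h3 h4.le
  calc -(1 / q) * (π / 2) * Real.log 2 = q⁻¹ * (-(π / 2) * Real.log 2) := by
        rw [one_div]; ring
    _ ≤ _ := h5

lemma ell_shift_intble' {c b : ℝ} (hcb : c ≤ b) {q : ℝ} (hq : 0 < q) :
    IntervalIntegrable (fun θ => ell (q * (b - θ))) volume c b := by
  have h1 : IntervalIntegrable ell volume 0 (q * (b - c)) :=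
    ell_intble (mul_nonneg hq.le (sub_nonneg.mpr hcb))
  have h2 := h1.comp_mul_left (c := q)
  have h3 := h2.comp_sub_left b
  have h4 := h3.symm
  simpa [hq.ne', mul_div_cancel_left₀] using h4

lemma ell_shift_integral' {c b : ℝ} (hcb : c ≤ b) {q : ℝ} (hq : 0 < q) :
    -(1 / q) * (π / 2) * Real.log 2 ≤ ∫ θ in c..b, ell (q * (b - θ)) := by
  have h1 := intervalIntegral.integral_comp_sub_left (a := c) (b := b) (fun t => ell (q * t)) b
  have h2 := intervalIntegral.integral_comp_mul_left (a := 0) (b := b - c) ell hq.ne'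
  rw [h1, sub_self, h2, mul_zero]
  have h3 := ell_integral (T := q * (b - c)) (mul_nonneg hq.le (sub_nonneg.mpr hcb))
  rw [smul_eq_mul]
  have h4 : 0 < q⁻¹ := inv_pos.mpr hq
  have h5 := mul_le_mul_of_nonneg_left h3 h4.le
  calc -(1 / q) * (π / 2) * Real.log 2 = q⁻¹ * (-(π / 2) * Real.log 2) := by
        rw [one_div]; ring
    _ ≤ _ := h5

lemma continuousOn_mul_U {σ α : Fin r → ℝ} {p : ℝ} {s : Set ℝ}
    (h : ∀ θ ∈ s, θ ≠ p → Good σ α θ) : ContinuousOn (fun θ => (θ - p) * U σ α θ) s := by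
  intro θ hθ
  apply ContinuousAt.continuousWithinAt
  by_cases hp : θ = p
  · subst hp
    have h1 := tendsto_mul_U σ α θ
    rw [ContinuousAt]
    simpa using h1
  · exact ContinuousAt.mul (by fun_prop) (hasDerivAt_U (h θ hθ hp)).continuousAt

lemma gap_integral {σ α : Fin r → ℝ} (hσ : ∀ j, 0 ≤ σ j) (hr : 0 < r) {a b m : ℝ} (hab : a < b)
    (ha : ¬ Good σ α a) (hb : ¬ Good σ α b) (h : ∀ θ ∈ Ioo a b, Good σ α θ)
    (hm : ∀ θ ∈ Ioo a b, U σ α θ ≤ m) (hint : ∀ x y, IntervalIntegrable (f σ α) volume x y) :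
    ∫ θ in a..b, f σ α θ ≤ m * (b - a) + 2 * π * Real.log 2 / (r : ℝ) ^ 2 := by
  obtain ⟨c, hc, -, hg1, hg2⟩ := gap hσ hab ha hb h
  have hr' : (0:ℝ) < r := by exact_mod_cast hr
  set q : ℝ := r / 2 with hq
  have hq0 : 0 < q := by positivity
  -- left part
  have left : ∫ θ in a..c, (f σ α θ + (1 / (r:ℝ)) * ell (q * (θ - a))) ≤
      (c - a) * U σ α c - (a - a) * U σ α a := by
    refine intervalIntegral.integral_le_sub_of_hasDeriv_right_of_le hc.1.le
      (g := fun θ => (θ - a) * U σ α θ) (g' := fun θ => U σ α θ + (θ - a) * (g σ α θ / 2)) ?_ ?_ ?_ ?_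
    · apply continuousOn_mul_U
      intro θ hθ hne
      exact h θ ⟨lt_of_le_of_ne hθ.1 hne.symm, lt_of_le_of_lt hθ.2 hc.2⟩
    · intro θ hθ
      have h1 := ((hasDerivAt_id θ).sub_const a).mul
        (hasDerivAt_U (h θ ⟨hθ.1, hθ.2.trans hc.2⟩))
      refine (h1.congr_deriv ?_).hasDerivWithinAt
      simp
    · rw [← intervalIntegrable_iff_integrableOn_Icc_of_le hc.1.le]
      exact (hint a c).add ((ell_shift_intble hc.1.le hq0).const_mul _)
    · intro θ hθ
      have h1 := key (hg1 θ hθ) (τ := q * (θ - a)) (mul_pos hq0 (sub_pos.mpr hθ.1))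
      have h2 : (1 / (r:ℝ)) * (K (g σ α θ) + ell (q * (θ - a))) ≤
          (1 / (r:ℝ)) * (q * (θ - a) * g σ α θ) := by gcongr
      have h3 : (1 / (r:ℝ)) * (q * (θ - a) * g σ α θ) = (θ - a) * (g σ α θ / 2) := by
        rw [hq]; field_simp
      rw [h3] at h2
      unfold f
      linarith
  -- right part
  have right : ∫ θ in c..b, (f σ α θ + (1 / (r:ℝ)) * ell (q * (b - θ))) ≤
      (b - b) * U σ α b - (c - b) * U σ α c := by
    refine intervalIntegral.integral_le_sub_of_hasDeriv_right_of_le hc.2.le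
      (g := fun θ => (θ - b) * U σ α θ) (g' := fun θ => U σ α θ + (θ - b) * (g σ α θ / 2)) ?_ ?_ ?_ ?_
    · apply continuousOn_mul_U
      intro θ hθ hne
      exact h θ ⟨lt_of_lt_of_le hc.1 hθ.1, lt_of_le_of_ne hθ.2 hne⟩
    · intro θ hθ
      have h1 := ((hasDerivAt_id θ).sub_const b).mul
        (hasDerivAt_U (h θ ⟨hc.1.trans hθ.1, hθ.2⟩))
      refine (h1.congr_deriv ?_).hasDerivWithinAt
      simp
    · rw [← intervalIntegrable_iff_integrableOn_Icc_of_le hc.2.le]
      exact (hint c b).add ((ell_shift_intble' hc.2.le hq0).const_mul _)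
    · intro θ hθ
      have h1 := key (g := - g σ α θ) (by linarith [hg2 θ hθ]) (τ := q * (b - θ))
        (mul_pos hq0 (sub_pos.mpr hθ.2))
      rw [K_neg] at h1
      have h2 : (1 / (r:ℝ)) * (K (g σ α θ) + ell (q * (b - θ))) ≤
          (1 / (r:ℝ)) * (q * (b - θ) * (- g σ α θ)) := by gcongr
      have h3 : (1 / (r:ℝ)) * (q * (b - θ) * (- g σ α θ)) = (θ - b) * (g σ α θ / 2) := by
        rw [hq]; field_simp; ring
      rw [h3] at h2
      unfold f
      linarith
  rw [intervalIntegral.integral_add (hint a c) ((ell_shift_intble hc.1.le hq0).const_mul _),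
    intervalIntegral.integral_const_mul] at left
  rw [intervalIntegral.integral_add (hint c b) ((ell_shift_intble' hc.2.le hq0).const_mul _),
    intervalIntegral.integral_const_mul] at right
  have e1 := ell_shift_integral hc.1.le hq0
  have e2 := ell_shift_integral' hc.2.le hq0
  have hsum := intervalIntegral.integral_add_adjacent_intervals (hint a c) (hint c b)
  have hr1 : (0:ℝ) < 1 / r := by positivity
  have e1' := mul_le_mul_of_nonneg_left e1 hr1.le
  have e2' := mul_le_mul_of_nonneg_left e2 hr1.le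
  have hval : (1 / (r:ℝ)) * (-(1 / q) * (π / 2) * Real.log 2) = - (π * Real.log 2 / (r:ℝ) ^ 2) := by
    rw [hq]; field_simp
  rw [hval] at e1' e2'
  have hmc := mul_le_mul_of_nonneg_left (hm c hc) (sub_nonneg.mpr hab.le)
  have : 2 * π * Real.log 2 / (r : ℝ) ^ 2 = π * Real.log 2 / (r:ℝ) ^ 2 + π * Real.log 2 / (r:ℝ) ^ 2 := by
    ring
  rw [this, ← hsum]
  linarith

/-- induction over gaps. -/
lemma gaps_sum (f : ℝ → ℝ) (hint : ∀ x y, IntervalIntegrable f volume x y) (S : Finset ℝ)
    (m κ : ℝ)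
    (hgap : ∀ a ∈ S, ∀ b ∈ S, a < b → (∀ x ∈ S, ¬ (a < x ∧ x < b)) →
      ∫ θ in a..b, f θ ≤ m * (b - a) + κ) :
    ∀ n : ℕ, ∀ a ∈ S, ∀ b ∈ S, a < b → (S.filter (fun x => a < x ∧ x < b)).card = n →
      ∫ θ in a..b, f θ ≤ m * (b - a) + κ * (n + 1) := by
  intro n
  induction n using Nat.strong_induction_on with
  | _ n ih =>
    intro a ha b hb hab hcard
    by_cases hemp : (S.filter (fun x => a < x ∧ x < b)) = ∅
    · have h1 := hgap a ha b hb hab (fun x hx hh => by
        have : x ∈ S.filter (fun x => a < x ∧ x < b) := Finset.mem_filter.mpr ⟨hx, hh⟩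
        rw [hemp] at this
        simp at this)
      have : n = 0 := by rw [← hcard, hemp]; simp
      subst this
      simpa using h1
    · obtain ⟨c, hc⟩ := Finset.nonempty_iff_ne_empty.mpr hemp
      rw [Finset.mem_filter] at hc
      obtain ⟨hcS, hac, hcb⟩ := hc
      set A := S.filter (fun x => a < x ∧ x < c) with hA
      set B := S.filter (fun x => c < x ∧ x < b) with hB
      have hdisj : Disjoint A B := by
        rw [Finset.disjoint_left]
        intro x hx hx'
        rw [hA, Finset.mem_filter] at hx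
        rw [hB, Finset.mem_filter] at hx'
        linarith [hx.2.2, hx'.2.1]
      have hcn : c ∉ A ∪ B := by
        rw [Finset.mem_union, hA, hB, Finset.mem_filter, Finset.mem_filter]
        rintro (h | h)
        · exact lt_irrefl _ h.2.2
        · exact lt_irrefl _ h.2.1
      have hunion : S.filter (fun x => a < x ∧ x < b) = insert c (A ∪ B) := by
        ext x
        rw [Finset.mem_insert, Finset.mem_union, hA, hB, Finset.mem_filter, Finset.mem_filter,
          Finset.mem_filter]
        constructor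
        · rintro ⟨hx, h1, h2⟩
          rcases lt_trichotomy x c with h | h | h
          · exact Or.inr (Or.inl ⟨hx, h1, h⟩)
          · exact Or.inl h
          · exact Or.inr (Or.inr ⟨hx, h, h2⟩)
        · rintro (h | ⟨hx, h1, h2⟩ | ⟨hx, h1, h2⟩)
          · subst h; exact ⟨hcS, hac, hcb⟩
          · exact ⟨hx, h1, h2.trans hcb⟩
          · exact ⟨hx, hac.trans h1, h2⟩
      have hn : n = A.card + B.card + 1 := by
        rw [← hcard, hunion, Finset.card_insert_of_notMem hcn, Finset.card_union_of_disjoint hdisj]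
      have h1 := ih A.card (by omega) a ha c hcS hac rfl
      have h2 := ih B.card (by omega) c hcS b hb hcb rfl
      rw [← intervalIntegral.integral_add_adjacent_intervals (hint a c) (hint c b), hn]
      push_cast
      linarith

end

end Pool.Agent.R256.Circ
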