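import Pool.Agent.R256.Circ2

set_option autoImplicit false

open MeasureTheory Filter Topology Set
open scoped Interval

namespace Pool.Agent.R256.Circ

noncomputable section

variable {r : ℕ}

/-- `Λ(w) = (1 + w) log (1 + w) - w log w`. -/
def Lam (w : ℂ) : ℂ := (1 + w) * Complex.log (1 + w) - w * Complex.log w

lemma norm_Lam_le {w : ℂ} (hw : 0 < w.re) : ‖Lam w‖ ≤ Real.log (1 + ‖w‖) + Real.pi + 1 := by
  have hw0 : w ≠ 0 := by rintro rfl; simp at hw
  have hnw : 0 < ‖w‖ := norm_pos_iff.mpr hw0
  have e : Lam w = Complex.log (1 + w) + w * (Complex.log (w + 1) - Complex.log (w + 0)) := by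
    unfold Lam; rw [add_comm w 1, add_zero]; ring
  have h1 : ‖Complex.log (w + 1) - Complex.log (w + 0)‖ ≤ 1 / ‖w‖ := by
    have := norm_image_sub_le_of_norm_deriv_le_segment_01'
      (f := fun t : ℝ => Complex.log (w + t)) (f' := fun t : ℝ => 1 / (w + t)) (C := 1 / ‖w‖)
      (fun t ht => by
        have h2 : HasDerivAt (fun t : ℝ => w + (t : ℂ)) 1 t :=
          (Complex.ofRealCLM.hasDerivAt (x := t)).const_add w |>.congr_deriv (by simp)
        have h3 : w + (t : ℂ) ∈ Complex.slitPlane := by
          left; simp only [Complex.add_re, Complex.ofReal_re]; linarith [ht.1]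
        exact (h2.clog_real h3).hasDerivWithinAt)
      (fun t ht => by
        rw [norm_div, norm_one]
        apply one_div_le_one_div_of_le hnw
        rw [← sq_le_sq₀ (norm_nonneg _) (norm_nonneg _), ← Complex.normSq_eq_norm_sq,
          ← Complex.normSq_eq_norm_sq, Complex.normSq_apply, Complex.normSq_apply]
        simp only [Complex.add_re, Complex.ofReal_re, Complex.add_im, Complex.ofReal_im, add_zero]
        nlinarith [ht.1])
    simpa using this
  have h2 : ‖w * (Complex.log (w + 1) - Complex.log (w + 0))‖ ≤ 1 := by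
    rw [norm_mul]
    calc ‖w‖ * ‖Complex.log (w + 1) - Complex.log (w + 0)‖ ≤ ‖w‖ * (1 / ‖w‖) := by gcongr
      _ = 1 := by field_simp
  have h3 : ‖Complex.log (1 + w)‖ ≤ Real.log (1 + ‖w‖) + Real.pi := by
    have h4 := Complex.norm_le_abs_re_add_abs_im (Complex.log (1 + w))
    rw [Complex.log_re, Complex.log_im] at h4
    have h5 := Complex.abs_arg_le_pi (1 + w)
    have h6 : 1 ≤ ‖1 + w‖ := by
      have := Complex.re_le_norm (1 + w)
      simp only [Complex.add_re, Complex.one_re] at this
      linarith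
    have h7 : ‖1 + w‖ ≤ 1 + ‖w‖ := by
      have := norm_add_le 1 w
      simpa using this
    have h8 : |Real.log ‖1 + w‖| ≤ Real.log (1 + ‖w‖) := by
      rw [abs_of_nonneg (Real.log_nonneg h6)]
      exact Real.log_le_log (by linarith) h7
    linarith
  rw [e]
  have := norm_add_le (Complex.log (1 + w)) (w * (Complex.log (w + 1) - Complex.log (w + 0)))
  linarith

lemma continuousAt_mul_clog (x : ℝ) :
    ContinuousAt (fun w : ℂ => w * Complex.log w) ((x : ℂ) * Complex.I) := by
  by_cases hx : x = 0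
  · subst hx
    simp only [Complex.ofReal_zero, zero_mul]
    have hb : ∀ w : ℂ, ‖w * Complex.log w‖ ≤ |‖w‖ * Real.log ‖w‖| + Real.pi * ‖w‖ := by
      intro w
      have h4 := Complex.norm_le_abs_re_add_abs_im (Complex.log w)
      rw [Complex.log_re, Complex.log_im] at h4
      have h5 := Complex.abs_arg_le_pi w
      rw [norm_mul, abs_mul, abs_of_nonneg (norm_nonneg w)]
      have h6 := norm_nonneg w
      nlinarith
    rw [ContinuousAt]
    simp only [zero_mul]
    refine squeeze_zero_norm hb ?_
    have hc : Continuous fun w : ℂ => |‖w‖ * Real.log ‖w‖| + Real.pi * ‖w‖ :=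
      (Real.continuous_mul_log.comp continuous_norm).abs.add (by fun_prop)
    have := hc.tendsto 0
    simpa using this
  · refine continuousAt_id.mul (continuousAt_id.clog ?_)
    right
    simpa using hx

lemma continuousAt_Lam (x : ℝ) : ContinuousAt Lam ((x : ℂ) * Complex.I) := by
  unfold Lam
  refine ContinuousAt.sub ?_ (continuousAt_mul_clog x)
  refine ContinuousAt.mul (by fun_prop) (ContinuousAt.clog (by fun_prop) ?_)
  left
  simp

lemma re_Lam (x : ℝ) : (Lam ((x : ℂ) * Complex.I)).re = K x := by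
  have h1 : Complex.log (1 + x * Complex.I) =
      ((1 / 2 * Real.log (1 + x ^ 2) : ℝ) : ℂ) + (Real.arctan x : ℝ) * Complex.I := by
    apply Complex.ext
    · rw [Complex.log_re]
      have : ‖1 + (x:ℂ) * Complex.I‖ = √(1 + x ^ 2) := by
        rw [Complex.norm_def, Complex.normSq_apply]
        simp [sq]
      rw [this, Real.log_sqrt (by positivity)]
      generalize Real.arctan x = A
      simp [Complex.add_re, Complex.mul_re]
      ring
    · rw [Complex.log_im, Complex.arg_of_re_nonneg (by simp)]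
      have : ‖1 + (x:ℂ) * Complex.I‖ = √(1 + x ^ 2) := by
        rw [Complex.norm_def, Complex.normSq_apply]
        simp [sq]
      rw [this, Real.arctan_eq_arcsin]
      simp
  unfold Lam
  rw [h1]
  have h2 : (((x:ℂ) * Complex.I) * Complex.log (x * Complex.I)).re = - (|x| * (Real.pi / 2)) := by
    rcases lt_trichotomy x 0 with h | h | h
    · have : Complex.log (x * Complex.I) = (Real.log (-x) : ℝ) + (-(Real.pi / 2) : ℝ) * Complex.I := by
        apply Complex.ext
        · rw [Complex.log_re]
          simp [abs_of_neg h]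
        · rw [Complex.log_im]
          have : (x:ℂ) * Complex.I = ((-x : ℝ) : ℂ) * (-Complex.I) := by push_cast; ring
          rw [this, Complex.arg_real_mul _ (by linarith), Complex.arg_neg_I]
          simp
      rw [this, abs_of_neg h]
      simp [Complex.mul_re, Complex.mul_im, Complex.add_re]
    · subst h; simp
    · have : Complex.log (x * Complex.I) = (Real.log x : ℝ) + ((Real.pi / 2) : ℝ) * Complex.I := by
        apply Complex.ext
        · rw [Complex.log_re]
          simp [abs_of_pos h]
        · rw [Complex.log_im, Complex.arg_real_mul _ h, Complex.arg_I]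
          simp
      rw [this, abs_of_pos h]
      simp [Complex.mul_re, Complex.mul_im, Complex.add_re]
  rw [Complex.sub_re, h2]
  have h3 : x * Real.arctan x = |x| * Real.arctan |x| := by
    rcases le_total 0 x with h | h
    · rw [abs_of_nonneg h]
    · rw [abs_of_nonpos h, Real.arctan_neg]; ring
  unfold K
  generalize Real.arctan x = A at *
  generalize Real.log (1 + x ^ 2) = B at *
  simp [Complex.mul_re, Complex.mul_im, Complex.add_re, Complex.add_im]
  linarith

/-- boundary points. -/
def zz (t : ℝ) : ℂ := circleMap 0 1 t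

/-- Herglotz function. -/
def hh (σ α : Fin r → ℝ) (z : ℂ) : ℂ := ∑ j, (σ j : ℂ) * ((zz (α j) + z) / (zz (α j) - z))

lemma norm_zz (t : ℝ) : ‖zz t‖ = 1 := by simp [zz]

lemma zz_sub_ne {t : ℝ} {z : ℂ} (hz : ‖z‖ < 1) : zz t - z ≠ 0 := by
  intro h
  have := norm_zz t
  rw [sub_eq_zero.mp h] at this
  linarith

lemma re_kernel {t : ℝ} {z : ℂ} (hz : ‖z‖ < 1) : 0 < ((zz t + z) / (zz t - z)).re := by
  have h1 := zz_sub_ne (t := t) hz
  have h2 : 0 < Complex.normSq (zz t - z) := Complex.normSq_pos.mpr h1
  rw [Complex.div_re, ← add_div]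
  apply div_pos _ h2
  have h3 : Complex.normSq (zz t) = 1 := by rw [Complex.normSq_eq_norm_sq, norm_zz]; norm_num
  have h4 : Complex.normSq z < 1 := by
    rw [Complex.normSq_eq_norm_sq]
    nlinarith [norm_nonneg z]
  rw [Complex.normSq_apply] at h3 h4
  simp only [Complex.add_re, Complex.add_im, Complex.sub_re, Complex.sub_im]
  nlinarith

lemma re_hh {σ α : Fin r → ℝ} (hσ : ∀ j, 0 ≤ σ j) (hs : ∑ j, σ j = 1) {z : ℂ} (hz : ‖z‖ < 1) :
    0 < (hh σ α z).re := by
  unfold hh
  rw [Complex.re_sum]
  obtain ⟨j, hj⟩ : ∃ j, 0 < σ j := by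
    by_contra hcon
    push Not at hcon
    have : ∑ j, σ j ≤ 0 := Finset.sum_nonpos fun j _ => hcon j
    linarith
  refine Finset.sum_pos' (fun i _ => ?_) ⟨j, Finset.mem_univ _, ?_⟩
  · rw [Complex.re_ofReal_mul]
    exact mul_nonneg (hσ i) (re_kernel hz).le
  · rw [Complex.re_ofReal_mul]
    exact mul_pos hj (re_kernel hz)

lemma hh_zero {σ α : Fin r → ℝ} (hs : ∑ j, σ j = 1) : hh σ α 0 = 1 := by
  unfold hh
  have : ∀ j, (σ j : ℂ) * ((zz (α j) + 0) / (zz (α j) - 0)) = σ j := by
    intro j
    have h1 : zz (α j) ≠ 0 := by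
      intro h
      have := norm_zz (α j)
      rw [h] at this; simp at this
    rw [add_zero, sub_zero, div_self h1, mul_one]
  simp only [this]
  rw [← Complex.ofReal_sum, hs, Complex.ofReal_one]

lemma differentiableAt_hh {σ α : Fin r → ℝ} {z : ℂ} (hz : ‖z‖ < 1) :
    DifferentiableAt ℂ (hh σ α) z := by
  unfold hh
  apply DifferentiableAt.fun_sum
  intro j _
  apply DifferentiableAt.const_mul
  apply DifferentiableAt.div (by fun_prop) (by fun_prop) (zz_sub_ne hz)

lemma differentiableAt_Lam_hh {σ α : Fin r → ℝ} (hσ : ∀ j, 0 ≤ σ j) (hs : ∑ j, σ j = 1) {z : ℂ}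
    (hz : ‖z‖ < 1) : DifferentiableAt ℂ (fun z => Lam (hh σ α z)) z := by
  have h1 := re_hh (α := α) hσ hs hz
  have h2 : DifferentiableAt ℂ Lam (hh σ α z) := by
    unfold Lam
    refine DifferentiableAt.sub (DifferentiableAt.mul (by fun_prop)
      (DifferentiableAt.clog (by fun_prop) ?_))
      (DifferentiableAt.mul (by fun_prop) (DifferentiableAt.clog (by fun_prop) ?_))
    · left; simp only [Complex.add_re, Complex.one_re]; linarith
    · left; exact h1
  exact h2.comp z (differentiableAt_hh hz)

lemma mean_rho {σ α : Fin r → ℝ} (hσ : ∀ j, 0 ≤ σ j) (hs : ∑ j, σ j = 1) {ρ : ℝ} (h0 : 0 < ρ)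
    (h1 : ρ < 1) :
    ∫ θ in (0:ℝ)..(2 * Real.pi), (Lam (hh σ α (circleMap 0 ρ θ))).re =
      4 * Real.pi * Real.log 2 := by
  have hd : DifferentiableOn ℂ (fun z => Lam (hh σ α z)) (Metric.closedBall 0 |ρ|) := by
    intro z hz
    rw [mem_closedBall_zero_iff, abs_of_pos h0] at hz
    exact (differentiableAt_Lam_hh hσ hs (lt_of_le_of_lt hz h1)).differentiableWithinAt
  have hav := DiffContOnCl.circleAverage (f := fun z => Lam (hh σ α z)) (c := 0) (R := ρ)
    (hd.diffContOnCl_ball (by rfl))
  have hcont : Continuous fun θ : ℝ => Lam (hh σ α (circleMap 0 ρ θ)) := by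
    rw [continuous_iff_continuousAt]
    intro θ
    have h2 : ‖circleMap 0 ρ θ‖ < 1 := by simp [abs_of_pos h0, h1]
    exact ContinuousAt.comp (g := fun z => Lam (hh σ α z)) (differentiableAt_Lam_hh hσ hs h2).continuousAt
      (by fun_prop)
  have hint : IntervalIntegrable (fun θ : ℝ => Lam (hh σ α (circleMap 0 ρ θ))) volume 0
      (2 * Real.pi) := hcont.intervalIntegrable _ _
  have h3 := Complex.reCLM.intervalIntegral_comp_comm hint
  simp only [Complex.reCLM_apply] at h3
  rw [h3]
  have h4 : ∫ θ in (0:ℝ)..(2 * Real.pi), Lam (hh σ α (circleMap 0 ρ θ)) =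
      (2 * Real.pi : ℝ) • Lam (hh σ α 0) := by
    rw [← hav, Real.circleAverage_def, smul_smul, mul_inv_cancel₀ (by positivity), one_smul]
  rw [h4, hh_zero hs]
  unfold Lam
  have h5 : Complex.log (1 + 1) = (Real.log 2 : ℝ) := by
    rw [Complex.ofReal_log (by norm_num)]
    norm_num
  rw [h5, Complex.log_one]
  generalize Real.log 2 = L
  simp
  ring

end

end Pool.Agent.R256.Circ
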