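import Pool.Agent.R256.Circ3

set_option autoImplicit false

open MeasureTheory Filter Topology Set
open scoped Interval

namespace Pool.Agent.R256.Circ

noncomputable section

variable {r : ℕ}

lemma zz_add_sub (θ β : ℝ) : ∃ E : ℂ, E ≠ 0 ∧ ‖E‖ = 1 ∧
    zz β + zz θ = E * (2 * (Real.cos ((θ - β) / 2) : ℂ)) ∧
    zz β - zz θ = E * (-2 * Complex.I * (Real.sin ((θ - β) / 2) : ℂ)) := by
  refine ⟨Complex.exp (((θ + β) / 2 : ℝ) * Complex.I), Complex.exp_ne_zero _,
    Complex.norm_exp_ofReal_mul_I _, ?_, ?_⟩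
  all_goals
    have h1 : zz β = Complex.exp (((θ + β) / 2 : ℝ) * Complex.I) *
        Complex.exp ((-((θ - β) / 2) : ℝ) * Complex.I) := by
      rw [← Complex.exp_add, zz, circleMap]
      simp only [Complex.ofReal_one, one_mul, zero_add]
      congr 1; push_cast; ring
    have h2 : zz θ = Complex.exp (((θ + β) / 2 : ℝ) * Complex.I) *
        Complex.exp ((((θ - β) / 2) : ℝ) * Complex.I) := by
      rw [← Complex.exp_add, zz, circleMap]
      simp only [Complex.ofReal_one, one_mul, zero_add]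
      congr 1; push_cast; ring
    rw [h1, h2, Complex.exp_mul_I ((((θ - β) / 2) : ℝ) : ℂ),
      Complex.exp_mul_I ((-((θ - β) / 2) : ℝ) : ℂ), ← Complex.ofReal_cos, ← Complex.ofReal_sin,
      ← Complex.ofReal_cos, ← Complex.ofReal_sin, Real.cos_neg, Real.sin_neg]
    push_cast
    ring

lemma norm_zz_sub (θ β : ℝ) : ‖zz θ - zz β‖ = |2 * Real.sin ((θ - β) / 2)| := by
  obtain ⟨E, -, hE, -, h2⟩ := zz_add_sub θ β
  rw [norm_sub_rev, h2, norm_mul, hE, one_mul, norm_mul, Complex.norm_real, Real.norm_eq_abs,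
    abs_mul]
  simp

lemma U_eq (σ α : Fin r → ℝ) (θ : ℝ) : U σ α θ = ∑ j, σ j * Real.log ‖zz θ - zz (α j)‖ := by
  unfold U
  refine Finset.sum_congr rfl fun j _ => ?_
  rw [norm_zz_sub, Real.log_abs]

lemma hh_boundary {σ α : Fin r → ℝ} {θ : ℝ} (h : Good σ α θ) :
    hh σ α (zz θ) = (g σ α θ : ℂ) * Complex.I := by
  unfold hh g
  rw [Complex.ofReal_sum, Finset.sum_mul]
  refine Finset.sum_congr rfl fun j _ => ?_
  by_cases hj : σ j = 0
  · simp [hj]
  have hs := h j hj
  obtain ⟨E, hE, -, h1, h2⟩ := zz_add_sub θ (α j)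
  rw [h1, h2]
  have hs' : (Real.sin ((θ - α j) / 2) : ℂ) ≠ 0 := by exact_mod_cast hs
  rw [mul_div_mul_left _ _ hE]
  push_cast at hs' ⊢
  field_simp
  linear_combination (-((σ j : ℂ) * Complex.cos ((↑θ - ↑(α j)) / 2))) * Complex.I_sq

lemma tendsto_hh {σ α : Fin r → ℝ} {θ : ℝ} (h : Good σ α θ) :
    Tendsto (fun ρ : ℝ => hh σ α (circleMap 0 ρ θ)) (𝓝[<] 1)
      (𝓝 ((g σ α θ : ℂ) * Complex.I)) := by
  rw [← hh_boundary h]
  apply Tendsto.mono_left _ nhdsWithin_le_nhds
  unfold hh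
  refine tendsto_finsetSum _ fun j _ => ?_
  by_cases hj : σ j = 0
  · simp [hj]
  have hs := h j hj
  have hne : zz (α j) - circleMap 0 1 θ ≠ 0 := by
    rw [← norm_pos_iff, norm_sub_rev]
    change 0 < ‖zz θ - zz (α j)‖
    rw [norm_zz_sub]
    exact abs_pos.mpr (by simpa using hs)
  have hc : ContinuousAt (fun ρ : ℝ => (σ j : ℂ) * ((zz (α j) + circleMap 0 ρ θ) /
      (zz (α j) - circleMap 0 ρ θ))) 1 := by
    have hcm : Continuous fun ρ : ℝ => circleMap 0 ρ θ := by
      unfold circleMap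
      fun_prop
    exact continuousAt_const.mul ((continuousAt_const.add hcm.continuousAt).div
      (continuousAt_const.sub hcm.continuousAt) hne)
  exact hc.tendsto

lemma tendsto_ReLam {σ α : Fin r → ℝ} {θ : ℝ} (h : Good σ α θ) :
    Tendsto (fun ρ : ℝ => (Lam (hh σ α (circleMap 0 ρ θ))).re) (𝓝[<] 1)
      (𝓝 (K (g σ α θ))) := by
  have h1 := (continuousAt_Lam (g σ α θ)).tendsto.comp (tendsto_hh h)
  have h2 := (Complex.continuous_re.tendsto _).comp h1
  rw [re_Lam] at h2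
  exact h2

lemma log_one_add_sum_le {ι : Type*} (s : Finset ι) (x : ι → ℝ) (hx : ∀ i, 0 ≤ x i) :
    Real.log (1 + ∑ i ∈ s, x i) ≤ ∑ i ∈ s, Real.log (1 + x i) := by
  classical
  induction s using Finset.induction_on with
  | empty => simp
  | insert a s ha ih =>
    rw [Finset.sum_insert ha, Finset.sum_insert ha]
    have h1 : 0 ≤ ∑ i ∈ s, x i := Finset.sum_nonneg fun i _ => hx i
    have h2 := hx a
    calc Real.log (1 + (x a + ∑ i ∈ s, x i)) ≤ Real.log ((1 + x a) * (1 + ∑ i ∈ s, x i)) := by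
          apply Real.log_le_log (by positivity)
          nlinarith [mul_nonneg h2 h1]
      _ = Real.log (1 + x a) + Real.log (1 + ∑ i ∈ s, x i) :=
          Real.log_mul (by positivity) (by positivity)
      _ ≤ _ := by linarith

/-- dominating function -/
def bound (α : Fin r → ℝ) (θ : ℝ) : ℝ :=
  ∑ j, (Real.log 6 - Real.log ‖zz θ - zz (α j)‖) + Real.pi + 1

lemma le_bound {σ α : Fin r → ℝ} (hσ : ∀ j, 0 ≤ σ j) (hs : ∑ j, σ j = 1) {θ : ℝ}
    (h : ∀ j, Real.sin ((θ - α j) / 2) ≠ 0) {ρ : ℝ} (h0 : 0 < ρ) (h1 : ρ < 1) :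
    ‖(Lam (hh σ α (circleMap 0 ρ θ))).re‖ ≤ bound α θ := by
  set z := circleMap 0 ρ θ with hz
  have hzn : ‖z‖ < 1 := by rw [hz]; simp [abs_of_pos h0, h1]
  have h2 := norm_Lam_le (re_hh (α := α) hσ hs hzn)
  have h3 : ‖(Lam (hh σ α z)).re‖ ≤ ‖Lam (hh σ α z)‖ := Complex.abs_re_le_norm _
  have hδ : ∀ j, 0 < ‖zz θ - zz (α j)‖ := by
    intro j
    rw [norm_zz_sub]
    exact abs_pos.mpr (by simpa using h j)
  have h4 : ‖hh σ α z‖ ≤ ∑ j, 4 / ‖zz θ - zz (α j)‖ := by
    unfold hh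
    refine norm_sum_le_of_le _ fun j _ => ?_
    rw [norm_mul, norm_div, Complex.norm_real, Real.norm_eq_abs, abs_of_nonneg (hσ j)]
    have hσ1 : σ j ≤ 1 := by
      rw [← hs]; exact Finset.single_le_sum (fun i _ => hσ i) (Finset.mem_univ j)
    have e1 : ‖zz (α j) + z‖ ≤ 2 := by
      have := norm_add_le (zz (α j)) z
      rw [norm_zz] at this
      linarith
    have e2 : ‖zz θ - zz (α j)‖ / 2 ≤ ‖zz (α j) - z‖ := by
      -- ‖zz θ - z‖ = 1 - ρ ≤ ‖zz α - z‖
      have e3 : ‖zz θ - z‖ = 1 - ρ := by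
        have : zz θ - z = ((1 - ρ : ℝ) : ℂ) * zz θ := by
          rw [hz, zz, circleMap, circleMap]; push_cast; ring
        rw [this, norm_mul, norm_zz, mul_one, Complex.norm_real, Real.norm_eq_abs,
          abs_of_pos (by linarith)]
      have e4 : 1 - ρ ≤ ‖zz (α j) - z‖ := by
        have := norm_sub_norm_le (zz (α j)) z
        rw [norm_zz] at this
        have e5 : ‖z‖ = ρ := by rw [hz]; simp [abs_of_pos h0]
        linarith
      have e6 : ‖zz θ - zz (α j)‖ ≤ ‖zz θ - z‖ + ‖z - zz (α j)‖ := norm_sub_le_norm_sub_add_norm_sub _ _ _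
      rw [norm_sub_rev z] at e6
      linarith
    have hd : 0 < ‖zz (α j) - z‖ := norm_pos_iff.mpr (zz_sub_ne hzn)
    have hdj := hδ j
    calc σ j * (‖zz (α j) + z‖ / ‖zz (α j) - z‖) ≤ 1 * (2 / (‖zz θ - zz (α j)‖ / 2)) := by
          gcongr
      _ = 4 / ‖zz θ - zz (α j)‖ := by field_simp; norm_num
  have h5 : Real.log (1 + ‖hh σ α z‖) ≤ ∑ j, (Real.log 6 - Real.log ‖zz θ - zz (α j)‖) := by
    calc Real.log (1 + ‖hh σ α z‖) ≤ Real.log (1 + ∑ j, 4 / ‖zz θ - zz (α j)‖) := by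
          apply Real.log_le_log (by positivity) (by linarith)
      _ ≤ ∑ j, Real.log (1 + 4 / ‖zz θ - zz (α j)‖) :=
          log_one_add_sum_le _ _ fun j => by positivity
      _ ≤ _ := by
          refine Finset.sum_le_sum fun j _ => ?_
          have hdj := hδ j
          have hle : ‖zz θ - zz (α j)‖ ≤ 2 := by
            have := norm_sub_le (zz θ) (zz (α j))
            rw [norm_zz, norm_zz] at this
            linarith
          rw [← Real.log_div (by norm_num) hdj.ne']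
          apply Real.log_le_log (by positivity)
          rw [le_div_iff₀ hdj, add_mul, div_mul_cancel₀ _ hdj.ne']
          linarith
  unfold bound
  linarith

lemma intble_log (β : ℝ) :
    IntervalIntegrable (fun θ => Real.log ‖zz θ - zz β‖) volume 0 (2 * Real.pi) :=
  circleIntegrable_log_norm_sub_const (a := zz β) (c := 0) 1

lemma intble_bound (α : Fin r → ℝ) : IntervalIntegrable (bound α) volume 0 (2 * Real.pi) := by
  unfold bound
  refine IntervalIntegrable.add (IntervalIntegrable.add ?_ (by simp)) (by simp)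
  have : (fun θ => ∑ j, (Real.log 6 - Real.log ‖zz θ - zz (α j)‖)) =
      ∑ j, fun θ => (Real.log 6 - Real.log ‖zz θ - zz (α j)‖) := by
    ext θ; simp
  rw [this]
  refine IntervalIntegrable.sum _ fun j _ => ?_
  exact IntervalIntegrable.sub (by simp) (intble_log _)

lemma ae_good (α : Fin r → ℝ) : ∀ᵐ θ : ℝ, ∀ j, Real.sin ((θ - α j) / 2) ≠ 0 := by
  rw [ae_all_iff]
  intro j
  have hc : (range fun n : ℤ => α j + 2 * (n * Real.pi)).Countable := countable_range _
  filter_upwards [hc.ae_notMem volume] with θ hθ hs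
  obtain ⟨n, hn⟩ := Real.sin_eq_zero_iff.mp hs
  exact hθ ⟨n, by simp only; linarith⟩

lemma ae_Good (σ α : Fin r → ℝ) : ∀ᵐ θ : ℝ, Good σ α θ := by
  filter_upwards [ae_good α] with θ h j _
  exact h j

lemma continuous_rho {σ α : Fin r → ℝ} (hσ : ∀ j, 0 ≤ σ j) (hs : ∑ j, σ j = 1) {ρ : ℝ}
    (h0 : 0 < ρ) (h1 : ρ < 1) :
    Continuous fun θ : ℝ => (Lam (hh σ α (circleMap 0 ρ θ))).re := by
  refine Complex.continuous_re.comp ?_
  rw [continuous_iff_continuousAt]
  intro θ
  have h2 : ‖circleMap 0 ρ θ‖ < 1 := by simp [abs_of_pos h0, h1]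
  exact ContinuousAt.comp (g := fun z => Lam (hh σ α z)) (differentiableAt_Lam_hh hσ hs h2).continuousAt
    (by fun_prop)

lemma g_measurable (σ α : Fin r → ℝ) : Measurable (g σ α) := by
  unfold g
  fun_prop

lemma K_measurable : Measurable K := by
  unfold K
  fun_prop

lemma K_g_le {σ α : Fin r → ℝ} (hσ : ∀ j, 0 ≤ σ j) (hs : ∑ j, σ j = 1) {θ : ℝ}
    (h : ∀ j, Real.sin ((θ - α j) / 2) ≠ 0) : ‖K (g σ α θ)‖ ≤ bound α θ := by
  have h1 := (tendsto_ReLam (σ := σ) (α := α) (θ := θ) (fun j _ => h j)).norm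
  refine le_of_tendsto h1 ?_
  have h2 : ∀ᶠ ρ : ℝ in 𝓝[<] 1, 0 < ρ := by
    have : ∀ᶠ s : ℝ in 𝓝 1, 0 < s := lt_mem_nhds one_pos
    exact this.filter_mono nhdsWithin_le_nhds
  filter_upwards [h2, self_mem_nhdsWithin] with ρ hρ0 hρ1
  exact le_bound hσ hs h hρ0 hρ1

lemma intble_K_g {σ α : Fin r → ℝ} (hσ : ∀ j, 0 ≤ σ j) (hs : ∑ j, σ j = 1) :
    IntervalIntegrable (fun θ => K (g σ α θ)) volume 0 (2 * Real.pi) := by
  refine (intble_bound α).mono_fun' (K_measurable.comp (g_measurable σ α)).aestronglyMeasurable ?_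
  apply ae_restrict_of_ae
  filter_upwards [ae_good α] with θ h
  exact K_g_le hσ hs h

lemma integral_K_g {σ α : Fin r → ℝ} (hσ : ∀ j, 0 ≤ σ j) (hs : ∑ j, σ j = 1) :
    ∫ θ in (0:ℝ)..(2 * Real.pi), K (g σ α θ) = 4 * Real.pi * Real.log 2 := by
  have h2 : ∀ᶠ ρ : ℝ in 𝓝[<] 1, 0 < ρ := by
    have : ∀ᶠ s : ℝ in 𝓝 1, 0 < s := lt_mem_nhds one_pos
    exact this.filter_mono nhdsWithin_le_nhds
  have hlim : Tendsto (fun ρ : ℝ => ∫ θ in (0:ℝ)..(2 * Real.pi),
      (Lam (hh σ α (circleMap 0 ρ θ))).re) (𝓝[<] 1)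
      (𝓝 (∫ θ in (0:ℝ)..(2 * Real.pi), K (g σ α θ))) := by
    refine intervalIntegral.tendsto_integral_filter_of_dominated_convergence (bound α) ?_ ?_
      (intble_bound α) ?_
    · filter_upwards [h2, self_mem_nhdsWithin] with ρ hρ0 hρ1
      exact (continuous_rho hσ hs hρ0 hρ1).aestronglyMeasurable
    · filter_upwards [h2, self_mem_nhdsWithin] with ρ hρ0 hρ1
      filter_upwards [ae_good α] with θ h _
      exact le_bound hσ hs h hρ0 hρ1
    · filter_upwards [ae_Good σ α] with θ h _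
      exact tendsto_ReLam h
  have hconst : Tendsto (fun ρ : ℝ => ∫ θ in (0:ℝ)..(2 * Real.pi),
      (Lam (hh σ α (circleMap 0 ρ θ))).re) (𝓝[<] 1) (𝓝 (4 * Real.pi * Real.log 2)) := by
    refine tendsto_const_nhds.congr' ?_
    filter_upwards [h2, self_mem_nhdsWithin] with ρ hρ0 hρ1
    exact (mean_rho hσ hs hρ0 hρ1).symm
  exact tendsto_nhds_unique hlim hconst

lemma integral_U (σ α : Fin r → ℝ) : ∫ θ in (0:ℝ)..(2 * Real.pi), U σ α θ = 0 := by
  simp only [U_eq]
  rw [intervalIntegral.integral_finsetSum (fun j _ => (intble_log (α j)).const_mul _)]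
  refine Finset.sum_eq_zero fun j _ => ?_
  rw [intervalIntegral.integral_const_mul]
  have h1 := circleAverage_log_norm_sub_const₁ (norm_zz (α j))
  rw [Real.circleAverage_def, smul_eq_mul, mul_eq_zero] at h1
  have h2 : ∫ θ in (0:ℝ)..(2 * Real.pi), Real.log ‖zz θ - zz (α j)‖ = 0 := by
    rcases h1 with h | h
    · exact absurd h (by positivity)
    · exact h
  rw [h2, mul_zero]

lemma intble_U (σ α : Fin r → ℝ) : IntervalIntegrable (U σ α) volume 0 (2 * Real.pi) := by
  have : U σ α = ∑ j, fun θ => σ j * Real.log ‖zz θ - zz (α j)‖ := by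
    ext θ; rw [U_eq]; simp
  rw [this]
  exact IntervalIntegrable.sum _ fun j _ => (intble_log (α j)).const_mul _

lemma sin_period (θ β : ℝ) : Real.sin ((θ + 2 * Real.pi - β) / 2) = - Real.sin ((θ - β) / 2) := by
  rw [← Real.sin_add_pi]; congr 1; ring

lemma cos_period (θ β : ℝ) : Real.cos ((θ + 2 * Real.pi - β) / 2) = - Real.cos ((θ - β) / 2) := by
  rw [← Real.cos_add_pi]; congr 1; ring

lemma periodic_f (σ α : Fin r → ℝ) : Function.Periodic (f σ α) (2 * Real.pi) := by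
  intro θ
  unfold f U g
  simp only [sin_period, cos_period, mul_neg, Real.log_neg_eq_log, neg_div_neg_eq]

lemma intble_f {σ α : Fin r → ℝ} (hσ : ∀ j, 0 ≤ σ j) (hs : ∑ j, σ j = 1) (x y : ℝ) :
    IntervalIntegrable (f σ α) volume x y := by
  refine (periodic_f σ α).intervalIntegrable₀ (by positivity) ?_ x y
  unfold f
  exact (intble_U σ α).add ((intble_K_g hσ hs).const_mul _)

lemma integral_f {σ α : Fin r → ℝ} (hσ : ∀ j, 0 ≤ σ j) (hs : ∑ j, σ j = 1) (c : ℝ) :
    ∫ θ in c..(c + 2 * Real.pi), f σ α θ = 4 * Real.pi * Real.log 2 / r := by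
  rw [(periodic_f σ α).intervalIntegral_add_eq c 0, zero_add]
  unfold f
  rw [intervalIntegral.integral_add (intble_U σ α) ((intble_K_g hσ hs).const_mul _),
    integral_U, intervalIntegral.integral_const_mul, integral_K_g hσ hs]
  ring

theorem main {σ α : Fin r → ℝ} (hσ : ∀ j, 0 ≤ σ j) (hs : ∑ j, σ j = 1) {m : ℝ}
    (hm : ∀ θ, Good σ α θ → U σ α θ ≤ m) : Real.log 2 / r ≤ m := by
  have hr : 0 < r := by
    rcases Nat.eq_zero_or_pos r with h | h
    · subst h; simp at hs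
    · exact h
  have hr' : (0:ℝ) < r := by exact_mod_cast hr
  obtain ⟨j0, hj0⟩ : ∃ j, σ j ≠ 0 := by
    by_contra hcon
    push Not at hcon
    simp [hcon] at hs
  set c := α j0 with hc
  have hpi := Real.two_pi_pos
  classical
  set T : Finset ℝ := (Finset.univ.filter (fun j => σ j ≠ 0)).image
    (fun j => toIcoMod hpi c (α j)) with hT
  set S : Finset ℝ := insert (c + 2 * Real.pi) T with hS
  have hcT : c ∈ T := by
    rw [hT, Finset.mem_image]
    refine ⟨j0, by simp [hj0], ?_⟩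
    rw [← hc]; exact toIcoMod_apply_left hpi c
  have hTbad : ∀ x ∈ T, ¬ Good σ α x := by
    intro x hx hg
    rw [hT, Finset.mem_image] at hx
    obtain ⟨j, hj, rfl⟩ := hx
    rw [Finset.mem_filter] at hj
    apply hg j hj.2
    rw [Real.sin_eq_zero_iff]
    refine ⟨-toIcoDiv hpi c (α j), ?_⟩
    rw [toIcoMod, zsmul_eq_mul]
    push_cast
    ring
  have hTrange : ∀ x ∈ T, c ≤ x ∧ x < c + 2 * Real.pi := by
    intro x hx
    rw [hT, Finset.mem_image] at hx
    obtain ⟨j, -, rfl⟩ := hx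
    exact toIcoMod_mem_Ico hpi c (α j)
  have hSbad : ∀ x ∈ S, ¬ Good σ α x := by
    intro x hx
    rw [hS, Finset.mem_insert] at hx
    rcases hx with rfl | hx
    · intro hg
      apply hg j0 hj0
      rw [← hc]
      have : (c + 2 * Real.pi - c) / 2 = Real.pi := by ring
      rw [this, Real.sin_pi]
    · exact hTbad x hx
  have hSrange : ∀ x ∈ S, c ≤ x ∧ x ≤ c + 2 * Real.pi := by
    intro x hx
    rw [hS, Finset.mem_insert] at hx
    rcases hx with rfl | hx
    · exact ⟨by linarith, le_rfl⟩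
    · exact ⟨(hTrange x hx).1, (hTrange x hx).2.le⟩
  have hgood : ∀ θ, c ≤ θ → θ < c + 2 * Real.pi → θ ∉ T → Good σ α θ := by
    intro θ h1 h2 h3 j hj hsin
    apply h3
    rw [hT, Finset.mem_image]
    refine ⟨j, by simp [hj], ?_⟩
    obtain ⟨n, hn⟩ := Real.sin_eq_zero_iff.mp hsin
    have h4 : θ = α j + n • (2 * Real.pi) := by
      rw [zsmul_eq_mul]; linarith
    have h5 : toIcoMod hpi c θ = θ := by
      rw [toIcoMod_eq_self]; exact ⟨h1, h2⟩
    rw [h4, toIcoMod_add_zsmul] at h5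
    rw [h5, ← h4]
  have hint := fun x y => intble_f (α := α) hσ hs x y
  have hgap : ∀ a ∈ S, ∀ b ∈ S, a < b → (∀ x ∈ S, ¬ (a < x ∧ x < b)) →
      ∫ θ in a..b, f σ α θ ≤ m * (b - a) + 2 * Real.pi * Real.log 2 / (r : ℝ) ^ 2 := by
    intro a ha b hb hab hno
    have hgood' : ∀ θ ∈ Ioo a b, Good σ α θ := by
      intro θ hθ
      refine hgood θ ?_ ?_ ?_
      · linarith [(hSrange a ha).1, hθ.1]
      · linarith [(hSrange b hb).2, hθ.2]
      · intro hθT
        exact hno θ (Finset.mem_insert_of_mem hθT) hθ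
    exact gap_integral hσ hr hab (hSbad a ha) (hSbad b hb) hgood' (fun θ hθ => hm θ (hgood' θ hθ)) hint
  have hcS : c ∈ S := Finset.mem_insert_of_mem hcT
  have hcS' : c + 2 * Real.pi ∈ S := Finset.mem_insert_self _ _
  have htot := gaps_sum (f σ α) hint S m (2 * Real.pi * Real.log 2 / (r : ℝ) ^ 2) hgap _ c hcS
    (c + 2 * Real.pi) hcS' (by linarith) rfl
  rw [integral_f hσ hs] at htot
  have hcard : (S.filter (fun x => c < x ∧ x < c + 2 * Real.pi)).card + 1 ≤ r := by
    have h1 : S.filter (fun x => c < x ∧ x < c + 2 * Real.pi) ⊆ T.erase c := by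
      intro x hx
      rw [Finset.mem_filter] at hx
      rw [Finset.mem_erase]
      refine ⟨hx.2.1.ne', ?_⟩
      have h2 := hx.1
      rw [hS, Finset.mem_insert] at h2
      rcases h2 with h2 | h2
      · exact absurd hx.2.2 (by rw [h2]; exact lt_irrefl _)
      · exact h2
    have h2 := Finset.card_le_card h1
    rw [Finset.card_erase_of_mem hcT] at h2
    have h3 : T.card ≤ r := by
      calc T.card ≤ (Finset.univ.filter (fun j => σ j ≠ 0)).card := Finset.card_image_le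
        _ ≤ (Finset.univ : Finset (Fin r)).card := Finset.card_filter_le _ _
        _ = r := by simp
    have h4 : 0 < T.card := Finset.card_pos.mpr ⟨c, hcT⟩
    omega
  set n := (S.filter (fun x => c < x ∧ x < c + 2 * Real.pi)).card with hn
  have hcard' : (n : ℝ) + 1 ≤ r := by exact_mod_cast hcard
  have hlog : 0 < Real.log 2 := Real.log_pos (by norm_num)
  have hk : 2 * Real.pi * Real.log 2 / (r : ℝ) ^ 2 * ((n:ℝ) + 1) ≤
      2 * Real.pi * Real.log 2 / r := by
    calc 2 * Real.pi * Real.log 2 / (r : ℝ) ^ 2 * ((n:ℝ) + 1)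
        ≤ 2 * Real.pi * Real.log 2 / (r : ℝ) ^ 2 * r := by
          apply mul_le_mul_of_nonneg_left hcard' (by positivity)
      _ = _ := by field_simp
  have hfin : 4 * Real.pi * Real.log 2 / r ≤ m * (2 * Real.pi) + 2 * Real.pi * Real.log 2 / r := by
    have : c + 2 * Real.pi - c = 2 * Real.pi := by ring
    rw [this] at htot
    linarith
  have e1 : 4 * Real.pi * Real.log 2 / r = 2 * Real.pi * Real.log 2 / r + 2 * Real.pi * (Real.log 2 / r) := by
    ring
  rw [e1] at hfin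
  have : 2 * Real.pi * (Real.log 2 / r) ≤ 2 * Real.pi * m := by linarith
  exact le_of_mul_le_mul_left this hpi

end

end Pool.Agent.R256.Circ
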