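import Mathlib

open MeasureTheory Set Finset Real Filter Topology

namespace Pool.Agent.R256.ExpMax

variable {ι : Type*} [DecidableEq ι]

/-- `G(t) = ∏_{i∈s} (1 - exp(-a_i t))`. -/
noncomputable def G (s : Finset ι) (a : ι → ℝ) (t : ℝ) : ℝ :=
  ∏ i ∈ s, (1 - exp (-(a i * t)))

/-- `T(s,a) = Σ_{∅≠J⊆s} (-1)^{|J|+1} / Σ_J a` (the empty set contributes `0⁻¹ = 0`). -/
noncomputable def T (s : Finset ι) (a : ι → ℝ) : ℝ :=
  - ∑ J ∈ s.powerset, (-1 : ℝ) ^ J.card * (∑ j ∈ J, a j)⁻¹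

lemma G_expand (s : Finset ι) (a : ι → ℝ) (t : ℝ) :
    G s a t = ∑ J ∈ s.powerset, (-1 : ℝ) ^ J.card * exp (-((∑ j ∈ J, a j) * t)) := by
  induction s using Finset.induction_on with
  | empty => simp [G]
  | insert i s hi ih =>
    rw [Finset.sum_powerset_insert hi, G, Finset.prod_insert hi]
    have : (∏ i ∈ s, (1 - exp (-(a i * t)))) = G s a t := rfl
    rw [this, sub_mul, one_mul, ih, Finset.mul_sum, sub_eq_add_neg, ← Finset.sum_neg_distrib]
    congr 1
    apply Finset.sum_congr rfl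
    intro J hJ
    have hiJ : i ∉ J := fun h => hi (Finset.mem_powerset.mp hJ h)
    rw [Finset.card_insert_of_notMem hiJ, Finset.sum_insert hiJ]
    rw [show -((a i + ∑ j ∈ J, a j) * t) = -(a i * t) + -((∑ j ∈ J, a j) * t) by ring, exp_add]
    ring

lemma G_nonneg {s : Finset ι} {a : ι → ℝ} (ha : ∀ i, 0 < a i) {t : ℝ} (ht : 0 < t) :
    0 ≤ G s a t := by
  apply Finset.prod_nonneg
  intro i _
  have : exp (-(a i * t)) ≤ 1 := by
    rw [Real.exp_le_one_iff]
    have := mul_pos (ha i) ht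
    linarith
  linarith

lemma G_pos {s : Finset ι} {a : ι → ℝ} (ha : ∀ i, 0 < a i) {t : ℝ} (ht : 0 < t) :
    0 < G s a t := by
  apply Finset.prod_pos
  intro i _
  have : exp (-(a i * t)) < 1 := by
    rw [Real.exp_lt_one_iff]
    have := mul_pos (ha i) ht
    linarith
  linarith

lemma G_le_one {s : Finset ι} {a : ι → ℝ} (ha : ∀ i, 0 < a i) {t : ℝ} (ht : 0 < t) :
    G s a t ≤ 1 := by
  apply Finset.prod_le_one
  · intro i _
    have : exp (-(a i * t)) ≤ 1 := by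
      rw [Real.exp_le_one_iff]
      have := mul_pos (ha i) ht
      linarith
    linarith
  · intro i _
    have := exp_pos (-(a i * t))
    linarith

lemma continuous_G (s : Finset ι) (a : ι → ℝ) : Continuous (G s a) := by
  unfold G
  fun_prop

lemma int_exp {c : ℝ} (hc : 0 < c) :
    IntegrableOn (fun t => exp (-(c * t))) (Ioi 0) ∧ ∫ t in Ioi (0:ℝ), exp (-(c * t)) = c⁻¹ := by
  constructor
  · have := exp_neg_integrableOn_Ioi 0 hc
    simpa [neg_mul] using this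
  · have h := Real.integral_rpow_mul_exp_neg_mul_Ioi (a := 1) (r := c) one_pos hc
    simpa using h

lemma int_mul_exp {c : ℝ} (hc : 0 < c) :
    IntegrableOn (fun t => t * exp (-(c * t))) (Ioi 0) ∧
      ∫ t in Ioi (0:ℝ), t * exp (-(c * t)) = (c ^ 2)⁻¹ := by
  have h := Real.integral_rpow_mul_exp_neg_mul_Ioi (a := 2) (r := c) two_pos hc
  have e : ∀ t ∈ Ioi (0:ℝ), t ^ ((2:ℝ) - 1) * exp (-(c * t)) = t * exp (-(c * t)) := by
    intro t _
    rw [show (2:ℝ) - 1 = 1 by norm_num, Real.rpow_one]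
  rw [setIntegral_congr_fun measurableSet_Ioi e] at h
  have h2 : ∫ t in Ioi (0:ℝ), t * exp (-(c * t)) = (c ^ 2)⁻¹ := by
    rw [h]
    have : Real.Gamma 2 = 1 := by
      simpa using Real.Gamma_nat_eq_factorial 1
    rw [this, mul_one, one_div]
    rw [show (2:ℝ) = ((2:ℕ):ℝ) by norm_num, Real.rpow_natCast, inv_pow]
  refine ⟨?_, h2⟩
  by_contra hcon
  rw [integral_undef hcon] at h2
  have : (0:ℝ) < (c ^ 2)⁻¹ := by positivity
  linarith

lemma sum_pos' {J : Finset ι} {a : ι → ℝ} (ha : ∀ i, 0 < a i) : 0 ≤ ∑ j ∈ J, a j :=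
  Finset.sum_nonneg fun i _ => (ha i).le

/-- First Laplace identity. -/
lemma laplace1 (s : Finset ι) {a : ι → ℝ} (ha : ∀ i, 0 < a i) {c : ℝ} (hc : 0 < c) :
    ∑ J ∈ s.powerset, (-1 : ℝ) ^ J.card * (c + ∑ j ∈ J, a j)⁻¹ =
      ∫ t in Ioi (0:ℝ), exp (-(c * t)) * G s a t := by
  have e : ∀ t : ℝ, exp (-(c * t)) * G s a t =
      ∑ J ∈ s.powerset, (-1 : ℝ) ^ J.card * exp (-((c + ∑ j ∈ J, a j) * t)) := by
    intro t
    rw [G_expand, Finset.mul_sum]
    apply Finset.sum_congr rfl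
    intro J _
    rw [show -((c + ∑ j ∈ J, a j) * t) = -(c * t) + -((∑ j ∈ J, a j) * t) by ring, exp_add]
    ring
  simp_rw [e]
  rw [integral_finset_sum]
  · apply Finset.sum_congr rfl
    intro J _
    rw [integral_const_mul, (int_exp (add_pos_of_pos_of_nonneg hc (sum_pos' ha))).2]
  · intro J _
    exact ((int_exp (add_pos_of_pos_of_nonneg hc (sum_pos' ha))).1).const_mul _

/-- Second Laplace identity. -/
lemma laplace2 (s : Finset ι) {a : ι → ℝ} (ha : ∀ i, 0 < a i) {c : ℝ} (hc : 0 < c) :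
    ∑ J ∈ s.powerset, (-1 : ℝ) ^ J.card * ((c + ∑ j ∈ J, a j) ^ 2)⁻¹ =
      ∫ t in Ioi (0:ℝ), t * exp (-(c * t)) * G s a t := by
  have e : ∀ t : ℝ, t * exp (-(c * t)) * G s a t =
      ∑ J ∈ s.powerset, (-1 : ℝ) ^ J.card * (t * exp (-((c + ∑ j ∈ J, a j) * t))) := by
    intro t
    rw [G_expand, Finset.mul_sum]
    apply Finset.sum_congr rfl
    intro J _
    rw [show -((c + ∑ j ∈ J, a j) * t) = -(c * t) + -((∑ j ∈ J, a j) * t) by ring, exp_add]
    ring
  simp_rw [e]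
  rw [integral_finset_sum]
  · apply Finset.sum_congr rfl
    intro J _
    rw [integral_const_mul, (int_mul_exp (add_pos_of_pos_of_nonneg hc (sum_pos' ha))).2]
  · intro J _
    exact ((int_mul_exp (add_pos_of_pos_of_nonneg hc (sum_pos' ha))).1).const_mul _

lemma T_insert {s : Finset ι} {i : ι} (hi : i ∉ s) (a : ι → ℝ) :
    T (insert i s) a = T s a + ∑ J ∈ s.powerset, (-1 : ℝ) ^ J.card * (a i + ∑ j ∈ J, a j)⁻¹ := by
  unfold T
  rw [Finset.sum_powerset_insert hi, neg_add]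
  congr 1
  rw [← Finset.sum_neg_distrib]
  apply Finset.sum_congr rfl
  intro J hJ
  have hiJ : i ∉ J := fun h => hi (Finset.mem_powerset.mp hJ h)
  rw [Finset.card_insert_of_notMem hiJ, Finset.sum_insert hiJ]
  ring

lemma T_le_insert {s : Finset ι} {i : ι} (hi : i ∉ s) {a : ι → ℝ} (ha : ∀ i, 0 < a i) :
    T s a ≤ T (insert i s) a := by
  rw [T_insert hi, laplace1 s ha (ha i)]
  have : 0 ≤ ∫ t in Ioi (0:ℝ), exp (-(a i * t)) * G s a t := by
    apply setIntegral_nonneg measurableSet_Ioi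
    intro t ht
    exact mul_nonneg (exp_pos _).le (G_nonneg ha ht)
  linarith

lemma T_nonneg (s : Finset ι) {a : ι → ℝ} (ha : ∀ i, 0 < a i) : 0 ≤ T s a := by
  induction s using Finset.induction_on with
  | empty => simp [T]
  | insert i s hi ih => exact ih.trans (T_le_insert hi ha)

lemma T_smul (s : Finset ι) (a : ι → ℝ) (c : ℝ) : T s (fun i => c * a i) = c⁻¹ * T s a := by
  unfold T
  rw [mul_neg, Finset.mul_sum]
  congr 1
  apply Finset.sum_congr rfl
  intro J _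
  rw [← Finset.mul_sum, mul_inv]
  ring

end Pool.Agent.R256.ExpMax
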