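import Pool.Agent.R256.EM1

open MeasureTheory Set Finset Real Filter Topology

namespace Pool.Agent.R256.ExpMax

variable {ι : Type*} [DecidableEq ι]

/-! ### elementary bounds -/

lemma exp_sub_one_pos {y : ℝ} (hy : 0 < y) : 0 < exp y - 1 := by
  have := Real.add_one_lt_exp hy.ne'
  linarith

lemma exp_sub_one_ge {y : ℝ} (hy : 0 < y) : y / 4 * exp (3 * y / 4) ≤ exp y - 1 := by
  have h1 : exp y = exp (3 * y / 4) * exp (y / 4) := by
    rw [← exp_add]; congr 1; ring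
  have h2 : y / 4 + 1 ≤ exp (y / 4) := Real.add_one_le_exp _
  have h3 : 1 ≤ exp (3 * y / 4) := Real.one_le_exp (by linarith)
  rw [h1]
  nlinarith [exp_pos (3 * y / 4)]

/-- bound for `t/(e^{xt}-1)` -/
lemma bound1 {x t : ℝ} (hx : 0 < x) (ht : 0 < t) :
    t / (exp (x * t) - 1) ≤ 4 / x * exp (-(3 * x / 4 * t)) := by
  have hxt : 0 < x * t := mul_pos hx ht
  have h := exp_sub_one_ge hxt
  rw [div_le_iff₀ (exp_sub_one_pos hxt)]
  have e : exp (-(3 * x / 4 * t)) * exp (3 * (x * t) / 4) = 1 := by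
    rw [← exp_add]
    rw [show -(3 * x / 4 * t) + 3 * (x * t) / 4 = 0 by ring, exp_zero]
  have hp := exp_pos (-(3 * x / 4 * t))
  calc t = 4 / x * (x * t / 4) * 1 := by field_simp
    _ = 4 / x * (x * t / 4) * (exp (-(3 * x / 4 * t)) * exp (3 * (x * t) / 4)) := by rw [e]
    _ = 4 / x * exp (-(3 * x / 4 * t)) * (x * t / 4 * exp (3 * (x * t) / 4)) := by ring
    _ ≤ _ := by
      apply mul_le_mul_of_nonneg_left h
      positivity

/-- bound for `t² e^{xt}/(e^{xt}-1)²` -/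
lemma bound2 {x x1 t : ℝ} (hx1 : 0 < x1) (hx : x1 ≤ x) (ht : 0 < t) :
    t ^ 2 * exp (x * t) / (exp (x * t) - 1) ^ 2 ≤ 16 / x1 ^ 2 * exp (-(x1 / 2 * t)) := by
  have hx0 : 0 < x := hx1.trans_le hx
  have hxt : 0 < x * t := mul_pos hx0 ht
  have h := exp_sub_one_ge hxt
  have hpos := exp_sub_one_pos hxt
  rw [div_le_iff₀ (by positivity)]
  have h2 : (x * t / 4 * exp (3 * (x * t) / 4)) ^ 2 ≤ (exp (x * t) - 1) ^ 2 :=
    pow_le_pow_left₀ (by positivity) h 2
  have h3 : (x * t / 4 * exp (3 * (x * t) / 4)) ^ 2 = x ^ 2 * t ^ 2 / 16 * (exp (x * t) * exp (x / 2 * t)) := by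
    rw [← exp_add, mul_pow, ← exp_nat_mul]
    rw [show ((2:ℕ):ℝ) * (3 * (x * t) / 4) = x * t + x / 2 * t by push_cast; ring]
    ring
  have h4 : 1 ≤ exp (-(x1 / 2 * t)) * exp (x / 2 * t) := by
    rw [← exp_add]
    apply Real.one_le_exp
    nlinarith
  have h5 : x1 ^ 2 ≤ x ^ 2 := pow_le_pow_left₀ hx1.le hx 2
  calc t ^ 2 * exp (x * t) = 16 / x1 ^ 2 * (x1 ^ 2 * t ^ 2 / 16 * (exp (x * t) * 1)) := by
        field_simp
    _ ≤ 16 / x1 ^ 2 * (x ^ 2 * t ^ 2 / 16 * (exp (x * t) * (exp (-(x1 / 2 * t)) * exp (x / 2 * t)))) := by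
        gcongr
    _ = 16 / x1 ^ 2 * exp (-(x1 / 2 * t)) * (x ^ 2 * t ^ 2 / 16 * (exp (x * t) * exp (x / 2 * t))) := by ring
    _ = 16 / x1 ^ 2 * exp (-(x1 / 2 * t)) * (x * t / 4 * exp (3 * (x * t) / 4)) ^ 2 := by rw [h3]
    _ ≤ _ := by gcongr

section
variable (s : Finset ι) (a : ι → ℝ)

noncomputable def F (x t : ℝ) : ℝ := t * G s a t / (exp (x * t) - 1)

noncomputable def F' (x t : ℝ) : ℝ := - (t ^ 2 * G s a t * exp (x * t) / (exp (x * t) - 1) ^ 2)

variable {s a}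

lemma contOn_F {x : ℝ} (hx : 0 < x) : ContinuousOn (F s a x) (Ioi 0) := by
  unfold F
  apply ContinuousOn.div
  · exact (continuous_id.mul (continuous_G s a)).continuousOn
  · fun_prop
  · intro t ht
    exact (exp_sub_one_pos (mul_pos hx ht)).ne'

lemma contOn_F' {x : ℝ} (hx : 0 < x) : ContinuousOn (F' s a x) (Ioi 0) := by
  unfold F'
  apply ContinuousOn.neg
  apply ContinuousOn.div
  · have := continuous_G s a
    fun_prop
  · fun_prop
  · intro t ht
    exact pow_ne_zero _ (exp_sub_one_pos (mul_pos hx ht)).ne'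

lemma F_bound (ha : ∀ i, 0 < a i) {x t : ℝ} (hx : 0 < x) (ht : 0 < t) :
    ‖F s a x t‖ ≤ 4 / x * exp (-(3 * x / 4 * t)) := by
  have hpos := exp_sub_one_pos (mul_pos hx ht)
  have h1 := G_nonneg (s := s) ha ht
  have h2 := G_le_one (s := s) ha ht
  have : 0 ≤ F s a x t := by unfold F; positivity
  rw [Real.norm_of_nonneg this]
  refine le_trans ?_ (bound1 hx ht)
  unfold F
  gcongr
  nlinarith

lemma F'_bound (ha : ∀ i, 0 < a i) {x x1 t : ℝ} (hx1 : 0 < x1) (hx : x1 ≤ x) (ht : 0 < t) :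
    ‖F' s a x t‖ ≤ 16 / x1 ^ 2 * exp (-(x1 / 2 * t)) := by
  have hpos := exp_sub_one_pos (mul_pos (hx1.trans_le hx) ht)
  have h1 := G_nonneg (s := s) ha ht
  have h2 := G_le_one (s := s) ha ht
  unfold F'
  rw [norm_neg, Real.norm_of_nonneg (by positivity)]
  refine le_trans ?_ (bound2 hx1 hx ht)
  gcongr
  nlinarith [sq_nonneg t]

lemma integrable_F (ha : ∀ i, 0 < a i) {x : ℝ} (hx : 0 < x) : IntegrableOn (F s a x) (Ioi 0) := by
  have hb : IntegrableOn (fun t => 4 / x * exp (-(3 * x / 4 * t))) (Ioi 0) :=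
    (int_exp (c := 3 * x / 4) (by positivity)).1.const_mul _
  refine Integrable.mono' hb ((contOn_F hx).aestronglyMeasurable measurableSet_Ioi) ?_
  rw [ae_restrict_iff' measurableSet_Ioi]
  exact ae_of_all _ fun t ht => F_bound ha hx ht

lemma integrable_F' (ha : ∀ i, 0 < a i) {x : ℝ} (hx : 0 < x) : IntegrableOn (F' s a x) (Ioi 0) := by
  have hb : IntegrableOn (fun t => 16 / x ^ 2 * exp (-(x / 2 * t))) (Ioi 0) :=
    (int_exp (c := x / 2) (by positivity)).1.const_mul _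
  refine Integrable.mono' hb ((contOn_F' hx).aestronglyMeasurable measurableSet_Ioi) ?_
  rw [ae_restrict_iff' measurableSet_Ioi]
  exact ae_of_all _ fun t ht => F'_bound ha hx le_rfl ht

lemma hasDerivAt_F {x t : ℝ} (hx : 0 < x) (ht : 0 < t) :
    HasDerivAt (fun x => F s a x t) (F' s a x t) x := by
  have hpos := (exp_sub_one_pos (mul_pos hx ht)).ne'
  have h1 : HasDerivAt (fun x : ℝ => exp (x * t) - 1) (exp (x * t) * t) x := by
    have : HasDerivAt (fun x : ℝ => x * t) t x := by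
      simpa using (hasDerivAt_id x).mul_const t
    exact (this.exp).sub_const 1
  have h2 := (hasDerivAt_const x (t * G s a t)).div h1 hpos
  have e : (0 * (exp (x * t) - 1) - t * G s a t * (exp (x * t) * t)) / (exp (x * t) - 1) ^ 2 =
      F' s a x t := by
    unfold F'
    rw [zero_mul, zero_sub, neg_div]
    ring
  rw [e] at h2
  exact h2

noncomputable def I (s : Finset ι) (a : ι → ℝ) (x : ℝ) : ℝ := ∫ t in Ioi (0:ℝ), F s a x t

lemma hasDerivAt_I (ha : ∀ i, 0 < a i) {x : ℝ} (hx : 0 < x) :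
    HasDerivAt (I s a) (∫ t in Ioi (0:ℝ), F' s a x t) x := by
  have hx2 : 0 < x / 2 := by positivity
  have key := hasDerivAt_integral_of_dominated_loc_of_deriv_le
    (μ := volume.restrict (Ioi (0:ℝ))) (F := fun x t => F s a x t) (F' := fun x t => F' s a x t)
    (x₀ := x) (s := Ioi (x / 2)) (bound := fun t => 16 / (x / 2) ^ 2 * exp (-(x / 2 / 2 * t)))
    (Ioi_mem_nhds (by linarith)) ?_ (integrable_F ha hx) ?_ ?_ ?_ ?_
  · exact key.2
  · filter_upwards [Ioi_mem_nhds hx] with y hy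
    exact (contOn_F hy).aestronglyMeasurable measurableSet_Ioi
  · exact (contOn_F' hx).aestronglyMeasurable measurableSet_Ioi
  · rw [ae_restrict_iff' measurableSet_Ioi]
    exact ae_of_all _ fun t ht y hy => F'_bound ha hx2 (le_of_lt hy) ht
  · exact (int_exp (c := x / 2 / 2) (by positivity)).1.const_mul _
  · rw [ae_restrict_iff' measurableSet_Ioi]
    exact ae_of_all _ fun t ht y hy => hasDerivAt_F (hx2.trans hy) ht

/-- `h(x) = x³ ∫ t G(t)/(e^{xt}-1) dt`. -/
noncomputable def h (s : Finset ι) (a : ι → ℝ) (x : ℝ) : ℝ := x ^ 3 * I s a x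

noncomputable def q (u : ℝ) : ℝ := 3 - 3 * exp (-u) - u

noncomputable def W (u : ℝ) : ℝ := u * exp u / (exp u - 1) ^ 2 * q u

noncomputable def Ht (s : Finset ι) (a : ι → ℝ) (x : ℝ) : ℝ := ∫ u in Ioi (0:ℝ), G s a (x⁻¹ * u) * W u

lemma comb {x t : ℝ} (hx : 0 < x) (ht : 0 < t) :
    3 * F s a x t + x * F' s a x t = x⁻¹ * (G s a (x⁻¹ * (x * t)) * W (x * t)) := by
  have hpos := (exp_sub_one_pos (mul_pos hx ht)).ne'
  have e : exp (-(x * t)) * exp (x * t) = 1 := by rw [← exp_add]; simp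
  rw [inv_mul_cancel_left₀ hx.ne']
  unfold F F' W q
  have e2 : exp (-(x * t)) = 1 / exp (x * t) := by
    rw [exp_neg, one_div]
  rw [e2]
  have hE := (exp_pos (x * t)).ne'
  field_simp
  ring

lemma hasDerivAt_h (ha : ∀ i, 0 < a i) {x : ℝ} (hx : 0 < x) :
    HasDerivAt (h s a) (Ht s a x) x := by
  have h1 : HasDerivAt (fun x : ℝ => x ^ 3) (3 * x ^ 2) x := by
    simpa using hasDerivAt_pow 3 x
  have h2 := h1.mul (hasDerivAt_I (s := s) ha hx)
  have e : 3 * x ^ 2 * I s a x + x ^ 3 * ∫ t in Ioi (0:ℝ), F' s a x t = Ht s a x := by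
    have e1 : 3 * x ^ 2 * I s a x + x ^ 3 * ∫ t in Ioi (0:ℝ), F' s a x t =
        x ^ 2 * ∫ t in Ioi (0:ℝ), (3 * F s a x t + x * F' s a x t) := by
      rw [integral_add ((integrable_F ha hx).const_mul _) ((integrable_F' ha hx).const_mul _),
        integral_const_mul, integral_const_mul, I]
      ring
    rw [e1, setIntegral_congr_fun measurableSet_Ioi (fun t ht => comb hx ht), integral_const_mul]
    have := integral_comp_mul_left_Ioi (fun u => G s a (x⁻¹ * u) * W u) 0 hx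
    rw [this, mul_zero, smul_eq_mul, Ht]
    field_simp
  rw [← e]
  exact h2

lemma integrable_W (ha : ∀ i, 0 < a i) {x : ℝ} (hx : 0 < x) :
    IntegrableOn (fun u => G s a (x⁻¹ * u) * W u) (Ioi 0) := by
  have h1 : IntegrableOn (fun t => 3 * F s a x t + x * F' s a x t) (Ioi 0) :=
    ((integrable_F ha hx).const_mul _).add ((integrable_F' ha hx).const_mul _)
  have h2 : IntegrableOn (fun t => x⁻¹ * (G s a (x⁻¹ * (x * t)) * W (x * t))) (Ioi 0) :=
    h1.congr_fun (fun t ht => comb hx ht) measurableSet_Ioi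
  have h3 : IntegrableOn (fun t => G s a (x⁻¹ * (x * t)) * W (x * t)) (Ioi 0) := by
    have h4 : IntegrableOn (fun t => x * (x⁻¹ * (G s a (x⁻¹ * (x * t)) * W (x * t)))) (Ioi 0) :=
      h2.const_mul x
    refine h4.congr_fun (fun t ht => ?_) measurableSet_Ioi
    exact mul_inv_cancel_left₀ hx.ne' _
  have := (integrableOn_Ioi_comp_mul_left_iff (fun u => G s a (x⁻¹ * u) * W u) 0 hx).mp h3
  simpa using this

end

end Pool.Agent.R256.ExpMax
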