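import Pool.Agent.R256.EM2

open MeasureTheory Set Finset Real Filter Topology

namespace Pool.Agent.R256.ExpMax

variable {ι : Type*} [DecidableEq ι]

lemma q_zero : q 0 = 0 := by simp [q]

lemma exists_root : ∃ u0 : ℝ, 0 < u0 ∧ q u0 = 0 := by
  have hc : Continuous q := by unfold q; fun_prop
  have h1 : 0 < q 1 := by
    unfold q
    have : exp (-1) < 1 / 2 := by
      rw [exp_neg, ← one_div]
      apply one_div_lt_one_div_of_lt two_pos
      have := Real.add_one_lt_exp (x := 1) one_ne_zero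
      linarith
    linarith
  have h3 : q 3 < 0 := by
    unfold q
    have := exp_pos (-3)
    linarith
  obtain ⟨u, hu, hq⟩ := intermediate_value_Icc' (by norm_num : (1:ℝ) ≤ 3) hc.continuousOn
    ⟨h3.le, h1.le⟩
  exact ⟨u, by linarith [hu.1], hq⟩

lemma q_strictConcave : StrictConcaveOn ℝ univ q := by
  have h1 : StrictConvexOn ℝ univ (fun u : ℝ => exp (-u)) := by
    refine ⟨convex_univ, fun x _ y _ hxy a b ha hb hab => ?_⟩
    have := strictConvexOn_exp.2 (mem_univ (-x)) (mem_univ (-y)) (by simpa using hxy) ha hb hab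
    simpa [neg_add, smul_neg, add_comm] using this
  refine ⟨convex_univ, fun x _ y _ hxy a b ha hb hab => ?_⟩
  have := h1.2 (mem_univ x) (mem_univ y) hxy ha hb hab
  simp only [smul_eq_mul] at this ⊢
  unfold q
  have hb' : b = 1 - a := by linarith
  subst hb'
  nlinarith

lemma q_pos {u0 u : ℝ} (h0 : q u0 = 0) (hu : 0 < u) (huu : u < u0) : 0 < q u := by
  have hu0 : 0 < u0 := hu.trans huu
  have ha1 : 0 < 1 - u / u0 := by rw [sub_pos, div_lt_one hu0]; exact huu
  have hb1 : 0 < u / u0 := by positivity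
  have := q_strictConcave.2 (mem_univ 0) (mem_univ u0) hu0.ne ha1 hb1 (by ring)
  simp only [smul_eq_mul, q_zero, h0, mul_zero, add_zero, zero_add] at this
  rwa [div_mul_cancel₀ _ hu0.ne'] at this

lemma q_neg {u0 u : ℝ} (hu0 : 0 < u0) (h0 : q u0 = 0) (huu : u0 < u) : q u < 0 := by
  have hu : 0 < u := hu0.trans huu
  have ha1 : 0 < 1 - u0 / u := by rw [sub_pos, div_lt_one hu]; exact huu
  have hb1 : 0 < u0 / u := by positivity
  have := q_strictConcave.2 (mem_univ 0) (mem_univ u) hu.ne ha1 hb1 (by ring)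
  simp only [smul_eq_mul, q_zero, mul_zero, zero_add] at this
  rw [div_mul_cancel₀ _ hu.ne', h0] at this
  by_contra hcon
  push Not at hcon
  have : 0 ≤ u0 / u * q u := by positivity
  linarith

/-- Ratio monotonicity of a single factor. -/
lemma factor_ratio {c x y u v : ℝ} (hc : 0 < c) (hx : 0 < x) (hxy : x < y) (hu : 0 < u) (huv : u < v) :
    (1 - exp (-(c * (y⁻¹ * u)))) * (1 - exp (-(c * (x⁻¹ * v)))) <
      (1 - exp (-(c * (y⁻¹ * v)))) * (1 - exp (-(c * (x⁻¹ * u)))) := by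
  have hy : 0 < y := hx.trans hxy
  set θ := x / y with hθ
  have hθ0 : 0 < θ := by positivity
  have hθ1 : θ < 1 := by rw [hθ, div_lt_one hy]; exact hxy
  set A := exp (-(c * (x⁻¹ * u))) with hA
  set B := exp (-(c * (x⁻¹ * v))) with hB
  have hA0 : 0 < A := exp_pos _
  have hB0 : 0 < B := exp_pos _
  have hA1 : A < 1 := by
    rw [hA, Real.exp_lt_one_iff]
    have : 0 < c * (x⁻¹ * u) := by positivity
    linarith
  have hBA : B < A := by
    rw [hA, hB, Real.exp_lt_exp]
    have : c * (x⁻¹ * u) < c * (x⁻¹ * v) := by gcongr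
    linarith
  have eA : exp (-(c * (y⁻¹ * u))) = A ^ θ := by
    rw [hA, ← Real.exp_mul]
    congr 1
    rw [hθ]; field_simp
  have eB : exp (-(c * (y⁻¹ * v))) = B ^ θ := by
    rw [hB, ← Real.exp_mul]
    congr 1
    rw [hθ]; field_simp
  rw [eA, eB]
  have h := (Real.strictConcaveOn_rpow hθ0 hθ1).secant_strict_mono (a := 1) (x := B) (y := A)
    (by simp) (by simpa using hB0.le) (by simpa using hA0.le) (by linarith) (by linarith) hBA
  simp only [Real.one_rpow] at h
  have h1A : A - 1 < 0 := by linarith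
  have h1B : B - 1 < 0 := by linarith
  have h' : (1 - A ^ θ) / (1 - A) < (1 - B ^ θ) / (1 - B) := by
    have e1 : (A ^ θ - 1) / (A - 1) = (1 - A ^ θ) / (1 - A) := by
      rw [← neg_sub 1 (A ^ θ), ← neg_sub 1 A, neg_div_neg_eq]
    have e2 : (B ^ θ - 1) / (B - 1) = (1 - B ^ θ) / (1 - B) := by
      rw [← neg_sub 1 (B ^ θ), ← neg_sub 1 B, neg_div_neg_eq]
    rwa [e1, e2] at h
  rwa [div_lt_div_iff₀ (by linarith) (by linarith)] at h'

lemma one_sub_exp_pos {z : ℝ} (hz : 0 < z) : 0 < 1 - exp (-z) := by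
  have : exp (-z) < 1 := by rw [Real.exp_lt_one_iff]; linarith
  linarith

lemma G_ratio {s : Finset ι} (hs : s.Nonempty) {a : ι → ℝ} (ha : ∀ i, 0 < a i) {x y u v : ℝ}
    (hx : 0 < x) (hxy : x < y) (hu : 0 < u) (huv : u < v) :
    G s a (y⁻¹ * u) * G s a (x⁻¹ * v) < G s a (y⁻¹ * v) * G s a (x⁻¹ * u) := by
  have hy := hx.trans hxy
  have hv := hu.trans huv
  unfold G
  rw [← Finset.prod_mul_distrib, ← Finset.prod_mul_distrib]
  apply Finset.prod_lt_prod_of_nonempty
  · intro i _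
    have hai := ha i
    apply mul_pos <;> apply one_sub_exp_pos <;> positivity
  · intro i _
    exact factor_ratio (ha i) hx hxy hu huv
  · exact hs

lemma Wpos {u0 u : ℝ} (h0 : q u0 = 0) (hu : 0 < u) (huu : u < u0) : 0 < W u := by
  have := exp_sub_one_pos hu
  have := q_pos h0 hu huu
  unfold W
  positivity

lemma Wneg {u0 u : ℝ} (hu0 : 0 < u0) (h0 : q u0 = 0) (huu : u0 < u) : W u < 0 := by
  have hu := hu0.trans huu
  have := exp_sub_one_pos hu
  have h2 := q_neg hu0 h0 huu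
  unfold W
  apply mul_neg_of_pos_of_neg _ h2
  positivity

lemma Ht_neg {s : Finset ι} (hs : s.Nonempty) {a : ι → ℝ} (ha : ∀ i, 0 < a i) {x y : ℝ}
    (hx : 0 < x) (hxy : x < y) (hH : Ht s a x ≤ 0) : Ht s a y < 0 := by
  obtain ⟨u0, hu0, hq0⟩ := exists_root
  have hy := hx.trans hxy
  have gx : 0 < G s a (x⁻¹ * u0) := G_pos ha (by positivity)
  have gy : 0 < G s a (y⁻¹ * u0) := G_pos ha (by positivity)
  set D : ℝ → ℝ := fun u => G s a (y⁻¹ * u0) * (G s a (x⁻¹ * u) * W u) -
    G s a (x⁻¹ * u0) * (G s a (y⁻¹ * u) * W u) with hD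
  have hDint : IntegrableOn D (Ioi 0) :=
    ((integrable_W ha hx).const_mul _).sub ((integrable_W ha hy).const_mul _)
  have hDpos : ∀ u ∈ Ioi (0:ℝ), u ≠ u0 → 0 < D u := by
    intro u hu hne
    have hu' : 0 < u := hu
    have e : D u = (G s a (y⁻¹ * u0) * G s a (x⁻¹ * u) - G s a (y⁻¹ * u) * G s a (x⁻¹ * u0)) * W u := by
      rw [hD]; ring
    rw [e]
    rcases lt_or_gt_of_ne hne with h | h
    · apply mul_pos _ (Wpos hq0 hu' h)
      have := G_ratio hs ha hx hxy hu' h
      linarith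
    · apply mul_pos_of_neg_of_neg _ (Wneg hu0 hq0 h)
      have := G_ratio hs ha hx hxy hu0 h
      linarith
  have hDnn : ∀ u ∈ Ioi (0:ℝ), 0 ≤ D u := by
    intro u hu
    by_cases hne : u = u0
    · subst hne
      simp only [hD]
      have : G s a (y⁻¹ * u) * (G s a (x⁻¹ * u) * W u) -
        G s a (x⁻¹ * u) * (G s a (y⁻¹ * u) * W u) = 0 := by ring
      rw [this]
    · exact (hDpos u hu hne).le
  have hpos : 0 < ∫ u in Ioi (0:ℝ), D u := by
    rw [setIntegral_pos_iff_support_of_nonneg_ae]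
    · have : Ioo 0 u0 ⊆ Function.support D ∩ Ioi 0 := by
        intro u hu
        exact ⟨(hDpos u hu.1 hu.2.ne).ne', hu.1⟩
      refine lt_of_lt_of_le ?_ (measure_mono this)
      simp [hu0]
    · rw [Filter.EventuallyLE, ae_restrict_iff' measurableSet_Ioi]
      exact ae_of_all _ hDnn
    · exact hDint
  have e : ∫ u in Ioi (0:ℝ), D u = G s a (y⁻¹ * u0) * Ht s a x - G s a (x⁻¹ * u0) * Ht s a y := by
    rw [hD, integral_sub ((integrable_W ha hx).const_mul _) ((integrable_W ha hy).const_mul _),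
      integral_const_mul, integral_const_mul, Ht, Ht]
  rw [e] at hpos
  have h1 : G s a (y⁻¹ * u0) * Ht s a x ≤ 0 := mul_nonpos_of_nonneg_of_nonpos gy.le hH
  have h2 : G s a (x⁻¹ * u0) * Ht s a y < 0 := by linarith
  by_contra hcon
  push Not at hcon
  have := mul_nonneg gx.le hcon
  linarith

/-- The function `h` does not take the same value at three different points. -/
lemma no_three {s : Finset ι} (hs : s.Nonempty) {a : ι → ℝ} (ha : ∀ i, 0 < a i) {x y z : ℝ}
    (hx : 0 < x) (hxy : x < y) (hyz : y < z) (e1 : h s a x = h s a y) (e2 : h s a y = h s a z) :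
    False := by
  have hy := hx.trans hxy
  have cont : ∀ u v : ℝ, 0 < u → ContinuousOn (h s a) (Icc u v) := by
    intro u v hu w hw
    exact (hasDerivAt_h ha (hu.trans_le hw.1)).continuousAt.continuousWithinAt
  obtain ⟨c1, hc1, d1⟩ := exists_hasDerivAt_eq_zero hxy (cont x y hx) e1
    (f' := Ht s a) (fun w hw => hasDerivAt_h ha (hx.trans hw.1))
  obtain ⟨c2, hc2, d2⟩ := exists_hasDerivAt_eq_zero hyz (cont y z hy) e2
    (f' := Ht s a) (fun w hw => hasDerivAt_h ha (hy.trans hw.1))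
  have := Ht_neg hs ha (hx.trans hc1.1) (hc1.2.trans hc2.1) d1.le
  linarith

lemma no_three' {s : Finset ι} (hs : s.Nonempty) {a : ι → ℝ} (ha : ∀ i, 0 < a i) {x y z : ℝ}
    (hx : 0 < x) (hy : 0 < y) (hz : 0 < z) (hxy : x ≠ y) (hyz : y ≠ z) (hxz : x ≠ z)
    (e1 : h s a x = h s a y) (e2 : h s a y = h s a z) : False := by
  rcases lt_or_gt_of_ne hxy with h1 | h1 <;> rcases lt_or_gt_of_ne hyz with h2 | h2 <;>
    rcases lt_or_gt_of_ne hxz with h3 | h3
  · exact no_three hs ha hx h1 h2 e1 e2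
  · linarith
  · exact no_three hs ha hx h3 h2 (e1.trans e2) e2.symm
  · exact no_three hs ha hz h3 h1 (e1.trans e2).symm e1
  · exact no_three hs ha hy h1 h3 e1.symm (e1.trans e2)
  · exact no_three hs ha hy h2 h3 e2 (e1.trans e2).symm
  · linarith
  · exact no_three hs ha hz h2 h1 e2.symm e1.symm

end Pool.Agent.R256.ExpMax
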