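import Pool.Agent.R256.EM3

open MeasureTheory Set Finset Real Filter Topology

namespace Pool.Agent.R256.ExpMax

variable {ι : Type*} [DecidableEq ι]

/-- Difference operator. -/
noncomputable def dl (c : ℝ) (φ : ℝ → ℝ) : ℝ → ℝ := fun x => φ x - φ (x + c)

lemma dl_zero (c : ℝ) (φ : ℝ → ℝ) : (dl c)^[0] φ = φ := rfl

lemma dl_one (c : ℝ) (φ : ℝ → ℝ) : (dl c)^[1] φ = fun x => φ x - φ (x + c) := rfl

lemma dl_two (c : ℝ) (φ : ℝ → ℝ) :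
    (dl c)^[2] φ = fun x => φ x - 2 * φ (x + c) + φ (x + 2 * c) := by
  funext x
  simp only [Function.iterate_succ, Function.iterate_zero, Function.comp_apply, dl, id]
  ring_nf

lemma dl_three (c : ℝ) (φ : ℝ → ℝ) :
    (dl c)^[3] φ = fun x => φ x - 3 * φ (x + c) + 3 * φ (x + 2 * c) - φ (x + 3 * c) := by
  funext x
  simp only [Function.iterate_succ, Function.iterate_zero, Function.comp_apply, dl, id]
  ring_nf

lemma dl_four (c : ℝ) (φ : ℝ → ℝ) :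
    (dl c)^[4] φ = fun x => φ x - 4 * φ (x + c) + 6 * φ (x + 2 * c) - 4 * φ (x + 3 * c)
      + φ (x + 4 * c) := by
  funext x
  simp only [Function.iterate_succ, Function.iterate_zero, Function.comp_apply, dl, id]
  ring_nf

lemma dl_five (c : ℝ) (φ : ℝ → ℝ) :
    (dl c)^[5] φ = fun x => φ x - 5 * φ (x + c) + 10 * φ (x + 2 * c) - 10 * φ (x + 3 * c)
      + 5 * φ (x + 4 * c) - φ (x + 5 * c) := by
  funext x
  simp only [Function.iterate_succ, Function.iterate_zero, Function.comp_apply, dl, id]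
  ring_nf

lemma dl_six (c : ℝ) (φ : ℝ → ℝ) :
    (dl c)^[6] φ = fun x => φ x - 6 * φ (x + c) + 15 * φ (x + 2 * c) - 20 * φ (x + 3 * c)
      + 15 * φ (x + 4 * c) - 6 * φ (x + 5 * c) + φ (x + 6 * c) := by
  funext x
  simp only [Function.iterate_succ, Function.iterate_zero, Function.comp_apply, dl, id]
  ring_nf

lemma ratio_le {B N D k l : ℝ} (hB : 0 < B) (hD : 0 < D)
    (h : 0 ≤ N ^ 2 * B ^ 2 - (k * B ^ 2 + l) * D ^ 2) :
    k + l / B ^ 2 ≤ N ^ 2 / D ^ 2 := by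
  have e : k + l / B ^ 2 = (k * B ^ 2 + l) / B ^ 2 := by field_simp
  rw [e, div_le_div_iff₀ (by positivity) (by positivity)]
  linarith

lemma case_0_1 {z : ℝ} (hz : 0 ≤ z) :
    ((0 : ℕ) : ℝ) + ((1 : ℕ) : ℝ) / (1 + z) ^ 2 ≤
      ((dl 1)^[0] ((dl (1 + z))^[1] (fun x => x⁻¹)) 0) ^ 2 := by
  have e : (dl 1)^[0] ((dl (1 + z))^[1] (fun x => x⁻¹)) 0 =
      -((1) / (1 * (1 + z))) := by
    simp only [dl_zero, dl_one, dl_two, dl_three, dl_four, dl_five, dl_six]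
    try norm_num
    try field_simp
    try ring
  rw [e, neg_sq, div_pow]
  have hD : 0 < (1 * (1 + z)) := by positivity
  have key : 0 ≤ (1) ^ 2 * (1 + z) ^ 2 -
      (0 * (1 + z) ^ 2 + 1) * (1 * (1 + z)) ^ 2 := by
    have : (1) ^ 2 * (1 + z) ^ 2 -
      (0 * (1 + z) ^ 2 + 1) * (1 * (1 + z)) ^ 2 =
      0 := by ring
    rw [this]
    try positivity
  have hf := ratio_le (show (0 : ℝ) < 1 + z by positivity) hD key
  simpa only [Nat.cast_ofNat, Nat.cast_zero, Nat.cast_one] using hf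

lemma case_1_0 {z : ℝ} (hz : 0 ≤ z) :
    ((1 : ℕ) : ℝ) + ((0 : ℕ) : ℝ) / (1 + z) ^ 2 ≤
      ((dl 1)^[1] ((dl (1 + z))^[0] (fun x => x⁻¹)) 0) ^ 2 := by
  have e : (dl 1)^[1] ((dl (1 + z))^[0] (fun x => x⁻¹)) 0 =
      -((1) / (1 : ℝ)) := by
    simp only [dl_zero, dl_one, dl_two, dl_three, dl_four, dl_five, dl_six]
    try norm_num
    try field_simp
    try ring
  rw [e, neg_sq, div_pow]
  have hD : 0 < (1 : ℝ) := by positivity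
  have key : 0 ≤ (1) ^ 2 * (1 + z) ^ 2 -
      (1 * (1 + z) ^ 2 + 0) * (1 : ℝ) ^ 2 := by
    have : (1) ^ 2 * (1 + z) ^ 2 -
      (1 * (1 + z) ^ 2 + 0) * (1 : ℝ) ^ 2 =
      0 := by ring
    rw [this]
    try positivity
  have hf := ratio_le (show (0 : ℝ) < 1 + z by positivity) hD key
  simpa only [Nat.cast_ofNat, Nat.cast_zero, Nat.cast_one] using hf

lemma case_0_2 {z : ℝ} (hz : 0 ≤ z) :
    ((0 : ℕ) : ℝ) + ((2 : ℕ) : ℝ) / (1 + z) ^ 2 ≤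
      ((dl 1)^[0] ((dl (1 + z))^[2] (fun x => x⁻¹)) 0) ^ 2 := by
  have e : (dl 1)^[0] ((dl (1 + z))^[2] (fun x => x⁻¹)) 0 =
      -((3) / (2 * (1 + z))) := by
    simp only [dl_zero, dl_one, dl_two, dl_three, dl_four, dl_five, dl_six]
    try norm_num
    try field_simp
    try ring
  rw [e, neg_sq, div_pow]
  have hD : 0 < (2 * (1 + z)) := by positivity
  have key : 0 ≤ (3) ^ 2 * (1 + z) ^ 2 -
      (0 * (1 + z) ^ 2 + 2) * (2 * (1 + z)) ^ 2 := by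
    have : (3) ^ 2 * (1 + z) ^ 2 -
      (0 * (1 + z) ^ 2 + 2) * (2 * (1 + z)) ^ 2 =
      1 + 2 * z + 1 * z ^ 2 := by ring
    rw [this]
    try positivity
  have hf := ratio_le (show (0 : ℝ) < 1 + z by positivity) hD key
  simpa only [Nat.cast_ofNat, Nat.cast_zero, Nat.cast_one] using hf

lemma case_1_1 {z : ℝ} (hz : 0 ≤ z) :
    ((1 : ℕ) : ℝ) + ((1 : ℕ) : ℝ) / (1 + z) ^ 2 ≤
      ((dl 1)^[1] ((dl (1 + z))^[1] (fun x => x⁻¹)) 0) ^ 2 := by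
  have e : (dl 1)^[1] ((dl (1 + z))^[1] (fun x => x⁻¹)) 0 =
      -((3 + 3 * z + 1 * z ^ 2) / (1 * (1 + z) * (2 + z))) := by
    simp only [dl_zero, dl_one, dl_two, dl_three, dl_four, dl_five, dl_six]
    try norm_num
    try field_simp
    try ring
  rw [e, neg_sq, div_pow]
  have hD : 0 < (1 * (1 + z) * (2 + z)) := by positivity
  have key : 0 ≤ (3 + 3 * z + 1 * z ^ 2) ^ 2 * (1 + z) ^ 2 -
      (1 * (1 + z) ^ 2 + 1) * (1 * (1 + z) * (2 + z)) ^ 2 := by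
    have : (3 + 3 * z + 1 * z ^ 2) ^ 2 * (1 + z) ^ 2 -
      (1 * (1 + z) ^ 2 + 1) * (1 * (1 + z) * (2 + z)) ^ 2 =
      1 + 4 * z + 6 * z ^ 2 + 4 * z ^ 3 + 1 * z ^ 4 := by ring
    rw [this]
    try positivity
  have hf := ratio_le (show (0 : ℝ) < 1 + z by positivity) hD key
  simpa only [Nat.cast_ofNat, Nat.cast_zero, Nat.cast_one] using hf

lemma case_2_0 {z : ℝ} (hz : 0 ≤ z) :
    ((2 : ℕ) : ℝ) + ((0 : ℕ) : ℝ) / (1 + z) ^ 2 ≤
      ((dl 1)^[2] ((dl (1 + z))^[0] (fun x => x⁻¹)) 0) ^ 2 := by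
  have e : (dl 1)^[2] ((dl (1 + z))^[0] (fun x => x⁻¹)) 0 =
      -((3) / (2 : ℝ)) := by
    simp only [dl_zero, dl_one, dl_two, dl_three, dl_four, dl_five, dl_six]
    try norm_num
    try field_simp
    try ring
  rw [e, neg_sq, div_pow]
  have hD : 0 < (2 : ℝ) := by positivity
  have key : 0 ≤ (3) ^ 2 * (1 + z) ^ 2 -
      (2 * (1 + z) ^ 2 + 0) * (2 : ℝ) ^ 2 := by
    have : (3) ^ 2 * (1 + z) ^ 2 -
      (2 * (1 + z) ^ 2 + 0) * (2 : ℝ) ^ 2 =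
      1 + 2 * z + 1 * z ^ 2 := by ring
    rw [this]
    try positivity
  have hf := ratio_le (show (0 : ℝ) < 1 + z by positivity) hD key
  simpa only [Nat.cast_ofNat, Nat.cast_zero, Nat.cast_one] using hf

lemma case_0_3 {z : ℝ} (hz : 0 ≤ z) :
    ((0 : ℕ) : ℝ) + ((3 : ℕ) : ℝ) / (1 + z) ^ 2 ≤
      ((dl 1)^[0] ((dl (1 + z))^[3] (fun x => x⁻¹)) 0) ^ 2 := by
  have e : (dl 1)^[0] ((dl (1 + z))^[3] (fun x => x⁻¹)) 0 =
      -((11) / (6 * (1 + z))) := by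
    simp only [dl_zero, dl_one, dl_two, dl_three, dl_four, dl_five, dl_six]
    try norm_num
    try field_simp
    try ring
  rw [e, neg_sq, div_pow]
  have hD : 0 < (6 * (1 + z)) := by positivity
  have key : 0 ≤ (11) ^ 2 * (1 + z) ^ 2 -
      (0 * (1 + z) ^ 2 + 3) * (6 * (1 + z)) ^ 2 := by
    have : (11) ^ 2 * (1 + z) ^ 2 -
      (0 * (1 + z) ^ 2 + 3) * (6 * (1 + z)) ^ 2 =
      13 + 26 * z + 13 * z ^ 2 := by ring
    rw [this]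
    try positivity
  have hf := ratio_le (show (0 : ℝ) < 1 + z by positivity) hD key
  simpa only [Nat.cast_ofNat, Nat.cast_zero, Nat.cast_one] using hf

lemma case_1_2 {z : ℝ} (hz : 0 ≤ z) :
    ((1 : ℕ) : ℝ) + ((2 : ℕ) : ℝ) / (1 + z) ^ 2 ≤
      ((dl 1)^[1] ((dl (1 + z))^[2] (fun x => x⁻¹)) 0) ^ 2 := by
  have e : (dl 1)^[1] ((dl (1 + z))^[2] (fun x => x⁻¹)) 0 =
      -((22 + 33 * z + 18 * z ^ 2 + 4 * z ^ 3) / (2 * (1 + z) * (2 + z) * (3 + 2 * z))) := by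
    simp only [dl_zero, dl_one, dl_two, dl_three, dl_four, dl_five, dl_six]
    try norm_num
    try field_simp
    try ring
  rw [e, neg_sq, div_pow]
  have hD : 0 < (2 * (1 + z) * (2 + z) * (3 + 2 * z)) := by positivity
  have key : 0 ≤ (22 + 33 * z + 18 * z ^ 2 + 4 * z ^ 3) ^ 2 * (1 + z) ^ 2 -
      (1 * (1 + z) ^ 2 + 2) * (2 * (1 + z) * (2 + z) * (3 + 2 * z)) ^ 2 := by
    have : (22 + 33 * z + 18 * z ^ 2 + 4 * z ^ 3) ^ 2 * (1 + z) ^ 2 -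
      (1 * (1 + z) ^ 2 + 2) * (2 * (1 + z) * (2 + z) * (3 + 2 * z)) ^ 2 =
      52 + 260 * z + 553 * z ^ 2 + 642 * z ^ 3 + 429 * z ^ 4 + 156 * z ^ 5 + 24 * z ^ 6 := by ring
    rw [this]
    try positivity
  have hf := ratio_le (show (0 : ℝ) < 1 + z by positivity) hD key
  simpa only [Nat.cast_ofNat, Nat.cast_zero, Nat.cast_one] using hf

lemma case_2_1 {z : ℝ} (hz : 0 ≤ z) :
    ((2 : ℕ) : ℝ) + ((1 : ℕ) : ℝ) / (1 + z) ^ 2 ≤
      ((dl 1)^[2] ((dl (1 + z))^[1] (fun x => x⁻¹)) 0) ^ 2 := by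
  have e : (dl 1)^[2] ((dl (1 + z))^[1] (fun x => x⁻¹)) 0 =
      -((22 + 33 * z + 18 * z ^ 2 + 3 * z ^ 3) / (2 * (1 + z) * (2 + z) * (3 + z))) := by
    simp only [dl_zero, dl_one, dl_two, dl_three, dl_four, dl_five, dl_six]
    try norm_num
    try field_simp
    try ring
  rw [e, neg_sq, div_pow]
  have hD : 0 < (2 * (1 + z) * (2 + z) * (3 + z)) := by positivity
  have key : 0 ≤ (22 + 33 * z + 18 * z ^ 2 + 3 * z ^ 3) ^ 2 * (1 + z) ^ 2 -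
      (2 * (1 + z) ^ 2 + 1) * (2 * (1 + z) * (2 + z) * (3 + z)) ^ 2 := by
    have : (22 + 33 * z + 18 * z ^ 2 + 3 * z ^ 3) ^ 2 * (1 + z) ^ 2 -
      (2 * (1 + z) ^ 2 + 1) * (2 * (1 + z) * (2 + z) * (3 + z)) ^ 2 =
      52 + 260 * z + 553 * z ^ 2 + 662 * z ^ 3 + 499 * z ^ 4 + 248 * z ^ 5 + 79 * z ^ 6 + 14 * z ^ 7 + 1 * z ^ 8 := by ring
    rw [this]
    try positivity
  have hf := ratio_le (show (0 : ℝ) < 1 + z by positivity) hD key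
  simpa only [Nat.cast_ofNat, Nat.cast_zero, Nat.cast_one] using hf

lemma case_3_0 {z : ℝ} (hz : 0 ≤ z) :
    ((3 : ℕ) : ℝ) + ((0 : ℕ) : ℝ) / (1 + z) ^ 2 ≤
      ((dl 1)^[3] ((dl (1 + z))^[0] (fun x => x⁻¹)) 0) ^ 2 := by
  have e : (dl 1)^[3] ((dl (1 + z))^[0] (fun x => x⁻¹)) 0 =
      -((11) / (6 : ℝ)) := by
    simp only [dl_zero, dl_one, dl_two, dl_three, dl_four, dl_five, dl_six]
    try norm_num
    try field_simp
    try ring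
  rw [e, neg_sq, div_pow]
  have hD : 0 < (6 : ℝ) := by positivity
  have key : 0 ≤ (11) ^ 2 * (1 + z) ^ 2 -
      (3 * (1 + z) ^ 2 + 0) * (6 : ℝ) ^ 2 := by
    have : (11) ^ 2 * (1 + z) ^ 2 -
      (3 * (1 + z) ^ 2 + 0) * (6 : ℝ) ^ 2 =
      13 + 26 * z + 13 * z ^ 2 := by ring
    rw [this]
    try positivity
  have hf := ratio_le (show (0 : ℝ) < 1 + z by positivity) hD key
  simpa only [Nat.cast_ofNat, Nat.cast_zero, Nat.cast_one] using hf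

lemma case_0_4 {z : ℝ} (hz : 0 ≤ z) :
    ((0 : ℕ) : ℝ) + ((4 : ℕ) : ℝ) / (1 + z) ^ 2 ≤
      ((dl 1)^[0] ((dl (1 + z))^[4] (fun x => x⁻¹)) 0) ^ 2 := by
  have e : (dl 1)^[0] ((dl (1 + z))^[4] (fun x => x⁻¹)) 0 =
      -((25) / (12 * (1 + z))) := by
    simp only [dl_zero, dl_one, dl_two, dl_three, dl_four, dl_five, dl_six]
    try norm_num
    try field_simp
    try ring
  rw [e, neg_sq, div_pow]
  have hD : 0 < (12 * (1 + z)) := by positivity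
  have key : 0 ≤ (25) ^ 2 * (1 + z) ^ 2 -
      (0 * (1 + z) ^ 2 + 4) * (12 * (1 + z)) ^ 2 := by
    have : (25) ^ 2 * (1 + z) ^ 2 -
      (0 * (1 + z) ^ 2 + 4) * (12 * (1 + z)) ^ 2 =
      49 + 98 * z + 49 * z ^ 2 := by ring
    rw [this]
    try positivity
  have hf := ratio_le (show (0 : ℝ) < 1 + z by positivity) hD key
  simpa only [Nat.cast_ofNat, Nat.cast_zero, Nat.cast_one] using hf

lemma case_1_3 {z : ℝ} (hz : 0 ≤ z) :
    ((1 : ℕ) : ℝ) + ((3 : ℕ) : ℝ) / (1 + z) ^ 2 ≤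
      ((dl 1)^[1] ((dl (1 + z))^[3] (fun x => x⁻¹)) 0) ^ 2 := by
  have e : (dl 1)^[1] ((dl (1 + z))^[3] (fun x => x⁻¹)) 0 =
      -((300 + 650 * z + 535 * z ^ 2 + 210 * z ^ 3 + 36 * z ^ 4) / (6 * (1 + z) * (2 + z) * (3 + 2 * z) * (4 + 3 * z))) := by
    simp only [dl_zero, dl_one, dl_two, dl_three, dl_four, dl_five, dl_six]
    try norm_num
    try field_simp
    try ring
  rw [e, neg_sq, div_pow]
  have hD : 0 < (6 * (1 + z) * (2 + z) * (3 + 2 * z) * (4 + 3 * z)) := by positivity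
  have key : 0 ≤ (300 + 650 * z + 535 * z ^ 2 + 210 * z ^ 3 + 36 * z ^ 4) ^ 2 * (1 + z) ^ 2 -
      (1 * (1 + z) ^ 2 + 3) * (6 * (1 + z) * (2 + z) * (3 + 2 * z) * (4 + 3 * z)) ^ 2 := by
    have : (300 + 650 * z + 535 * z ^ 2 + 210 * z ^ 3 + 36 * z ^ 4) ^ 2 * (1 + z) ^ 2 -
      (1 * (1 + z) ^ 2 + 3) * (6 * (1 + z) * (2 + z) * (3 + 2 * z) * (4 + 3 * z)) ^ 2 =
      7056 + 44688 * z + 126844 * z ^ 2 + 211620 * z ^ 3 + 227293 * z ^ 4 + 160674 * z ^ 5 + 72697 * z ^ 6 + 19140 * z ^ 7 + 2232 * z ^ 8 := by ring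
    rw [this]
    try positivity
  have hf := ratio_le (show (0 : ℝ) < 1 + z by positivity) hD key
  simpa only [Nat.cast_ofNat, Nat.cast_zero, Nat.cast_one] using hf

lemma case_2_2 {z : ℝ} (hz : 0 ≤ z) :
    ((2 : ℕ) : ℝ) + ((2 : ℕ) : ℝ) / (1 + z) ^ 2 ≤
      ((dl 1)^[2] ((dl (1 + z))^[2] (fun x => x⁻¹)) 0) ^ 2 := by
  have e : (dl 1)^[2] ((dl (1 + z))^[2] (fun x => x⁻¹)) 0 =
      -((75 + 150 * z + 120 * z ^ 2 + 45 * z ^ 3 + 6 * z ^ 4) / (2 * (1 + z) * (2 + z) * (3 + 2 * z) * (3 + z))) := by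
    simp only [dl_zero, dl_one, dl_two, dl_three, dl_four, dl_five, dl_six]
    try norm_num
    try field_simp
    try ring
  rw [e, neg_sq, div_pow]
  have hD : 0 < (2 * (1 + z) * (2 + z) * (3 + 2 * z) * (3 + z)) := by positivity
  have key : 0 ≤ (75 + 150 * z + 120 * z ^ 2 + 45 * z ^ 3 + 6 * z ^ 4) ^ 2 * (1 + z) ^ 2 -
      (2 * (1 + z) ^ 2 + 2) * (2 * (1 + z) * (2 + z) * (3 + 2 * z) * (3 + z)) ^ 2 := by
    have : (75 + 150 * z + 120 * z ^ 2 + 45 * z ^ 3 + 6 * z ^ 4) ^ 2 * (1 + z) ^ 2 -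
      (2 * (1 + z) ^ 2 + 2) * (2 * (1 + z) * (2 + z) * (3 + 2 * z) * (3 + z)) ^ 2 =
      441 + 2646 * z + 7173 * z ^ 2 + 11610 * z ^ 3 + 12488 * z ^ 4 + 9398 * z ^ 5 + 5049 * z ^ 6 + 1910 * z ^ 7 + 477 * z ^ 8 + 68 * z ^ 9 + 4 * z ^ 10 := by ring
    rw [this]
    try positivity
  have hf := ratio_le (show (0 : ℝ) < 1 + z by positivity) hD key
  simpa only [Nat.cast_ofNat, Nat.cast_zero, Nat.cast_one] using hf

lemma case_3_1 {z : ℝ} (hz : 0 ≤ z) :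
    ((3 : ℕ) : ℝ) + ((1 : ℕ) : ℝ) / (1 + z) ^ 2 ≤
      ((dl 1)^[3] ((dl (1 + z))^[1] (fun x => x⁻¹)) 0) ^ 2 := by
  have e : (dl 1)^[3] ((dl (1 + z))^[1] (fun x => x⁻¹)) 0 =
      -((300 + 550 * z + 385 * z ^ 2 + 110 * z ^ 3 + 11 * z ^ 4) / (6 * (1 + z) * (2 + z) * (3 + z) * (4 + z))) := by
    simp only [dl_zero, dl_one, dl_two, dl_three, dl_four, dl_five, dl_six]
    try norm_num
    try field_simp
    try ring
  rw [e, neg_sq, div_pow]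
  have hD : 0 < (6 * (1 + z) * (2 + z) * (3 + z) * (4 + z)) := by positivity
  have key : 0 ≤ (300 + 550 * z + 385 * z ^ 2 + 110 * z ^ 3 + 11 * z ^ 4) ^ 2 * (1 + z) ^ 2 -
      (3 * (1 + z) ^ 2 + 1) * (6 * (1 + z) * (2 + z) * (3 + z) * (4 + z)) ^ 2 := by
    have : (300 + 550 * z + 385 * z ^ 2 + 110 * z ^ 3 + 11 * z ^ 4) ^ 2 * (1 + z) ^ 2 -
      (3 * (1 + z) ^ 2 + 1) * (6 * (1 + z) * (2 + z) * (3 + z) * (4 + z)) ^ 2 =
      7056 + 39984 * z + 100972 * z ^ 2 + 151300 * z ^ 3 + 149893 * z ^ 4 + 101942 * z ^ 5 + 47231 * z ^ 6 + 14360 * z ^ 7 + 2707 * z ^ 8 + 286 * z ^ 9 + 13 * z ^ 10 := by ring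
    rw [this]
    try positivity
  have hf := ratio_le (show (0 : ℝ) < 1 + z by positivity) hD key
  simpa only [Nat.cast_ofNat, Nat.cast_zero, Nat.cast_one] using hf

lemma case_4_0 {z : ℝ} (hz : 0 ≤ z) :
    ((4 : ℕ) : ℝ) + ((0 : ℕ) : ℝ) / (1 + z) ^ 2 ≤
      ((dl 1)^[4] ((dl (1 + z))^[0] (fun x => x⁻¹)) 0) ^ 2 := by
  have e : (dl 1)^[4] ((dl (1 + z))^[0] (fun x => x⁻¹)) 0 =
      -((25) / (12 : ℝ)) := by
    simp only [dl_zero, dl_one, dl_two, dl_three, dl_four, dl_five, dl_six]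
    try norm_num
    try field_simp
    try ring
  rw [e, neg_sq, div_pow]
  have hD : 0 < (12 : ℝ) := by positivity
  have key : 0 ≤ (25) ^ 2 * (1 + z) ^ 2 -
      (4 * (1 + z) ^ 2 + 0) * (12 : ℝ) ^ 2 := by
    have : (25) ^ 2 * (1 + z) ^ 2 -
      (4 * (1 + z) ^ 2 + 0) * (12 : ℝ) ^ 2 =
      49 + 98 * z + 49 * z ^ 2 := by ring
    rw [this]
    try positivity
  have hf := ratio_le (show (0 : ℝ) < 1 + z by positivity) hD key
  simpa only [Nat.cast_ofNat, Nat.cast_zero, Nat.cast_one] using hf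

lemma case_0_5 {z : ℝ} (hz : 0 ≤ z) :
    ((0 : ℕ) : ℝ) + ((5 : ℕ) : ℝ) / (1 + z) ^ 2 ≤
      ((dl 1)^[0] ((dl (1 + z))^[5] (fun x => x⁻¹)) 0) ^ 2 := by
  have e : (dl 1)^[0] ((dl (1 + z))^[5] (fun x => x⁻¹)) 0 =
      -((137) / (60 * (1 + z))) := by
    simp only [dl_zero, dl_one, dl_two, dl_three, dl_four, dl_five, dl_six]
    try norm_num
    try field_simp
    try ring
  rw [e, neg_sq, div_pow]
  have hD : 0 < (60 * (1 + z)) := by positivity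
  have key : 0 ≤ (137) ^ 2 * (1 + z) ^ 2 -
      (0 * (1 + z) ^ 2 + 5) * (60 * (1 + z)) ^ 2 := by
    have : (137) ^ 2 * (1 + z) ^ 2 -
      (0 * (1 + z) ^ 2 + 5) * (60 * (1 + z)) ^ 2 =
      769 + 1538 * z + 769 * z ^ 2 := by ring
    rw [this]
    try positivity
  have hf := ratio_le (show (0 : ℝ) < 1 + z by positivity) hD key
  simpa only [Nat.cast_ofNat, Nat.cast_zero, Nat.cast_one] using hf

lemma case_1_4 {z : ℝ} (hz : 0 ≤ z) :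
    ((1 : ℕ) : ℝ) + ((4 : ℕ) : ℝ) / (1 + z) ^ 2 ≤
      ((dl 1)^[1] ((dl (1 + z))^[4] (fun x => x⁻¹)) 0) ^ 2 := by
  have e : (dl 1)^[1] ((dl (1 + z))^[4] (fun x => x⁻¹)) 0 =
      -((3288 + 9590 * z + 11105 * z ^ 2 + 6530 * z ^ 3 + 2040 * z ^ 4 + 288 * z ^ 5) / (12 * (1 + z) * (2 + z) * (3 + 2 * z) * (4 + 3 * z) * (5 + 4 * z))) := by
    simp only [dl_zero, dl_one, dl_two, dl_three, dl_four, dl_five, dl_six]
    try norm_num
    try field_simp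
    try ring
  rw [e, neg_sq, div_pow]
  have hD : 0 < (12 * (1 + z) * (2 + z) * (3 + 2 * z) * (4 + 3 * z) * (5 + 4 * z)) := by positivity
  have key : 0 ≤ (3288 + 9590 * z + 11105 * z ^ 2 + 6530 * z ^ 3 + 2040 * z ^ 4 + 288 * z ^ 5) ^ 2 * (1 + z) ^ 2 -
      (1 * (1 + z) ^ 2 + 4) * (12 * (1 + z) * (2 + z) * (3 + 2 * z) * (4 + 3 * z) * (5 + 4 * z)) ^ 2 := by
    have : (3288 + 9590 * z + 11105 * z ^ 2 + 6530 * z ^ 3 + 2040 * z ^ 4 + 288 * z ^ 5) ^ 2 * (1 + z) ^ 2 -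
      (1 * (1 + z) ^ 2 + 4) * (12 * (1 + z) * (2 + z) * (3 + 2 * z) * (4 + 3 * z) * (5 + 4 * z)) ^ 2 =
      442944 + 3469728 * z + 12628564 * z ^ 2 + 28265812 * z ^ 3 + 43128821 * z ^ 4 + 46717858 * z ^ 5 + 36144821 * z ^ 6 + 19568044 * z ^ 7 + 7041508 * z ^ 8 + 1511520 * z ^ 9 + 146304 * z ^ 10 := by ring
    rw [this]
    try positivity
  have hf := ratio_le (show (0 : ℝ) < 1 + z by positivity) hD key
  simpa only [Nat.cast_ofNat, Nat.cast_zero, Nat.cast_one] using hf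

lemma case_2_3 {z : ℝ} (hz : 0 ≤ z) :
    ((2 : ℕ) : ℝ) + ((3 : ℕ) : ℝ) / (1 + z) ^ 2 ≤
      ((dl 1)^[2] ((dl (1 + z))^[3] (fun x => x⁻¹)) 0) ^ 2 := by
  have e : (dl 1)^[2] ((dl (1 + z))^[3] (fun x => x⁻¹)) 0 =
      -((4932 + 16029 * z + 22075 * z ^ 2 + 16640 * z ^ 3 + 7245 * z ^ 4 + 1701 * z ^ 5 + 162 * z ^ 6) / (6 * (1 + z) * (2 + z) * (3 + 2 * z) * (4 + 3 * z) * (3 + z) * (5 + 3 * z))) := by
    simp only [dl_zero, dl_one, dl_two, dl_three, dl_four, dl_five, dl_six]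
    try norm_num
    try field_simp
    try ring
  rw [e, neg_sq, div_pow]
  have hD : 0 < (6 * (1 + z) * (2 + z) * (3 + 2 * z) * (4 + 3 * z) * (3 + z) * (5 + 3 * z)) := by positivity
  have key : 0 ≤ (4932 + 16029 * z + 22075 * z ^ 2 + 16640 * z ^ 3 + 7245 * z ^ 4 + 1701 * z ^ 5 + 162 * z ^ 6) ^ 2 * (1 + z) ^ 2 -
      (2 * (1 + z) ^ 2 + 3) * (6 * (1 + z) * (2 + z) * (3 + 2 * z) * (4 + 3 * z) * (3 + z) * (5 + 3 * z)) ^ 2 := by
    have : (4932 + 16029 * z + 22075 * z ^ 2 + 16640 * z ^ 3 + 7245 * z ^ 4 + 1701 * z ^ 5 + 162 * z ^ 6) ^ 2 * (1 + z) ^ 2 -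
      (2 * (1 + z) ^ 2 + 3) * (6 * (1 + z) * (2 + z) * (3 + 2 * z) * (4 + 3 * z) * (3 + z) * (5 + 3 * z)) ^ 2 =
      996624 + 8471304 * z + 34271217 * z ^ 2 + 87523704 * z ^ 3 + 157250938 * z ^ 4 + 209376210 * z ^ 5 + 212140561 * z ^ 6 + 165593580 * z ^ 7 + 99807589 * z ^ 8 + 46087974 * z ^ 9 + 15971562 * z ^ 10 + 3994272 * z ^ 11 + 672705 * z ^ 12 + 67068 * z ^ 13 + 2916 * z ^ 14 := by ring
    rw [this]
    try positivity
  have hf := ratio_le (show (0 : ℝ) < 1 + z by positivity) hD key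
  simpa only [Nat.cast_ofNat, Nat.cast_zero, Nat.cast_one] using hf

lemma case_3_2 {z : ℝ} (hz : 0 ≤ z) :
    ((3 : ℕ) : ℝ) + ((2 : ℕ) : ℝ) / (1 + z) ^ 2 ≤
      ((dl 1)^[3] ((dl (1 + z))^[2] (fun x => x⁻¹)) 0) ^ 2 := by
  have e : (dl 1)^[3] ((dl (1 + z))^[2] (fun x => x⁻¹)) 0 =
      -((4932 + 13563 * z + 15910 * z ^ 2 + 10010 * z ^ 3 + 3465 * z ^ 4 + 616 * z ^ 5 + 44 * z ^ 6) / (6 * (1 + z) * (2 + z) * (3 + 2 * z) * (3 + z) * (4 + z) * (5 + 2 * z))) := by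
    simp only [dl_zero, dl_one, dl_two, dl_three, dl_four, dl_five, dl_six]
    try norm_num
    try field_simp
    try ring
  rw [e, neg_sq, div_pow]
  have hD : 0 < (6 * (1 + z) * (2 + z) * (3 + 2 * z) * (3 + z) * (4 + z) * (5 + 2 * z)) := by positivity
  have key : 0 ≤ (4932 + 13563 * z + 15910 * z ^ 2 + 10010 * z ^ 3 + 3465 * z ^ 4 + 616 * z ^ 5 + 44 * z ^ 6) ^ 2 * (1 + z) ^ 2 -
      (3 * (1 + z) ^ 2 + 2) * (6 * (1 + z) * (2 + z) * (3 + 2 * z) * (3 + z) * (4 + z) * (5 + 2 * z)) ^ 2 := by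
    have : (4932 + 13563 * z + 15910 * z ^ 2 + 10010 * z ^ 3 + 3465 * z ^ 4 + 616 * z ^ 5 + 44 * z ^ 6) ^ 2 * (1 + z) ^ 2 -
      (3 * (1 + z) ^ 2 + 2) * (6 * (1 + z) * (2 + z) * (3 + 2 * z) * (3 + z) * (4 + z) * (5 + 2 * z)) ^ 2 =
      996624 + 7474680 * z + 26796537 * z ^ 2 + 60895854 * z ^ 3 + 97535893 * z ^ 4 + 115432794 * z ^ 5 + 102912112 * z ^ 6 + 69356954 * z ^ 7 + 35097517 * z ^ 8 + 13142774 * z ^ 9 + 3560077 * z ^ 10 + 673904 * z ^ 11 + 84232 * z ^ 12 + 6240 * z ^ 13 + 208 * z ^ 14 := by ring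
    rw [this]
    try positivity
  have hf := ratio_le (show (0 : ℝ) < 1 + z by positivity) hD key
  simpa only [Nat.cast_ofNat, Nat.cast_zero, Nat.cast_one] using hf

lemma case_4_1 {z : ℝ} (hz : 0 ≤ z) :
    ((4 : ℕ) : ℝ) + ((1 : ℕ) : ℝ) / (1 + z) ^ 2 ≤
      ((dl 1)^[4] ((dl (1 + z))^[1] (fun x => x⁻¹)) 0) ^ 2 := by
  have e : (dl 1)^[4] ((dl (1 + z))^[1] (fun x => x⁻¹)) 0 =
      -((3288 + 6850 * z + 5625 * z ^ 2 + 2125 * z ^ 3 + 375 * z ^ 4 + 25 * z ^ 5) / (12 * (1 + z) * (2 + z) * (3 + z) * (4 + z) * (5 + z))) := by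
    simp only [dl_zero, dl_one, dl_two, dl_three, dl_four, dl_five, dl_six]
    try norm_num
    try field_simp
    try ring
  rw [e, neg_sq, div_pow]
  have hD : 0 < (12 * (1 + z) * (2 + z) * (3 + z) * (4 + z) * (5 + z)) := by positivity
  have key : 0 ≤ (3288 + 6850 * z + 5625 * z ^ 2 + 2125 * z ^ 3 + 375 * z ^ 4 + 25 * z ^ 5) ^ 2 * (1 + z) ^ 2 -
      (4 * (1 + z) ^ 2 + 1) * (12 * (1 + z) * (2 + z) * (3 + z) * (4 + z) * (5 + z)) ^ 2 := by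
    have : (3288 + 6850 * z + 5625 * z ^ 2 + 2125 * z ^ 3 + 375 * z ^ 4 + 25 * z ^ 5) ^ 2 * (1 + z) ^ 2 -
      (4 * (1 + z) ^ 2 + 1) * (12 * (1 + z) * (2 + z) * (3 + z) * (4 + z) * (5 + z)) ^ 2 =
      442944 + 2731488 * z + 7830004 * z ^ 2 + 13869788 * z ^ 3 + 16734849 * z ^ 4 + 14153140 * z ^ 5 + 8382140 * z ^ 6 + 3441444 * z ^ 7 + 968102 * z ^ 8 + 182860 * z ^ 9 + 22200 * z ^ 10 + 1568 * z ^ 11 + 49 * z ^ 12 := by ring
    rw [this]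
    try positivity
  have hf := ratio_le (show (0 : ℝ) < 1 + z by positivity) hD key
  simpa only [Nat.cast_ofNat, Nat.cast_zero, Nat.cast_one] using hf

lemma case_5_0 {z : ℝ} (hz : 0 ≤ z) :
    ((5 : ℕ) : ℝ) + ((0 : ℕ) : ℝ) / (1 + z) ^ 2 ≤
      ((dl 1)^[5] ((dl (1 + z))^[0] (fun x => x⁻¹)) 0) ^ 2 := by
  have e : (dl 1)^[5] ((dl (1 + z))^[0] (fun x => x⁻¹)) 0 =
      -((137) / (60 : ℝ)) := by
    simp only [dl_zero, dl_one, dl_two, dl_three, dl_four, dl_five, dl_six]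
    try norm_num
    try field_simp
    try ring
  rw [e, neg_sq, div_pow]
  have hD : 0 < (60 : ℝ) := by positivity
  have key : 0 ≤ (137) ^ 2 * (1 + z) ^ 2 -
      (5 * (1 + z) ^ 2 + 0) * (60 : ℝ) ^ 2 := by
    have : (137) ^ 2 * (1 + z) ^ 2 -
      (5 * (1 + z) ^ 2 + 0) * (60 : ℝ) ^ 2 =
      769 + 1538 * z + 769 * z ^ 2 := by ring
    rw [this]
    try positivity
  have hf := ratio_le (show (0 : ℝ) < 1 + z by positivity) hD key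
  simpa only [Nat.cast_ofNat, Nat.cast_zero, Nat.cast_one] using hf

lemma case_0_6 {z : ℝ} (hz : 0 ≤ z) :
    ((0 : ℕ) : ℝ) + ((6 : ℕ) : ℝ) / (1 + z) ^ 2 ≤
      ((dl 1)^[0] ((dl (1 + z))^[6] (fun x => x⁻¹)) 0) ^ 2 := by
  have e : (dl 1)^[0] ((dl (1 + z))^[6] (fun x => x⁻¹)) 0 =
      -((147) / (60 * (1 + z))) := by
    simp only [dl_zero, dl_one, dl_two, dl_three, dl_four, dl_five, dl_six]
    try norm_num
    try field_simp
    try ring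
  rw [e, neg_sq, div_pow]
  have hD : 0 < (60 * (1 + z)) := by positivity
  have key : 0 ≤ (147) ^ 2 * (1 + z) ^ 2 -
      (0 * (1 + z) ^ 2 + 6) * (60 * (1 + z)) ^ 2 := by
    have : (147) ^ 2 * (1 + z) ^ 2 -
      (0 * (1 + z) ^ 2 + 6) * (60 * (1 + z)) ^ 2 =
      9 + 18 * z + 9 * z ^ 2 := by ring
    rw [this]
    try positivity
  have hf := ratio_le (show (0 : ℝ) < 1 + z by positivity) hD key
  simpa only [Nat.cast_ofNat, Nat.cast_zero, Nat.cast_one] using hf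

lemma case_1_5 {z : ℝ} (hz : 0 ≤ z) :
    ((1 : ℕ) : ℝ) + ((5 : ℕ) : ℝ) / (1 + z) ^ 2 ≤
      ((dl 1)^[1] ((dl (1 + z))^[5] (fun x => x⁻¹)) 0) ^ 2 := by
  have e : (dl 1)^[1] ((dl (1 + z))^[5] (fun x => x⁻¹)) 0 =
      -((105840 + 393372 * z + 601748 * z ^ 2 + 489377 * z ^ 3 + 227738 * z ^ 4 + 59640 * z ^ 5 + 7200 * z ^ 6) / (60 * (1 + z) * (2 + z) * (3 + 2 * z) * (4 + 3 * z) * (5 + 4 * z) * (6 + 5 * z))) := by
    simp only [dl_zero, dl_one, dl_two, dl_three, dl_four, dl_five, dl_six]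
    try norm_num
    try field_simp
    try ring
  rw [e, neg_sq, div_pow]
  have hD : 0 < (60 * (1 + z) * (2 + z) * (3 + 2 * z) * (4 + 3 * z) * (5 + 4 * z) * (6 + 5 * z)) := by positivity
  have key : 0 ≤ (105840 + 393372 * z + 601748 * z ^ 2 + 489377 * z ^ 3 + 227738 * z ^ 4 + 59640 * z ^ 5 + 7200 * z ^ 6) ^ 2 * (1 + z) ^ 2 -
      (1 * (1 + z) ^ 2 + 5) * (60 * (1 + z) * (2 + z) * (3 + 2 * z) * (4 + 3 * z) * (5 + 4 * z) * (6 + 5 * z)) ^ 2 := by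
    have : (105840 + 393372 * z + 601748 * z ^ 2 + 489377 * z ^ 3 + 227738 * z ^ 4 + 59640 * z ^ 5 + 7200 * z ^ 6) ^ 2 * (1 + z) ^ 2 -
      (1 * (1 + z) ^ 2 + 5) * (60 * (1 + z) * (2 + z) * (3 + 2 * z) * (4 + 3 * z) * (5 + 4 * z) * (6 + 5 * z)) ^ 2 =
      4665600 + 44012160 * z + 612172944 * z ^ 2 + 4104787680 * z ^ 3 + 14747887000 * z ^ 4 + 32692949800 * z ^ 5 + 48213905897 * z ^ 6 + 49033510030 * z ^ 7 + 34722127325 * z ^ 8 + 16882938940 * z ^ 9 + 5390988484 * z ^ 10 + 1020495840 * z ^ 11 + 86947200 * z ^ 12 := by ring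
    rw [this]
    try positivity
  have hf := ratio_le (show (0 : ℝ) < 1 + z by positivity) hD key
  simpa only [Nat.cast_ofNat, Nat.cast_zero, Nat.cast_one] using hf

lemma case_2_4 {z : ℝ} (hz : 0 ≤ z) :
    ((2 : ℕ) : ℝ) + ((4 : ℕ) : ℝ) / (1 + z) ^ 2 ≤
      ((dl 1)^[2] ((dl (1 + z))^[4] (fun x => x⁻¹)) 0) ^ 2 := by
  have e : (dl 1)^[2] ((dl (1 + z))^[4] (fun x => x⁻¹)) 0 =
      -((52920 + 210798 * z + 361711 * z ^ 2 + 349510 * z ^ 3 + 206815 * z ^ 4 + 74970 * z ^ 5 + 15228 * z ^ 6 + 1296 * z ^ 7) / (12 * (1 + z) * (2 + z) * (3 + 2 * z) * (4 + 3 * z) * (5 + 4 * z) * (3 + z) * (5 + 3 * z))) := by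
    simp only [dl_zero, dl_one, dl_two, dl_three, dl_four, dl_five, dl_six]
    try norm_num
    try field_simp
    try ring
  rw [e, neg_sq, div_pow]
  have hD : 0 < (12 * (1 + z) * (2 + z) * (3 + 2 * z) * (4 + 3 * z) * (5 + 4 * z) * (3 + z) * (5 + 3 * z)) := by positivity
  have key : 0 ≤ (52920 + 210798 * z + 361711 * z ^ 2 + 349510 * z ^ 3 + 206815 * z ^ 4 + 74970 * z ^ 5 + 15228 * z ^ 6 + 1296 * z ^ 7) ^ 2 * (1 + z) ^ 2 -
      (2 * (1 + z) ^ 2 + 4) * (12 * (1 + z) * (2 + z) * (3 + 2 * z) * (4 + 3 * z) * (5 + 4 * z) * (3 + z) * (5 + 3 * z)) ^ 2 := by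
    have : (52920 + 210798 * z + 361711 * z ^ 2 + 349510 * z ^ 3 + 206815 * z ^ 4 + 74970 * z ^ 5 + 15228 * z ^ 6 + 1296 * z ^ 7) ^ 2 * (1 + z) ^ 2 -
      (2 * (1 + z) ^ 2 + 4) * (12 * (1 + z) * (2 + z) * (3 + 2 * z) * (4 + 3 * z) * (5 + 4 * z) * (3 + z) * (5 + 3 * z)) ^ 2 =
      1166400 + 11625120 * z + 222460884 * z ^ 2 + 1675298124 * z ^ 3 + 6621381973 * z ^ 4 + 16453062766 * z ^ 5 + 28193066663 * z ^ 6 + 35088728452 * z ^ 7 + 32692064639 * z ^ 8 + 23177398798 * z ^ 9 + 12571465957 * z ^ 10 + 5188943844 * z ^ 11 + 1600351164 * z ^ 12 + 355657392 * z ^ 13 + 53329104 * z ^ 14 + 4758912 * z ^ 15 + 186624 * z ^ 16 := by ring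
    rw [this]
    try positivity
  have hf := ratio_le (show (0 : ℝ) < 1 + z by positivity) hD key
  simpa only [Nat.cast_ofNat, Nat.cast_zero, Nat.cast_one] using hf

lemma case_3_3 {z : ℝ} (hz : 0 ≤ z) :
    ((3 : ℕ) : ℝ) + ((3 : ℕ) : ℝ) / (1 + z) ^ 2 ≤
      ((dl 1)^[3] ((dl (1 + z))^[3] (fun x => x⁻¹)) 0) ^ 2 := by
  have e : (dl 1)^[3] ((dl (1 + z))^[3] (fun x => x⁻¹)) 0 =
      -((105840 + 423360 * z + 747075 * z ^ 2 + 759465 * z ^ 3 + 483910 * z ^ 4 + 195965 * z ^ 5 + 48697 * z ^ 6 + 6732 * z ^ 7 + 396 * z ^ 8) / (6 * (1 + z) * (2 + z) * (3 + 2 * z) * (4 + 3 * z) * (3 + z) * (5 + 3 * z) * (4 + z) * (5 + 2 * z))) := by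
    simp only [dl_zero, dl_one, dl_two, dl_three, dl_four, dl_five, dl_six]
    try norm_num
    try field_simp
    try ring
  rw [e, neg_sq, div_pow]
  have hD : 0 < (6 * (1 + z) * (2 + z) * (3 + 2 * z) * (4 + 3 * z) * (3 + z) * (5 + 3 * z) * (4 + z) * (5 + 2 * z)) := by positivity
  have key : 0 ≤ (105840 + 423360 * z + 747075 * z ^ 2 + 759465 * z ^ 3 + 483910 * z ^ 4 + 195965 * z ^ 5 + 48697 * z ^ 6 + 6732 * z ^ 7 + 396 * z ^ 8) ^ 2 * (1 + z) ^ 2 -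
      (3 * (1 + z) ^ 2 + 3) * (6 * (1 + z) * (2 + z) * (3 + 2 * z) * (4 + 3 * z) * (3 + z) * (5 + 3 * z) * (4 + z) * (5 + 2 * z)) ^ 2 := by
    have : (105840 + 423360 * z + 747075 * z ^ 2 + 759465 * z ^ 3 + 483910 * z ^ 4 + 195965 * z ^ 5 + 48697 * z ^ 6 + 6732 * z ^ 7 + 396 * z ^ 8) ^ 2 * (1 + z) ^ 2 -
      (3 * (1 + z) ^ 2 + 3) * (6 * (1 + z) * (2 + z) * (3 + 2 * z) * (4 + 3 * z) * (3 + z) * (5 + 3 * z) * (4 + z) * (5 + 2 * z)) ^ 2 =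
      4665600 + 46656000 * z + 976989600 * z ^ 2 + 7463210400 * z ^ 3 + 29853444681 * z ^ 4 + 75689410248 * z ^ 5 + 133767025602 * z ^ 6 + 173746082274 * z ^ 7 + 171058473049 * z ^ 8 + 129905730216 * z ^ 9 + 76719343833 * z ^ 10 + 35261685962 * z ^ 11 + 12538165638 * z ^ 12 + 3404208900 * z ^ 13 + 690387061 * z ^ 14 + 100956672 * z ^ 15 + 10035288 * z ^ 16 + 606528 * z ^ 17 + 16848 * z ^ 18 := by ring
    rw [this]
    try positivity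
  have hf := ratio_le (show (0 : ℝ) < 1 + z by positivity) hD key
  simpa only [Nat.cast_ofNat, Nat.cast_zero, Nat.cast_one] using hf

lemma case_4_2 {z : ℝ} (hz : 0 ≤ z) :
    ((4 : ℕ) : ℝ) + ((2 : ℕ) : ℝ) / (1 + z) ^ 2 ≤
      ((dl 1)^[4] ((dl (1 + z))^[2] (fun x => x⁻¹)) 0) ^ 2 := by
  have e : (dl 1)^[4] ((dl (1 + z))^[2] (fun x => x⁻¹)) 0 =
      -((52920 + 159642 * z + 208243 * z ^ 2 + 149275 * z ^ 3 + 62125 * z ^ 4 + 14875 * z ^ 5 + 1900 * z ^ 6 + 100 * z ^ 7) / (12 * (1 + z) * (2 + z) * (3 + 2 * z) * (3 + z) * (4 + z) * (5 + 2 * z) * (5 + z))) := by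
    simp only [dl_zero, dl_one, dl_two, dl_three, dl_four, dl_five, dl_six]
    try norm_num
    try field_simp
    try ring
  rw [e, neg_sq, div_pow]
  have hD : 0 < (12 * (1 + z) * (2 + z) * (3 + 2 * z) * (3 + z) * (4 + z) * (5 + 2 * z) * (5 + z)) := by positivity
  have key : 0 ≤ (52920 + 159642 * z + 208243 * z ^ 2 + 149275 * z ^ 3 + 62125 * z ^ 4 + 14875 * z ^ 5 + 1900 * z ^ 6 + 100 * z ^ 7) ^ 2 * (1 + z) ^ 2 -
      (4 * (1 + z) ^ 2 + 2) * (12 * (1 + z) * (2 + z) * (3 + 2 * z) * (3 + z) * (4 + z) * (5 + 2 * z) * (5 + z)) ^ 2 := by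
    have : (52920 + 159642 * z + 208243 * z ^ 2 + 149275 * z ^ 3 + 62125 * z ^ 4 + 14875 * z ^ 5 + 1900 * z ^ 6 + 100 * z ^ 7) ^ 2 * (1 + z) ^ 2 -
      (4 * (1 + z) ^ 2 + 2) * (12 * (1 + z) * (2 + z) * (3 + 2 * z) * (3 + z) * (4 + z) * (5 + 2 * z) * (5 + z)) ^ 2 =
      1166400 + 9370080 * z + 203293044 * z ^ 2 + 1254842100 * z ^ 3 + 3851318593 * z ^ 4 + 7244006476 * z ^ 5 + 9183979748 * z ^ 6 + 8246444460 * z ^ 7 + 5386345462 * z ^ 8 + 2593783988 * z ^ 9 + 924687352 * z ^ 10 + 243081440 * z ^ 11 + 46489393 * z ^ 12 + 6292896 * z ^ 13 + 572024 * z ^ 14 + 31360 * z ^ 15 + 784 * z ^ 16 := by ring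
    rw [this]
    try positivity
  have hf := ratio_le (show (0 : ℝ) < 1 + z by positivity) hD key
  simpa only [Nat.cast_ofNat, Nat.cast_zero, Nat.cast_one] using hf

lemma case_5_1 {z : ℝ} (hz : 0 ≤ z) :
    ((5 : ℕ) : ℝ) + ((1 : ℕ) : ℝ) / (1 + z) ^ 2 ≤
      ((dl 1)^[5] ((dl (1 + z))^[1] (fun x => x⁻¹)) 0) ^ 2 := by
  have e : (dl 1)^[5] ((dl (1 + z))^[1] (fun x => x⁻¹)) 0 =
      -((105840 + 241668 * z + 222488 * z ^ 2 + 100695 * z ^ 3 + 23975 * z ^ 4 + 2877 * z ^ 5 + 137 * z ^ 6) / (60 * (1 + z) * (2 + z) * (3 + z) * (4 + z) * (5 + z) * (6 + z))) := by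
    simp only [dl_zero, dl_one, dl_two, dl_three, dl_four, dl_five, dl_six]
    try norm_num
    try field_simp
    try ring
  rw [e, neg_sq, div_pow]
  have hD : 0 < (60 * (1 + z) * (2 + z) * (3 + z) * (4 + z) * (5 + z) * (6 + z)) := by positivity
  have key : 0 ≤ (105840 + 241668 * z + 222488 * z ^ 2 + 100695 * z ^ 3 + 23975 * z ^ 4 + 2877 * z ^ 5 + 137 * z ^ 6) ^ 2 * (1 + z) ^ 2 -
      (5 * (1 + z) ^ 2 + 1) * (60 * (1 + z) * (2 + z) * (3 + z) * (4 + z) * (5 + z) * (6 + z)) ^ 2 := by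
    have : (105840 + 241668 * z + 222488 * z ^ 2 + 100695 * z ^ 3 + 23975 * z ^ 4 + 2877 * z ^ 5 + 137 * z ^ 6) ^ 2 * (1 + z) ^ 2 -
      (5 * (1 + z) ^ 2 + 1) * (60 * (1 + z) * (2 + z) * (3 + z) * (4 + z) * (5 + z) * (6 + z)) ^ 2 =
      4665600 + 30637440 * z + 511862544 * z ^ 2 + 2457092736 * z ^ 3 + 5559244264 * z ^ 4 + 7241949176 * z ^ 5 + 5961448881 * z ^ 6 + 3269095828 * z ^ 7 + 1235279492 * z ^ 8 + 327595548 * z ^ 9 + 61113206 * z ^ 10 + 7880236 * z ^ 11 + 670044 * z ^ 12 + 33836 * z ^ 13 + 769 * z ^ 14 := by ring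
    rw [this]
    try positivity
  have hf := ratio_le (show (0 : ℝ) < 1 + z by positivity) hD key
  simpa only [Nat.cast_ofNat, Nat.cast_zero, Nat.cast_one] using hf

lemma case_6_0 {z : ℝ} (hz : 0 ≤ z) :
    ((6 : ℕ) : ℝ) + ((0 : ℕ) : ℝ) / (1 + z) ^ 2 ≤
      ((dl 1)^[6] ((dl (1 + z))^[0] (fun x => x⁻¹)) 0) ^ 2 := by
  have e : (dl 1)^[6] ((dl (1 + z))^[0] (fun x => x⁻¹)) 0 =
      -((147) / (60 : ℝ)) := by
    simp only [dl_zero, dl_one, dl_two, dl_three, dl_four, dl_five, dl_six]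
    try norm_num
    try field_simp
    try ring
  rw [e, neg_sq, div_pow]
  have hD : 0 < (60 : ℝ) := by positivity
  have key : 0 ≤ (147) ^ 2 * (1 + z) ^ 2 -
      (6 * (1 + z) ^ 2 + 0) * (60 : ℝ) ^ 2 := by
    have : (147) ^ 2 * (1 + z) ^ 2 -
      (6 * (1 + z) ^ 2 + 0) * (60 : ℝ) ^ 2 =
      9 + 18 * z + 9 * z ^ 2 := by ring
    rw [this]
    try positivity
  have hf := ratio_le (show (0 : ℝ) < 1 + z by positivity) hD key
  simpa only [Nat.cast_ofNat, Nat.cast_zero, Nat.cast_one] using hf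

lemma case_all (k l : ℕ) (hkl : k + l ≤ 6) {z : ℝ} (hz : 0 ≤ z) :
    (k : ℝ) + (l : ℝ) / (1 + z) ^ 2 ≤
      ((dl 1)^[k] ((dl (1 + z))^[l] (fun x => x⁻¹)) 0) ^ 2 := by
  have hk : k ≤ 6 := by omega
  have hl : l ≤ 6 := by omega
  rcases k with _ | _ | _ | _ | _ | _ | _ | k
  · rcases l with _ | _ | _ | _ | _ | _ | _ | l
    · simp
    · exact case_0_1 hz
    · exact case_0_2 hz
    · exact case_0_3 hz
    · exact case_0_4 hz
    · exact case_0_5 hz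
    · exact case_0_6 hz
    · exfalso; omega
  · rcases l with _ | _ | _ | _ | _ | _ | l
    · exact case_1_0 hz
    · exact case_1_1 hz
    · exact case_1_2 hz
    · exact case_1_3 hz
    · exact case_1_4 hz
    · exact case_1_5 hz
    · exfalso; omega
  · rcases l with _ | _ | _ | _ | _ | l
    · exact case_2_0 hz
    · exact case_2_1 hz
    · exact case_2_2 hz
    · exact case_2_3 hz
    · exact case_2_4 hz
    · exfalso; omega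
  · rcases l with _ | _ | _ | _ | l
    · exact case_3_0 hz
    · exact case_3_1 hz
    · exact case_3_2 hz
    · exact case_3_3 hz
    · exfalso; omega
  · rcases l with _ | _ | _ | l
    · exact case_4_0 hz
    · exact case_4_1 hz
    · exact case_4_2 hz
    · exfalso; omega
  · rcases l with _ | _ | l
    · exact case_5_0 hz
    · exact case_5_1 hz
    · exfalso; omega
  · rcases l with _ | l
    · exact case_6_0 hz
    · exfalso; omega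
  · exfalso; omega

end Pool.Agent.R256.ExpMax
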