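import Pool.Agent.R256.EM5

open MeasureTheory Set Finset Real Filter Topology

namespace Pool.Agent.R256.ExpMax

variable {ι : Type*} [DecidableEq ι]

/-- Alternating sum over subsets. -/
noncomputable def Dsum (s : Finset ι) (a : ι → ℝ) (φ : ℝ → ℝ) (x : ℝ) : ℝ :=
  ∑ J ∈ s.powerset, (-1 : ℝ) ^ J.card * φ (x + ∑ j ∈ J, a j)

lemma Dsum_insert {s : Finset ι} {i : ι} (hi : i ∉ s) (a : ι → ℝ) (φ : ℝ → ℝ) (x : ℝ) :
    Dsum (insert i s) a φ x = Dsum s a φ x - Dsum s a φ (x + a i) := by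
  unfold Dsum
  rw [Finset.sum_powerset_insert hi, sub_eq_add_neg, ← Finset.sum_neg_distrib]
  congr 1
  apply Finset.sum_congr rfl
  intro J hJ
  have hiJ : i ∉ J := fun h => hi (Finset.mem_powerset.mp hJ h)
  rw [Finset.card_insert_of_notMem hiJ, Finset.sum_insert hiJ]
  rw [show x + (a i + ∑ j ∈ J, a j) = x + a i + ∑ j ∈ J, a j by ring]
  ring

lemma Dsum_insert' {s : Finset ι} {i : ι} (hi : i ∉ s) (a : ι → ℝ) (φ : ℝ → ℝ) (x : ℝ) :
    Dsum (insert i s) a φ x = Dsum s a (dl (a i) φ) x := by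
  rw [Dsum_insert hi]
  unfold Dsum dl
  rw [← Finset.sum_sub_distrib]
  apply Finset.sum_congr rfl
  intro J _
  rw [show x + a i + ∑ j ∈ J, a j = x + ∑ j ∈ J, a j + a i by ring]
  ring

lemma Dsum_two (a : ι → ℝ) {α β : ℝ} (s : Finset ι) : (∀ i ∈ s, a i = α ∨ a i = β) → α ≠ β →
    ∀ (φ : ℝ → ℝ) (x : ℝ),
    Dsum s a φ x = (dl α)^[(s.filter (fun i => a i = α)).card]
      ((dl β)^[(s.filter (fun i => ¬ a i = α)).card] φ) x := by
  induction s using Finset.induction_on with
  | empty => intro _ _ φ x; simp [Dsum]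
  | insert i s hi ih =>
    intro hs hne φ x
    have hs' : ∀ j ∈ s, a j = α ∨ a j = β := fun j hj => hs j (Finset.mem_insert_of_mem hj)
    rcases hs i (Finset.mem_insert_self i s) with h | h
    · rw [Dsum_insert hi, ih hs' hne, ih hs' hne]
      rw [Finset.filter_insert, if_pos h, Finset.filter_insert, if_neg (not_not.mpr h)]
      rw [Finset.card_insert_of_notMem (by simp [hi]), Function.iterate_succ_apply', h]
      rfl
    · have h' : ¬ a i = α := fun h2 => hne (h2.symm.trans h)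
      rw [Dsum_insert' hi, ih hs' hne, h]
      rw [Finset.filter_insert, if_neg (h ▸ h'), Finset.filter_insert, if_pos (h ▸ h')]
      rw [Finset.card_insert_of_notMem (by simp [hi]), Function.iterate_succ_apply]

lemma T_eq_Dsum (s : Finset ι) (a : ι → ℝ) : T s a = - Dsum s a (fun x => x⁻¹) 0 := by
  unfold T Dsum
  simp only [zero_add]

end Pool.Agent.R256.ExpMax
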