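import Pool.Agent.R256.EM6

open MeasureTheory Set Finset Real Filter Topology

namespace Pool.Agent.R256.ExpMax

variable {ι : Type*} [DecidableEq ι]

lemma sum_two (a : ι → ℝ) {α β : ℝ} (s : Finset ι) (hs : ∀ i ∈ s, a i = α ∨ a i = β) :
    ∑ i ∈ s, (a i ^ 2)⁻¹ = (s.filter (fun i => a i = α)).card * (α ^ 2)⁻¹ +
      (s.filter (fun i => ¬ a i = α)).card * (β ^ 2)⁻¹ := by
  rw [← Finset.sum_filter_add_sum_filter_not s (fun i => a i = α)]
  congr 1
  · rw [Finset.sum_congr rfl (g := fun _ => (α ^ 2)⁻¹), Finset.sum_const, nsmul_eq_mul]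
    intro i hi
    rw [(Finset.mem_filter.mp hi).2]
  · rw [Finset.sum_congr rfl (g := fun _ => (β ^ 2)⁻¹), Finset.sum_const, nsmul_eq_mul]
    intro i hi
    have h := Finset.mem_filter.mp hi
    rcases hs i h.1 with h1 | h1
    · exact absurd h1 h.2
    · rw [h1]

/-- Inequality when there are at most two values, smaller value `1`. -/
lemma two_val_aux (s : Finset ι) (hc : s.card ≤ 6) (a : ι → ℝ) {b : ℝ} (hb : 1 < b)
    (hs : ∀ i ∈ s, a i = 1 ∨ a i = b) : ∑ i ∈ s, (a i ^ 2)⁻¹ ≤ T s a ^ 2 := by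
  rw [T_eq_Dsum, neg_sq, Dsum_two a s hs hb.ne, sum_two a s hs]
  have hcard : (s.filter (fun i => a i = 1)).card + (s.filter (fun i => ¬ a i = 1)).card ≤ 6 := by
    rw [Finset.card_filter_add_card_filter_not]
    exact hc
  have h := case_all _ _ hcard (z := b - 1) (by linarith)
  rw [show 1 + (b - 1) = b by ring] at h
  have e : ((s.filter (fun i => a i = 1)).card : ℝ) * ((1:ℝ) ^ 2)⁻¹ +
      (s.filter (fun i => ¬ a i = 1)).card * (b ^ 2)⁻¹ =
      ((s.filter (fun i => a i = 1)).card : ℝ) + (s.filter (fun i => ¬ a i = 1)).card / b ^ 2 := by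
    rw [one_pow, inv_one, mul_one, div_eq_mul_inv]
  rw [e]
  exact h

lemma two_val_lt (s : Finset ι) (hc : s.card ≤ 6) (a : ι → ℝ) {α β : ℝ} (hα : 0 < α) (hαβ : α < β)
    (hs : ∀ i ∈ s, a i = α ∨ a i = β) : ∑ i ∈ s, (a i ^ 2)⁻¹ ≤ T s a ^ 2 := by
  have h := two_val_aux s hc (fun i => α⁻¹ * a i) (b := β / α) (by rwa [one_lt_div hα]) (by
    intro i hi
    rcases hs i hi with h | h
    · left; rw [h]; exact inv_mul_cancel₀ hα.ne'
    · right; rw [h]; field_simp)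
  rw [T_smul, inv_inv, mul_pow] at h
  have e : ∑ i ∈ s, ((α⁻¹ * a i) ^ 2)⁻¹ = α ^ 2 * ∑ i ∈ s, (a i ^ 2)⁻¹ := by
    rw [Finset.mul_sum]
    apply Finset.sum_congr rfl
    intro i _
    rw [mul_pow, mul_inv, inv_pow, inv_inv]
  rw [e] at h
  exact le_of_mul_le_mul_left h (by positivity)

lemma two_val (s : Finset ι) (hc : s.card ≤ 6) (a : ι → ℝ) {α β : ℝ} (hα : 0 < α) (hβ : 0 < β)
    (hs : ∀ i ∈ s, a i = α ∨ a i = β) : ∑ i ∈ s, (a i ^ 2)⁻¹ ≤ T s a ^ 2 := by
  rcases lt_trichotomy α β with h | h | h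
  · exact two_val_lt s hc a hα h hs
  · subst h
    exact two_val_lt s hc a hα (show α < α + 1 by linarith) (fun i hi => Or.inl (by
      rcases hs i hi with h | h <;> exact h))
  · exact two_val_lt s hc a hβ h (fun i hi => (hs i hi).symm)

/-- `h` in algebraic form at one of the points `a i`. -/
lemma h_at {s : Finset ι} {a : ι → ℝ} (ha : ∀ i, 0 < a i) {i : ι} (hi : i ∈ s) :
    h s a (a i) = a i ^ 3 * ∑ J ∈ (s.erase i).powerset, (-1 : ℝ) ^ J.card * ((a i + ∑ j ∈ J, a j) ^ 2)⁻¹ := by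
  unfold h I
  rw [laplace2 (s.erase i) ha (ha i)]
  congr 1
  apply setIntegral_congr_fun measurableSet_Ioi
  intro t ht
  have ht' : 0 < t := ht
  have hG : G s a t = (1 - exp (-(a i * t))) * G (s.erase i) a t := by
    unfold G
    exact (Finset.mul_prod_erase s (fun i => 1 - exp (-(a i * t))) hi).symm
  simp only [F]
  rw [hG]
  have hpos := (exp_sub_one_pos (mul_pos (ha i) ht')).ne'
  have e : exp (-(a i * t)) * exp (a i * t) = 1 := by rw [← exp_add]; simp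
  rw [div_eq_iff hpos]
  have : exp (-(a i * t)) * (exp (a i * t) - 1) = 1 - exp (-(a i * t)) := by
    rw [mul_sub, e, mul_one]
  calc t * ((1 - exp (-(a i * t))) * G (s.erase i) a t) =
      t * G (s.erase i) a t * (1 - exp (-(a i * t))) := by ring
    _ = t * G (s.erase i) a t * (exp (-(a i * t)) * (exp (a i * t) - 1)) := by rw [this]
    _ = _ := by ring

lemma sum_mem {s : Finset ι} {a : ι → ℝ} {i : ι} (hi : i ∈ s) :
    ∑ J ∈ s.powerset, (-1 : ℝ) ^ J.card * ((∑ j ∈ J, a j) ^ 2)⁻¹ * (if i ∈ J then a i ^ 3 else 0) =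
      - (a i ^ 3 * ∑ J ∈ (s.erase i).powerset, (-1 : ℝ) ^ J.card * ((a i + ∑ j ∈ J, a j) ^ 2)⁻¹) := by
  conv_lhs => rw [← Finset.insert_erase hi]
  rw [Finset.sum_powerset_insert (Finset.notMem_erase i s)]
  have h1 : ∑ J ∈ (s.erase i).powerset, (-1 : ℝ) ^ J.card * ((∑ j ∈ J, a j) ^ 2)⁻¹ *
      (if i ∈ J then a i ^ 3 else 0) = 0 := by
    apply Finset.sum_eq_zero
    intro J hJ
    have hiJ : i ∉ J := fun h => Finset.notMem_erase i s (Finset.mem_powerset.mp hJ h)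
    simp [hiJ]
  rw [h1, zero_add, Finset.mul_sum, ← Finset.sum_neg_distrib]
  apply Finset.sum_congr rfl
  intro J hJ
  have hiJ : i ∉ J := fun h => Finset.notMem_erase i s (Finset.mem_powerset.mp hJ h)
  rw [Finset.card_insert_of_notMem hiJ, Finset.sum_insert hiJ, if_pos (Finset.mem_insert_self i J)]
  ring

/-- parametrisation by `p = a^{-2}` -/
noncomputable def A (p : ι → ℝ) (i : ι) : ℝ := (Real.sqrt (p i))⁻¹

lemma A_pos {p : ι → ℝ} (hp : ∀ i, 0 < p i) (i : ι) : 0 < A p i := by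
  unfold A
  have := Real.sqrt_pos.mpr (hp i)
  positivity

lemma A_sq {p : ι → ℝ} (hp : ∀ i, 0 < p i) (i : ι) : (A p i ^ 2)⁻¹ = p i := by
  unfold A
  rw [inv_pow, inv_inv, Real.sq_sqrt (hp i).le]

lemma hasDerivAt_A {p d : ι → ℝ} (hp : ∀ i, 0 < p i) (i : ι) :
    HasDerivAt (fun r : ℝ => A (fun k => p k + r * d k) i) (-(d i * A p i ^ 3 / 2)) 0 := by
  have h1 : HasDerivAt (fun r : ℝ => p i + r * d i) (d i) 0 := by
    simpa using ((hasDerivAt_id (0:ℝ)).mul_const (d i)).const_add (p i)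
  have h2 : HasDerivAt (fun r : ℝ => Real.sqrt (p i + r * d i)) (d i / (2 * Real.sqrt (p i))) 0 := by
    have := h1.sqrt (by simpa using (hp i).ne')
    simpa using this
  have hs : Real.sqrt (p i + 0 * d i) ≠ 0 := by
    simpa using (Real.sqrt_pos.mpr (hp i)).ne'
  have h3 := h2.inv hs
  have e : -(d i / (2 * Real.sqrt (p i))) / Real.sqrt (p i + 0 * d i) ^ 2 = -(d i * A p i ^ 3 / 2) := by
    have : Real.sqrt (p i) ≠ 0 := (Real.sqrt_pos.mpr (hp i)).ne'
    unfold A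
    simp only [zero_mul, add_zero]
    field_simp
  rw [e] at h3
  exact h3

lemma sumJ_pos {J : Finset ι} (hJ : J.Nonempty) {a : ι → ℝ} (ha : ∀ i, 0 < a i) :
    0 < ∑ j ∈ J, a j := Finset.sum_pos (fun i _ => ha i) hJ

lemma hasDerivAt_T {s : Finset ι} {p d : ι → ℝ} (hp : ∀ i, 0 < p i) :
    HasDerivAt (fun r : ℝ => T s (A (fun k => p k + r * d k)))
      (-∑ J ∈ s.powerset, (-1 : ℝ) ^ J.card * ((∑ j ∈ J, A p j) ^ 2)⁻¹ *
        (∑ j ∈ J, d j * A p j ^ 3 / 2)) 0 := by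
  unfold T
  apply HasDerivAt.neg
  apply HasDerivAt.fun_sum
  intro J _
  rw [mul_assoc]
  apply HasDerivAt.const_mul
  rcases J.eq_empty_or_nonempty with hJ | hJ
  · subst hJ
    simpa using hasDerivAt_const (0:ℝ) (0:ℝ)
  · have h1 : HasDerivAt (fun r : ℝ => ∑ j ∈ J, A (fun k => p k + r * d k) j)
        (∑ j ∈ J, -(d j * A p j ^ 3 / 2)) 0 :=
      HasDerivAt.fun_sum fun j _ => hasDerivAt_A hp j
    have hne : ∑ j ∈ J, A (fun k => p k + 0 * d k) j ≠ 0 := by
      simp only [zero_mul, add_zero]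
      exact (sumJ_pos hJ (A_pos hp)).ne'
    have h2 := h1.inv hne
    have e : -(∑ j ∈ J, -(d j * A p j ^ 3 / 2)) / (∑ j ∈ J, A (fun k => p k + 0 * d k) j) ^ 2 =
        ((∑ j ∈ J, A p j) ^ 2)⁻¹ * (∑ j ∈ J, d j * A p j ^ 3 / 2) := by
      simp only [zero_mul, add_zero]
      rw [Finset.sum_neg_distrib, neg_neg, div_eq_mul_inv, mul_comm]
    rw [e] at h2
    exact h2

/-- the derivative in the direction `e_i - e_j` -/
lemma deriv_dir {s : Finset ι} {p : ι → ℝ} (hp : ∀ i, 0 < p i) {i j : ι} (hi : i ∈ s) (hj : j ∈ s) :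
    HasDerivAt (fun r : ℝ => T s (A (fun k => p k + r * ((if k = i then 1 else 0) - (if k = j then 1 else 0)))))
      ((h s (A p) (A p i) - h s (A p) (A p j)) / 2) 0 := by
  have h0 := hasDerivAt_T (s := s) (d := fun k => (if k = i then (1:ℝ) else 0) - (if k = j then 1 else 0)) hp
  have e : (-∑ J ∈ s.powerset, (-1 : ℝ) ^ J.card * ((∑ j ∈ J, A p j) ^ 2)⁻¹ *
        (∑ k ∈ J, ((if k = i then (1:ℝ) else 0) - (if k = j then 1 else 0)) * A p k ^ 3 / 2)) =
        (h s (A p) (A p i) - h s (A p) (A p j)) / 2 := by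
    rw [h_at (A_pos hp) hi, h_at (A_pos hp) hj]
    have e1 := sum_mem (s := s) (a := A p) hi
    have e2 := sum_mem (s := s) (a := A p) hj
    have e3 : ∑ J ∈ s.powerset, (-1 : ℝ) ^ J.card * ((∑ j ∈ J, A p j) ^ 2)⁻¹ *
        (∑ k ∈ J, ((if k = i then (1:ℝ) else 0) - (if k = j then 1 else 0)) * A p k ^ 3 / 2) =
        (∑ J ∈ s.powerset, (-1 : ℝ) ^ J.card * ((∑ j ∈ J, A p j) ^ 2)⁻¹ * (if i ∈ J then A p i ^ 3 else 0)) / 2
        - (∑ J ∈ s.powerset, (-1 : ℝ) ^ J.card * ((∑ j ∈ J, A p j) ^ 2)⁻¹ * (if j ∈ J then A p j ^ 3 else 0)) / 2 := by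
      rw [Finset.sum_div, Finset.sum_div, ← Finset.sum_sub_distrib]
      apply Finset.sum_congr rfl
      intro J _
      have e4 : ∑ k ∈ J, ((if k = i then (1:ℝ) else 0) - (if k = j then 1 else 0)) * A p k ^ 3 / 2 =
          (if i ∈ J then A p i ^ 3 else 0) / 2 - (if j ∈ J then A p j ^ 3 else 0) / 2 := by
        have : ∀ l : ι, (if l ∈ J then A p l ^ 3 else 0) / 2 = ∑ k ∈ J, (if k = l then (1:ℝ) else 0) * A p k ^ 3 / 2 := by
          intro l
          simp only [ite_mul, one_mul, zero_mul, ite_div, zero_div]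
          rw [Finset.sum_ite_eq']
        rw [this i, this j, ← Finset.sum_sub_distrib]
        apply Finset.sum_congr rfl
        intro k _
        ring
      rw [e4]
      ring
    rw [e3, e1, e2]
    ring
  rw [← e]
  exact h0

end Pool.Agent.R256.ExpMax
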