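import Pool.Agent.R256.EM7

open MeasureTheory Set Finset Real Filter Topology

namespace Pool.Agent.R256.ExpMax

variable {ι : Type*} [DecidableEq ι]

lemma T_congr {s : Finset ι} {a b : ι → ℝ} (hab : ∀ i ∈ s, a i = b i) : T s a = T s b := by
  unfold T
  congr 1
  apply Finset.sum_congr rfl
  intro J hJ
  rw [Finset.sum_congr rfl (fun j hj => hab j (Finset.mem_powerset.mp hJ hj))]

lemma lower_bound {s : Finset ι} {i : ι} (hi : i ∈ s)
    (ih : ∀ a : ι → ℝ, (∀ i, 0 < a i) → ∑ k ∈ s.erase i, (a k ^ 2)⁻¹ ≤ T (s.erase i) a ^ 2)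
    {p : ι → ℝ} (hp : ∀ i, 0 < p i) (h1 : ∑ k ∈ s, p k = 1) : 1 - p i ≤ T s (A p) ^ 2 := by
  have h2 := ih (A p) (A_pos hp)
  have h3 : ∑ k ∈ s.erase i, (A p k ^ 2)⁻¹ = 1 - p i := by
    rw [Finset.sum_congr rfl (fun k _ => A_sq hp k)]
    have := Finset.add_sum_erase s p hi
    linarith
  rw [h3] at h2
  have h4 : T (s.erase i) (A p) ≤ T s (A p) := by
    have := T_le_insert (Finset.notMem_erase i s) (A_pos hp)
    rwa [Finset.insert_erase hi] at this
  exact h2.trans (pow_le_pow_left₀ (T_nonneg _ (A_pos hp)) h4 2)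

lemma contOn_T {s : Finset ι} {K : Set (ι → ℝ)} (hK : ∀ p ∈ K, ∀ i, 0 < p i) :
    ContinuousOn (fun p => T s (A p)) K := by
  unfold T
  apply ContinuousOn.neg
  apply continuousOn_finset_sum
  intro J _
  apply ContinuousOn.mul continuousOn_const
  rcases J.eq_empty_or_nonempty with hJ | hJ
  · subst hJ
    simpa using continuousOn_const
  · apply ContinuousOn.inv₀
    · apply continuousOn_finset_sum
      intro j _
      unfold A
      apply ContinuousOn.inv₀
      · exact (Real.continuous_sqrt.comp (continuous_apply j)).continuousOn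
      · intro p hp
        exact (Real.sqrt_pos.mpr (hK p hp j)).ne'
    · intro p hp
      exact (sumJ_pos hJ (A_pos (hK p hp))).ne'

theorem main_ineq (s : Finset ι) : s.card ≤ 6 → ∀ a : ι → ℝ, (∀ i, 0 < a i) →
    ∑ i ∈ s, (a i ^ 2)⁻¹ ≤ T s a ^ 2 := by
  induction s using Finset.strongInduction with
  | H s IH =>
  intro hc a ha
  rcases s.eq_empty_or_nonempty with hs | hs
  · subst hs; simp [T]
  by_contra hcon
  push Not at hcon
  set Sg := ∑ i ∈ s, (a i ^ 2)⁻¹ with hSg
  have hSgpos : 0 < Sg := Finset.sum_pos (fun i _ => by have := ha i; positivity) hs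
  -- initial point
  set p0 : ι → ℝ := fun k => if k ∈ s then (a k ^ 2)⁻¹ / Sg else 1 with hp0
  have hp0pos : ∀ i, 0 < p0 i := by
    intro i
    simp only [hp0]
    split_ifs
    · have := ha i; positivity
    · exact one_pos
  have hp0sum : ∑ k ∈ s, p0 k = 1 := by
    have : ∑ k ∈ s, p0 k = ∑ k ∈ s, (a k ^ 2)⁻¹ / Sg :=
      Finset.sum_congr rfl fun k hk => by simp only [hp0, if_pos hk]
    rw [this, ← Finset.sum_div, ← hSg, div_self hSgpos.ne']
  have hT0 : T s (A p0) = (Real.sqrt Sg)⁻¹ * T s a := by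
    rw [← T_smul]
    apply T_congr
    intro i hi
    unfold A
    simp only [hp0, if_pos hi]
    rw [Real.sqrt_div (by have := ha i; positivity), Real.sqrt_inv, Real.sqrt_sq (ha i).le]
    have h1 := (ha i).ne'
    have h2 := (Real.sqrt_pos.mpr hSgpos).ne'
    field_simp
  set T0 := T s (A p0) with hT0def
  have hT0nn : 0 ≤ T0 := T_nonneg s (A_pos hp0pos)
  have hT0lt : T0 ^ 2 < 1 := by
    rw [hT0, mul_pow, inv_pow, Real.sq_sqrt hSgpos.le, inv_mul_lt_iff₀ hSgpos, mul_one]
    exact hcon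
  set δ := (1 - T0 ^ 2) / 2 with hδ
  have hδpos : 0 < δ := by rw [hδ]; linarith
  have hδlt : T0 ^ 2 < 1 - δ := by rw [hδ]; linarith
  have hδ1 : δ ≤ 1 := by rw [hδ]; nlinarith [sq_nonneg T0]
  have LB : ∀ p : ι → ℝ, (∀ i, 0 < p i) → ∑ k ∈ s, p k = 1 → ∀ i ∈ s, 1 - p i ≤ T s (A p) ^ 2 := by
    intro p hp h1 i hi
    apply lower_bound hi _ hp h1
    exact IH (s.erase i) (Finset.erase_ssubset hi) ((Finset.card_erase_le).trans hc)
  set K : Set (ι → ℝ) := {p | (∀ k ∈ s, δ ≤ p k) ∧ (∀ k ∉ s, p k = 1) ∧ ∑ k ∈ s, p k = 1} with hK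
  have hKpos : ∀ p ∈ K, ∀ i, 0 < p i := by
    intro p hp i
    by_cases hi : i ∈ s
    · exact hδpos.trans_le (hp.1 i hi)
    · rw [hp.2.1 i hi]; exact one_pos
  have hKclosed : IsClosed K := by
    have e : K = (⋂ k ∈ s, {p : ι → ℝ | δ ≤ p k}) ∩ ((⋂ k ∈ (s : Set ι)ᶜ, {p : ι → ℝ | p k = 1}) ∩
        {p : ι → ℝ | ∑ k ∈ s, p k = 1}) := by
      ext p
      simp [hK]
    rw [e]
    apply IsClosed.inter
    · exact isClosed_biInter fun k _ => isClosed_le continuous_const (continuous_apply k)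
    · apply IsClosed.inter
      · exact isClosed_biInter fun k _ => isClosed_eq (continuous_apply k) continuous_const
      · exact isClosed_eq (continuous_finset_sum _ fun k _ => continuous_apply k) continuous_const
  have hKsub : K ⊆ Set.pi univ (fun _ : ι => Icc (0:ℝ) 1) := by
    intro p hp i _
    refine ⟨(hKpos p hp i).le, ?_⟩
    by_cases hi : i ∈ s
    · rw [← hp.2.2]
      exact Finset.single_le_sum (f := p) (fun j _ => (hKpos p hp j).le) hi
    · rw [hp.2.1 i hi]
  have hKcomp : IsCompact K :=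
    (isCompact_univ_pi (fun _ : ι => isCompact_Icc (a := (0:ℝ)) (b := 1))).of_isClosed_subset
      hKclosed hKsub
  have hp0K : p0 ∈ K := by
    refine ⟨fun k hk => ?_, fun k hk => ?_, hp0sum⟩
    · have := LB p0 hp0pos hp0sum k hk
      have h2 : 1 - p0 k < 1 - δ := this.trans_lt hδlt
      linarith
    · simp only [hp0, if_neg hk]
  obtain ⟨p, hpK, hmin⟩ := hKcomp.exists_isMinOn ⟨p0, hp0K⟩ (contOn_T (s := s) hKpos)
  have hpp := hKpos p hpK
  have hTp : T s (A p) ≤ T0 := hmin hp0K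
  have hTpnn : 0 ≤ T s (A p) := T_nonneg s (A_pos hpp)
  have hTp2 : T s (A p) ^ 2 < 1 - δ := (pow_le_pow_left₀ hTpnn hTp 2).trans_lt hδlt
  have hstrict : ∀ i ∈ s, δ < p i := by
    intro i hi
    have := LB p hpp hpK.2.2 i hi
    linarith
  -- stationarity
  have hstat : ∀ i ∈ s, ∀ j ∈ s, h s (A p) (A p i) = h s (A p) (A p j) := by
    intro i hi j hj
    have hd := deriv_dir (s := s) hpp hi hj
    set d : ι → ℝ := fun k => (if k = i then (1:ℝ) else 0) - (if k = j then 1 else 0) with hdd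
    have hloc : IsLocalMin (fun r : ℝ => T s (A (fun k => p k + r * d k))) 0 := by
      have hev : ∀ᶠ r : ℝ in 𝓝 0, ∀ k ∈ s, δ < p k + r * d k := by
        rw [Filter.eventually_all_finset]
        intro k hk
        have hcont : ContinuousAt (fun r : ℝ => p k + r * d k) 0 := by fun_prop
        have : δ < p k + 0 * d k := by simpa using hstrict k hk
        exact hcont.eventually (lt_mem_nhds this)
      filter_upwards [hev] with r hr
      have hmem : (fun k => p k + r * d k) ∈ K := by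
        refine ⟨fun k hk => (hr k hk).le, fun k hk => ?_, ?_⟩
        · have h1 : k ≠ i := fun h => hk (h ▸ hi)
          have h2 : k ≠ j := fun h => hk (h ▸ hj)
          simp only [hdd, if_neg h1, if_neg h2, sub_self, mul_zero, add_zero]
          exact hpK.2.1 k hk
        · rw [Finset.sum_add_distrib, hpK.2.2, ← Finset.mul_sum]
          have : ∑ k ∈ s, d k = 0 := by
            simp only [hdd]
            rw [Finset.sum_sub_distrib, Finset.sum_ite_eq' s i, Finset.sum_ite_eq' s j, if_pos hi,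
              if_pos hj, sub_self]
          rw [this]; ring
      have := hmin hmem
      simpa using this
    have := hloc.hasDerivAt_eq_zero hd
    linarith
  obtain ⟨i0, hi0⟩ := hs
  have htwo : ∃ β : ℝ, 0 < β ∧ ∀ i ∈ s, A p i = A p i0 ∨ A p i = β := by
    by_cases hall : ∀ i ∈ s, A p i = A p i0
    · exact ⟨A p i0, A_pos hpp i0, fun i hi => Or.inl (hall i hi)⟩
    · push Not at hall
      obtain ⟨i1, hi1, hne⟩ := hall
      refine ⟨A p i1, A_pos hpp i1, fun i hi => ?_⟩
      by_contra hcc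
      push Not at hcc
      exact no_three' ⟨i0, hi0⟩ (A_pos hpp) (A_pos hpp i) (A_pos hpp i0) (A_pos hpp i1)
        hcc.1 hne.symm hcc.2 (hstat i hi i0 hi0) (hstat i0 hi0 i1 hi1)
  obtain ⟨β, hβ, htw⟩ := htwo
  have hfin := two_val s hc (A p) (A_pos hpp i0) hβ htw
  rw [Finset.sum_congr rfl (fun k _ => A_sq hpp k), hpK.2.2] at hfin
  linarith

/-! ### failure for `n ≥ 7` -/

lemma alt_sum (n : ℕ) : ∑ m ∈ Finset.range (n + 1), (-1 : ℝ) ^ m * (n + 1).choose (m + 1) = 1 := by
  have h := Int.alternating_sum_range_choose (n := n + 1)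
  rw [if_neg (Nat.succ_ne_zero n), Finset.sum_range_succ'] at h
  have h' : ∑ m ∈ Finset.range (n + 1), (-1 : ℤ) ^ m * (n + 1).choose (m + 1) = 1 := by
    simp only [pow_succ, pow_zero, Nat.choose_zero_right, Nat.cast_one, mul_one] at h
    have e : ∑ m ∈ Finset.range (n + 1), (-1 : ℤ) ^ m * (-1) * (n + 1).choose (m + 1) =
        - ∑ m ∈ Finset.range (n + 1), (-1 : ℤ) ^ m * (n + 1).choose (m + 1) := by
      rw [← Finset.sum_neg_distrib]
      apply Finset.sum_congr rfl
      intro m _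
      ring
    simp only [mul_neg, mul_one, neg_mul] at h e
    linarith
  exact_mod_cast h'

lemma alt_sum' (n : ℕ) :
    ∑ m ∈ Finset.range (n + 1), (n.choose m : ℝ) * ((-1) ^ m * (1 + (m : ℝ))⁻¹) = 1 / (n + 1) := by
  have hn : (0:ℝ) < (n:ℝ) + 1 := by positivity
  rw [eq_div_iff hn.ne', Finset.sum_mul]
  refine Eq.trans ?_ (alt_sum n)
  apply Finset.sum_congr rfl
  intro m _
  have h : ((n:ℝ) + 1) * n.choose m = (n + 1).choose (m + 1) * ((m:ℝ) + 1) := by
    exact_mod_cast Nat.add_one_mul_choose_eq n m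
  have hm : (1 + (m:ℝ)) ≠ 0 := by positivity
  field_simp
  linear_combination h

lemma T_one (s : Finset ι) : T s (fun _ => (1:ℝ)) = ∑ i ∈ Finset.range s.card, 1 / ((i:ℝ) + 1) := by
  induction s using Finset.induction_on with
  | empty => simp [T]
  | insert i s hi ih =>
    rw [T_insert hi, ih, Finset.card_insert_of_notMem hi, Finset.sum_range_succ]
    congr 1
    have := Finset.sum_powerset_apply_card (fun m => (-1 : ℝ) ^ m * (1 + (m:ℝ))⁻¹) (x := s)
    simp only [Finset.sum_const, nsmul_eq_mul, mul_one]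
    rw [this]
    simp only [nsmul_eq_mul]
    exact alt_sum' s.card

lemma harm_lt (n : ℕ) (hn : 7 ≤ n) : ∑ i ∈ Finset.range n, 1 / ((i:ℝ) + 1) < Real.sqrt n := by
  induction n, hn using Nat.le_induction with
  | base =>
    apply Real.lt_sqrt_of_sq_lt
    norm_num [Finset.sum_range_succ]
  | succ n hn ih =>
    rw [Finset.sum_range_succ]
    have h7 : (7:ℝ) ≤ n := by exact_mod_cast hn
    have h1 : Real.sqrt n + 1 / ((n:ℝ) + 1) ≤ Real.sqrt (n + 1) := by
      apply Real.le_sqrt_of_sq_le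
      have hs : Real.sqrt n ^ 2 = n := Real.sq_sqrt (by linarith)
      have hs2 : 2 * Real.sqrt n ≤ n := by
        have h2 : (2:ℝ) ≤ Real.sqrt n := Real.le_sqrt_of_sq_le (by linarith)
        nlinarith
      have hp : 0 < (n:ℝ) + 1 := by linarith
      have e : (Real.sqrt n + 1 / ((n:ℝ) + 1)) ^ 2 = n + 2 * Real.sqrt n / (n + 1) + 1 / ((n:ℝ) + 1) ^ 2 := by
        rw [add_sq, hs, one_div_pow]; ring
      rw [e]
      have h3 : 2 * Real.sqrt n / (n + 1) + 1 / ((n:ℝ) + 1) ^ 2 ≤ 1 := by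
        rw [div_add_div _ _ hp.ne' (by positivity), div_le_one (by positivity)]
        nlinarith
      linarith
    push_cast
    linarith

end Pool.Agent.R256.ExpMax
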