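import Mathlib

set_option autoImplicit false

open MeasureTheory Set Filter Topology intervalIntegral

namespace Pool.Agent.R256.HL

noncomputable section

/-- `Δ(θ) = √(1 - k² sin² θ)` -/
def dl (k θ : ℝ) : ℝ := Real.sqrt (1 - (k * Real.sin θ) ^ 2)

/-- `z(θ) = Δ(θ) + i k sin θ` -/
def zz (k θ : ℝ) : ℂ := (dl k θ : ℂ) + Complex.I * ((k * Real.sin θ : ℝ) : ℂ)

lemma one_sub_pos {k : ℝ} (h0 : 0 ≤ k) (h1 : k < 1) (θ : ℝ) :
    1 - k ^ 2 ≤ 1 - (k * Real.sin θ) ^ 2 := by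
  have h2 : Real.sin θ ^ 2 ≤ 1 := Real.sin_sq_le_one θ
  nlinarith [sq_nonneg k]

lemma dl_sq {k : ℝ} (h0 : 0 ≤ k) (h1 : k < 1) (θ : ℝ) : dl k θ ^ 2 = 1 - (k * Real.sin θ) ^ 2 := by
  unfold dl
  rw [Real.sq_sqrt]
  have := one_sub_pos h0 h1 θ
  nlinarith

/-- lower bound for `Δ` -/
def d0 (k : ℝ) : ℝ := Real.sqrt (1 - k ^ 2)

lemma d0_pos {k : ℝ} (h0 : 0 ≤ k) (h1 : k < 1) : 0 < d0 k := Real.sqrt_pos.2 (by nlinarith)

lemma d0_le {k : ℝ} (h0 : 0 ≤ k) (h1 : k < 1) (θ : ℝ) : d0 k ≤ dl k θ :=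
  Real.sqrt_le_sqrt (one_sub_pos h0 h1 θ)

lemma dl_pos {k : ℝ} (h0 : 0 ≤ k) (h1 : k < 1) (θ : ℝ) : 0 < dl k θ :=
  (d0_pos h0 h1).trans_le (d0_le h0 h1 θ)

lemma dl_cont (k : ℝ) : Continuous (dl k) := by
  unfold dl; fun_prop

lemma zz_cont (k : ℝ) : Continuous (zz k) := by
  unfold zz
  have := dl_cont k
  fun_prop

lemma zz_re (k θ : ℝ) : (zz k θ).re = dl k θ := by
  unfold zz
  rw [Complex.add_re, Complex.ofReal_re, Complex.I_mul_re, Complex.ofReal_im, neg_zero, add_zero]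

lemma zz_im (k θ : ℝ) : (zz k θ).im = k * Real.sin θ := by
  unfold zz
  rw [Complex.add_im, Complex.ofReal_im, Complex.I_mul_im, Complex.ofReal_re, zero_add]

lemma zz_norm {k : ℝ} (h0 : 0 ≤ k) (h1 : k < 1) (θ : ℝ) : ‖zz k θ‖ = 1 := by
  have h : ‖zz k θ‖ ^ 2 = 1 := by
    rw [← Complex.normSq_eq_norm_sq, Complex.normSq_apply, zz_re, zz_im]
    have := dl_sq h0 h1 θ
    nlinarith
  have h2 := norm_nonneg (zz k θ)
  nlinarith

/-- the integrand -/
def gi (k : ℝ) (n : ℕ) (x θ : ℝ) : ℂ :=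
  (-zz k θ) ^ n * Complex.exp (-(x : ℂ) * zz k θ) / (dl k θ : ℂ)

lemma gi_cont {k : ℝ} (h0 : 0 ≤ k) (h1 : k < 1) (n : ℕ) (x : ℝ) : Continuous (gi k n x) := by
  unfold gi
  have h := zz_cont k
  have h' := dl_cont k
  refine Continuous.div (by fun_prop) (by fun_prop) ?_
  intro θ
  exact_mod_cast (dl_pos h0 h1 θ).ne'

lemma gi_norm {k : ℝ} (h0 : 0 ≤ k) (h1 : k < 1) (n : ℕ) (x θ : ℝ) :
    ‖gi k n x θ‖ = Real.exp (-x * dl k θ) / dl k θ := by
  unfold gi
  rw [norm_div, norm_mul, norm_pow, norm_neg, zz_norm h0 h1, one_pow, one_mul, Complex.norm_exp]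
  congr 1
  · congr 1
    simp [zz_re, zz_im, Complex.mul_re]
  · rw [Complex.norm_real, Real.norm_of_nonneg (dl_pos h0 h1 θ).le]

lemma dl_le_one (k θ : ℝ) : dl k θ ≤ 1 := by
  unfold dl
  rw [← Real.sqrt_one]
  exact Real.sqrt_le_sqrt (by rw [Real.sqrt_one]; nlinarith [sq_nonneg (k * Real.sin θ)])

/-- the functions `G_n` -/
def G (k : ℝ) (n : ℕ) (x : ℝ) : ℂ := ∫ θ in (0:ℝ)..(Real.pi / 2), gi k n x θ

lemma G_hasDerivAt {k : ℝ} (h0 : 0 ≤ k) (h1 : k < 1) (n : ℕ) (x : ℝ) :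
    HasDerivAt (G k n) (G k (n + 1) x) x := by
  have key := intervalIntegral.hasDerivAt_integral_of_dominated_loc_of_deriv_le
    (μ := volume) (F := fun x θ => gi k n x θ) (F' := fun x θ => gi k (n + 1) x θ) (x₀ := x)
    (s := Metric.ball x 1) (a := 0) (b := Real.pi / 2)
    (bound := fun _ => Real.exp (|x| + 1) / d0 k) (Metric.ball_mem_nhds x one_pos)
    (Eventually.of_forall fun y => (gi_cont h0 h1 n y).aestronglyMeasurable)
    ((gi_cont h0 h1 n x).intervalIntegrable _ _)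
    ((gi_cont h0 h1 (n + 1) x).aestronglyMeasurable) ?_ ?_ ?_
  · exact key.2
  · refine Eventually.of_forall fun θ _ y hy => ?_
    rw [gi_norm h0 h1]
    have hp := d0_pos h0 h1
    have hle := d0_le h0 h1 θ
    refine div_le_div₀ (Real.exp_pos _).le ?_ hp hle
    apply Real.exp_le_exp.2
    have h2 : |y| < |x| + 1 := by
      rw [Metric.mem_ball, Real.dist_eq] at hy
      have := abs_sub_abs_le_abs_sub y x
      linarith
    have h3 : -y * dl k θ ≤ |y| * dl k θ :=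
      mul_le_mul_of_nonneg_right (neg_le_abs y) (hp.le.trans hle)
    have h4 := dl_le_one k θ
    nlinarith [abs_nonneg y]
  · exact intervalIntegrable_const
  · refine Eventually.of_forall fun θ _ y _ => ?_
    unfold gi
    have h2 : HasDerivAt (fun y : ℝ => -(y : ℂ) * zz k θ) (-zz k θ) y := by
      have := ((Complex.ofRealCLM.hasDerivAt (x := y)).neg).mul_const (zz k θ)
      simpa using this
    have h3 := ((h2.cexp).const_mul ((-zz k θ) ^ n)).div_const (dl k θ : ℂ)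
    refine h3.congr_deriv ?_
    rw [pow_succ]; ring

lemma G_norm_le {k : ℝ} (h0 : 0 ≤ k) (h1 : k < 1) (n : ℕ) {x : ℝ} (hx : 0 ≤ x) :
    ‖G k n x‖ ≤ Real.exp (-x * d0 k) / d0 k * (Real.pi / 2) := by
  unfold G
  have h := intervalIntegral.norm_integral_le_of_norm_le_const
    (a := 0) (b := Real.pi / 2) (C := Real.exp (-x * d0 k) / d0 k) (f := gi k n x) ?_
  · rwa [sub_zero, abs_of_pos (by positivity)] at h
  · intro θ _
    rw [gi_norm h0 h1]
    have hp := d0_pos h0 h1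
    have hle := d0_le h0 h1 θ
    refine div_le_div₀ (Real.exp_pos _).le (Real.exp_le_exp.2 ?_) hp hle
    nlinarith

/-- the function in the integration by parts -/
def hh (k x θ : ℝ) : ℂ :=
  Complex.I * k * Real.cos θ * zz k θ * Complex.exp (-(x : ℂ) * zz k θ)

lemma dl_hasDerivAt {k : ℝ} (h0 : 0 ≤ k) (h1 : k < 1) (θ : ℝ) :
    HasDerivAt (dl k) (-(k ^ 2 * Real.sin θ * Real.cos θ) / dl k θ) θ := by
  have h2 : HasDerivAt (fun θ => 1 - (k * Real.sin θ) ^ 2)
      (-(2 * (k * Real.sin θ) * (k * Real.cos θ))) θ := by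
    have := (((Real.hasDerivAt_sin θ).const_mul k).pow 2).const_sub 1
    refine this.congr_deriv ?_
    push_cast; ring
  have hpos : 0 < 1 - (k * Real.sin θ) ^ 2 := by
    have := dl_pos h0 h1 θ
    rw [← dl_sq h0 h1 θ]; positivity
  have h3 := h2.sqrt hpos.ne'
  refine h3.congr_deriv ?_
  change _ / (2 * dl k θ) = _
  have := (dl_pos h0 h1 θ).ne'
  field_simp

lemma zz_hasDerivAt {k : ℝ} (h0 : 0 ≤ k) (h1 : k < 1) (θ : ℝ) :
    HasDerivAt (zz k) (Complex.I * zz k θ * k * Real.cos θ / dl k θ) θ := by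
  unfold zz
  have h2 := (dl_hasDerivAt h0 h1 θ).ofReal_comp
  have h3 := (((Real.hasDerivAt_sin θ).const_mul k).ofReal_comp).const_mul Complex.I
  have h4 := h2.add h3
  refine h4.congr_deriv ?_
  have hne : (dl k θ : ℂ) ≠ 0 := by exact_mod_cast (dl_pos h0 h1 θ).ne'
  push_cast
  field_simp
  have hI : Complex.I ^ 2 = -1 := Complex.I_sq
  linear_combination (-(k : ℂ) ^ 2 * Complex.sin θ * Complex.cos θ) * hI

lemma hh_hasDerivAt {k : ℝ} (h0 : 0 ≤ k) (h1 : k < 1) (x θ : ℝ) :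
    HasDerivAt (hh k x)
      ((x * (gi k 4 x θ + (4 * k ^ 2 - 2) * gi k 2 x θ + gi k 0 x θ) + 2 * gi k 3 x θ +
        (4 * k ^ 2 - 2) * gi k 1 x θ) / 4) θ := by
  unfold hh
  have h2 : HasDerivAt (fun θ : ℝ => Complex.I * (k : ℂ) * (Real.cos θ : ℂ))
      (Complex.I * k * ((-Real.sin θ : ℝ) : ℂ)) θ :=
    ((Real.hasDerivAt_cos θ).ofReal_comp).const_mul (Complex.I * (k : ℂ))
  have hz := zz_hasDerivAt h0 h1 θ
  have h3 := h2.mul hz
  have h4 : HasDerivAt (fun θ : ℝ => Complex.exp (-(x : ℂ) * zz k θ))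
      (Complex.exp (-(x : ℂ) * zz k θ) * (-(x : ℂ) * (Complex.I * zz k θ * k * Real.cos θ / dl k θ)))
      θ := (hz.const_mul (-(x : ℂ))).cexp
  have h5 := h3.mul h4
  refine h5.congr_deriv ?_
  simp only [Pi.mul_apply]
  unfold gi
  have hne : (dl k θ : ℂ) ≠ 0 := by exact_mod_cast (dl_pos h0 h1 θ).ne'
  have hd : (dl k θ : ℂ) ^ 2 = 1 - (k * Complex.sin θ) ^ 2 := by
    have := dl_sq h0 h1 θ
    exact_mod_cast this
  have hsc : Complex.sin θ ^ 2 + Complex.cos θ ^ 2 = 1 := Complex.sin_sq_add_cos_sq θ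
  set E := Complex.exp (-(x : ℂ) * zz k θ) with hE
  set d : ℂ := (dl k θ : ℂ) with hdd
  set s : ℂ := Complex.sin θ with hs
  set c : ℂ := Complex.cos θ with hc
  have hz' : zz k θ = d + Complex.I * (k * s) := by
    unfold zz; push_cast; rfl
  have hI : Complex.I ^ 2 = -1 := Complex.I_sq
  set z := zz k θ with hzd
  have hzw : z * (d - Complex.I * (k * s)) = 1 := by
    rw [hz']; linear_combination hd - (k * s) ^ 2 * hI
  have h2z : z ^ 2 = 1 - 2 * k ^ 2 * s ^ 2 + 2 * Complex.I * k * s * d := by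
    rw [hz']; linear_combination hd + (k * s) ^ 2 * hI
  have hzz : z ^ 4 + 1 = z ^ 2 * (2 - 4 * k ^ 2 * s ^ 2) := by
    have e1 : z ^ 2 + (d - Complex.I * (k * s)) ^ 2 = 2 - 4 * k ^ 2 * s ^ 2 := by
      rw [hz']; linear_combination 2 * hd + 2 * (k * s) ^ 2 * hI
    calc z ^ 4 + 1 = z ^ 4 + (z * (d - Complex.I * (k * s))) ^ 2 := by rw [hzw]; ring
      _ = z ^ 2 * (z ^ 2 + (d - Complex.I * (k * s)) ^ 2) := by ring
      _ = _ := by rw [e1]
  have key : 4 * (-(Complex.I * k * s * z * d) - k ^ 2 * c ^ 2 * z + x * (k ^ 2 * c ^ 2 * z ^ 2)) =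
      x * (z ^ 4 + (4 * k ^ 2 - 2) * z ^ 2 + 1) - 2 * z ^ 3 - (4 * k ^ 2 - 2) * z := by
    linear_combination -(x : ℂ) * hzz + 2 * z * h2z + (4 * (k : ℂ) ^ 2 * x * z ^ 2 - 4 * k ^ 2 * z) * hsc
  clear_value z
  push_cast
  rw [← hs, ← hc]
  field_simp
  linear_combination E * key + (4 * (k : ℂ) ^ 2 * c ^ 2 * z * E * (1 - x * z)) * hI


lemma re_int {f : ℝ → ℂ} (hf : Continuous f) (a b : ℝ) :
    (∫ θ in a..b, f θ).re = ∫ θ in a..b, (f θ).re := by
  have := Complex.reCLM.intervalIntegral_comp_comm (hf.intervalIntegrable (μ := volume) a b)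
  simpa using this.symm

lemma zz_zero (k : ℝ) : zz k 0 = 1 := by
  unfold zz dl
  simp

/-- the real solutions -/
def F (k : ℝ) (n : ℕ) (x : ℝ) : ℝ := (G k n x).re

lemma F_hasDerivAt {k : ℝ} (h0 : 0 ≤ k) (h1 : k < 1) (n : ℕ) (x : ℝ) :
    HasDerivAt (F k n) (F k (n + 1) x) x := by
  have := (Complex.reCLM.hasFDerivAt (x := G k n x)).comp_hasDerivAt x (G_hasDerivAt h0 h1 n x)
  exact this

lemma F_abs_le {k : ℝ} (h0 : 0 ≤ k) (h1 : k < 1) (n : ℕ) {x : ℝ} (hx : 0 ≤ x) :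
    |F k n x| ≤ Real.exp (-x * d0 k) / d0 k * (Real.pi / 2) :=
  (Complex.abs_re_le_norm _).trans (G_norm_le h0 h1 n hx)

/-- the differential equation -/
lemma F_ode {k : ℝ} (h0 : 0 ≤ k) (h1 : k < 1) (x : ℝ) :
    x * (F k 4 x + (4 * k ^ 2 - 2) * F k 2 x + F k 0 x) + 2 * F k 3 x +
      (4 * k ^ 2 - 2) * F k 1 x = 0 := by
  have hc := fun n => gi_cont h0 h1 n x
  have hi := fun n => (hc n).intervalIntegrable (μ := volume) 0 (Real.pi / 2)
  have hint : ∫ θ in (0:ℝ)..(Real.pi / 2),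
      ((x * (gi k 4 x θ + (4 * k ^ 2 - 2) * gi k 2 x θ + gi k 0 x θ) + 2 * gi k 3 x θ +
        (4 * k ^ 2 - 2) * gi k 1 x θ) / 4) = hh k x (Real.pi / 2) - hh k x 0 := by
    apply intervalIntegral.integral_eq_sub_of_hasDerivAt
    · intro θ _
      exact hh_hasDerivAt h0 h1 x θ
    · apply Continuous.intervalIntegrable
      have h4 := hc 4
      have h3 := hc 3
      have h2 := hc 2
      have h1' := hc 1
      have h0' := hc 0
      fun_prop
  have hL : ∫ θ in (0:ℝ)..(Real.pi / 2),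
      ((x * (gi k 4 x θ + (4 * k ^ 2 - 2) * gi k 2 x θ + gi k 0 x θ) + 2 * gi k 3 x θ +
        (4 * k ^ 2 - 2) * gi k 1 x θ) / 4) =
      (x * (G k 4 x + (4 * k ^ 2 - 2) * G k 2 x + G k 0 x) + 2 * G k 3 x +
        (4 * k ^ 2 - 2) * G k 1 x) / 4 := by
    rw [intervalIntegral.integral_div]
    congr 1
    rw [intervalIntegral.integral_add, intervalIntegral.integral_add,
      intervalIntegral.integral_const_mul, intervalIntegral.integral_add,
      intervalIntegral.integral_add, intervalIntegral.integral_const_mul,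
      intervalIntegral.integral_const_mul, intervalIntegral.integral_const_mul]
    · rfl
    · exact hi 4
    · exact (hi 2).const_mul _
    · exact (hi 4).add ((hi 2).const_mul _)
    · exact hi 0
    · exact (((hi 4).add ((hi 2).const_mul _)).add (hi 0)).const_mul _
    · exact (hi 3).const_mul _
    · exact ((((hi 4).add ((hi 2).const_mul _)).add (hi 0)).const_mul _).add ((hi 3).const_mul _)
    · exact (hi 1).const_mul _
  have hA : hh k x (Real.pi / 2) = 0 := by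
    unfold hh
    rw [Real.cos_pi_div_two]; simp
  have hB : (hh k x 0).re = 0 := by
    unfold hh
    rw [zz_zero, Real.cos_zero]
    have : Complex.I * (k : ℂ) * ((1 : ℝ) : ℂ) * 1 * Complex.exp (-(x : ℂ) * 1) =
        Complex.I * ((k * Real.exp (-x) : ℝ) : ℂ) := by
      push_cast; ring_nf
    rw [this, Complex.I_mul_re, Complex.ofReal_im, neg_zero]
  rw [hL, hA] at hint
  have hre := congrArg Complex.re hint
  rw [Complex.sub_re, hB] at hre
  have e4 : (x * (G k 4 x + (4 * k ^ 2 - 2) * G k 2 x + G k 0 x) + 2 * G k 3 x +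
        (4 * k ^ 2 - 2) * G k 1 x) / 4 =
      ((x / 4 : ℝ) : ℂ) * (G k 4 x + ((4 * k ^ 2 - 2 : ℝ) : ℂ) * G k 2 x + G k 0 x) +
      ((1 / 2 : ℝ) : ℂ) * G k 3 x + (((4 * k ^ 2 - 2) / 4 : ℝ) : ℂ) * G k 1 x := by
    push_cast; ring
  rw [e4] at hre
  simp only [Complex.add_re, Complex.re_ofReal_mul, Complex.zero_re, sub_zero] at hre
  unfold F
  linarith

/-- complete elliptic integral of the first kind -/
def KK (k : ℝ) : ℝ := ∫ θ in (0:ℝ)..(Real.pi / 2), 1 / Real.sqrt (1 - k ^ 2 * Real.sin θ ^ 2)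

/-- complete elliptic integral of the second kind -/
def EE (k : ℝ) : ℝ := ∫ θ in (0:ℝ)..(Real.pi / 2), Real.sqrt (1 - k ^ 2 * Real.sin θ ^ 2)

lemma dl_eq (k θ : ℝ) : dl k θ = Real.sqrt (1 - k ^ 2 * Real.sin θ ^ 2) := by
  unfold dl; rw [mul_pow]

lemma inv_dl_cont {k : ℝ} (h0 : 0 ≤ k) (h1 : k < 1) : Continuous fun θ => 1 / dl k θ :=
  continuous_const.div (dl_cont k) fun θ => (dl_pos h0 h1 θ).ne'

lemma F_zero_zero {k : ℝ} (h0 : 0 ≤ k) (h1 : k < 1) : F k 0 0 = KK k := by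
  unfold F G KK
  rw [re_int (gi_cont h0 h1 0 0)]
  congr 1
  funext θ
  unfold gi
  rw [← dl_eq]
  have : (-zz k θ) ^ 0 * Complex.exp (-((0 : ℝ) : ℂ) * zz k θ) / (dl k θ : ℂ) =
      ((1 / dl k θ : ℝ) : ℂ) := by
    push_cast; simp
  rw [this, Complex.ofReal_re]

/-- the function `2 E - K` as an integral -/
lemma two_E_sub_K {k : ℝ} (h0 : 0 ≤ k) (h1 : k < 1) :
    2 * EE k - KK k = ∫ θ in (0:ℝ)..(Real.pi / 2), (2 * dl k θ - 1 / dl k θ) := by
  unfold EE KK
  rw [intervalIntegral.integral_sub, intervalIntegral.integral_const_mul]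
  · simp only [dl_eq]
  · exact ((dl_cont k).const_mul 2).intervalIntegrable _ _
  · exact (inv_dl_cont h0 h1).intervalIntegrable _ _

lemma F_two_zero {k : ℝ} (h0 : 0 ≤ k) (h1 : k < 1) : F k 2 0 = 2 * EE k - KK k := by
  rw [two_E_sub_K h0 h1]
  unfold F G
  rw [re_int (gi_cont h0 h1 2 0)]
  congr 1
  funext θ
  unfold gi
  have hd := dl_sq h0 h1 θ
  have hp := dl_pos h0 h1 θ
  have : (-zz k θ) ^ 2 * Complex.exp (-((0 : ℝ) : ℂ) * zz k θ) / (dl k θ : ℂ) =
      ((1 / dl k θ : ℝ) : ℂ) * (zz k θ) ^ 2 := by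
    push_cast; simp; ring
  rw [this, Complex.re_ofReal_mul, pow_two, Complex.mul_re, zz_re, zz_im]
  field_simp
  nlinarith

lemma KK_pos {k : ℝ} (h0 : 0 ≤ k) (h1 : k < 1) : 0 < KK k := by
  unfold KK
  simp only [← dl_eq]
  apply intervalIntegral.intervalIntegral_pos_of_pos
  · exact (inv_dl_cont h0 h1).intervalIntegrable _ _
  · intro θ; exact one_div_pos.2 (dl_pos h0 h1 θ)
  · positivity

lemma two_E_sub_K_lt {k l : ℝ} (h0 : 0 ≤ k) (hkl : k < l) (h1 : l < 1) :
    2 * EE l - KK l < 2 * EE k - KK k := by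
  rw [two_E_sub_K h0 (hkl.trans h1), two_E_sub_K (h0.trans hkl.le) h1]
  have hle : ∀ θ, dl l θ ≤ dl k θ := by
    intro θ
    unfold dl
    apply Real.sqrt_le_sqrt
    rw [mul_pow, mul_pow]
    have : 0 ≤ Real.sin θ ^ 2 := sq_nonneg _
    have hkl2 : k ^ 2 ≤ l ^ 2 := by nlinarith
    nlinarith [mul_le_mul_of_nonneg_right hkl2 this]
  apply intervalIntegral.integral_lt_integral_of_continuousOn_of_le_of_exists_lt
  · positivity
  · exact (((dl_cont l).const_mul 2).sub (inv_dl_cont (h0.trans hkl.le) h1)).continuousOn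
  · exact (((dl_cont k).const_mul 2).sub (inv_dl_cont h0 (hkl.trans h1))).continuousOn
  · intro θ _
    have hp := dl_pos (h0.trans hkl.le) h1 θ
    have := one_div_le_one_div_of_le hp (hle θ)
    linarith [hle θ]
  · refine ⟨Real.pi / 2, right_mem_Icc.2 (by positivity), ?_⟩
    have hp := dl_pos (h0.trans hkl.le) h1 (Real.pi / 2)
    have hlt : dl l (Real.pi / 2) < dl k (Real.pi / 2) := by
      unfold dl
      rw [Real.sin_pi_div_two]
      apply Real.sqrt_lt_sqrt <;> nlinarith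
    have := one_div_le_one_div_of_le hp hlt.le
    linarith

lemma two_k_sq_gt {k : ℝ} (h0 : 0 ≤ k) (h1 : k < 1) (h : 2 * EE k = KK k) : 1 < 2 * k ^ 2 := by
  by_contra hcon
  push Not at hcon
  have : 0 < 2 * EE k - KK k := by
    rw [two_E_sub_K h0 h1]
    have e : ∀ θ, 2 * dl k θ - 1 / dl k θ = (1 - 2 * (k * Real.sin θ) ^ 2) / dl k θ := by
      intro θ
      have hp := dl_pos h0 h1 θ
      have hd := dl_sq h0 h1 θ
      field_simp
      nlinarith
    apply intervalIntegral.integral_pos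
    · positivity
    · exact (((dl_cont k).const_mul 2).sub (inv_dl_cont h0 h1)).continuousOn
    · intro θ _
      rw [e]
      apply div_nonneg _ (dl_pos h0 h1 θ).le
      have : Real.sin θ ^ 2 ≤ 1 := Real.sin_sq_le_one θ
      rw [mul_pow]
      nlinarith [sq_nonneg (Real.sin θ)]
    · refine ⟨0, left_mem_Icc.2 (by positivity), ?_⟩
      rw [e]
      rw [Real.sin_zero]
      have := dl_pos h0 h1 0
      simp [this]
  linarith

/-- truncated modulus -/
def mm (k θ : ℝ) : ℝ := Real.sqrt (max (1 - (k * Real.sin θ) ^ 2) (1 / 400))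

lemma mm_pos (k θ : ℝ) : 0 < mm k θ :=
  Real.sqrt_pos.2 (lt_max_of_lt_right (by norm_num))

lemma mm_eq {k : ℝ} (h : k ^ 2 ≤ 399 / 400) (θ : ℝ) : mm k θ = dl k θ := by
  unfold mm dl
  congr 1
  apply max_eq_left
  have h2 : Real.sin θ ^ 2 ≤ 1 := Real.sin_sq_le_one θ
  nlinarith [sq_nonneg k, sq_nonneg (Real.sin θ)]

def hm (k : ℝ) : ℝ := ∫ θ in (0:ℝ)..(Real.pi / 2), (2 * mm k θ - 1 / mm k θ)

lemma hm_cont : Continuous hm := by
  unfold hm
  apply intervalIntegral.continuous_parametric_intervalIntegral_of_continuous'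
  have h1 : Continuous fun p : ℝ × ℝ => mm p.1 p.2 := by
    unfold mm; fun_prop
  exact (h1.const_mul 2).sub (continuous_const.div h1 fun p => (mm_pos p.1 p.2).ne')

lemma KK_large {k : ℝ} (h0 : 0 ≤ k) (hk : k ^ 2 = 399 / 400) : Real.pi < KK k := by
  have h1 : k < 1 := by nlinarith
  have hlow : Real.log (Real.pi / 2 + 1 / 20) - Real.log (1 / 20) ≤ KK k := by
    have hint : ∫ θ in (0:ℝ)..(Real.pi / 2), (1 / (Real.pi / 2 - θ + 1 / 20)) =
        (-Real.log (Real.pi / 2 - Real.pi / 2 + 1 / 20)) - (-Real.log (Real.pi / 2 - 0 + 1 / 20)) := by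
      have hpos : ∀ θ ∈ uIcc (0:ℝ) (Real.pi / 2), 0 < Real.pi / 2 - θ + 1 / 20 := by
        intro θ hθ
        rw [uIcc_of_le (by positivity)] at hθ
        linarith [hθ.2]
      apply intervalIntegral.integral_eq_sub_of_hasDerivAt
        (f := fun θ => -Real.log (Real.pi / 2 - θ + 1 / 20))
      · intro θ hθ
        have h2 : HasDerivAt (fun θ : ℝ => Real.pi / 2 - θ + 1 / 20) (-1) θ := by
          simpa using ((hasDerivAt_id θ).const_sub (Real.pi / 2)).add_const (1 / 20 : ℝ)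
        have h3 := (h2.log (hpos θ hθ).ne').neg
        refine h3.congr_deriv ?_
        ring
      · apply ContinuousOn.intervalIntegrable
        apply ContinuousOn.div continuousOn_const (by fun_prop)
        intro θ hθ
        exact (hpos θ hθ).ne'
    have hle : ∫ θ in (0:ℝ)..(Real.pi / 2), (1 / (Real.pi / 2 - θ + 1 / 20)) ≤
        ∫ θ in (0:ℝ)..(Real.pi / 2), 1 / dl k θ := by
      apply intervalIntegral.integral_mono_on (by positivity)
      · apply ContinuousOn.intervalIntegrable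
        apply ContinuousOn.div continuousOn_const (by fun_prop)
        intro θ hθ
        rw [uIcc_of_le (by positivity)] at hθ
        have : 0 < Real.pi / 2 - θ + 1 / 20 := by linarith [hθ.2]
        exact this.ne'
      · exact (inv_dl_cont h0 h1).intervalIntegrable _ _
      · intro θ hθ
        have hp := dl_pos h0 h1 θ
        apply one_div_le_one_div_of_le hp
        have h5 : 0 ≤ Real.pi / 2 - θ := by linarith [hθ.2]
        have h6 : Real.cos θ ≤ Real.pi / 2 - θ := by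
          rw [← Real.sin_pi_div_two_sub]
          exact Real.sin_le h5
        have h7 : 0 ≤ Real.cos θ := Real.cos_nonneg_of_mem_Icc ⟨by linarith [hθ.1, Real.pi_pos], hθ.2⟩
        have h8 : dl k θ ^ 2 ≤ (Real.pi / 2 - θ + 1 / 20) ^ 2 := by
          rw [dl_sq h0 h1, mul_pow, hk]
          have h9 := Real.sin_sq_add_cos_sq θ
          have h10 : Real.sin θ ^ 2 ≤ 1 := Real.sin_sq_le_one θ
          nlinarith [mul_le_mul h6 h6 h7 h5]
        exact le_of_sq_le_sq h8 (by linarith)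
    unfold KK
    simp only [← dl_eq]
    rw [hint] at hle
    simp only [sub_self, zero_add, sub_zero] at hle
    linarith
  have hlog : Real.pi < Real.log (Real.pi / 2 + 1 / 20) - Real.log (1 / 20) := by
    rw [← Real.log_div (by positivity) (by norm_num), Real.lt_log_iff_exp_lt (by positivity)]
    have hpi := Real.pi_lt_d2
    have hpi2 := Real.pi_gt_three
    have h1 : Real.exp Real.pi ≤ Real.exp 1 ^ 3 * Real.exp (15 / 100) := by
      rw [← Real.exp_nat_mul, ← Real.exp_add]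
      apply Real.exp_le_exp.2
      push_cast
      linarith
    have h2 : Real.exp (15 / 100) ≤ 1 / (85 / 100) := by
      have h3 := Real.add_one_le_exp (-(15 / 100) : ℝ)
      rw [Real.exp_neg] at h3
      have h4 : (85 / 100 : ℝ) ≤ (Real.exp (15 / 100))⁻¹ := by linarith
      have h5 := Real.exp_pos (15 / 100 : ℝ)
      rw [le_inv_comm₀ (by norm_num) h5] at h4
      simpa using h4
    have h3 := Real.exp_one_lt_d9
    have h4 : Real.exp 1 ^ 3 ≤ 2.7182818286 ^ 3 := by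
      apply pow_le_pow_left₀ (Real.exp_pos 1).le h3.le
    calc Real.exp Real.pi ≤ Real.exp 1 ^ 3 * Real.exp (15 / 100) := h1
      _ ≤ 2.7182818286 ^ 3 * (1 / (85 / 100)) := by
          apply mul_le_mul h4 h2 (Real.exp_pos _).le (by norm_num)
      _ < (Real.pi / 2 + 1 / 20) / (1 / 20) := by
          rw [lt_div_iff₀ (by norm_num)]
          norm_num
          linarith
  linarith

lemma EE_le {k : ℝ} : EE k ≤ Real.pi / 2 := by
  unfold EE
  simp only [← dl_eq]
  have h : ∫ θ in (0:ℝ)..(Real.pi / 2), dl k θ ≤ ∫ θ in (0:ℝ)..(Real.pi / 2), (1:ℝ) := by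
    apply intervalIntegral.integral_mono_on (by positivity) ((dl_cont k).intervalIntegrable _ _)
      intervalIntegrable_const
    intro θ _
    exact dl_le_one k θ
  rwa [intervalIntegral.integral_const, smul_eq_mul, mul_one, sub_zero] at h

theorem exists_k : ∃ k : ℝ, 0 < k ∧ k < 1 ∧ 2 * EE k = KK k := by
  set l : ℝ := Real.sqrt (399 / 400) with hl
  have hl0 : 0 ≤ l := Real.sqrt_nonneg _
  have hl2 : l ^ 2 = 399 / 400 := Real.sq_sqrt (by norm_num)
  have hl1 : l < 1 := by nlinarith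
  have hE : ∀ k, 0 ≤ k → k ≤ l → hm k = 2 * EE k - KK k := by
    intro k h0 hk
    rw [two_E_sub_K h0 (hk.trans_lt hl1)]
    unfold hm
    have : k ^ 2 ≤ 399 / 400 := by rw [← hl2]; gcongr
    simp only [mm_eq this]
  have hb : hm l < 0 := by
    rw [hE l hl0 le_rfl]
    have := KK_large hl0 hl2
    have := @EE_le l
    linarith
  have ha : 0 < hm 0 := by
    have h1 := two_E_sub_K_lt (k := 0) (l := 1 / 2) le_rfl (by norm_num) (by norm_num)
    have h2 : 0 ≤ 2 * EE (1/2) - KK (1/2) := by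
      by_contra hcon
      push Not at hcon
      -- the integrand is nonnegative
      rw [two_E_sub_K (by norm_num) (by norm_num)] at hcon
      have : 0 ≤ ∫ θ in (0:ℝ)..(Real.pi / 2), (2 * dl (1/2) θ - 1 / dl (1/2) θ) := by
        apply intervalIntegral.integral_nonneg (by positivity)
        intro θ _
        have hp := dl_pos (k := 1/2) (by norm_num) (by norm_num) θ
        have hd := dl_sq (k := 1/2) (by norm_num) (by norm_num) θ
        have h2 : Real.sin θ ^ 2 ≤ 1 := Real.sin_sq_le_one θ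
        rw [sub_nonneg, div_le_iff₀ hp]
        nlinarith
      linarith
    rw [hE 0 le_rfl hl0]
    linarith
  obtain ⟨k, hk, hk0⟩ := intermediate_value_Icc' hl0 hm_cont.continuousOn
    (show (0:ℝ) ∈ Icc (hm l) (hm 0) from ⟨hb.le, ha.le⟩)
  have hk1 : k ≠ 0 := by
    rintro rfl; linarith
  refine ⟨k, lt_of_le_of_ne hk.1 (Ne.symm hk1), hk.2.trans_lt hl1, ?_⟩
  have := hE k hk.1 hk.2
  linarith

theorem existsUnique_k : ∃! k : ℝ, (0 < k ∧ k < 1) ∧ 2 * EE k = KK k := by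
  obtain ⟨k, h0, h1, hk⟩ := exists_k
  refine ⟨k, ⟨⟨h0, h1⟩, hk⟩, ?_⟩
  rintro l ⟨⟨l0, l1⟩, hl⟩
  rcases lt_trichotomy l k with h | h | h
  · have := two_E_sub_K_lt l0.le h h1
    linarith
  · exact h
  · have := two_E_sub_K_lt h0.le h l1
    linarith

end

end Pool.Agent.R256.HL
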