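import Pool.Agent.R256.HL1

set_option autoImplicit false

open MeasureTheory Set Filter Topology

namespace Pool.Agent.R256.HL

noncomputable section

/-- `f` with first and second derivative `f1`, `f2` on `(0,∞)`, of finite energy -/
structure Adm (f f1 f2 : ℝ → ℝ) : Prop where
  h1 : ∀ x > 0, HasDerivAt f (f1 x) x
  h2 : ∀ x > 0, HasDerivAt f1 (f2 x) x
  i0 : IntegrableOn (fun x => x * f x ^ 2) (Ioi 0)
  i2 : IntegrableOn (fun x => x * f2 x ^ 2) (Ioi 0)

lemma int_Ioi {φ φ' : ℝ → ℝ} {l m : ℝ} (hd : ∀ x > 0, HasDerivAt φ (φ' x) x)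
    (hi : IntegrableOn φ' (Ioi 0)) (h0 : Tendsto φ (𝓝[>] 0) (𝓝 l))
    (hm : Tendsto φ atTop (𝓝 m)) : ∫ x in Ioi 0, φ' x = m - l := by
  have key := integral_Ioi_of_hasDerivAt_of_tendsto (f := Function.update φ 0 l) (f' := φ')
    (a := 0) (m := m) ?_ ?_ hi ?_
  · rw [key]; simp
  · rw [continuousWithinAt_update_same]
    have : Ici (0:ℝ) \ {0} = Ioi 0 := by
      ext x; simp only [Set.mem_sdiff, mem_Ici, mem_singleton_iff, mem_Ioi]
      exact ⟨fun h => lt_of_le_of_ne h.1 (Ne.symm h.2), fun h => ⟨h.le, h.ne'⟩⟩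
    rw [this]
    exact h0
  · intro x hx
    have hx' : (0:ℝ) < x := hx
    apply (hd x hx').congr_of_eventuallyEq
    filter_upwards [lt_mem_nhds hx'] with y hy
    exact Function.update_of_ne hy.ne' _ _
  · apply hm.congr'
    filter_upwards [eventually_gt_atTop 0] with x hx
    exact (Function.update_of_ne hx.ne' _ _).symm

variable {f f1 f2 : ℝ → ℝ}

lemma Adm.c0 (h : Adm f f1 f2) : ContinuousOn f (Ioi 0) := fun x hx =>
  (h.h1 x hx).continuousAt.continuousWithinAt

lemma Adm.c1 (h : Adm f f1 f2) : ContinuousOn f1 (Ioi 0) := fun x hx =>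
  (h.h2 x hx).continuousAt.continuousWithinAt

lemma Adm.m0 (h : Adm f f1 f2) : AEStronglyMeasurable f (volume.restrict (Ioi 0)) :=
  h.c0.aestronglyMeasurable measurableSet_Ioi

lemma Adm.m1 (h : Adm f f1 f2) : AEStronglyMeasurable f1 (volume.restrict (Ioi 0)) :=
  h.c1.aestronglyMeasurable measurableSet_Ioi

lemma Adm.m2 (h : Adm f f1 f2) : AEStronglyMeasurable f2 (volume.restrict (Ioi 0)) := by
  refine (measurable_deriv f1).aestronglyMeasurable.congr ?_
  refine (ae_restrict_iff' measurableSet_Ioi).2 (Eventually.of_forall fun x hx => ?_)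
  exact (h.h2 x hx).deriv

lemma Adm.prod_int {u v : ℝ → ℝ} (mu : AEStronglyMeasurable u (volume.restrict (Ioi 0)))
    (mv : AEStronglyMeasurable v (volume.restrict (Ioi 0)))
    (hu : IntegrableOn (fun x => x * u x ^ 2) (Ioi 0))
    (hv : IntegrableOn (fun x => x * v x ^ 2) (Ioi 0)) :
    IntegrableOn (fun x => x * (u x * v x)) (Ioi 0) := by
  refine Integrable.mono' (hu.add hv) ?_ ?_
  · exact (continuous_id.aestronglyMeasurable).mul (mu.mul mv)
  · refine (ae_restrict_iff' measurableSet_Ioi).2 (Eventually.of_forall fun x hx => ?_)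
    have hx' : (0:ℝ) < x := hx
    simp only [Pi.add_apply]
    rw [Real.norm_eq_abs, abs_mul, abs_of_pos hx', abs_mul]
    have := two_mul_le_add_sq |u x| |v x|
    rw [sq_abs, sq_abs] at this
    have h3 : 0 ≤ |u x| * |v x| := by positivity
    have h4 : |u x| * |v x| ≤ u x ^ 2 + v x ^ 2 := by nlinarith [sq_nonneg (u x), sq_nonneg (v x)]
    calc x * (|u x| * |v x|) ≤ x * (u x ^ 2 + v x ^ 2) := by gcongr
      _ = _ := by ring

lemma Adm.f2_ii (h : Adm f f1 f2) {a b : ℝ} (ha : 0 < a) (hab : a ≤ b) :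
    IntegrableOn f2 (Ioc a b) ∧
      ∫ x in Ioc a b, |f2 x| ≤ (Real.log b - Real.log a + ∫ x in Ioi 0, x * f2 x ^ 2) / 2 := by
  have hsub : Ioc a b ⊆ Ioi 0 := fun x hx => ha.trans hx.1
  have hb1 : IntegrableOn (fun x : ℝ => x⁻¹) (Ioc a b) := by
    have : ContinuousOn (fun x : ℝ => x⁻¹) (Icc a b) :=
      continuousOn_inv₀.mono fun x hx => (ha.trans_le hx.1).ne'
    exact (this.integrableOn_Icc).mono_set Ioc_subset_Icc_self
  have hb2 : IntegrableOn (fun x => x * f2 x ^ 2) (Ioc a b) := h.i2.mono_set hsub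
  have hb : IntegrableOn (fun x => (x⁻¹ + x * f2 x ^ 2) / 2) (Ioc a b) := (hb1.add hb2).div_const 2
  have hle : ∀ x ∈ Ioc a b, |f2 x| ≤ (x⁻¹ + x * f2 x ^ 2) / 2 := by
    intro x hx
    have hx0 : 0 < x := ha.trans hx.1
    have h3 : 0 ≤ x * (|f2 x| - x⁻¹) ^ 2 := by positivity
    have h4 : x * (|f2 x| - x⁻¹) ^ 2 = x * f2 x ^ 2 - 2 * |f2 x| + x⁻¹ := by
      have : |f2 x| ^ 2 = f2 x ^ 2 := sq_abs _
      have hxi : x * x⁻¹ = 1 := mul_inv_cancel₀ hx0.ne'
      linear_combination x * this + (x⁻¹ - 2 * |f2 x|) * hxi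
    linarith
  have hm : AEStronglyMeasurable f2 (volume.restrict (Ioc a b)) := h.m2.mono_set hsub
  refine ⟨Integrable.mono' hb hm ?_, ?_⟩
  · exact (ae_restrict_iff' measurableSet_Ioc).2 (Eventually.of_forall fun x hx => hle x hx)
  · calc ∫ x in Ioc a b, |f2 x| ≤ ∫ x in Ioc a b, (x⁻¹ + x * f2 x ^ 2) / 2 := by
          refine setIntegral_mono_on ?_ hb measurableSet_Ioc hle
          exact (Integrable.mono' hb hm ((ae_restrict_iff' measurableSet_Ioc).2
            (Eventually.of_forall fun x hx => hle x hx))).abs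
      _ = ((∫ x in Ioc a b, x⁻¹) + ∫ x in Ioc a b, x * f2 x ^ 2) / 2 := by
          rw [integral_div, integral_add hb1 hb2]
      _ ≤ _ := by
          have e1 : ∫ x in Ioc a b, x⁻¹ = Real.log b - Real.log a := by
            rw [← intervalIntegral.integral_of_le hab, integral_inv_of_pos ha (ha.trans_le hab),
              Real.log_div (ha.trans_le hab).ne' ha.ne']
          have e2 : ∫ x in Ioc a b, x * f2 x ^ 2 ≤ ∫ x in Ioi 0, x * f2 x ^ 2 := by
            apply setIntegral_mono_set h.i2 _ (LE.le.eventuallyLE hsub)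
            refine (ae_restrict_iff' measurableSet_Ioi).2 (Eventually.of_forall fun x hx => ?_)
            have hx' : (0:ℝ) < x := hx
            simp only [Pi.zero_apply]
            positivity
          rw [e1]
          linarith

lemma Adm.f1_diff (h : Adm f f1 f2) {a b : ℝ} (ha : 0 < a) (hab : a ≤ b) :
    |f1 b - f1 a| ≤ (Real.log b - Real.log a + ∫ x in Ioi 0, x * f2 x ^ 2) / 2 := by
  obtain ⟨hi, hle⟩ := h.f2_ii ha hab
  have e : ∫ x in a..b, f2 x = f1 b - f1 a := by
    apply intervalIntegral.integral_eq_sub_of_hasDerivAt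
    · intro x hx
      rw [uIcc_of_le hab] at hx
      exact h.h2 x (ha.trans_le hx.1)
    · rw [intervalIntegrable_iff_integrableOn_Ioc_of_le hab]; exact hi
  rw [← e, intervalIntegral.integral_of_le hab]
  exact (abs_integral_le_integral_abs).trans hle

/-- growth of the derivative -/
lemma Adm.f1_growth (h : Adm f f1 f2) : ∃ C, 0 ≤ C ∧ ∀ x > 0, |f1 x| ≤ C + |Real.log x| := by
  refine ⟨|f1 1| + (∫ x in Ioi 0, x * f2 x ^ 2), ?_, fun x hx => ?_⟩
  · have : 0 ≤ ∫ x in Ioi 0, x * f2 x ^ 2 := setIntegral_nonneg measurableSet_Ioi fun x hx => by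
      have : (0:ℝ) < x := hx
      positivity
    positivity
  · have hM : 0 ≤ ∫ x in Ioi 0, x * f2 x ^ 2 := setIntegral_nonneg measurableSet_Ioi fun x hx => by
      have : (0:ℝ) < x := hx
      positivity
    rcases le_total x 1 with h1 | h1
    · have h2 := h.f1_diff hx h1
      rw [Real.log_one] at h2
      have h3 : Real.log x ≤ 0 := Real.log_nonpos hx.le h1
      rw [abs_of_nonpos h3]
      have h4 := abs_sub_abs_le_abs_sub (f1 x) (f1 1)
      rw [abs_sub_comm] at h4
      linarith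
    · have h2 := h.f1_diff one_pos h1
      rw [Real.log_one] at h2
      have h3 : 0 ≤ Real.log x := Real.log_nonneg h1
      rw [abs_of_nonneg h3]
      have h4 := abs_sub_abs_le_abs_sub (f1 x) (f1 1)
      linarith

lemma x_log_tendsto : Tendsto (fun x : ℝ => x * |Real.log x|) (𝓝[>] 0) (𝓝 0) := by
  have h1 : Tendsto (fun x : ℝ => |x * Real.log x|) (𝓝 0) (𝓝 |0 * Real.log 0|) :=
    (Real.continuous_mul_log.abs).tendsto 0
  rw [zero_mul, abs_zero] at h1
  refine (h1.mono_left nhdsWithin_le_nhds).congr' ?_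
  filter_upwards [self_mem_nhdsWithin] with x hx
  have : (0:ℝ) < x := hx
  rw [abs_mul, abs_of_pos this]

/-- `x f'(x) → 0` as `x → 0` -/
lemma Adm.x_f1 (h : Adm f f1 f2) : Tendsto (fun x => x * f1 x) (𝓝[>] 0) (𝓝 0) := by
  obtain ⟨C, hC, hle⟩ := h.f1_growth
  have h1 : Tendsto (fun x : ℝ => x * C + x * |Real.log x|) (𝓝[>] 0) (𝓝 0) := by
    have h2 : Tendsto (fun x : ℝ => x * C) (𝓝[>] 0) (𝓝 (0 * C)) :=
      ((continuous_id.mul continuous_const).tendsto 0).mono_left nhdsWithin_le_nhds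
    rw [zero_mul] at h2
    simpa using h2.add x_log_tendsto
  apply squeeze_zero_norm' _ h1
  filter_upwards [self_mem_nhdsWithin] with x hx
  have hx' : (0:ℝ) < x := hx
  rw [norm_mul, Real.norm_of_nonneg hx'.le, Real.norm_eq_abs, ← mul_add]
  gcongr
  exact hle x hx'

lemma Adm.f1_int (h : Adm f f1 f2) : IntegrableOn f1 (Ioc 0 1) := by
  obtain ⟨C, hC, hle⟩ := h.f1_growth
  have hlog : IntegrableOn (fun x => |Real.log x|) (Ioc 0 1) := by
    have := (intervalIntegral.intervalIntegrable_log' (a := 0) (b := 1)).1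
    exact this.abs
  have hb : IntegrableOn (fun x => C + |Real.log x|) (Ioc 0 1) := by
    refine Integrable.add ?_ hlog
    exact integrableOn_const (by simp)
  refine Integrable.mono' hb (h.m1.mono_set Ioc_subset_Ioi_self) ?_
  exact (ae_restrict_iff' measurableSet_Ioc).2 (Eventually.of_forall fun x hx => hle x hx.1)

/-- the boundary value at `0` exists -/
lemma Adm.lim (h : Adm f f1 f2) : ∃ L, Tendsto f (𝓝[>] 0) (𝓝 L) := by
  have hi : IntervalIntegrable f1 volume 0 1 :=
    (intervalIntegrable_iff_integrableOn_Ioc_of_le zero_le_one).2 h.f1_int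
  have hc : ContinuousOn (fun x => ∫ t in (0:ℝ)..x, f1 t) (uIcc 0 1) :=
    intervalIntegral.continuousOn_primitive_interval' hi left_mem_uIcc
  rw [uIcc_of_le zero_le_one] at hc
  have h0 := (hc 0 (left_mem_Icc.2 zero_le_one)).tendsto
  rw [intervalIntegral.integral_same] at h0
  have h0' : Tendsto (fun x => ∫ t in (0:ℝ)..x, f1 t) (𝓝[>] 0) (𝓝 0) := by
    refine h0.mono_left ?_
    rw [← nhdsWithin_Ioc_eq_nhdsGT (zero_lt_one' ℝ)]
    exact nhdsWithin_mono _ Ioc_subset_Icc_self
  refine ⟨f 1 - ∫ t in (0:ℝ)..1, f1 t, ?_⟩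
  have h2 : Tendsto (fun x => f 1 - ((∫ t in (0:ℝ)..1, f1 t) - ∫ t in (0:ℝ)..x, f1 t)) (𝓝[>] 0)
      (𝓝 (f 1 - ((∫ t in (0:ℝ)..1, f1 t) - 0))) := (h0'.const_sub _).const_sub _
  rw [sub_zero] at h2
  refine h2.congr' ?_
  filter_upwards [Ioo_mem_nhdsGT (zero_lt_one' ℝ)] with x hx
  have hix : IntervalIntegrable f1 volume 0 x :=
    hi.mono_set (by rw [uIcc_of_le hx.1.le, uIcc_of_le zero_le_one]; exact Icc_subset_Icc_right hx.2.le)
  have hix1 : IntervalIntegrable f1 volume x 1 :=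
    hi.mono_set (by rw [uIcc_of_le hx.2.le, uIcc_of_le zero_le_one]; exact Icc_subset_Icc_left hx.1.le)
  have e : ∫ t in x..1, f1 t = f 1 - f x := by
    apply intervalIntegral.integral_eq_sub_of_hasDerivAt _ hix1
    intro y hy
    rw [uIcc_of_le hx.2.le] at hy
    exact h.h1 y (hx.1.trans_le hy.1)
  have e2 := intervalIntegral.integral_add_adjacent_intervals hix hix1
  linarith

/-- polynomial growth at infinity -/
lemma Adm.growth (h : Adm f f1 f2) : ∃ C, 0 ≤ C ∧ ∀ x ≥ 1, |f1 x| ≤ C * x ∧ |f x| ≤ C * x ^ 2 := by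
  obtain ⟨C, hC, hle⟩ := h.f1_growth
  have h1 : ∀ x ≥ (1:ℝ), |f1 x| ≤ (C + 1) * x := by
    intro x hx
    have h2 := hle x (by linarith)
    have h3 : 0 ≤ Real.log x := Real.log_nonneg hx
    have h4 := Real.log_le_sub_one_of_pos (show 0 < x by linarith)
    rw [abs_of_nonneg h3] at h2
    nlinarith
  refine ⟨|f 1| + (C + 1), by positivity, fun x hx => ⟨(h1 x hx).trans ?_, ?_⟩⟩
  · nlinarith [abs_nonneg (f 1)]
  · have hmv : ‖f x - f 1‖ ≤ ((C + 1) * x) * ‖x - 1‖ := by
      apply Convex.norm_image_sub_le_of_norm_hasDerivWithin_le (f := f) (f' := f1) (s := Icc 1 x)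
      · intro y hy
        exact (h.h1 y (by linarith [hy.1])).hasDerivWithinAt
      · intro y hy
        rw [Real.norm_eq_abs]
        refine (h1 y hy.1).trans ?_
        gcongr
        exact hy.2
      · exact convex_Icc 1 x
      · exact left_mem_Icc.2 hx
      · exact right_mem_Icc.2 hx
    rw [Real.norm_eq_abs, Real.norm_of_nonneg (by linarith)] at hmv
    have h5 := abs_sub_abs_le_abs_sub (f x) (f 1)
    have h6 : (C + 1) * x * (x - 1) ≤ (C + 1) * x ^ 2 := by nlinarith
    have h7 : |f 1| ≤ |f 1| * x ^ 2 := le_mul_of_one_le_right (abs_nonneg _) (one_le_pow₀ hx)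
    nlinarith

/-- the quadratic function of the first identity -/
lemma Adm.phi_deriv (h : Adm f f1 f2) : ∀ x > 0,
    HasDerivAt (fun x => x * (f x * f1 x) - f x ^ 2 / 2) (x * f1 x ^ 2 + x * (f x * f2 x)) x := by
  intro x hx
  have a1 := h.h1 x hx
  have a2 := h.h2 x hx
  have a3 := ((hasDerivAt_id x).mul (a1.mul a2)).sub ((a1.pow 2).div_const 2)
  refine a3.congr_deriv ?_
  simp
  ring

lemma Adm.exists_small (h : Adm f f1 f2) (R0 : ℝ) (hR0 : 1 ≤ R0) :
    ∃ R ≥ R0, R * (f R * f1 R) - f R ^ 2 / 2 ≤ 1 := by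
  by_contra hcon
  push Not at hcon
  have hmono : MonotoneOn (fun x => f x ^ 2 - 2 * Real.log x) (Ici R0) := by
    apply monotoneOn_of_deriv_nonneg (convex_Ici R0)
    · intro x hx
      have hx0 : 0 < x := lt_of_lt_of_le (by linarith) (mem_Ici.1 hx)
      exact (((h.h1 x hx0).pow 2).sub
        ((Real.hasDerivAt_log hx0.ne').const_mul 2)).continuousAt.continuousWithinAt
    · intro x hx
      rw [interior_Ici] at hx
      have hx0 : 0 < x := lt_trans (by linarith) hx
      exact (((h.h1 x hx0).pow 2).sub ((Real.hasDerivAt_log hx0.ne').const_mul 2)).differentiableAt.differentiableWithinAt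
    · intro x hx
      rw [interior_Ici] at hx
      have hx0 : 0 < x := lt_trans (by linarith) hx
      have hd := ((h.h1 x hx0).pow 2).sub ((Real.hasDerivAt_log hx0.ne').const_mul 2)
      have hd' : HasDerivAt (fun x => f x ^ 2 - 2 * Real.log x) (2 * (f x * f1 x) - 2 * x⁻¹) x := by
        refine hd.congr_deriv ?_
        push_cast; ring
      rw [hd'.deriv]
      have h2 := hcon x (le_of_lt hx)
      have h3 : 1 < x * (f x * f1 x) := by nlinarith [sq_nonneg (f x)]
      have h4 : x⁻¹ < f x * f1 x := by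
        rw [inv_lt_iff_one_lt_mul₀ hx0]; linarith
      linarith
  set R1 : ℝ := R0 * Real.exp 1 with hR1
  have he : 1 < Real.exp 1 := Real.one_lt_exp_iff.2 one_pos
  have hR1' : R0 ≤ R1 := by nlinarith
  have hbig : ∀ x ∈ Ioi R1, (1:ℝ) ≤ x * f x ^ 2 := by
    intro x hx
    have hx1 : R1 < x := hx
    have hx0 : 0 < x := by linarith
    have h2 := hmono (mem_Ici.2 le_rfl) (mem_Ici.2 (hR1'.trans hx1.le)) (hR1'.trans hx1.le)
    simp only at h2
    have h3 : Real.log R0 + 1 ≤ Real.log x := by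
      have : Real.log R1 = Real.log R0 + 1 := by
        rw [hR1, Real.log_mul (by linarith) (Real.exp_pos 1).ne', Real.log_exp]
      rw [← this]
      exact Real.log_le_log (by linarith) hx1.le
    have h4 : 2 ≤ f x ^ 2 := by nlinarith [sq_nonneg (f R0)]
    nlinarith
  have hint : IntegrableOn (fun _ : ℝ => (1:ℝ)) (Ioi R1) := by
    refine Integrable.mono' (h.i0.mono_set (Ioi_subset_Ioi (by linarith : (0:ℝ) ≤ R1)))
      aestronglyMeasurable_const ?_
    refine (ae_restrict_iff' measurableSet_Ioi).2 (Eventually.of_forall fun x hx => ?_)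
    rw [norm_one]
    exact hbig x hx
  rw [integrableOn_const_iff] at hint
  simp at hint

end

end Pool.Agent.R256.HL
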