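import Pool.Agent.R256.HL2

set_option autoImplicit false

open MeasureTheory Set Filter Topology

namespace Pool.Agent.R256.HL

noncomputable section

variable {f f1 f2 : ℝ → ℝ}

lemma tendsto_le_one_of_atTop {u : ℝ → ℝ} (h : ∀ R0 ≥ (1:ℝ), ∃ R ≥ R0, u R ≤ 1) :
    ∃ b : ℕ → ℝ, Tendsto b atTop atTop ∧ (∀ n, 1 ≤ b n) ∧ ∀ n, u (b n) ≤ 1 := by
  choose R hR hu using fun n : ℕ => h (n + 1 : ℝ) (by linarith [Nat.cast_nonneg (α := ℝ) n])
  refine ⟨R, ?_, fun n => ?_, hu⟩
  · refine tendsto_atTop_mono (fun n => ?_) (tendsto_natCast_atTop_atTop (R := ℝ))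
    have := hR n
    linarith
  · have := hR n
    have h2 := Nat.cast_nonneg (α := ℝ) n
    linarith

/-- `∫ x f'² < ∞` -/
lemma Adm.i1 (h : Adm f f1 f2) : IntegrableOn (fun x => x * f1 x ^ 2) (Ioi 0) := by
  have hcont : ContinuousOn (fun x => x * f1 x ^ 2) (Ioi 0) := continuousOn_id.mul (h.c1.pow 2)
  have hff2 := Adm.prod_int h.m0 h.m2 h.i0 h.i2
  -- near zero
  have hnear : IntegrableOn (fun x => x * f1 x ^ 2) (Ioc 0 1) := by
    obtain ⟨C, hC, hle⟩ := h.f1_growth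
    have hb : IntegrableOn (fun x => (C + 1) * |f1 x|) (Ioc 0 1) := h.f1_int.abs.const_mul _
    refine Integrable.mono' hb ((hcont.mono Ioc_subset_Ioi_self).aestronglyMeasurable
      measurableSet_Ioc) ?_
    refine (ae_restrict_iff' measurableSet_Ioc).2 (Eventually.of_forall fun x hx => ?_)
    have hx0 := hx.1
    rw [Real.norm_eq_abs, abs_mul, abs_of_pos hx0, abs_pow, pow_two, ← mul_assoc]
    refine mul_le_mul_of_nonneg_right ?_ (abs_nonneg _)
    have h1 := hle x hx0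
    have h2 : x * |Real.log x| ≤ 1 := by
      have := Real.abs_log_mul_self_lt x hx0 hx.2
      rw [mul_comm, ← abs_of_pos hx0, ← abs_mul, abs_of_pos hx0]
      exact this.le
    have h3 : x * |f1 x| ≤ x * (C + |Real.log x|) := mul_le_mul_of_nonneg_left h1 hx0.le
    nlinarith [hx.2]
  have hfar : IntegrableOn (fun x => x * f1 x ^ 2) (Ioi 1) := by
    obtain ⟨b, hb, hb1, hb2⟩ := tendsto_le_one_of_atTop (fun R0 hR0 => h.exists_small R0 hR0)
    refine integrableOn_Ioi_of_intervalIntegral_norm_bounded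
      (1 - (1 * (f 1 * f1 1) - f 1 ^ 2 / 2) + ∫ x in Ioi 0, |x * (f x * f2 x)|) 1
      (l := atTop) (b := b) (fun n => ?_) hb (Eventually.of_forall fun n => ?_)
    · exact ((hcont.mono fun x hx => lt_of_lt_of_le one_pos hx.1).integrableOn_Icc
        (μ := volume) (a := 1) (b := b n)).mono_set Ioc_subset_Icc_self
    · have hab := hb1 n
      have hi1 : IntervalIntegrable (fun x => x * f1 x ^ 2) volume 1 (b n) := by
        rw [intervalIntegrable_iff_integrableOn_Ioc_of_le hab]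
        exact ((hcont.mono fun x hx => lt_of_lt_of_le one_pos hx.1).integrableOn_Icc
          (μ := volume) (a := 1) (b := b n)).mono_set Ioc_subset_Icc_self
      have hsub : Ioc 1 (b n) ⊆ Ioi 0 := fun x hx => lt_trans one_pos hx.1
      have hi2 : IntervalIntegrable (fun x => x * (f x * f2 x)) volume 1 (b n) := by
        rw [intervalIntegrable_iff_integrableOn_Ioc_of_le hab]
        exact hff2.mono_set hsub
      have e := intervalIntegral.integral_eq_sub_of_hasDerivAt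
        (f := fun x => x * (f x * f1 x) - f x ^ 2 / 2)
        (f' := fun x => x * f1 x ^ 2 + x * (f x * f2 x)) (a := 1) (b := b n)
        (fun x hx => by
          rw [uIcc_of_le hab] at hx
          exact h.phi_deriv x (lt_of_lt_of_le one_pos hx.1)) (hi1.add hi2)
      rw [intervalIntegral.integral_add hi1 hi2] at e
      have h3 : ∫ x in (1:ℝ)..b n, ‖x * f1 x ^ 2‖ = ∫ x in (1:ℝ)..b n, x * f1 x ^ 2 := by
        apply intervalIntegral.integral_congr
        intro x hx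
        rw [uIcc_of_le hab] at hx
        have : 0 < x := lt_of_lt_of_le one_pos hx.1
        exact Real.norm_of_nonneg (by positivity)
      rw [h3]
      have h4 : -(∫ x in (1:ℝ)..b n, x * (f x * f2 x)) ≤ ∫ x in Ioi 0, |x * (f x * f2 x)| := by
        refine (neg_le_abs _).trans ?_
        rw [intervalIntegral.integral_of_le hab]
        refine abs_integral_le_integral_abs.trans ?_
        exact setIntegral_mono_set hff2.abs
          (Eventually.of_forall fun x => abs_nonneg _) hsub.eventuallyLE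
      have h5 := hb2 n
      linarith
  have : Ioi (0:ℝ) = Ioc 0 1 ∪ Ioi 1 := (Ioc_union_Ioi_eq_Ioi zero_le_one).symm
  rw [this]
  exact hnear.union hfar

/-- the first identity -/
lemma Adm.ident (h : Adm f f1 f2) {L : ℝ} (hL : Tendsto f (𝓝[>] 0) (𝓝 L)) :
    (∫ x in Ioi 0, x * f1 x ^ 2) + ∫ x in Ioi 0, x * (f x * f2 x) = L ^ 2 / 2 := by
  have hff2 := Adm.prod_int h.m0 h.m2 h.i0 h.i2
  have hff1 := Adm.prod_int h.m0 h.m1 h.i0 h.i1
  rw [← integral_add h.i1 hff2]
  have h0 : Tendsto (fun x => x * (f x * f1 x) - f x ^ 2 / 2) (𝓝[>] 0) (𝓝 (-(L ^ 2 / 2))) := by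
    have h1 : Tendsto (fun x => f x * (x * f1 x) - f x ^ 2 / 2) (𝓝[>] 0)
      (𝓝 (L * 0 - L ^ 2 / 2)) := (hL.mul h.x_f1).sub ((hL.pow 2).div_const 2)
    rw [mul_zero, zero_sub] at h1
    exact h1.congr fun x => by ring
  have hinf : Tendsto (fun x => x * (f x * f1 x) - f x ^ 2 / 2) atTop (𝓝 0) := by
    apply tendsto_zero_of_hasDerivAt_of_integrableOn_Ioi (a := 1)
      (f' := fun x => x * f1 x ^ 2 + x * (f x * f2 x))
    · intro x hx
      exact h.phi_deriv x (lt_trans one_pos hx)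
    · exact (h.i1.add hff2).mono_set (Ioi_subset_Ioi zero_le_one)
    · apply Integrable.sub (hff1.mono_set (Ioi_subset_Ioi zero_le_one))
      apply Integrable.div_const
      refine Integrable.mono' (h.i0.mono_set (Ioi_subset_Ioi zero_le_one)) ?_ ?_
      · exact (h.m0.mono_set (Ioi_subset_Ioi zero_le_one)).pow 2
      · refine (ae_restrict_iff' measurableSet_Ioi).2 (Eventually.of_forall fun x hx => ?_)
        have hx1 : (1:ℝ) < x := hx
        rw [Real.norm_of_nonneg (sq_nonneg _)]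
        nlinarith [sq_nonneg (f x)]
  have := int_Ioi h.phi_deriv (h.i1.add hff2) h0 hinf
  rw [show (0:ℝ) - -(L ^ 2 / 2) = L ^ 2 / 2 by ring] at this
  exact this

/-- if the boundary value vanishes -/
lemma Adm.nonneg_of_zero (h : Adm f f1 f2) (hL : Tendsto f (𝓝[>] 0) (𝓝 0)) {κ : ℝ} (h0 : 0 ≤ κ)
    (h2 : κ ≤ 2) : κ * (∫ x in Ioi 0, x * f1 x ^ 2) ≤
      (∫ x in Ioi 0, x * f2 x ^ 2) + ∫ x in Ioi 0, x * f x ^ 2 := by
  have e := h.ident hL
  have hff2 := Adm.prod_int h.m0 h.m2 h.i0 h.i2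
  have h3 : -(∫ x in Ioi 0, x * (f x * f2 x)) ≤
      ((∫ x in Ioi 0, x * f2 x ^ 2) + ∫ x in Ioi 0, x * f x ^ 2) / 2 := by
    rw [← integral_neg, ← integral_add h.i2 h.i0, ← integral_div]
    apply setIntegral_mono_on hff2.neg ((h.i2.add h.i0).div_const 2) measurableSet_Ioi
    intro x hx
    have hx0 : (0:ℝ) < x := hx
    simp only [Pi.add_apply, Pi.neg_apply]
    nlinarith [mul_nonneg hx0.le (sq_nonneg (f x + f2 x))]
  have h4 : 0 ≤ (∫ x in Ioi 0, x * f2 x ^ 2) + ∫ x in Ioi 0, x * f x ^ 2 := by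
    apply add_nonneg <;>
    · apply setIntegral_nonneg measurableSet_Ioi
      intro x hx
      have hx0 : (0:ℝ) < x := hx
      positivity
  nlinarith

section comparison

variable {k : ℝ}

lemma exp_decay (h0 : 0 ≤ k) (h1 : k < 1) (m n : ℕ) :
    Tendsto (fun x : ℝ => x ^ m * F k n x) atTop (𝓝 0) := by
  have hd := d0_pos h0 h1
  have h2 : Tendsto (fun x : ℝ => x ^ m * Real.exp (-x * d0 k) * (1 / d0 k * (Real.pi / 2)))
      atTop (𝓝 0) := by
    have h3 := (Real.tendsto_pow_mul_exp_neg_atTop_nhds_zero m).comp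
      (tendsto_id.atTop_mul_const hd)
    have h4 := (h3.const_mul ((d0 k)⁻¹ ^ m)).mul_const (1 / d0 k * (Real.pi / 2))
    rw [mul_zero, zero_mul] at h4
    refine h4.congr fun x => ?_
    simp only [Function.comp, id]
    rw [mul_pow, show -(x * d0 k) = -x * d0 k by ring]
    have : (d0 k)⁻¹ ^ m * (x ^ m * d0 k ^ m * Real.exp (-x * d0 k)) =
        ((d0 k)⁻¹ * d0 k) ^ m * (x ^ m * Real.exp (-x * d0 k)) := by
      rw [mul_pow]; ring
    rw [this, inv_mul_cancel₀ hd.ne', one_pow, one_mul]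
  apply squeeze_zero_norm' _ h2
  filter_upwards [eventually_ge_atTop 0] with x hx
  rw [norm_mul, Real.norm_of_nonneg (pow_nonneg hx _), Real.norm_eq_abs, mul_assoc]
  have := F_abs_le h0 h1 n hx
  refine mul_le_mul_of_nonneg_left (this.trans (le_of_eq ?_)) (pow_nonneg hx _)
  ring

lemma F_cont (h0 : 0 ≤ k) (h1 : k < 1) (n : ℕ) : Continuous (F k n) :=
  continuous_iff_continuousAt.2 fun x => (F_hasDerivAt h0 h1 n x).continuousAt

lemma F_sq_int (h0 : 0 ≤ k) (h1 : k < 1) (n : ℕ) :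
    IntegrableOn (fun x => x * F k n x ^ 2) (Ioi 0) := by
  have hd := d0_pos h0 h1
  have hc := F_cont h0 h1 n
  have hnear : IntegrableOn (fun x => x * F k n x ^ 2) (Ioc 0 1) :=
    (by fun_prop : Continuous fun x => x * F k n x ^ 2).integrableOn_Ioc
  -- far: bounded by `x⁻²`
  have ht : Tendsto (fun x : ℝ => (x ^ 3 * F k n x) * F k n x) atTop (𝓝 (0 * 0)) := by
    have := exp_decay h0 h1 0 n
    simp only [pow_zero, one_mul] at this
    exact (exp_decay h0 h1 3 n).mul this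
  rw [mul_zero] at ht
  obtain ⟨R, hR⟩ := (((tendsto_order.1 ht).2 1 one_pos).and (eventually_ge_atTop 1)).exists_forall_of_atTop
  set R1 := max R 1
  have hsplit : Ioi (0:ℝ) = Ioc 0 R1 ∪ Ioi R1 :=
    (Ioc_union_Ioi_eq_Ioi (le_trans zero_le_one (le_max_right _ _))).symm
  rw [hsplit]
  refine IntegrableOn.union
    (by fun_prop : Continuous fun x => x * F k n x ^ 2).integrableOn_Ioc ?_
  have hb : IntegrableOn (fun x : ℝ => x ^ (-2 : ℝ)) (Ioi R1) :=
    integrableOn_Ioi_rpow_of_lt (by norm_num) (lt_of_lt_of_le one_pos (le_max_right _ _))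
  refine Integrable.mono' hb
    (by fun_prop : Continuous fun x => x * F k n x ^ 2).aestronglyMeasurable ?_
  refine (ae_restrict_iff' measurableSet_Ioi).2 (Eventually.of_forall fun x hx => ?_)
  have hx1 : R1 < x := hx
  have hxR : R ≤ x := (le_max_left _ _).trans hx1.le
  have hx0 : 1 < x := (le_max_right _ _).trans_lt hx1
  have h2 := (hR x hxR).1
  have hxp : 0 < x := by linarith
  rw [Real.norm_of_nonneg (by positivity)]
  have e : x ^ (-2 : ℝ) = 1 / x ^ 2 := by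
    rw [show (-2 : ℝ) = -((2 : ℕ) : ℝ) by norm_num, Real.rpow_neg hxp.le, Real.rpow_natCast]
    simp
  rw [e, le_div_iff₀ (by positivity)]
  nlinarith

lemma F_adm (h0 : 0 ≤ k) (h1 : k < 1) : Adm (F k 0) (F k 1) (F k 2) where
  h1 := fun x _ => F_hasDerivAt h0 h1 0 x
  h2 := fun x _ => F_hasDerivAt h0 h1 1 x
  i0 := F_sq_int h0 h1 0
  i2 := F_sq_int h0 h1 2

/-- the second identity: the critical solution is orthogonal to everything -/
lemma Adm.ortho (h : Adm f f1 f2) (h0 : 0 ≤ k) (h1 : k < 1) (hk : F k 2 0 = 0) :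
    (∫ x in Ioi 0, x * (f2 x * F k 2 x)) -
      (4 * k ^ 2 - 2) * (∫ x in Ioi 0, x * (f1 x * F k 1 x)) +
      ∫ x in Ioi 0, x * (f x * F k 0 x) = 0 := by
  obtain ⟨L, hL⟩ := h.lim
  have hF := F_adm h0 h1
  have j2 := Adm.prod_int h.m2 hF.m2 h.i2 hF.i2
  have j1 := Adm.prod_int h.m1 hF.m1 h.i1 hF.i1
  have j0 := Adm.prod_int h.m0 hF.m0 h.i0 hF.i0
  have hd : ∀ x > 0, HasDerivAt (fun x => x * f1 x * F k 2 x - (F k 2 x + x * F k 3 x) * f x -
      (4 * k ^ 2 - 2) * (x * F k 1 x * f x))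
      (x * (f2 x * F k 2 x) - (4 * k ^ 2 - 2) * (x * (f1 x * F k 1 x)) + x * (f x * F k 0 x)) x := by
    intro x hx
    have a0 := h.h1 x hx
    have a1 := h.h2 x hx
    have b1 := F_hasDerivAt h0 h1 1 x
    have b2 := F_hasDerivAt h0 h1 2 x
    have b3 := F_hasDerivAt h0 h1 3 x
    have hode := F_ode h0 h1 x
    have c := ((((hasDerivAt_id x).mul a1).mul b2).sub ((b2.add ((hasDerivAt_id x).mul b3)).mul a0)).sub
      ((((hasDerivAt_id x).mul b1).mul a0).const_mul (4 * k ^ 2 - 2))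
    refine c.congr_deriv ?_
    simp
    linear_combination (-f x) * hode
  have ht0 : Tendsto (fun x => x * f1 x * F k 2 x - (F k 2 x + x * F k 3 x) * f x -
      (4 * k ^ 2 - 2) * (x * F k 1 x * f x)) (𝓝[>] 0) (𝓝 0) := by
    have c := fun n => ((F_cont h0 h1 n).tendsto 0).mono_left (nhdsWithin_le_nhds (s := Ioi 0))
    have cx : Tendsto (fun x : ℝ => x) (𝓝[>] 0) (𝓝 0) := tendsto_id.mono_left nhdsWithin_le_nhds
    have := ((h.x_f1.mul (c 2)).sub (((c 2).add (cx.mul (c 3))).mul hL)).sub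
      (((cx.mul (c 1)).mul hL).const_mul (4 * k ^ 2 - 2))
    rw [hk] at this
    simpa using this
  have htinf : Tendsto (fun x => x * f1 x * F k 2 x - (F k 2 x + x * F k 3 x) * f x -
      (4 * k ^ 2 - 2) * (x * F k 1 x * f x)) atTop (𝓝 0) := by
    obtain ⟨C, hC, hg⟩ := h.growth
    have t1 : Tendsto (fun x => x * f1 x * F k 2 x) atTop (𝓝 0) := by
      have := ((exp_decay h0 h1 2 2).norm.const_mul C)
      rw [norm_zero, mul_zero] at this
      apply squeeze_zero_norm' _ this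
      filter_upwards [eventually_ge_atTop 1] with x hx
      have := (hg x hx).1
      have hx0 : 0 < x := by linarith
      rw [norm_mul, norm_mul, norm_mul, norm_pow, Real.norm_of_nonneg hx0.le, Real.norm_eq_abs (f1 x)]
      have : x * |f1 x| ≤ C * x ^ 2 := by nlinarith
      calc x * |f1 x| * ‖F k 2 x‖ ≤ C * x ^ 2 * ‖F k 2 x‖ := by gcongr
        _ = _ := by ring
    have tf : ∀ m n : ℕ, Tendsto (fun x => x ^ m * F k n x * f x) atTop (𝓝 0) := by
      intro m n
      have := ((exp_decay h0 h1 (m + 2) n).norm.const_mul C)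
      rw [norm_zero, mul_zero] at this
      apply squeeze_zero_norm' _ this
      filter_upwards [eventually_ge_atTop 1] with x hx
      have := (hg x hx).2
      have hx0 : 0 < x := by linarith
      rw [norm_mul, norm_mul, norm_mul, norm_pow, norm_pow, Real.norm_of_nonneg hx0.le,
        Real.norm_eq_abs (f x)]
      calc x ^ m * ‖F k n x‖ * |f x| ≤ x ^ m * ‖F k n x‖ * (C * x ^ 2) := by gcongr
        _ = _ := by ring
    have := (t1.sub ((tf 0 2).add (tf 1 3))).sub ((tf 1 1).const_mul (4 * k ^ 2 - 2))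
    simp only [mul_zero, sub_zero, add_zero] at this
    refine this.congr fun x => ?_
    ring
  have k1 : IntegrableOn (fun x => x * (f2 x * F k 2 x) -
      (4 * k ^ 2 - 2) * (x * (f1 x * F k 1 x))) (Ioi 0) := j2.sub (j1.const_mul _)
  have k2 : IntegrableOn (fun x => (4 * k ^ 2 - 2) * (x * (f1 x * F k 1 x))) (Ioi 0) :=
    j1.const_mul _
  have key := int_Ioi hd (k1.add j0) ht0 htinf
  rw [sub_zero, integral_add k1 j0, integral_sub j2 k2, integral_const_mul] at key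
  exact key

/-- the quadratic form is nonnegative -/
lemma Adm.form_nonneg (h : Adm f f1 f2) (h0 : 0 ≤ k) (h1 : k < 1) (hk : F k 2 0 = 0)
    (hk2 : 1 < 2 * k ^ 2) :
    (4 * k ^ 2 - 2) * (∫ x in Ioi 0, x * f1 x ^ 2) ≤
      (∫ x in Ioi 0, x * f2 x ^ 2) + ∫ x in Ioi 0, x * f x ^ 2 := by
  obtain ⟨L, hL⟩ := h.lim
  have hF := F_adm h0 h1
  have hFpos : 0 < F k 0 0 := by rw [F_zero_zero h0 h1]; exact KK_pos h0 h1
  set a : ℝ := L / F k 0 0 with ha
  have expand : ∀ (u v : ℝ → ℝ), IntegrableOn (fun x => x * u x ^ 2) (Ioi 0) →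
      IntegrableOn (fun x => x * v x ^ 2) (Ioi 0) → IntegrableOn (fun x => x * (u x * v x)) (Ioi 0) →
      IntegrableOn (fun x => x * (u x - a * v x) ^ 2) (Ioi 0) ∧
      ∫ x in Ioi 0, x * (u x - a * v x) ^ 2 = (∫ x in Ioi 0, x * u x ^ 2) -
        2 * a * (∫ x in Ioi 0, x * (u x * v x)) + a ^ 2 * ∫ x in Ioi 0, x * v x ^ 2 := by
    intro u v hu hv huv
    have e : (fun x => x * (u x - a * v x) ^ 2) = fun x => x * u x ^ 2 - 2 * a * (x * (u x * v x)) +
        a ^ 2 * (x * v x ^ 2) := by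
      funext x; ring
    have k1 : IntegrableOn (fun x => 2 * a * (x * (u x * v x))) (Ioi 0) := huv.const_mul _
    have k2 : IntegrableOn (fun x => a ^ 2 * (x * v x ^ 2)) (Ioi 0) := hv.const_mul _
    have k3 : IntegrableOn (fun x => x * u x ^ 2 - 2 * a * (x * (u x * v x))) (Ioi 0) := hu.sub k1
    rw [e]
    refine ⟨k3.add k2, ?_⟩
    rw [integral_add k3 k2, integral_sub hu k1, integral_const_mul, integral_const_mul]
  obtain ⟨i0', e0⟩ := expand f (F k 0) h.i0 hF.i0 (Adm.prod_int h.m0 hF.m0 h.i0 hF.i0)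
  obtain ⟨i1', e1⟩ := expand f1 (F k 1) h.i1 hF.i1 (Adm.prod_int h.m1 hF.m1 h.i1 hF.i1)
  obtain ⟨i2', e2⟩ := expand f2 (F k 2) h.i2 hF.i2 (Adm.prod_int h.m2 hF.m2 h.i2 hF.i2)
  have hg : Adm (fun x => f x - a * F k 0 x) (fun x => f1 x - a * F k 1 x)
      (fun x => f2 x - a * F k 2 x) :=
    { h1 := fun x hx => (h.h1 x hx).sub ((F_hasDerivAt h0 h1 0 x).const_mul a)
      h2 := fun x hx => (h.h2 x hx).sub ((F_hasDerivAt h0 h1 1 x).const_mul a)
      i0 := i0'
      i2 := i2' }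
  have hg0 : Tendsto (fun x => f x - a * F k 0 x) (𝓝[>] 0) (𝓝 0) := by
    have := hL.sub ((((F_cont h0 h1 0).tendsto 0).mono_left
      (nhdsWithin_le_nhds (s := Ioi 0))).const_mul a)
    rwa [ha, div_mul_cancel₀ _ hFpos.ne', sub_self] at this
  have hκ0 : (0:ℝ) ≤ 4 * k ^ 2 - 2 := by nlinarith
  have hκ2 : (4 * k ^ 2 - 2 : ℝ) ≤ 2 := by nlinarith
  have main := hg.nonneg_of_zero hg0 hκ0 hκ2
  have o1 := h.ortho h0 h1 hk
  have o2 := hF.ortho h0 h1 hk
  have e3 : ∀ n, ∫ x in Ioi 0, x * (F k n x * F k n x) = ∫ x in Ioi 0, x * F k n x ^ 2 := by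
    intro n; congr 1; funext x; ring
  rw [e3, e3, e3] at o2
  rw [e0, e1, e2] at main
  have : a ^ 2 * ((∫ x in Ioi 0, x * F k 2 x ^ 2) - (4 * k ^ 2 - 2) *
    (∫ x in Ioi 0, x * F k 1 x ^ 2) + ∫ x in Ioi 0, x * F k 0 x ^ 2) = 0 := by rw [o2, mul_zero]
  have o1' : 2 * a * ((∫ x in Ioi 0, x * (f2 x * F k 2 x)) -
      (4 * k ^ 2 - 2) * (∫ x in Ioi 0, x * (f1 x * F k 1 x)) +
      ∫ x in Ioi 0, x * (f x * F k 0 x)) = 0 := by rw [o1, mul_zero]
  nlinarith

/-- dilations -/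
lemma Adm.dilate (h : Adm f f1 f2) {t : ℝ} (ht : 0 < t) :
    Adm (fun x => f (t * x)) (fun x => t * f1 (t * x)) (fun x => t ^ 2 * f2 (t * x)) ∧
    (∫ x in Ioi 0, x * (f (t * x)) ^ 2) = t⁻¹ ^ 2 * ∫ x in Ioi 0, x * f x ^ 2 ∧
    (∫ x in Ioi 0, x * (t * f1 (t * x)) ^ 2) = ∫ x in Ioi 0, x * f1 x ^ 2 ∧
    (∫ x in Ioi 0, x * (t ^ 2 * f2 (t * x)) ^ 2) = t ^ 2 * ∫ x in Ioi 0, x * f2 x ^ 2 := by
  have key : ∀ u : ℝ → ℝ, (∫ x in Ioi 0, x * (u (t * x)) ^ 2) =
      t⁻¹ ^ 2 * ∫ x in Ioi 0, x * u x ^ 2 := by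
    intro u
    have := integral_comp_mul_left_Ioi (fun x => x * u x ^ 2) 0 ht
    rw [mul_zero, smul_eq_mul] at this
    have e : (fun x => x * (u (t * x)) ^ 2) = fun x => t⁻¹ * ((t * x) * u (t * x) ^ 2) := by
      funext x; field_simp
    rw [e, integral_const_mul, this]; ring
  have keyi : ∀ u : ℝ → ℝ, IntegrableOn (fun x => x * u x ^ 2) (Ioi 0) →
      IntegrableOn (fun x => x * (u (t * x)) ^ 2) (Ioi 0) := by
    intro u hu
    have := (integrableOn_Ioi_comp_mul_left_iff (fun x => x * u x ^ 2) 0 ht).2 (by rwa [mul_zero])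
    have e : (fun x => x * (u (t * x)) ^ 2) = fun x => t⁻¹ * ((t * x) * u (t * x) ^ 2) := by
      funext x; field_simp
    rw [e]
    exact this.const_mul _
  refine ⟨⟨?_, ?_, keyi f h.i0, ?_⟩, key f, ?_, ?_⟩
  · intro x hx
    have h2 : HasDerivAt (fun x => t * x) t x := by simpa using (hasDerivAt_id x).const_mul t
    have := (h.h1 (t * x) (by positivity)).comp x h2
    refine this.congr_deriv (by ring)
  · intro x hx
    have h2 : HasDerivAt (fun x => t * x) t x := by simpa using (hasDerivAt_id x).const_mul t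
    have := ((h.h2 (t * x) (by positivity)).comp x h2).const_mul t
    refine this.congr_deriv (by ring)
  · have e : (fun x => x * (t ^ 2 * f2 (t * x)) ^ 2) = fun x => t ^ 4 * (x * (f2 (t * x)) ^ 2) := by
      funext x; ring
    rw [e]
    exact (keyi f2 h.i2).const_mul _
  · have e : (fun x => x * (t * f1 (t * x)) ^ 2) = fun x => t ^ 2 * (x * (f1 (t * x)) ^ 2) := by
      funext x; ring
    rw [e, integral_const_mul, key f1, ← mul_assoc]
    field_simp
  · have e : (fun x => x * (t ^ 2 * f2 (t * x)) ^ 2) = fun x => t ^ 4 * (x * (f2 (t * x)) ^ 2) := by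
      funext x; ring
    rw [e, integral_const_mul, key f2, ← mul_assoc]
    field_simp

lemma nonneg_int (u : ℝ → ℝ) : 0 ≤ ∫ x in Ioi 0, x * u x ^ 2 := by
  apply setIntegral_nonneg measurableSet_Ioi
  intro x hx
  have hx0 : (0:ℝ) < x := hx
  positivity

/-- the inequality -/
theorem Adm.ineq (h : Adm f f1 f2) (h0 : 0 ≤ k) (h1 : k < 1) (hk : F k 2 0 = 0)
    (hk2 : 1 < 2 * k ^ 2) :
    (∫ x in Ioi 0, x * f1 x ^ 2) ^ 2 ≤ 1 / (2 * k ^ 2 - 1) ^ 2 * (∫ x in Ioi 0, x * f x ^ 2) *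
      ∫ x in Ioi 0, x * f2 x ^ 2 := by
  set A := ∫ x in Ioi 0, x * f2 x ^ 2 with hA
  set B := ∫ x in Ioi 0, x * f1 x ^ 2 with hB
  set C := ∫ x in Ioi 0, x * f x ^ 2 with hC
  set κ : ℝ := 4 * k ^ 2 - 2 with hκ
  have hκ0 : 0 < κ := by rw [hκ]; nlinarith
  have hA0 : 0 ≤ A := nonneg_int f2
  have hB0 : 0 ≤ B := nonneg_int f1
  have hC0 : 0 ≤ C := nonneg_int f
  have hq : ∀ s : ℝ, 0 < s → 0 ≤ A * (s * s) + (-(κ * B)) * s + C := by
    intro s hs
    obtain ⟨ht, e0, e1, e2⟩ := h.dilate (Real.sqrt_pos.2 hs)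
    have := ht.form_nonneg h0 h1 hk hk2
    rw [e0, e1, e2, ← hA, ← hB, ← hC, ← hκ, inv_pow, Real.sq_sqrt hs.le] at this
    have h3 : s * (s⁻¹ * C) = C := by rw [← mul_assoc, mul_inv_cancel₀ hs.ne', one_mul]
    have h4 : s * (κ * B) ≤ s * (s * A + s⁻¹ * C) := mul_le_mul_of_nonneg_left this hs.le
    rw [mul_add, h3] at h4
    nlinarith
  have hq' : ∀ s : ℝ, 0 ≤ A * (s * s) + (-(κ * B)) * s + C := by
    intro s
    rcases lt_or_ge 0 s with hs | hs
    · exact hq s hs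
    · have : 0 ≤ -(κ * B) * s := by
        have : 0 ≤ κ * B := by positivity
        nlinarith
      have h2 : 0 ≤ A * (s * s) := mul_nonneg hA0 (mul_self_nonneg s)
      linarith
  have hd := discrim_le_zero hq'
  unfold discrim at hd
  have h5 : κ ^ 2 * B ^ 2 ≤ 4 * (C * A) := by nlinarith
  have h6 : κ = 2 * (2 * k ^ 2 - 1) := by rw [hκ]; ring
  have h7 : 0 < (2 * k ^ 2 - 1) ^ 2 := by
    have : 0 < 2 * k ^ 2 - 1 := by linarith
    positivity
  rw [mul_assoc, one_div, ← div_eq_inv_mul, le_div_iff₀ h7]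
  rw [h6] at h5
  nlinarith

/-- sharpness -/
theorem sharp (h0 : 0 ≤ k) (h1 : k < 1) (hk : F k 2 0 = 0) (hk2 : 1 < 2 * k ^ 2) :
    0 < (∫ x in Ioi 0, x * F k 0 x ^ 2) * (∫ x in Ioi 0, x * F k 2 x ^ 2) ∧
    1 / (2 * k ^ 2 - 1) ^ 2 * ((∫ x in Ioi 0, x * F k 0 x ^ 2) *
      ∫ x in Ioi 0, x * F k 2 x ^ 2) ≤ (∫ x in Ioi 0, x * F k 1 x ^ 2) ^ 2 := by
  have hF := F_adm h0 h1
  have hFpos : 0 < F k 0 0 := by rw [F_zero_zero h0 h1]; exact KK_pos h0 h1
  have o2 := hF.ortho h0 h1 hk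
  have e3 : ∀ n, ∫ x in Ioi 0, x * (F k n x * F k n x) = ∫ x in Ioi 0, x * F k n x ^ 2 := by
    intro n; congr 1; funext x; ring
  rw [e3, e3, e3] at o2
  have hin := hF.ineq h0 h1 hk hk2
  set A := ∫ x in Ioi 0, x * F k 2 x ^ 2 with hA
  set B := ∫ x in Ioi 0, x * F k 1 x ^ 2 with hB
  set C := ∫ x in Ioi 0, x * F k 0 x ^ 2 with hC
  have hA0 : 0 ≤ A := nonneg_int (F k 2)
  have hB0 : 0 ≤ B := nonneg_int (F k 1)
  have hCpos : 0 < C := by
    rw [hC, setIntegral_pos_iff_support_of_nonneg_ae _ hF.i0]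
    · -- near zero the function is positive
      have hev : ∀ᶠ x in 𝓝 (0:ℝ), 0 < F k 0 x :=
        (F_cont h0 h1 0).continuousAt.eventually (lt_mem_nhds hFpos)
      rw [Metric.eventually_nhds_iff] at hev
      obtain ⟨ε, hε, hpos⟩ := hev
      have hsub : Ioo 0 ε ⊆ (Function.support fun x => x * F k 0 x ^ 2) ∩ Ioi 0 := by
        intro x hx
        refine ⟨?_, hx.1⟩
        have h3 := hpos (y := x) (by rw [Real.dist_eq, sub_zero, abs_of_pos hx.1]; exact hx.2)
        have : 0 < x := hx.1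
        simp only [Function.mem_support]
        positivity
      refine lt_of_lt_of_le ?_ (measure_mono hsub)
      rw [Real.volume_Ioo, sub_zero]
      exact ENNReal.ofReal_pos.2 hε
    · refine (ae_restrict_iff' measurableSet_Ioi).2 (Eventually.of_forall fun x hx => ?_)
      have hx0 : (0:ℝ) < x := hx
      simp only [Pi.zero_apply]
      positivity
  have h7 : 0 < 2 * k ^ 2 - 1 := by linarith
  have hApos : 0 < A := by
    rcases hA0.lt_or_eq with h | h
    · exact h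
    · exfalso
      rw [← h, mul_zero] at hin
      have hB2 : B = 0 := by nlinarith
      rw [hB2, ← h] at o2
      linarith
  refine ⟨by positivity, ?_⟩
  have h8 : (2 * k ^ 2 - 1) * (2 * B) = A + C := by linarith
  have h9 : ((2 * k ^ 2 - 1) * (2 * B)) ^ 2 = (A + C) ^ 2 := by rw [h8]
  rw [one_div, ← div_eq_inv_mul, div_le_iff₀ (by positivity)]
  nlinarith [sq_nonneg (A - C)]

end comparison

end

end Pool.Agent.R256.HL
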