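import Mathlib

set_option autoImplicit false

open MeasureTheory Filter Topology Set
open scoped ContDiff

namespace Pool.Agent.R256.HW

noncomputable section

/-- The Euclidean space. -/
abbrev E (n : ℕ) := EuclideanSpace ℝ (Fin n)

variable {n : ℕ}

/-- The weight `(1 + |x|^2)^γ`. -/
def wt (γ : ℝ) (x : E n) : ℝ := (1 + ‖x‖ ^ 2) ^ γ

/-- The gradient energy. -/
def A (α : ℝ) (u : E n → ℝ) : ℝ := ∫ x, wt α x * ‖fderiv ℝ u x‖ ^ 2

/-- The weighted square norm. -/
def B (α : ℝ) (u : E n → ℝ) : ℝ := ∫ x, wt (α - 1) x * u x ^ 2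

/-- `S`. -/
def S (α : ℝ) (u : E n → ℝ) : ℝ := ∫ x, wt (α - 2) x * ‖x‖ ^ 2 * u x ^ 2

/-- `T`. -/
def T (α : ℝ) (u : E n → ℝ) : ℝ := ∫ x, wt (α - 1) x * (u x * fderiv ℝ u x x)

lemma one_add_pos (x : E n) : 0 < 1 + ‖x‖ ^ 2 := by positivity

lemma wt_pos (γ : ℝ) (x : E n) : 0 < wt γ x := Real.rpow_pos_of_pos (one_add_pos x) _

lemma wt_contDiff (γ : ℝ) : ContDiff ℝ ∞ (wt γ : E n → ℝ) := by
  unfold wt
  refine ContDiff.rpow_const_of_ne ?_ fun x => (one_add_pos x).ne'
  exact contDiff_const.add (contDiff_norm_sq ℝ)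

lemma wt_continuous (γ : ℝ) : Continuous (wt γ : E n → ℝ) := (wt_contDiff γ).continuous

lemma wt_mul (a b : ℝ) (x : E n) : wt a x * wt b x = wt (a + b) x := by
  unfold wt; rw [Real.rpow_add (one_add_pos x)]

lemma wt_succ (a : ℝ) (x : E n) : wt (a + 1) x = (1 + ‖x‖ ^ 2) * wt a x := by
  unfold wt; rw [Real.rpow_add (one_add_pos x), Real.rpow_one, mul_comm]

lemma wt_one_sub (a : ℝ) (x : E n) : wt a x = (1 + ‖x‖ ^ 2) * wt (a - 1) x := by
  rw [← wt_succ]; congr 1; ring

lemma hasFDerivAt_wt (γ : ℝ) (x : E n) :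
    HasFDerivAt (wt γ : E n → ℝ) ((2 * γ * wt (γ - 1) x) • innerSL ℝ x) x := by
  have h1 : HasFDerivAt (fun y : E n => 1 + ‖y‖ ^ 2) (2 • innerSL ℝ x) x :=
    ((hasStrictFDerivAt_norm_sq x).hasFDerivAt).const_add 1
  have h2 := h1.rpow_const (p := γ) (Or.inl (one_add_pos x).ne')
  refine h2.congr_fderiv ?_
  ext y
  simp [wt]
  ring

/-- divergence identity, for compactly supported functions -/
lemma integral_div {h : E n → ℝ} (hh : ContDiff ℝ 1 h) (hc : HasCompactSupport h) :
    ∫ x, (n * h x + fderiv ℝ h x x) = 0 := by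
  have hd : Continuous (fderiv ℝ h) := hh.continuous_fderiv (by norm_num)
  have hcd : HasCompactSupport (fderiv ℝ h) := hc.fderiv ℝ
  have key : ∀ i : Fin n, ∫ x : E n, x i * fderiv ℝ h x (EuclideanSpace.single i 1) =
      - ∫ x : E n, h x := by
    intro i
    have e0 : ∀ x : E n, HasFDerivAt (fun x : E n => x i) (EuclideanSpace.proj (𝕜 := ℝ) i) x :=
      fun x => (EuclideanSpace.proj (𝕜 := ℝ) i).hasFDerivAt
    have hfd : ∀ x : E n, fderiv ℝ (fun x : E n => x i) x (EuclideanSpace.single i 1) = 1 := by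
      intro x
      rw [(e0 x).fderiv]
      simp
    have hint1 : Integrable (fun x : E n => h x) := hh.continuous.integrable_of_hasCompactSupport hc
    have c1 : Continuous fun x : E n => x i * fderiv ℝ h x (EuclideanSpace.single i 1) := by
      have : Continuous fun x : E n => x i := (EuclideanSpace.proj (𝕜 := ℝ) i).continuous
      exact this.mul (hd.clm_apply continuous_const)
    have hs1 : HasCompactSupport fun x : E n => x i * fderiv ℝ h x (EuclideanSpace.single i 1) := by
      refine hcd.mono ?_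
      intro x hx
      rw [Function.mem_support] at hx ⊢
      intro h0
      apply hx
      rw [h0]; simp
    have hint2 := c1.integrable_of_hasCompactSupport (μ := volume) hs1
    have c2 : Continuous fun x : E n => x i * h x := by
      have : Continuous fun x : E n => x i := (EuclideanSpace.proj (𝕜 := ℝ) i).continuous
      exact this.mul hh.continuous
    have hs2 : HasCompactSupport fun x : E n => x i * h x := hc.mul_left
    have hint3 := c2.integrable_of_hasCompactSupport (μ := volume) hs2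
    have hmain := integral_mul_fderiv_eq_neg_fderiv_mul_of_integrable (μ := (volume : Measure (E n)))
      (𝕜 := ℝ)
      (f := fun x : E n => x i) (g := h) (v := EuclideanSpace.single i 1)
      (by simpa [hfd] using hint1) hint2 hint3 (fun x _ => (e0 x).differentiableAt)
      (fun x _ => (hh.differentiable (by norm_num)) x)
    rw [hmain]
    simp [hfd]
  have hxsum : ∀ x : E n, fderiv ℝ h x x =
      ∑ i, x i * fderiv ℝ h x (EuclideanSpace.single i 1) := by
    intro x
    have hx : x = ∑ i, x i • (EuclideanSpace.single i (1:ℝ) : E n) := by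
      ext j
      simp [Pi.single_apply]
    refine (congrArg (fderiv ℝ h x) hx).trans ?_
    rw [map_sum]
    refine Finset.sum_congr rfl fun i _ => ?_
    rw [map_smul, smul_eq_mul]
  have hint1 : Integrable (fun x : E n => h x) := hh.continuous.integrable_of_hasCompactSupport hc
  have hint2 : ∀ i : Fin n, Integrable fun x : E n =>
      x i * fderiv ℝ h x (EuclideanSpace.single i 1) := by
    intro i
    have c1 : Continuous fun x : E n => x i * fderiv ℝ h x (EuclideanSpace.single i 1) := by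
      have : Continuous fun x : E n => x i := (EuclideanSpace.proj (𝕜 := ℝ) i).continuous
      exact this.mul (hd.clm_apply continuous_const)
    have hs1 : HasCompactSupport fun x : E n => x i * fderiv ℝ h x (EuclideanSpace.single i 1) := by
      refine hcd.mono ?_
      intro x hx
      rw [Function.mem_support] at hx ⊢
      intro h0
      apply hx
      rw [h0]; simp
    exact c1.integrable_of_hasCompactSupport hs1
  simp_rw [hxsum]
  rw [integral_add (hint1.const_mul _) (integrable_finsetSum _ fun i _ => hint2 i),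
    integral_const_mul, integral_finsetSum _ fun i _ => hint2 i]
  simp_rw [key]
  simp

lemma apply_le (L : E n →L[ℝ] ℝ) (x : E n) : |L x| ≤ ‖L‖ * ‖x‖ := by
  have := L.le_opNorm x
  rwa [Real.norm_eq_abs] at this

variable {u : E n → ℝ}

lemma intA (α : ℝ) (hu : ContDiff ℝ 1 u) (hc : HasCompactSupport u) :
    Integrable fun x => wt α x * ‖fderiv ℝ u x‖ ^ 2 := by
  have hd : Continuous (fderiv ℝ u) := hu.continuous_fderiv (by norm_num)
  have hcd : HasCompactSupport (fderiv ℝ u) := hc.fderiv ℝ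
  refine Continuous.integrable_of_hasCompactSupport ((wt_continuous α).mul (hd.norm.pow 2)) ?_
  refine hcd.mono ?_
  intro x hx
  rw [Function.mem_support] at hx ⊢
  intro h0
  apply hx
  rw [h0]; simp

lemma intB (γ : ℝ) (hu : ContDiff ℝ 1 u) (hc : HasCompactSupport u) :
    Integrable fun x => wt γ x * u x ^ 2 := by
  refine Continuous.integrable_of_hasCompactSupport ((wt_continuous γ).mul (hu.continuous.pow 2)) ?_
  refine hc.mono ?_
  intro x hx
  rw [Function.mem_support] at hx ⊢
  intro h0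
  apply hx
  rw [h0]; simp

lemma intS (γ : ℝ) (hu : ContDiff ℝ 1 u) (hc : HasCompactSupport u) :
    Integrable fun x => wt γ x * ‖x‖ ^ 2 * u x ^ 2 := by
  refine Continuous.integrable_of_hasCompactSupport
    (((wt_continuous γ).mul (continuous_norm.pow 2)).mul (hu.continuous.pow 2)) ?_
  refine hc.mono ?_
  intro x hx
  rw [Function.mem_support] at hx ⊢
  intro h0
  apply hx
  rw [h0]; simp

lemma intT (γ : ℝ) (hu : ContDiff ℝ 1 u) (hc : HasCompactSupport u) :
    Integrable fun x => wt γ x * (u x * fderiv ℝ u x x) := by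
  have hd : Continuous (fderiv ℝ u) := hu.continuous_fderiv (by norm_num)
  refine Continuous.integrable_of_hasCompactSupport
    ((wt_continuous γ).mul (hu.continuous.mul (hd.clm_apply continuous_id))) ?_
  refine hc.mono ?_
  intro x hx
  rw [Function.mem_support] at hx ⊢
  intro h0
  apply hx
  rw [h0]; simp

lemma div_identity (α : ℝ) (hu : ContDiff ℝ 1 u) (hc : HasCompactSupport u) :
    n * B α u + 2 * (α - 1) * S α u + 2 * T α u = 0 := by
  have hh : ContDiff ℝ 1 fun x => wt (α - 1) x * u x ^ 2 :=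
    ((wt_contDiff _).of_le (by exact_mod_cast le_top)).mul (hu.pow 2)
  have hcs : HasCompactSupport fun x => wt (α - 1) x * u x ^ 2 := by
    refine hc.mono ?_
    intro x hx
    rw [Function.mem_support] at hx ⊢
    intro h0
    apply hx
    rw [h0]; simp
  have h1 := integral_div hh hcs
  have h2 : ∀ x, fderiv ℝ (fun x => wt (α - 1) x * u x ^ 2) x x =
      2 * (α - 1) * (wt (α - 2) x * ‖x‖ ^ 2 * u x ^ 2) +
        2 * (wt (α - 1) x * (u x * fderiv ℝ u x x)) := by
    intro x
    have hud := ((hu.differentiable (by norm_num)) x).hasFDerivAt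
    have h3 : HasFDerivAt (fun x => wt (α - 1) x * u x ^ 2) _ x :=
      (hasFDerivAt_wt (α - 1) x).mul (hud.pow 2)
    rw [h3.fderiv]
    have e : α - 1 - 1 = α - 2 := by ring
    simp [e]
    ring
  simp_rw [h2] at h1
  have i1 := intB (α - 1) hu hc
  have i2 := intS (α - 2) hu hc
  have i3 := intT (α - 1) hu hc
  have i23 : Integrable fun x => 2 * (α - 1) * (wt (α - 2) x * ‖x‖ ^ 2 * u x ^ 2) +
        2 * (wt (α - 1) x * (u x * fderiv ℝ u x x)) := (i2.const_mul _).add (i3.const_mul _)
  rw [integral_add (i1.const_mul _) i23,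
    integral_add (i2.const_mul _) (i3.const_mul _), integral_const_mul, integral_const_mul,
    integral_const_mul] at h1
  unfold B S T
  linarith

lemma lower_aux (α c : ℝ) (hu : ContDiff ℝ 1 u) (hc : HasCompactSupport u) :
    c * n * B α u + (2 * c * (α - 1) - c ^ 2) * S α u ≤ A α u := by
  have h0 : 0 ≤ ∫ x, (wt α x * ‖fderiv ℝ u x‖ ^ 2 + 2 * c * (wt (α - 1) x * (u x * fderiv ℝ u x x))
      + c ^ 2 * (wt (α - 2) x * ‖x‖ ^ 2 * u x ^ 2)) := by
    refine integral_nonneg fun x => ?_
    have hw := wt_pos (α - 2) x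
    have e1 : wt (α - 1) x = (1 + ‖x‖ ^ 2) * wt (α - 2) x := by
      rw [← wt_succ]; congr 1; ring
    have e2 : wt α x = (1 + ‖x‖ ^ 2) ^ 2 * wt (α - 2) x := by
      rw [wt_one_sub, e1]; ring
    simp only [Pi.zero_apply]
    rw [e1, e2]
    have h1 := apply_le (fderiv ℝ u x) x
    set D := fderiv ℝ u x x
    set N := ‖fderiv ℝ u x‖
    set r := ‖x‖
    have hN : 0 ≤ N := norm_nonneg _
    have hr : 0 ≤ r := norm_nonneg _
    have h2 : |c * (u x * D)| ≤ |c * u x| * (N * r) := by
      rw [← mul_assoc, abs_mul]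
      exact mul_le_mul_of_nonneg_left h1 (abs_nonneg _)
    have h3 := neg_abs_le (c * (u x * D))
    have h4 : 0 ≤ ((1 + r ^ 2) * N - |c * u x| * r) ^ 2 := sq_nonneg _
    have h5 : |c * u x| ^ 2 = c ^ 2 * u x ^ 2 := by rw [sq_abs]; ring
    have h6 : 0 ≤ (1 + r ^ 2) ^ 2 * N ^ 2 + 2 * ((1 + r ^ 2) * (c * (u x * D))) +
        c ^ 2 * (r ^ 2 * u x ^ 2) := by
      have h7 : -(|c * u x| * (N * r)) ≤ c * (u x * D) := by linarith
      have h8 : (1 + r ^ 2) * (-(|c * u x| * (N * r))) ≤ (1 + r ^ 2) * (c * (u x * D)) :=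
        mul_le_mul_of_nonneg_left h7 (by positivity)
      nlinarith
    have h9 := mul_nonneg hw.le h6
    nlinarith [h9]
  have i0 := intA α hu hc
  have i2 := intS (α - 2) hu hc
  have i3 := intT (α - 1) hu hc
  have i03 : Integrable fun x => wt α x * ‖fderiv ℝ u x‖ ^ 2 +
      2 * c * (wt (α - 1) x * (u x * fderiv ℝ u x x)) := i0.add (i3.const_mul _)
  rw [integral_add i03 (i2.const_mul _), integral_add i0 (i3.const_mul _),
    integral_const_mul, integral_const_mul] at h0
  have hdiv := div_identity α hu hc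
  have h1 : 0 ≤ A α u + 2 * c * T α u + c ^ 2 * S α u := h0
  have h2 : 2 * c * T α u = - c * (n * B α u + 2 * (α - 1) * S α u) := by
    linear_combination c * hdiv
  linarith

lemma S_le_B (α : ℝ) (hu : ContDiff ℝ 1 u) (hc : HasCompactSupport u) : S α u ≤ B α u := by
  refine integral_mono (intS _ hu hc) (intB _ hu hc) fun x => ?_
  simp only
  have e1 : wt (α - 1) x = (1 + ‖x‖ ^ 2) * wt (α - 2) x := by
    rw [← wt_succ]; congr 1; ring
  rw [e1]
  have := wt_pos (α - 2) x
  have h2 : 0 ≤ wt (α - 2) x * u x ^ 2 := by positivity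
  nlinarith

/-- the value of the constant -/
def val (n : ℕ) (α : ℝ) : ℝ :=
  if α ≤ 1 + (n:ℝ) / 2 then ((n:ℝ) + 2 * α - 2) ^ 2 / 4 else 2 * n * (α - 1)

lemma B_nonneg (α : ℝ) (u : E n → ℝ) : 0 ≤ B α u :=
  integral_nonneg fun x => mul_nonneg (wt_pos _ x).le (sq_nonneg _)

lemma lower (α : ℝ) (h0 : 0 ≤ (n:ℝ) + 2 * α - 2) (hu : ContDiff ℝ 1 u)
    (hc : HasCompactSupport u) : val n α * B α u ≤ A α u := by
  unfold val
  split_ifs with h
  · have h1 := lower_aux α (((n:ℝ) + 2 * α - 2) / 2) hu hc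
    · have h2 : (2 * (((n:ℝ) + 2 * α - 2) / 2) * (α - 1) - (((n:ℝ) + 2 * α - 2) / 2) ^ 2) ≤ 0 := by
        have : (2 * (((n:ℝ) + 2 * α - 2) / 2) * (α - 1) - (((n:ℝ) + 2 * α - 2) / 2) ^ 2) =
          (((n:ℝ) + 2 * α - 2) / 2) * (2 * (α - 1) - ((n:ℝ) + 2 * α - 2) / 2) := by ring
        rw [this]
        apply mul_nonpos_of_nonneg_of_nonpos (by linarith)
        linarith
      have h3 := mul_le_mul_of_nonpos_left (S_le_B α hu hc) h2
      nlinarith
  · push Not at h
    have h1 := lower_aux α (2 * (α - 1)) hu hc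
    nlinarith

end

end Pool.Agent.R256.HW
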