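import Pool.Agent.R256.HW1

set_option autoImplicit false

open MeasureTheory Filter Topology Set
open scoped ContDiff

namespace Pool.Agent.R256.HW

noncomputable section

variable {n : ℕ}

/-- a bump function -/
def bmp (n : ℕ) : ContDiffBump (0 : E n) := ⟨1, 2, one_pos, one_lt_two⟩

lemma bmp_contDiff : ContDiff ℝ ∞ (bmp n) := (bmp n).contDiff

/-- cut off -/
def cut (φ : E n → ℝ) (k : ℕ) (x : E n) : ℝ := φ x * bmp n (((k:ℝ) + 1)⁻¹ • x)

lemma cut_contDiff {φ : E n → ℝ} {m : ℕ∞} (hφ : ContDiff ℝ m φ) (k : ℕ) :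
    ContDiff ℝ m (cut φ k) := by
  unfold cut
  refine hφ.mul ?_
  exact (bmp_contDiff.of_le (by exact_mod_cast le_top)).comp (contDiff_const_smul _)

lemma cut_support (φ : E n → ℝ) (k : ℕ) : HasCompactSupport (cut φ k) := by
  have h1 : HasCompactSupport fun x : E n => bmp n (((k:ℝ) + 1)⁻¹ • x) := by
    have := (bmp n).hasCompactSupport.comp_smul (c := ((k:ℝ) + 1)⁻¹) (by positivity)
    exact this
  exact h1.mul_left

lemma hasFDerivAt_cut {φ : E n → ℝ} (hφ : ContDiff ℝ 1 φ) (k : ℕ) (x : E n) :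
    HasFDerivAt (cut φ k) (φ x • (((k:ℝ) + 1)⁻¹ • fderiv ℝ (bmp n) (((k:ℝ) + 1)⁻¹ • x)) +
      bmp n (((k:ℝ) + 1)⁻¹ • x) • fderiv ℝ φ x) x := by
  have h1 := ((hφ.differentiable (by norm_num)) x).hasFDerivAt
  have h2 : HasFDerivAt (fun x : E n => ((k:ℝ) + 1)⁻¹ • x)
      (((k:ℝ) + 1)⁻¹ • ContinuousLinearMap.id ℝ (E n)) x :=
    (((k:ℝ) + 1)⁻¹ • ContinuousLinearMap.id ℝ (E n)).hasFDerivAt
  have h3 : HasFDerivAt (bmp n) (fderiv ℝ (bmp n) (((k:ℝ) + 1)⁻¹ • x)) (((k:ℝ) + 1)⁻¹ • x) :=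
    ((bmp_contDiff.differentiable (by simp)) _).hasFDerivAt
  have h4 := h3.comp x h2
  have h5 := h1.mul h4
  refine h5.congr_fderiv ?_
  ext y
  simp

/-- the uniform bound -/
lemma exists_M (n : ℕ) : ∃ M : ℝ, 0 ≤ M ∧
    ∀ y : E n, (1 + ‖y‖ ^ 2) * ‖fderiv ℝ (bmp n) y‖ ^ 2 ≤ M := by
  have hd : Continuous (fderiv ℝ (bmp n)) := bmp_contDiff.continuous_fderiv (by simp)
  have hc : Continuous fun y : E n => (1 + ‖y‖ ^ 2) * ‖fderiv ℝ (bmp n) y‖ ^ 2 := by fun_prop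
  have hs : HasCompactSupport fun y : E n => (1 + ‖y‖ ^ 2) * ‖fderiv ℝ (bmp n) y‖ ^ 2 := by
    refine ((bmp n).hasCompactSupport.fderiv ℝ).mono ?_
    intro x hx
    rw [Function.mem_support] at hx ⊢
    intro h0
    apply hx
    rw [h0]; simp
  obtain ⟨M, hM⟩ := hc.bounded_above_of_compact_support hs
  refine ⟨M, le_trans (norm_nonneg _) (hM 0), fun y => ?_⟩
  exact (le_abs_self _).trans (hM y)

/-- a bound -/
def MM (n : ℕ) : ℝ := (exists_M n).choose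

lemma MM_nonneg (n : ℕ) : 0 ≤ MM n := (exists_M n).choose_spec.1

lemma MM_spec (y : E n) : (1 + ‖y‖ ^ 2) * ‖fderiv ℝ (bmp n) y‖ ^ 2 ≤ MM n :=
  (exists_M n).choose_spec.2 y

lemma norm_cut_le {φ : E n → ℝ} (hφ : ContDiff ℝ 1 φ) (α : ℝ) (k : ℕ) (x : E n) :
    wt α x * ‖fderiv ℝ (cut φ k) x‖ ^ 2 ≤
      2 * (wt α x * ‖fderiv ℝ φ x‖ ^ 2) + 2 * MM n * (wt (α - 1) x * φ x ^ 2) := by
  rw [(hasFDerivAt_cut hφ k x).fderiv]
  set c : ℝ := ((k:ℝ) + 1)⁻¹ with hc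
  have hc0 : 0 < c := by positivity
  have hc1 : c ≤ 1 := by
    rw [hc]; apply inv_le_one_of_one_le₀
    have : (0:ℝ) ≤ k := Nat.cast_nonneg k
    linarith
  set L := fderiv ℝ (bmp n) (c • x) with hL
  have h1 : ‖φ x • (c • L) + bmp n (c • x) • fderiv ℝ φ x‖ ≤ |φ x| * (c * ‖L‖) + ‖fderiv ℝ φ x‖ := by
    refine (norm_add_le _ _).trans ?_
    rw [norm_smul, norm_smul, norm_smul, Real.norm_eq_abs, Real.norm_eq_abs, Real.norm_eq_abs,
      abs_of_pos hc0, abs_of_nonneg (bmp n).nonneg]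
    have := (bmp n).le_one (x := c • x)
    have h2 := norm_nonneg (fderiv ℝ φ x)
    nlinarith
  have h2 : ‖φ x • (c • L) + bmp n (c • x) • fderiv ℝ φ x‖ ^ 2 ≤
      2 * (φ x ^ 2 * (c ^ 2 * ‖L‖ ^ 2)) + 2 * ‖fderiv ℝ φ x‖ ^ 2 := by
    have h3 : ‖φ x • (c • L) + bmp n (c • x) • fderiv ℝ φ x‖ ^ 2 ≤
        (|φ x| * (c * ‖L‖) + ‖fderiv ℝ φ x‖) ^ 2 := pow_le_pow_left₀ (norm_nonneg _) h1 2
    have h4 : (|φ x| * (c * ‖L‖)) ^ 2 = φ x ^ 2 * (c ^ 2 * ‖L‖ ^ 2) := by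
      rw [mul_pow, mul_pow, sq_abs]
    nlinarith [sq_nonneg (|φ x| * (c * ‖L‖) - ‖fderiv ℝ φ x‖)]
  have h5 : (1 + ‖x‖ ^ 2) * (c ^ 2 * ‖L‖ ^ 2) ≤ MM n := by
    refine le_trans ?_ (MM_spec (c • x))
    rw [← hL, norm_smul, Real.norm_eq_abs, abs_of_pos hc0]
    have h6 : 0 ≤ ‖L‖ ^ 2 := sq_nonneg _
    have h7 : (1 + ‖x‖ ^ 2) * c ^ 2 ≤ 1 + (c * ‖x‖) ^ 2 := by
      have : c ^ 2 ≤ 1 := by nlinarith
      nlinarith
    nlinarith
  have hw := wt_pos (α - 1) x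
  have e : wt α x = (1 + ‖x‖ ^ 2) * wt (α - 1) x := wt_one_sub α x
  have hwα := wt_pos α x
  calc wt α x * ‖φ x • (c • L) + bmp n (c • x) • fderiv ℝ φ x‖ ^ 2
      ≤ wt α x * (2 * (φ x ^ 2 * (c ^ 2 * ‖L‖ ^ 2)) + 2 * ‖fderiv ℝ φ x‖ ^ 2) :=
        mul_le_mul_of_nonneg_left h2 hwα.le
    _ = 2 * (wt α x * ‖fderiv ℝ φ x‖ ^ 2) +
        2 * ((1 + ‖x‖ ^ 2) * (c ^ 2 * ‖L‖ ^ 2)) * (wt (α - 1) x * φ x ^ 2) := by
        rw [e]; ring
    _ ≤ _ := by
        have h8 : 0 ≤ wt (α - 1) x * φ x ^ 2 := by positivity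
        nlinarith

lemma tendsto_inv (x : E n) : Tendsto (fun k : ℕ => ((k:ℝ) + 1)⁻¹ • x) atTop (𝓝 0) := by
  have h1 : Tendsto (fun k : ℕ => ((k:ℝ) + 1)⁻¹) atTop (𝓝 0) := by
    have := tendsto_one_div_add_atTop_nhds_zero_nat (𝕜 := ℝ)
    simpa using this
  simpa using h1.smul_const x

lemma tendsto_cut (φ : E n → ℝ) (x : E n) : Tendsto (fun k => cut φ k x) atTop (𝓝 (φ x)) := by
  have h1 := ((bmp_contDiff (n := n)).continuous.tendsto 0).comp (tendsto_inv x)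
  have h2 : bmp n (0 : E n) = 1 := (bmp n).one_of_mem_closedBall (by simp [(bmp n).rIn_pos.le])
  rw [h2] at h1
  have := h1.const_mul (φ x)
  simpa [cut] using this

lemma tendsto_dcut {φ : E n → ℝ} (hφ : ContDiff ℝ 1 φ) (x : E n) :
    Tendsto (fun k => fderiv ℝ (cut φ k) x) atTop (𝓝 (fderiv ℝ φ x)) := by
  have h0 : ∀ k, fderiv ℝ (cut φ k) x = φ x • (((k:ℝ) + 1)⁻¹ • fderiv ℝ (bmp n) (((k:ℝ) + 1)⁻¹ • x)) +
      bmp n (((k:ℝ) + 1)⁻¹ • x) • fderiv ℝ φ x := fun k => (hasFDerivAt_cut hφ k x).fderiv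
  simp_rw [h0]
  have h1 := ((bmp_contDiff (n := n)).continuous.tendsto 0).comp (tendsto_inv x)
  have h2 : bmp n (0 : E n) = 1 := (bmp n).one_of_mem_closedBall (by simp [(bmp n).rIn_pos.le])
  rw [h2] at h1
  have hd : Continuous (fderiv ℝ (bmp n)) := bmp_contDiff.continuous_fderiv (by simp)
  have h3 := (hd.tendsto 0).comp (tendsto_inv x)
  have h4 : Tendsto (fun k : ℕ => ((k:ℝ) + 1)⁻¹) atTop (𝓝 0) := by
    have := tendsto_one_div_add_atTop_nhds_zero_nat (𝕜 := ℝ)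
    simpa using this
  have h5 := ((h4.smul h3).const_smul (φ x)).add (h1.smul_const (fderiv ℝ φ x))
  simpa using h5

variable {φ : E n → ℝ}

lemma cut_abs_le (φ : E n → ℝ) (k : ℕ) (x : E n) : cut φ k x ^ 2 ≤ φ x ^ 2 := by
  unfold cut
  have h1 := (bmp n).nonneg (x := (((k:ℝ) + 1)⁻¹ • x))
  have h2 := (bmp n).le_one (x := (((k:ℝ) + 1)⁻¹ • x))
  rw [mul_pow]
  have h3 : (bmp n (((k:ℝ) + 1)⁻¹ • x)) ^ 2 ≤ 1 := by nlinarith
  nlinarith [sq_nonneg (φ x)]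

lemma lim_A (α : ℝ) (hφ : ContDiff ℝ 1 φ) (hA : Integrable fun x => wt α x * ‖fderiv ℝ φ x‖ ^ 2)
    (hB : Integrable fun x => wt (α - 1) x * φ x ^ 2) :
    Tendsto (fun k => A α (cut φ k)) atTop (𝓝 (A α φ)) := by
  unfold A
  refine tendsto_integral_of_dominated_convergence
    (fun x => 2 * (wt α x * ‖fderiv ℝ φ x‖ ^ 2) + 2 * MM n * (wt (α - 1) x * φ x ^ 2)) ?_ ?_ ?_ ?_
  · intro k
    exact (intA α (cut_contDiff (m := 1) hφ k) (cut_support φ k)).aestronglyMeasurable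
  · exact (hA.const_mul _).add (hB.const_mul _)
  · intro k
    refine Eventually.of_forall fun x => ?_
    rw [Real.norm_eq_abs, abs_of_nonneg (mul_nonneg (wt_pos _ _).le (sq_nonneg _))]
    exact norm_cut_le hφ α k x
  · refine Eventually.of_forall fun x => ?_
    exact (((tendsto_dcut hφ x).norm).pow 2).const_mul _

lemma lim_B (α : ℝ) (hφ : ContDiff ℝ 1 φ) (hB : Integrable fun x => wt (α - 1) x * φ x ^ 2) :
    Tendsto (fun k => B α (cut φ k)) atTop (𝓝 (B α φ)) := by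
  unfold B
  refine tendsto_integral_of_dominated_convergence (fun x => wt (α - 1) x * φ x ^ 2) ?_ hB ?_ ?_
  · intro k
    exact (intB (α - 1) (cut_contDiff (m := 1) hφ k) (cut_support φ k)).aestronglyMeasurable
  · intro k
    refine Eventually.of_forall fun x => ?_
    rw [Real.norm_eq_abs, abs_of_nonneg (mul_nonneg (wt_pos _ _).le (sq_nonneg _))]
    exact mul_le_mul_of_nonneg_left (cut_abs_le φ k x) (wt_pos _ _).le
  · refine Eventually.of_forall fun x => ?_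
    exact ((tendsto_cut φ x).pow 2).const_mul _

lemma S_point (α : ℝ) (φ : E n → ℝ) (x : E n) :
    wt (α - 2) x * ‖x‖ ^ 2 * φ x ^ 2 ≤ wt (α - 1) x * φ x ^ 2 := by
  have e1 : wt (α - 1) x = (1 + ‖x‖ ^ 2) * wt (α - 2) x := by
    rw [← wt_succ]; congr 1; ring
  rw [e1]
  have := wt_pos (α - 2) x
  have h2 : 0 ≤ wt (α - 2) x * φ x ^ 2 := by positivity
  nlinarith

lemma lim_S (α : ℝ) (hφ : ContDiff ℝ 1 φ) (hB : Integrable fun x => wt (α - 1) x * φ x ^ 2) :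
    Tendsto (fun k => S α (cut φ k)) atTop (𝓝 (S α φ)) := by
  unfold S
  refine tendsto_integral_of_dominated_convergence (fun x => wt (α - 1) x * φ x ^ 2) ?_ hB ?_ ?_
  · intro k
    exact (intS (α - 2) (cut_contDiff (m := 1) hφ k) (cut_support φ k)).aestronglyMeasurable
  · intro k
    refine Eventually.of_forall fun x => ?_
    rw [Real.norm_eq_abs, abs_of_nonneg (mul_nonneg (mul_nonneg (wt_pos _ _).le (sq_nonneg _))
      (sq_nonneg _))]
    refine (S_point α _ x).trans ?_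
    exact mul_le_mul_of_nonneg_left (cut_abs_le φ k x) (wt_pos _ _).le
  · refine Eventually.of_forall fun x => ?_
    exact ((tendsto_cut φ x).pow 2).const_mul _

lemma T_point (α : ℝ) (φ : E n → ℝ) (x : E n) :
    |wt (α - 1) x * (φ x * fderiv ℝ φ x x)| ≤
      (wt α x * ‖fderiv ℝ φ x‖ ^ 2 + wt (α - 2) x * ‖x‖ ^ 2 * φ x ^ 2) / 2 := by
  have hw := wt_pos (α - 2) x
  have e1 : wt (α - 1) x = (1 + ‖x‖ ^ 2) * wt (α - 2) x := by
    rw [← wt_succ]; congr 1; ring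
  have e2 : wt α x = (1 + ‖x‖ ^ 2) ^ 2 * wt (α - 2) x := by
    rw [wt_one_sub, e1]; ring
  rw [abs_mul, abs_of_pos (wt_pos _ _), abs_mul, e1, e2]
  have h1 := apply_le (fderiv ℝ φ x) x
  set N := ‖fderiv ℝ φ x‖
  set r := ‖x‖
  have h2 : |φ x| * |fderiv ℝ φ x x| ≤ |φ x| * (N * r) := mul_le_mul_of_nonneg_left h1 (abs_nonneg _)
  have h3 : 0 ≤ ((1 + r ^ 2) * N - |φ x| * r) ^ 2 := sq_nonneg _
  have h4 : |φ x| ^ 2 = φ x ^ 2 := sq_abs _
  have h5 : (1 + r ^ 2) * (|φ x| * |fderiv ℝ φ x x|) ≤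
      ((1 + r ^ 2) ^ 2 * N ^ 2 + r ^ 2 * φ x ^ 2) / 2 := by
    have := mul_le_mul_of_nonneg_left h2 (show 0 ≤ 1 + r ^ 2 by positivity)
    nlinarith
  have h6 := mul_le_mul_of_nonneg_left h5 hw.le
  nlinarith [h6]

lemma lim_T (α : ℝ) (hφ : ContDiff ℝ 1 φ) (hA : Integrable fun x => wt α x * ‖fderiv ℝ φ x‖ ^ 2)
    (hB : Integrable fun x => wt (α - 1) x * φ x ^ 2) :
    Tendsto (fun k => T α (cut φ k)) atTop (𝓝 (T α φ)) := by
  unfold T
  refine tendsto_integral_of_dominated_convergence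
    (fun x => ((2 * (wt α x * ‖fderiv ℝ φ x‖ ^ 2) + 2 * MM n * (wt (α - 1) x * φ x ^ 2)) +
      wt (α - 1) x * φ x ^ 2) / 2) ?_ ?_ ?_ ?_
  · intro k
    exact (intT (α - 1) (cut_contDiff (m := 1) hφ k) (cut_support φ k)).aestronglyMeasurable
  · exact (((hA.const_mul _).add (hB.const_mul _)).add hB).div_const 2
  · intro k
    refine Eventually.of_forall fun x => ?_
    rw [Real.norm_eq_abs]
    refine (T_point α _ x).trans ?_
    have h1 := norm_cut_le hφ α k x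
    have h2 := (S_point α (cut φ k) x).trans
      (mul_le_mul_of_nonneg_left (cut_abs_le φ k x) (wt_pos (α - 1) x).le)
    linarith
  · refine Eventually.of_forall fun x => ?_
    have h1 : Tendsto (fun k => fderiv ℝ (cut φ k) x x) atTop (𝓝 (fderiv ℝ φ x x)) :=
      ((ContinuousLinearMap.apply ℝ ℝ x).continuous.tendsto _).comp (tendsto_dcut hφ x)
    exact ((tendsto_cut φ x).mul h1).const_mul _

lemma div_identity' (α : ℝ) (hφ : ContDiff ℝ 1 φ)
    (hA : Integrable fun x => wt α x * ‖fderiv ℝ φ x‖ ^ 2)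
    (hB : Integrable fun x => wt (α - 1) x * φ x ^ 2) :
    n * B α φ + 2 * (α - 1) * S α φ + 2 * T α φ = 0 := by
  have h1 : Tendsto (fun k => n * B α (cut φ k) + 2 * (α - 1) * S α (cut φ k) + 2 * T α (cut φ k))
      atTop (𝓝 (n * B α φ + 2 * (α - 1) * S α φ + 2 * T α φ)) :=
    (((lim_B α hφ hB).const_mul _).add ((lim_S α hφ hB).const_mul _)).add
      ((lim_T α hφ hA hB).const_mul _)
  have h2 : ∀ k, n * B α (cut φ k) + 2 * (α - 1) * S α (cut φ k) + 2 * T α (cut φ k) = 0 :=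
    fun k => div_identity α (cut_contDiff (m := 1) hφ k) (cut_support φ k)
  simp_rw [h2] at h1
  exact tendsto_nhds_unique h1 tendsto_const_nhds

lemma wt_integrable {γ : ℝ} (h : γ < -(n:ℝ) / 2) : Integrable (wt γ : E n → ℝ) := by
  have h1 := integrable_rpow_neg_one_add_norm_sq (E := E n) (μ := volume) (r := -2 * γ) (by
    simp only [finrank_euclideanSpace, Fintype.card_fin]; linarith)
  refine h1.congr (Eventually.of_forall fun x => ?_)
  simp only [wt]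
  congr 1; ring

lemma fderiv_wt (γ : ℝ) (x : E n) :
    fderiv ℝ (wt γ : E n → ℝ) x = (2 * γ * wt (γ - 1) x) • innerSL ℝ x :=
  (hasFDerivAt_wt γ x).fderiv

lemma norm_fderiv_wt_sq (γ : ℝ) (x : E n) :
    ‖fderiv ℝ (wt γ : E n → ℝ) x‖ ^ 2 = 4 * γ ^ 2 * (wt (γ - 1) x ^ 2 * ‖x‖ ^ 2) := by
  rw [fderiv_wt, norm_smul, innerSL_apply_norm, mul_pow, Real.norm_eq_abs, sq_abs]
  ring

lemma wt_test_B (α β : ℝ) (x : E n) :
    wt (α - 1) x * wt (-β) x ^ 2 = wt (α - 1 - 2 * β) x := by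
  rw [sq, ← mul_assoc, wt_mul, wt_mul]; congr 1; ring

lemma wt_test_A (α β : ℝ) (x : E n) :
    wt α x * ‖fderiv ℝ (wt (-β) : E n → ℝ) x‖ ^ 2 =
      4 * β ^ 2 * (wt (α - 2 - 2 * β) x * ‖x‖ ^ 2) := by
  rw [norm_fderiv_wt_sq]
  have : wt α x * (wt (-β - 1) x ^ 2) = wt (α - 2 - 2 * β) x := by
    rw [sq, ← mul_assoc, wt_mul, wt_mul]; congr 1; ring
  rw [← this]; ring

lemma test_intB {α β : ℝ} (h : ((n:ℝ) + 2 * α - 2) / 4 < β) :
    Integrable fun x : E n => wt (α - 1) x * wt (-β) x ^ 2 := by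
  simp_rw [wt_test_B]
  apply wt_integrable
  linarith

lemma test_intA {α β : ℝ} (h : ((n:ℝ) + 2 * α - 2) / 4 < β) :
    Integrable fun x : E n => wt α x * ‖fderiv ℝ (wt (-β) : E n → ℝ) x‖ ^ 2 := by
  simp_rw [wt_test_A]
  refine Integrable.const_mul ?_ _
  have h1 : Integrable (wt (α - 1 - 2 * β) : E n → ℝ) := wt_integrable (by linarith)
  refine h1.mono' ?_ ?_
  · exact ((wt_continuous _).mul (continuous_norm.pow 2)).aestronglyMeasurable
  · refine Eventually.of_forall fun x => ?_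
    have hw := wt_pos (α - 2 - 2 * β) x
    rw [Real.norm_eq_abs, abs_of_nonneg (by positivity)]
    have : wt (α - 1 - 2 * β) x = (1 + ‖x‖ ^ 2) * wt (α - 2 - 2 * β) x := by
      rw [← wt_succ]; congr 1; ring
    rw [this]
    nlinarith

/-- admissible functions -/
def Adm (n : ℕ) (α : ℝ) (u : E n → ℝ) : Prop :=
  ContDiff ℝ ∞ u ∧ HasCompactSupport u ∧ u ≠ 0 ∧
    (α < -((n:ℝ) - 2) / 2 → ∫ x, wt (α - 1) x * u x = 0)

/-- the best constant -/
def best (n : ℕ) (α : ℝ) : ℝ := sInf {q : ℝ | ∃ u : E n → ℝ, Adm n α u ∧ q = A α u / B α u}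

lemma B_pos (α : ℝ) {u : E n → ℝ} (hu : ContDiff ℝ 1 u) (hc : HasCompactSupport u) (h0 : u ≠ 0) :
    0 < B α u := by
  unfold B
  obtain ⟨x, hx⟩ := Function.ne_iff.mp h0
  have hcont : Continuous fun x => wt (α - 1) x * u x ^ 2 :=
    (wt_continuous _).mul (hu.continuous.pow 2)
  refine (integral_pos_iff_support_of_nonneg (fun x => mul_nonneg (wt_pos _ x).le (sq_nonneg _))
    (intB _ hu hc)).mpr ?_
  refine (hcont.isOpen_support).measure_pos _ ⟨x, ?_⟩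
  rw [Function.mem_support]
  have := wt_pos (α - 1) x
  have hx' : u x ≠ 0 := hx
  positivity

lemma A_nonneg (α : ℝ) (u : E n → ℝ) : 0 ≤ A α u :=
  integral_nonneg fun x => mul_nonneg (wt_pos _ x).le (sq_nonneg _)

lemma bdd (n : ℕ) (α : ℝ) : BddBelow {q : ℝ | ∃ u : E n → ℝ, Adm n α u ∧ q = A α u / B α u} := by
  refine ⟨0, ?_⟩
  rintro q ⟨u, -, rfl⟩
  exact div_nonneg (A_nonneg _ _) (B_nonneg _ _)

lemma best_le_of_test {α : ℝ} (hα : -((n:ℝ) - 2) / 2 < α) (hφ : ContDiff ℝ ∞ φ)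
    (hA : Integrable fun x => wt α x * ‖fderiv ℝ φ x‖ ^ 2)
    (hB : Integrable fun x => wt (α - 1) x * φ x ^ 2) (hpos : 0 < B α φ) :
    best n α ≤ A α φ / B α φ := by
  have hφ1 : ContDiff ℝ 1 φ := hφ.of_le (by exact_mod_cast le_top)
  have h1 := (lim_A α hφ1 hA hB).div (lim_B α hφ1 hB) hpos.ne'
  have h2 : ∀ᶠ k in atTop, 0 < B α (cut φ k) := (lim_B α hφ1 hB).eventually (lt_mem_nhds hpos)
  refine ge_of_tendsto h1 ?_
  filter_upwards [h2] with k hk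
  apply csInf_le (bdd n α)
  refine ⟨cut φ k, ⟨cut_contDiff hφ k, cut_support φ k, ?_, fun h => absurd hα (by linarith)⟩, rfl⟩
  rintro h0
  rw [h0] at hk
  simp [B] at hk

lemma test_pos {α β : ℝ} (h : ((n:ℝ) + 2 * α - 2) / 4 < β) : 0 < B α (wt (-β) : E n → ℝ) := by
  unfold B
  refine (integral_pos_iff_support_of_nonneg (fun x => mul_nonneg (wt_pos _ x).le (sq_nonneg _))
    (test_intB h)).mpr ?_
  have : Function.support (fun x : E n => wt (α - 1) x * wt (-β) x ^ 2) = univ := by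
    ext x
    have h1 := wt_pos (α - 1) x
    have h2 := wt_pos (-β) x
    simp only [Function.mem_support, mem_univ, iff_true]
    positivity
  rw [this]
  exact isOpen_univ.measure_pos _ univ_nonempty

lemma upper1 {α : ℝ} (hα : -((n:ℝ) - 2) / 2 < α) : best n α ≤ ((n:ℝ) + 2 * α - 2) ^ 2 / 4 := by
  have h1 : ∀ β : ℝ, ((n:ℝ) + 2 * α - 2) / 4 < β → best n α ≤ 4 * β ^ 2 := by
    intro β hβ
    refine (best_le_of_test hα (wt_contDiff _) (test_intA hβ) (test_intB hβ) (test_pos hβ)).trans ?_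
    rw [div_le_iff₀ (test_pos hβ)]
    unfold A B
    rw [← integral_const_mul]
    refine integral_mono (test_intA hβ) ((test_intB hβ).const_mul _) fun x => ?_
    simp only
    rw [wt_test_A, wt_test_B]
    have hw := wt_pos (α - 2 - 2 * β) x
    have : wt (α - 1 - 2 * β) x = (1 + ‖x‖ ^ 2) * wt (α - 2 - 2 * β) x := by
      rw [← wt_succ]; congr 1; ring
    rw [this]
    have h2 : 0 ≤ 4 * β ^ 2 * wt (α - 2 - 2 * β) x := by positivity
    nlinarith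
  have h2 : Tendsto (fun β : ℝ => 4 * β ^ 2) (𝓝[>] (((n:ℝ) + 2 * α - 2) / 4))
      (𝓝 (4 * (((n:ℝ) + 2 * α - 2) / 4) ^ 2)) := by
    apply Tendsto.mono_left _ nhdsWithin_le_nhds
    exact (by fun_prop : Continuous fun β : ℝ => 4 * β ^ 2).tendsto _
  have h3 : best n α ≤ 4 * (((n:ℝ) + 2 * α - 2) / 4) ^ 2 := by
    refine ge_of_tendsto h2 ?_
    filter_upwards [self_mem_nhdsWithin] with β hβ
    exact h1 β hβ
  linarith

lemma upper2 {α : ℝ} (hn : 0 < n) (hα : 1 + (n:ℝ) / 2 < α) : best n α ≤ 2 * n * (α - 1) := by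
  have hn' : (0:ℝ) < n := by exact_mod_cast hn
  have hα0 : -((n:ℝ) - 2) / 2 < α := by linarith
  have hβ : ((n:ℝ) + 2 * α - 2) / 4 < α - 1 := by linarith
  refine (best_le_of_test hα0 (wt_contDiff _) (test_intA hβ) (test_intB hβ) (test_pos hβ)).trans ?_
  rw [div_le_iff₀ (test_pos hβ)]
  set φ : E n → ℝ := wt (-(α - 1)) with hφ
  have hφ1 : ContDiff ℝ 1 φ := (wt_contDiff _).of_le (by exact_mod_cast le_top)
  have hdiv := div_identity' α hφ1 (test_intA hβ) (test_intB hβ)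
  have hAS : A α φ = 4 * (α - 1) ^ 2 * S α φ := by
    unfold A S
    rw [← integral_const_mul]
    refine integral_congr_ae (Eventually.of_forall fun x => ?_)
    simp only [hφ]
    rw [wt_test_A]
    have : wt (α - 2) x * wt (-(α - 1)) x ^ 2 = wt (α - 2 - 2 * (α - 1)) x := by
      rw [sq, ← mul_assoc, wt_mul, wt_mul]; congr 1; ring
    rw [← this]; ring
  have hTS : T α φ = -2 * (α - 1) * S α φ := by
    unfold T S
    rw [← integral_const_mul]
    refine integral_congr_ae (Eventually.of_forall fun x => ?_)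
    simp only [hφ]
    rw [fderiv_wt]
    have : wt (α - 1) x * wt (-(α - 1) - 1) x = wt (α - 2) x * wt (-(α - 1)) x := by
      rw [wt_mul, wt_mul]; congr 1; ring
    simp only [smul_apply, innerSL_apply_apply, real_inner_self_eq_norm_sq,
      smul_eq_mul]
    linear_combination (-2 * (α - 1) * wt (-(α - 1)) x * ‖x‖ ^ 2) * this
  rw [hTS] at hdiv
  rw [hAS]
  have h1 : (n:ℝ) * B α φ = 2 * (α - 1) * S α φ := by linarith
  have h2 : 4 * (α - 1) ^ 2 * S α φ = 2 * n * (α - 1) * B α φ := by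
    linear_combination (-2 * (α - 1)) * h1
  exact h2.le

theorem best_eq (hn : 0 < n) {α : ℝ} (hα : -((n:ℝ) - 2) / 2 < α) :
    best n α = if α ≤ 1 + (n:ℝ) / 2 then ((n:ℝ) + 2 * α - 2) ^ 2 / 4 else 2 * n * (α - 1) := by
  apply le_antisymm
  · split_ifs with h
    · exact upper1 hα
    · exact upper2 hn (by linarith)
  · change val n α ≤ best n α
    apply le_csInf
    · refine ⟨_, bmp n, ⟨bmp_contDiff, (bmp n).hasCompactSupport, ?_, fun h => absurd hα (by linarith)⟩,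
        rfl⟩
      intro h0
      have h2 : bmp n (0 : E n) = 1 := (bmp n).one_of_mem_closedBall (by simp [(bmp n).rIn_pos.le])
      have h3 := congrFun h0 0
      rw [h2] at h3
      simp at h3
    · rintro q ⟨u, ⟨hu, hc, h0, -⟩, rfl⟩
      have hu1 : ContDiff ℝ 1 u := hu.of_le (by exact_mod_cast le_top)
      rw [le_div_iff₀ (B_pos α hu1 hc h0)]
      exact lower α (by linarith) hu1 hc

end

end Pool.Agent.R256.HW
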