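import Mathlib

set_option autoImplicit false

open MeasureTheory Filter Topology Set

namespace Pool.Agent.R256.Haus

noncomputable section

/-- upper envelope -/
def SS (f : ℝ → ℝ) (x : ℝ) : ℝ := limsup f (𝓝 x)

/-- lower envelope -/
def II (f : ℝ → ℝ) (x : ℝ) : ℝ := liminf f (𝓝 x)

/-- completed graph -/
def CG (f : ℝ → ℝ) : Set (ℝ × ℝ) := {q | II f q.1 ≤ q.2 ∧ q.2 ≤ SS f q.1}

/-- the distance `ρ_α` -/
def rh (α : ℝ) (A B : ℝ × ℝ) : ℝ := max (α⁻¹ * |A.1 - B.1|) |A.2 - B.2|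

/-- the Hausdorff distance -/
def hd (α : ℝ) (f g : ℝ → ℝ) : ℝ :=
  max (⨆ A : CG f, ⨅ B : CG g, rh α A B) (⨆ A : CG g, ⨅ B : CG f, rh α A B)

variable {f g : ℝ → ℝ} {M : ℝ}

lemma bddU (hM : ∀ t, |f t| ≤ M) (x : ℝ) : IsBoundedUnder (· ≤ ·) (𝓝 x) f :=
  isBoundedUnder_of ⟨M, fun t => (abs_le.mp (hM t)).2⟩

lemma bddL (hM : ∀ t, |f t| ≤ M) (x : ℝ) : IsBoundedUnder (· ≥ ·) (𝓝 x) f :=
  isBoundedUnder_of ⟨-M, fun t => (abs_le.mp (hM t)).1⟩

lemma SS_le (hM : ∀ t, |f t| ≤ M) (x : ℝ) : SS f x ≤ M :=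
  limsup_le_of_le (bddL hM x).isCoboundedUnder_le (Eventually.of_forall fun t => (abs_le.mp (hM t)).2)

lemma le_II (hM : ∀ t, |f t| ≤ M) (x : ℝ) : -M ≤ II f x :=
  le_liminf_of_le (bddU hM x).isCoboundedUnder_ge (Eventually.of_forall fun t => (abs_le.mp (hM t)).1)

lemma II_le_SS (hM : ∀ t, |f t| ≤ M) (x : ℝ) : II f x ≤ SS f x :=
  liminf_le_limsup (bddU hM x) (bddL hM x)

lemma rh_nonneg (α : ℝ) (A B : ℝ × ℝ) : 0 ≤ rh α A B := le_max_of_le_right (abs_nonneg _)

/-- from the Hausdorff distance to a point -/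
lemma exists_near {α : ℝ} {M' : ℝ} (hM : ∀ t, |f t| ≤ M) (hM' : ∀ t, |g t| ≤ M')
    {c : ℝ} (hc : hd α f g < c) {A : ℝ × ℝ} (hA : A ∈ CG f) : ∃ B ∈ CG g, rh α A B < c := by
  have hne : Nonempty (CG g) := ⟨⟨(0, II g 0), le_rfl, II_le_SS hM' 0⟩⟩
  have hbdd : BddAbove (range fun A : CG f => ⨅ B : CG g, rh α A B) := by
    refine ⟨M + M', ?_⟩
    rintro _ ⟨⟨⟨x, y⟩, hA1, hA2⟩, rfl⟩
    have hB : ((x, II g x) : ℝ × ℝ) ∈ CG g := ⟨le_rfl, II_le_SS hM' x⟩
    refine (ciInf_le ⟨0, ?_⟩ (⟨(x, II g x), hB⟩ : CG g)).trans ?_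
    · rintro _ ⟨B, rfl⟩; exact rh_nonneg _ _ _
    · have h1 := le_II hM x
      have h2 := SS_le hM x
      have h3 := le_II hM' x
      have h4 := (II_le_SS hM' x).trans (SS_le hM' x)
      simp only at hA1 hA2
      have hy : |y| ≤ M := abs_le.mpr ⟨by linarith, by linarith⟩
      have hz : |II g x| ≤ M' := abs_le.mpr ⟨by linarith, by linarith⟩
      unfold rh
      simp only [sub_self, abs_zero, mul_zero]
      apply max_le
      · linarith [abs_nonneg y, abs_nonneg (II g x)]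
      · calc |y - II g x| ≤ |y| + |II g x| := abs_sub _ _
          _ ≤ _ := by linarith
  have h1 : (⨅ B : CG g, rh α A B) < c := by
    refine lt_of_le_of_lt ?_ hc
    exact (le_ciSup hbdd (⟨A, hA⟩ : CG f)).trans (le_max_left _ _)
  obtain ⟨B, hB⟩ := exists_lt_of_ciInf_lt h1
  exact ⟨B.1, B.2, hB⟩

lemma near_S {α : ℝ} (hα : 0 < α) {M' : ℝ} (hM : ∀ t, |f t| ≤ M) (hM' : ∀ t, |g t| ≤ M')
    {c : ℝ} (hc : hd α f g < c) (x0 : ℝ) : ∃ ξ, |x0 - ξ| < α * c ∧ SS f x0 - c < g ξ := by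
  obtain ⟨⟨ξ1, η1⟩, hB, hlt⟩ := exists_near hM hM' hc (A := (x0, SS f x0))
    ⟨II_le_SS hM x0, le_rfl⟩
  unfold rh at hlt
  rw [max_lt_iff] at hlt
  obtain ⟨h1, h2⟩ := hlt
  simp only at h1 h2
  have h3 : |x0 - ξ1| < α * c := by
    rw [inv_mul_lt_iff₀ hα] at h1; exact h1
  have h4 : SS f x0 - c < SS g ξ1 := by
    have := (abs_lt.mp h2).2
    have := hB.2
    simp only at this
    linarith
  have h5 := frequently_lt_of_lt_limsup (bddL hM' ξ1).isCoboundedUnder_le h4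
  have h6 : ∀ᶠ ξ in 𝓝 ξ1, |x0 - ξ| < α * c := by
    have : Tendsto (fun ξ : ℝ => |x0 - ξ|) (𝓝 ξ1) (𝓝 |x0 - ξ1|) :=
      (by fun_prop : Continuous fun ξ : ℝ => |x0 - ξ|).tendsto _
    exact this.eventually (gt_mem_nhds h3)
  obtain ⟨ξ, h7, h8⟩ := (h5.and_eventually h6).exists
  exact ⟨ξ, h8, h7⟩

lemma near_I {α : ℝ} (hα : 0 < α) {M' : ℝ} (hM : ∀ t, |f t| ≤ M) (hM' : ∀ t, |g t| ≤ M')
    {c : ℝ} (hc : hd α f g < c) (x0 : ℝ) : ∃ ξ, |x0 - ξ| < α * c ∧ g ξ < II f x0 + c := by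
  obtain ⟨⟨ξ1, η1⟩, hB, hlt⟩ := exists_near hM hM' hc (A := (x0, II f x0))
    ⟨le_rfl, II_le_SS hM x0⟩
  unfold rh at hlt
  rw [max_lt_iff] at hlt
  obtain ⟨h1, h2⟩ := hlt
  simp only at h1 h2
  have h3 : |x0 - ξ1| < α * c := by
    rw [inv_mul_lt_iff₀ hα] at h1; exact h1
  have h4 : II g ξ1 < II f x0 + c := by
    have := (abs_lt.mp h2).1
    have := hB.1
    simp only at this
    linarith
  have h5 := frequently_lt_of_liminf_lt (bddU hM' ξ1).isCoboundedUnder_ge h4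
  have h6 : ∀ᶠ ξ in 𝓝 ξ1, |x0 - ξ| < α * c := by
    have : Tendsto (fun ξ : ℝ => |x0 - ξ|) (𝓝 ξ1) (𝓝 |x0 - ξ1|) :=
      (by fun_prop : Continuous fun ξ : ℝ => |x0 - ξ|).tendsto _
    exact this.eventually (gt_mem_nhds h3)
  obtain ⟨ξ, h7, h8⟩ := (h5.and_eventually h6).exists
  exact ⟨ξ, h8, h7⟩

/-- one sided window estimate -/
lemma window {h k : ℝ → ℝ} (hh : AEStronglyMeasurable h volume) {M ε τ δ s c x0 ξ ρ : ℝ}
    (hM : ∀ t, |h t| ≤ M) (hk0 : ∀ t, 0 ≤ k t) (hki : Integrable k) (hk1 : ∫ t, k t = 1)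
    (hsδ : s < 2 * δ)
    {S : ℝ} (hS : |S| ≤ M) (hnear : ∀ t, |t - x0| < 2 * δ → h t ≤ S + ε) (hε : 0 ≤ ε)
    (hξ : |x0 - ξ| < δ)
    (htail : ∫ t in {t | δ ≤ |t|}, k t ≤ τ)
    (hlow : ∀ t, |t - x0| ≤ s → c / s ≤ k (ξ - t))
    (hval : S - ρ ≤ ∫ t, h (ξ - t) * k t) :
    (c / s) * ∫ t in Icc (x0 - s) (x0 + s), (S + ε - h t) ≤ ε + ρ + (2 * M + ε) * τ := by
  have hM0 : 0 ≤ M := (abs_nonneg _).trans hS
  set κ : ℝ → ℝ := fun t => k (ξ - t) with hκ
  have hκi : Integrable κ := hki.comp_sub_left ξ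
  have hκ0 : ∀ t, 0 ≤ κ t := fun t => hk0 _
  have hκ1 : ∫ t, κ t = 1 := by
    rw [hκ, integral_sub_left_eq_self (fun t => k t) volume ξ]; exact hk1
  have hval' : ∫ t, h (ξ - t) * k t = ∫ t, h t * κ t := by
    have := integral_sub_left_eq_self (fun t => h t * κ t) (volume : Measure ℝ) ξ
    rw [← this]
    refine integral_congr_ae (Eventually.of_forall fun t => ?_)
    simp [hκ]
  rw [hval'] at hval
  have hhκ : Integrable fun t => h t * κ t := by
    refine Integrable.bdd_mul (c := M) hκi hh ?_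
    exact Eventually.of_forall fun t => by rw [Real.norm_eq_abs]; exact hM t
  set N : Set ℝ := {t | |t - x0| < 2 * δ} with hN
  have hNm : MeasurableSet N := by
    apply measurableSet_lt _ measurable_const
    fun_prop
  -- tail mass
  have htail' : ∫ t in Nᶜ, κ t ≤ τ := by
    have e1 : ∫ t in {t | δ ≤ |t|}, k t = ∫ t in {t | δ ≤ |ξ - t|}, κ t := by
      rw [← integral_indicator (by measurability), ← integral_indicator (by measurability)]
      rw [← integral_sub_left_eq_self _ (volume : Measure ℝ) ξ]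
      refine integral_congr_ae (Eventually.of_forall fun t => ?_)
      simp only [indicator, mem_ofPred_eq, hκ]
    rw [e1] at htail
    refine le_trans ?_ htail
    refine setIntegral_mono_set hκi.integrableOn (Eventually.of_forall hκ0) ?_
    apply LE.le.eventuallyLE
    intro t ht
    rw [mem_compl_iff, hN, mem_ofPred_eq, not_lt] at ht
    rw [mem_ofPred_eq]
    have : |t - x0| ≤ |t - ξ| + |ξ - x0| := abs_sub_le _ _ _
    rw [abs_sub_comm ξ x0, abs_sub_comm t ξ] at this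
    linarith
  have hsplit : ∫ t, κ t = (∫ t in N, κ t) + ∫ t in Nᶜ, κ t :=
    (integral_add_compl hNm hκi).symm
  have hsplit2 : ∫ t, h t * κ t = (∫ t in N, h t * κ t) + ∫ t in Nᶜ, h t * κ t :=
    (integral_add_compl hNm hhκ).symm
  have hfar : |∫ t in Nᶜ, h t * κ t| ≤ M * ∫ t in Nᶜ, κ t := by
    rw [← integral_const_mul, ← Real.norm_eq_abs]
    refine (norm_integral_le_integral_norm _).trans ?_
    refine integral_mono hhκ.integrableOn.norm (hκi.integrableOn.const_mul M) fun t => ?_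
    simp only [norm_mul, Real.norm_eq_abs]
    rw [abs_of_nonneg (hκ0 t)]
    exact mul_le_mul_of_nonneg_right (hM t) (hκ0 t)
  set τ' := ∫ t in Nᶜ, κ t with hτ'
  have hτ'0 : 0 ≤ τ' := integral_nonneg hκ0
  -- main
  have hmain : ∫ t in N, (S + ε - h t) * κ t ≤ ε + ρ + (2 * M + ε) * τ := by
    have e1 : ∫ t in N, (S + ε - h t) * κ t = (S + ε) * (∫ t in N, κ t) - ∫ t in N, h t * κ t := by
      rw [← integral_const_mul, ← integral_sub (hκi.integrableOn.const_mul _) hhκ.integrableOn]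
      refine integral_congr_ae (Eventually.of_forall fun t => ?_)
      simp only
      ring
    rw [e1]
    have e2 : ∫ t in N, κ t = 1 - τ' := by linarith
    have e3 : ∫ t in N, h t * κ t = (∫ t, h t * κ t) - ∫ t in Nᶜ, h t * κ t := by linarith
    rw [e2, e3]
    have e4 := abs_le.mp hfar
    have e5 := abs_le.mp hS
    have e6 : -(S * τ') ≤ M * τ' := by nlinarith
    have e7 : (2 * M + ε) * τ' ≤ (2 * M + ε) * τ := mul_le_mul_of_nonneg_left htail' (by linarith)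
    nlinarith
  have hsub : Icc (x0 - s) (x0 + s) ⊆ N := by
    intro t ht
    rw [hN, mem_ofPred_eq, abs_lt]
    constructor <;> linarith [ht.1, ht.2]
  have hint1 : Integrable fun t => (S + ε - h t) * κ t := by
    have := (hκi.const_mul (S + ε)).sub hhκ
    refine this.congr (Eventually.of_forall fun t => ?_)
    simp only [Pi.sub_apply]
    ring
  have h1 : ∫ t in Icc (x0 - s) (x0 + s), (S + ε - h t) * κ t ≤ ∫ t in N, (S + ε - h t) * κ t := by
    refine setIntegral_mono_set hint1.integrableOn ?_ hsub.eventuallyLE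
    filter_upwards [ae_restrict_mem hNm] with t ht
    exact mul_nonneg (by linarith [hnear t ht]) (hκ0 t)
  refine le_trans ?_ (h1.trans hmain)
  rw [← integral_const_mul]
  have hfin : IntegrableOn h (Icc (x0 - s) (x0 + s)) := by
    refine Measure.integrableOn_of_bounded (M := M) (by simp) hh ?_
    exact Eventually.of_forall fun t => by rw [Real.norm_eq_abs]; exact hM t
  refine setIntegral_mono_on ?_ hint1.integrableOn measurableSet_Icc ?_
  · refine Integrable.const_mul ?_ _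
    refine Integrable.sub ?_ hfin
    exact integrableOn_const (by simp)
  · intro t ht
    have ht' : |t - x0| ≤ s := abs_le.mpr ⟨by linarith [ht.1], by linarith [ht.2]⟩
    have h2 := hlow t ht'
    have h3 : 0 ≤ S + ε - h t := by linarith [hnear t (hsub ht)]
    nlinarith

theorem core {f : ℝ → ℝ} (hf : AEStronglyMeasurable f volume) {M : ℝ} (hM : ∀ t, |f t| ≤ M) {α : ℝ} (hα : 0 < α)
    (k : ℕ → ℝ → ℝ) (s : ℕ → ℝ) (hs : ∀ n, 0 < s n) (hs0 : Tendsto s atTop (𝓝 0))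
    (hk0 : ∀ n t, 0 ≤ k n t) (hki : ∀ n, Integrable (k n)) (hk1 : ∀ n, ∫ t, k n t = 1)
    (htail : ∀ δ > 0, Tendsto (fun n => ∫ t in {t | δ ≤ |t|}, k n t) atTop (𝓝 0))
    (hlow : ∀ C > 0, ∃ c > 0, ∀ᶠ n in atTop, ∀ t, |t| ≤ C * s n → c / s n ≤ k n t)
    {C : ℝ} (hC : 0 < C)
    (hh : ∀ᶠ n in atTop, hd α f (fun x => ∫ t, f (x - t) * k n t) < C * s n) : Continuous f := by
  rw [continuous_iff_continuousAt]
  intro x0
  have hM0 : 0 ≤ M := (abs_nonneg _).trans (hM 0)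
  by_cases hSI : SS f x0 ≤ II f x0
  · have heq : II f x0 = SS f x0 := le_antisymm (II_le_SS hM x0) hSI
    apply continuousAt_of_tendsto_nhds (y := SS f x0)
    exact tendsto_of_liminf_eq_limsup heq rfl (bddU hM x0) (bddL hM x0)
  exfalso
  push Not at hSI
  set S := SS f x0 with hS
  set I := II f x0 with hI
  set d := S - I with hd'
  have hd0 : 0 < d := sub_pos.mpr hSI
  have hSM : |S| ≤ M := abs_le.mpr ⟨(le_II hM x0).trans (II_le_SS hM x0), SS_le hM x0⟩
  have hIM : |-I| ≤ M := by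
    rw [abs_neg]
    exact abs_le.mpr ⟨le_II hM x0, (II_le_SS hM x0).trans (SS_le hM x0)⟩
  obtain ⟨c, hc, hlow'⟩ := hlow (1 + α * C) (by positivity)
  set ε := c * d / 4 with hε
  have hε0 : 0 < ε := by positivity
  -- neighbourhood
  have e1 : ∀ᶠ t in 𝓝 x0, f t < S + ε :=
    eventually_lt_of_limsup_lt (by rw [← SS, ← hS]; linarith) (bddU hM x0)
  have e2 : ∀ᶠ t in 𝓝 x0, I - ε < f t :=
    eventually_lt_of_lt_liminf (by rw [← II, ← hI]; linarith) (bddL hM x0)
  obtain ⟨η, hη, hball⟩ := Metric.eventually_nhds_iff.mp (e1.and e2)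
  set δ := η / 2 with hδ
  have hδ0 : 0 < δ := by positivity
  have hnear1 : ∀ t, |t - x0| < 2 * δ → f t ≤ S + ε := by
    intro t ht
    exact (hball (by rw [Real.dist_eq]; linarith)).1.le
  have hnear2 : ∀ t, |t - x0| < 2 * δ → -f t ≤ -I + ε := by
    intro t ht
    have := (hball (y := t) (by rw [Real.dist_eq]; linarith)).2
    linarith
  -- smallness
  have hsmall1 : ∀ᶠ n in atTop, s n < 2 * δ := hs0.eventually (gt_mem_nhds (by positivity))
  have hsmall2 : ∀ᶠ n in atTop, α * (C * s n) < δ := by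
    have : Tendsto (fun n => α * (C * s n)) atTop (𝓝 (α * (C * 0))) :=
      (hs0.const_mul C).const_mul α
    simp only [mul_zero] at this
    exact this.eventually (gt_mem_nhds hδ0)
  have hsmall3 : ∀ᶠ n in atTop, 2 * (C * s n) + 2 * ((2 * M + ε) *
      ∫ t in {t | δ ≤ |t|}, k n t) < c * d := by
    have : Tendsto (fun n => 2 * (C * s n) + 2 * ((2 * M + ε) *
      ∫ t in {t | δ ≤ |t|}, k n t)) atTop (𝓝 (2 * (C * 0) + 2 * ((2 * M + ε) * 0))) :=
      ((hs0.const_mul C).const_mul 2).add (((htail δ hδ0).const_mul _).const_mul 2)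
    simp only [mul_zero, add_zero] at this
    exact this.eventually (gt_mem_nhds (by positivity))
  obtain ⟨n, ⟨⟨⟨hn1, hn2⟩, hn3⟩, hn4⟩, hn5⟩ :=
    ((((hh.and hlow').and hsmall1).and hsmall2).and hsmall3).exists
  have hTM : ∀ x, |∫ t, f (x - t) * k n t| ≤ M := by
    intro x
    rw [← Real.norm_eq_abs]
    refine (norm_integral_le_integral_norm _).trans ?_
    calc ∫ t, ‖f (x - t) * k n t‖ ≤ ∫ t, M * k n t := by
          refine integral_mono_of_nonneg (Eventually.of_forall fun t => norm_nonneg _)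
            ((hki n).const_mul M) (Eventually.of_forall fun t => ?_)
          simp only [norm_mul, Real.norm_eq_abs]
          rw [abs_of_nonneg (hk0 n t)]
          exact mul_le_mul_of_nonneg_right (hM _) (hk0 n t)
      _ = M := by rw [integral_const_mul, hk1 n, mul_one]
  obtain ⟨ξ, hξ1, hξ2⟩ := near_S hα hM hTM hn1 x0
  obtain ⟨ζ, hζ1, hζ2⟩ := near_I hα hM hTM hn1 x0
  have hsn := hs n
  have hlw : ∀ ξ, |x0 - ξ| < α * (C * s n) → ∀ t, |t - x0| ≤ s n → c / s n ≤ k n (ξ - t) := by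
    intro ξ hξ t ht
    apply hn2
    have : |ξ - t| ≤ |ξ - x0| + |x0 - t| := abs_sub_le _ _ _
    rw [abs_sub_comm ξ x0, abs_sub_comm x0 t] at this
    linarith
  have w1 := window hf (ρ := C * s n) hM (hk0 n) (hki n) (hk1 n) hn3 hSM hnear1 hε0.le
    (hξ1.trans hn4) le_rfl (hlw ξ hξ1) hξ2.le
  have w2 := window (h := fun t => -f t) hf.neg (ρ := C * s n) (fun t => by rw [abs_neg]; exact hM t)
    (hk0 n) (hki n) (hk1 n) hn3 hIM hnear2 hε0.le
    (hζ1.trans hn4) le_rfl (hlw ζ hζ1) (by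
      have : ∫ t, -f (ζ - t) * k n t = - ∫ t, f (ζ - t) * k n t := by
        rw [← integral_neg]
        refine integral_congr_ae (Eventually.of_forall fun t => ?_)
        simp only; ring
      rw [this]
      linarith)
  have hfin : IntegrableOn f (Icc (x0 - s n) (x0 + s n)) := by
    refine Measure.integrableOn_of_bounded (M := M) (by simp) hf ?_
    exact Eventually.of_forall fun t => by rw [Real.norm_eq_abs]; exact hM t
  have hcst : ∀ a : ℝ, IntegrableOn (fun _ : ℝ => a) (Icc (x0 - s n) (x0 + s n)) := fun a =>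
    integrableOn_const (by simp)
  have hadd : (∫ t in Icc (x0 - s n) (x0 + s n), (S + ε - f t)) +
      ∫ t in Icc (x0 - s n) (x0 + s n), (-I + ε - -f t) = 2 * s n * (d + 2 * ε) := by
    have i1 : Integrable (fun t => S + ε - f t) (volume.restrict (Icc (x0 - s n) (x0 + s n))) :=
      (hcst _).sub hfin
    have i2 : Integrable (fun t => -I + ε - -f t) (volume.restrict (Icc (x0 - s n) (x0 + s n))) :=
      (hcst _).sub hfin.neg
    rw [← integral_add i1 i2]
    have : ∀ t, (S + ε - f t) + (-I + ε - -f t) = d + 2 * ε := fun t => by rw [hd']; ring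
    simp only [this]
    rw [setIntegral_const, smul_eq_mul, measureReal_def, Real.volume_Icc, ENNReal.toReal_ofReal (by linarith)]
    ring
  have hsum : (c / s n) * (2 * s n * (d + 2 * ε)) ≤
      2 * ε + 2 * (C * s n) + 2 * ((2 * M + ε) * ∫ t in {t | δ ≤ |t|}, k n t) := by
    rw [← hadd, mul_add]
    linarith
  have hval : (c / s n) * (2 * s n * (d + 2 * ε)) = 2 * c * d + 4 * c * ε := by
    field_simp
    ring
  rw [hval] at hsum
  have : 0 < c * ε := by positivity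
  have h2ε : 2 * ε = c * d / 2 := by rw [hε]; ring
  have hcd : 0 < c * d := by positivity
  linarith

end

end Pool.Agent.R256.Haus
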