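import Mathlib
import Pool.Agent.R256.Haus1

set_option autoImplicit false

open MeasureTheory Filter Topology Set

namespace Pool.Agent.R256.Haus

noncomputable section

/-! ### Gauss–Weierstrass -/

/-- `W_n` -/
def W (n : ℕ) (f : ℝ → ℝ) (x : ℝ) : ℝ :=
  Real.sqrt (n / Real.pi) * ∫ t, f t * Real.exp (-n * (t - x) ^ 2)

/-- the Abel–Poisson operator `P_ρ` -/
def P (ρ : ℝ) (f : ℝ → ℝ) (x : ℝ) : ℝ :=
  1 / (2 * Real.pi) * ∫ t in (-Real.pi)..Real.pi,
    f (x - t) * ((1 - ρ ^ 2) / (1 - 2 * ρ * Real.cos t + ρ ^ 2))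

/-- the de la Vallée-Poussin operator `V_n` -/
def V (n : ℕ) (f : ℝ → ℝ) (x : ℝ) : ℝ :=
  ((n.factorial : ℝ) ^ 2 / (2 * Real.pi * ((2 * n).factorial : ℝ))) *
    ∫ t in (-Real.pi)..Real.pi, f (x - t) * (2 * Real.cos (t / 2)) ^ (2 * n)

lemma W_eq (n : ℕ) (f : ℝ → ℝ) (x : ℝ) :
    W n f x = ∫ t, f (x - t) * (Real.sqrt (n / Real.pi) * Real.exp (-n * t ^ 2)) := by
  unfold W
  rw [← integral_sub_left_eq_self _ (volume : Measure ℝ) x, ← integral_const_mul]
  refine integral_congr_ae (Eventually.of_forall fun t => ?_)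
  simp only
  have : (-(n:ℝ)) * (x - t - x) ^ 2 = -n * t ^ 2 := by ring
  rw [this]; ring

lemma cont_W {f : ℝ → ℝ} (hf : AEStronglyMeasurable f volume) {M : ℝ} (hM : ∀ t, |f t| ≤ M)
    {α : ℝ} (hα : 0 < α) {C : ℝ}
    (hh : ∀ᶠ n : ℕ in atTop, α * Real.sqrt n * hd α f (W n f) < C) : Continuous f := by
  set C' := max C 1 / α with hC'
  have hC'0 : 0 < C' := by positivity
  set k : ℕ → ℝ → ℝ := fun n t =>
    Real.sqrt ((n + 1 : ℕ) / Real.pi) * Real.exp (-((n + 1 : ℕ) : ℝ) * t ^ 2) with hk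
  set s : ℕ → ℝ := fun n => (Real.sqrt ((n + 1 : ℕ) : ℝ))⁻¹ with hs
  have hp : ∀ n : ℕ, (0:ℝ) < ((n + 1 : ℕ) : ℝ) := fun n => by positivity
  have hs' : ∀ n, 0 < s n := fun n => by
    have := hp n
    rw [hs]; positivity
  have hsq : ∀ n : ℕ, Real.sqrt ((n + 1 : ℕ) : ℝ) ^ 2 = ((n + 1 : ℕ) : ℝ) := fun n =>
    Real.sq_sqrt (hp n).le
  have htop : Tendsto (fun n : ℕ => ((n + 1 : ℕ) : ℝ)) atTop atTop :=
    tendsto_natCast_atTop_atTop.comp (tendsto_add_atTop_nat 1)
  refine core hf hM hα k s hs' ?_ ?_ ?_ ?_ ?_ ?_ hC'0 ?_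
  · exact (Real.tendsto_sqrt_atTop.comp htop).inv_tendsto_atTop
  · intro n t
    rw [hk]; positivity
  · intro n
    exact (integrable_exp_neg_mul_sq (hp n)).const_mul _
  · intro n
    rw [hk]
    simp only
    rw [integral_const_mul, integral_gaussian, ← Real.sqrt_mul (by positivity)]
    have : ((n + 1 : ℕ) : ℝ) / Real.pi * (Real.pi / ((n + 1 : ℕ) : ℝ)) = 1 := by
      have := hp n
      have := Real.pi_pos
      field_simp
    rw [this, Real.sqrt_one]
  · intro δ hδ
    have hub : ∀ n : ℕ, ∫ t in {t : ℝ | δ ≤ |t|}, k n t ≤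
        Real.exp (δ ^ 2) * (((n + 1 : ℕ) : ℝ) ^ (1 / 2 : ℝ) * Real.exp (-δ ^ 2 * ((n + 1 : ℕ) : ℝ))) := by
      intro n
      have hint : Integrable fun t : ℝ => Real.exp (-1 * t ^ 2) := integrable_exp_neg_mul_sq one_pos
      have h1 : ∫ t in {t : ℝ | δ ≤ |t|}, k n t ≤
          ∫ t in {t : ℝ | δ ≤ |t|}, (Real.sqrt ((n + 1 : ℕ) / Real.pi) *
            Real.exp (-δ ^ 2 * (n : ℝ))) * Real.exp (-1 * t ^ 2) := by
        refine setIntegral_mono_on ?_ ?_ ?_ ?_
        · exact ((integrable_exp_neg_mul_sq (hp n)).const_mul _).integrableOn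
        · exact (hint.const_mul _).integrableOn
        · exact measurableSet_le measurable_const (by fun_prop)
        · intro t ht
          rw [hk]
          simp only
          rw [mul_assoc]
          refine mul_le_mul_of_nonneg_left ?_ (Real.sqrt_nonneg _)
          rw [← Real.exp_add]
          apply Real.exp_le_exp.mpr
          have h2 : δ ^ 2 ≤ t ^ 2 := by
            rw [← sq_abs t]
            exact pow_le_pow_left₀ hδ.le ht 2
          push_cast
          nlinarith [mul_le_mul_of_nonneg_left h2 (Nat.cast_nonneg (α := ℝ) n)]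
      refine h1.trans ?_
      have h3 : ∫ t in {t : ℝ | δ ≤ |t|}, (Real.sqrt ((n + 1 : ℕ) / Real.pi) *
            Real.exp (-δ ^ 2 * (n : ℝ))) * Real.exp (-1 * t ^ 2) ≤
            ∫ t, (Real.sqrt ((n + 1 : ℕ) / Real.pi) *
            Real.exp (-δ ^ 2 * (n : ℝ))) * Real.exp (-1 * t ^ 2) := by
        apply setIntegral_le_integral (hint.const_mul _)
        exact Eventually.of_forall fun t => by positivity
      refine h3.trans (le_of_eq ?_)
      rw [integral_const_mul, integral_gaussian, div_one, Real.sqrt_div' _ Real.pi_pos.le,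
        ← Real.sqrt_eq_rpow]
      have : Real.sqrt Real.pi ≠ 0 := (Real.sqrt_pos.mpr Real.pi_pos).ne'
      have he : Real.exp (-δ ^ 2 * (n : ℝ)) = Real.exp (δ ^ 2) *
          Real.exp (-δ ^ 2 * ((n + 1 : ℕ) : ℝ)) := by
        rw [← Real.exp_add]; congr 1; push_cast; ring
      rw [he]
      field_simp
    refine squeeze_zero (fun n => ?_) hub ?_
    · refine integral_nonneg fun t => ?_
      rw [hk]; positivity
    · have h := (tendsto_rpow_mul_exp_neg_mul_atTop_nhds_zero (1 / 2) (δ ^ 2) (by positivity)).comp htop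
      have h' := h.const_mul (Real.exp (δ ^ 2))
      rw [mul_zero] at h'
      refine h'.congr fun n => ?_
      simp only [Function.comp_apply]
  · intro D hD
    refine ⟨Real.exp (-D ^ 2) / Real.sqrt Real.pi, by positivity, Eventually.of_forall fun n t ht => ?_⟩
    rw [hk, hs]
    simp only
    rw [div_inv_eq_mul, Real.sqrt_div' _ Real.pi_pos.le]
    have h1 : Real.exp (-D ^ 2) ≤ Real.exp (-((n + 1 : ℕ) : ℝ) * t ^ 2) := by
      apply Real.exp_le_exp.mpr
      have h2 : t ^ 2 ≤ (D * s n) ^ 2 := by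
        rw [← sq_abs t]
        exact pow_le_pow_left₀ (abs_nonneg _) ht 2
      have h3 : (D * s n) ^ 2 = D ^ 2 / ((n + 1 : ℕ) : ℝ) := by
        rw [mul_pow, hs]
        simp only
        rw [inv_pow, hsq]; rfl
      rw [h3, le_div_iff₀ (hp n)] at h2
      linarith
    calc Real.exp (-D ^ 2) / √Real.pi * √((n + 1 : ℕ) : ℝ)
        = √((n + 1 : ℕ) : ℝ) / √Real.pi * Real.exp (-D ^ 2) := by ring
      _ ≤ _ := mul_le_mul_of_nonneg_left h1 (by positivity)
  · have h1 := (tendsto_add_atTop_nat 1).eventually hh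
    filter_upwards [h1] with n hn
    have e : (fun x => ∫ t, f (x - t) * k n t) = W (n + 1) f := by
      funext x
      rw [W_eq]
    rw [e, hC', hs]
    simp only
    have hq : 0 < Real.sqrt ((n + 1 : ℕ) : ℝ) := Real.sqrt_pos.mpr (hp n)
    rw [← div_eq_mul_inv, lt_div_iff₀ hq, lt_div_iff₀ hα]
    calc hd α f (W (n + 1) f) * √((n + 1 : ℕ) : ℝ) * α
        = α * √((n + 1 : ℕ) : ℝ) * hd α f (W (n + 1) f) := by ring
      _ < C := hn
      _ ≤ _ := le_max_left _ _

end

end Pool.Agent.R256.Haus
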