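import Mathlib
import Pool.Agent.R256.Haus2

set_option autoImplicit false

open MeasureTheory Filter Topology Set

namespace Pool.Agent.R256.Haus

noncomputable section

/-- transfer of a kernel on `(-π, π]` to the line -/
def ext (k : ℝ → ℝ) : ℝ → ℝ := indicator (Ioc (-Real.pi) Real.pi) k

lemma ext_nonneg {k : ℝ → ℝ} (hk : ∀ t, 0 ≤ k t) (t : ℝ) : 0 ≤ ext k t :=
  indicator_nonneg (fun t _ => hk t) t

lemma ext_integrable {k : ℝ → ℝ} (hk : Continuous k) : Integrable (ext k) := by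
  rw [ext, integrable_indicator_iff measurableSet_Ioc]
  exact (hk.integrableOn_Icc).mono_set Ioc_subset_Icc_self

lemma ext_integral (k f : ℝ → ℝ) : ∫ t, f t * ext k t = ∫ t in (-Real.pi)..Real.pi, f t * k t := by
  rw [intervalIntegral.integral_of_le (by linarith [Real.pi_pos]), ← integral_indicator measurableSet_Ioc]
  refine integral_congr_ae (Eventually.of_forall fun t => ?_)
  simp only [ext, indicator_apply]
  split_ifs <;> simp

lemma ext_integral' (k : ℝ → ℝ) : ∫ t, ext k t = ∫ t in (-Real.pi)..Real.pi, k t := by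
  have := ext_integral k (fun _ => 1)
  simpa using this

/-- tail bound -/
lemma ext_tail {k : ℝ → ℝ} (hkc : Continuous k) {δ B : ℝ} (hδ : 0 < δ) (hB : 0 ≤ B)
    (hk : ∀ t, δ ≤ |t| → |t| ≤ Real.pi → k t ≤ B) :
    ∫ t in {t : ℝ | δ ≤ |t|}, ext k t ≤ 2 * Real.pi * B := by
  have hm : MeasurableSet {t : ℝ | δ ≤ |t|} := measurableSet_le measurable_const (by fun_prop)
  have hi : Integrable (ext fun _ => B) := ext_integrable continuous_const
  have h1 : ∫ t in {t : ℝ | δ ≤ |t|}, ext k t ≤ ∫ t in {t : ℝ | δ ≤ |t|}, ext (fun _ => B) t := by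
    refine setIntegral_mono_on (ext_integrable hkc).integrableOn hi.integrableOn hm ?_
    intro t ht
    by_cases h : t ∈ Ioc (-Real.pi) Real.pi
    · simp only [ext, indicator_of_mem h]
      exact hk t ht (abs_le.mpr ⟨h.1.le, h.2⟩)
    · simp only [ext, indicator_of_notMem h]; exact le_rfl
  have h2 : ∫ t in {t : ℝ | δ ≤ |t|}, ext (fun _ => B) t ≤ ∫ t, ext (fun _ => B) t :=
    setIntegral_le_integral hi (Eventually.of_forall (ext_nonneg fun _ => hB))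
  refine h1.trans (h2.trans (le_of_eq ?_))
  rw [ext_integral', intervalIntegral.integral_const, smul_eq_mul]
  ring

/-! ### Abel–Poisson -/

/-- the Poisson kernel -/
def pk (ρ : ℝ) (t : ℝ) : ℝ :=
  1 / (2 * Real.pi) * ((1 - ρ ^ 2) / (1 - 2 * ρ * Real.cos t + ρ ^ 2))

lemma pk_den {ρ : ℝ} (t : ℝ) : 1 - 2 * ρ * Real.cos t + ρ ^ 2 =
    (1 - ρ) ^ 2 + 2 * ρ * (1 - Real.cos t) := by ring

lemma pk_den_pos {ρ : ℝ} (h0 : 0 ≤ ρ) (h1 : ρ < 1) (t : ℝ) :
    0 < 1 - 2 * ρ * Real.cos t + ρ ^ 2 := by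
  rw [pk_den]
  have : 0 < (1 - ρ) ^ 2 := by
    have : 0 < 1 - ρ := by linarith
    positivity
  have h2 : 0 ≤ 2 * ρ * (1 - Real.cos t) :=
    mul_nonneg (by linarith) (by linarith [Real.cos_le_one t])
  linarith

lemma pk_nonneg {ρ : ℝ} (h0 : 0 ≤ ρ) (h1 : ρ < 1) (t : ℝ) : 0 ≤ pk ρ t := by
  unfold pk
  have := pk_den_pos h0 h1 t
  have h3 : 0 ≤ 1 - ρ ^ 2 := by nlinarith
  positivity

lemma pk_cont {ρ : ℝ} (h0 : 0 ≤ ρ) (h1 : ρ < 1) : Continuous (pk ρ) := by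
  unfold pk
  refine continuous_const.mul (continuous_const.div (by fun_prop) fun t => (pk_den_pos h0 h1 t).ne')

lemma pk_mass {ρ : ℝ} (h0 : 0 ≤ ρ) (h1 : ρ < 1) : ∫ t in (-Real.pi)..Real.pi, pk ρ t = 1 := by
  have hper : Function.Periodic (pk ρ) (2 * Real.pi) := by
    intro t; unfold pk; rw [Real.cos_add_two_pi]
  have e1 : ∫ t in (-Real.pi)..Real.pi, pk ρ t = ∫ t in (0:ℝ)..(2 * Real.pi), pk ρ t := by
    have := hper.intervalIntegral_add_eq (-Real.pi) 0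
    rw [zero_add] at this
    rw [← this]; congr 1; ring
  rw [e1]
  have h := DiffContOnCl.circleAverage_poissonKernel_smul' (f := fun _ : ℂ => (1 : ℂ)) (c := 0)
    (R := 1) (w := (ρ : ℂ)) diffContOnCl_const (by simp [abs_of_nonneg h0, h1])
  rw [Real.circleAverage_def] at h
  have e2 : ∀ θ : ℝ, ((‖circleMap 0 1 θ - 0‖ ^ 2 - ‖(ρ:ℂ) - 0‖ ^ 2) /
      ‖(circleMap 0 1 θ - 0) - ((ρ:ℂ) - 0)‖ ^ 2) • (1 : ℂ) =
      (((1 - ρ ^ 2) / (1 - 2 * ρ * Real.cos θ + ρ ^ 2) : ℝ) : ℂ) := by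
    intro θ
    have a1 : ‖circleMap 0 1 θ - 0‖ = 1 := by simp
    have a2 : ‖(ρ:ℂ) - 0‖ = ρ := by simp [abs_of_nonneg h0]
    have a3 : ‖(circleMap 0 1 θ - 0) - ((ρ:ℂ) - 0)‖ ^ 2 = 1 - 2 * ρ * Real.cos θ + ρ ^ 2 := by
      rw [← Complex.normSq_eq_norm_sq, Complex.normSq_apply]
      simp [circleMap, Complex.exp_re, Complex.exp_im]
      nlinarith [Real.sin_sq_add_cos_sq θ]
    rw [a1, a2, a3, one_pow]
    simp
  simp only [e2] at h
  have e3 : ∫ θ in (0:ℝ)..(2 * Real.pi), (((1 - ρ ^ 2) / (1 - 2 * ρ * Real.cos θ + ρ ^ 2) : ℝ) : ℂ) =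
      ((∫ θ in (0:ℝ)..(2 * Real.pi), (1 - ρ ^ 2) / (1 - 2 * ρ * Real.cos θ + ρ ^ 2) : ℝ) : ℂ) :=
    intervalIntegral.integral_ofReal
  rw [e3] at h
  have e4 : ((2 * Real.pi)⁻¹ * ∫ θ in (0:ℝ)..(2 * Real.pi),
      (1 - ρ ^ 2) / (1 - 2 * ρ * Real.cos θ + ρ ^ 2) : ℝ) = 1 := by
    have : (((2 * Real.pi)⁻¹ * ∫ θ in (0:ℝ)..(2 * Real.pi),
      (1 - ρ ^ 2) / (1 - 2 * ρ * Real.cos θ + ρ ^ 2) : ℝ) : ℂ) = 1 := by
      rw [← h]
      simp
    exact_mod_cast this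
  rw [← e4, ← intervalIntegral.integral_const_mul]
  refine intervalIntegral.integral_congr fun t _ => ?_
  simp only [pk, one_div]

lemma pk_tail {ρ : ℝ} (h0 : 1 / 2 ≤ ρ) (h1 : ρ < 1) {δ : ℝ} (hδ : 0 < δ) (t : ℝ) (ht : δ ≤ |t|)
    (htp : |t| ≤ Real.pi) : pk ρ t ≤ Real.pi / (2 * δ ^ 2) * (1 - ρ) := by
  have hπ := Real.pi_pos
  have hc := Real.cos_le_one_sub_mul_cos_sq htp
  have hd : 2 * δ ^ 2 / Real.pi ^ 2 ≤ 1 - 2 * ρ * Real.cos t + ρ ^ 2 := by
    rw [pk_den]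
    have e1 : 2 / Real.pi ^ 2 * δ ^ 2 ≤ 2 / Real.pi ^ 2 * t ^ 2 := by
      refine mul_le_mul_of_nonneg_left ?_ (by positivity)
      rw [← sq_abs t]
      exact pow_le_pow_left₀ hδ.le ht 2
    have e2 : 0 ≤ 2 / Real.pi ^ 2 * δ ^ 2 := by positivity
    have e3 : 2 * δ ^ 2 / Real.pi ^ 2 = 2 / Real.pi ^ 2 * δ ^ 2 := by ring
    rw [e3]
    nlinarith [sq_nonneg (1 - ρ)]
  have hd0 : 0 < 2 * δ ^ 2 / Real.pi ^ 2 := by positivity
  unfold pk
  have e4 : (1 - ρ ^ 2) / (1 - 2 * ρ * Real.cos t + ρ ^ 2) ≤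
      (2 * (1 - ρ)) / (2 * δ ^ 2 / Real.pi ^ 2) := by
    apply div_le_div₀ (by linarith) (by nlinarith) hd0 hd
  calc 1 / (2 * Real.pi) * ((1 - ρ ^ 2) / (1 - 2 * ρ * Real.cos t + ρ ^ 2))
      ≤ 1 / (2 * Real.pi) * ((2 * (1 - ρ)) / (2 * δ ^ 2 / Real.pi ^ 2)) :=
        mul_le_mul_of_nonneg_left e4 (by positivity)
    _ = Real.pi / (2 * δ ^ 2) * (1 - ρ) := by
        field_simp

lemma pk_low {ρ : ℝ} (h0 : 0 ≤ ρ) (h1 : ρ < 1) {D : ℝ} (t : ℝ)
    (ht : |t| ≤ D * (1 - ρ)) : 1 / (2 * Real.pi * (1 + D ^ 2)) / (1 - ρ) ≤ pk ρ t := by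
  have hπ := Real.pi_pos
  have hr : 0 < 1 - ρ := by linarith
  have hden : 1 - 2 * ρ * Real.cos t + ρ ^ 2 ≤ (1 - ρ) ^ 2 * (1 + D ^ 2) := by
    rw [pk_den]
    have e1 := Real.one_sub_sq_div_two_le_cos (x := t)
    have e2 : t ^ 2 ≤ (D * (1 - ρ)) ^ 2 := by
      rw [← sq_abs t]
      exact pow_le_pow_left₀ (abs_nonneg _) ht 2
    have e3 : 2 * ρ * (1 - Real.cos t) ≤ t ^ 2 := by
      have : 0 ≤ 1 - Real.cos t := by linarith [Real.cos_le_one t]
      nlinarith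
    nlinarith
  have hpos := pk_den_pos h0 h1 t
  unfold pk
  have e4 : (1 - ρ) / ((1 - ρ) ^ 2 * (1 + D ^ 2)) ≤
      (1 - ρ ^ 2) / (1 - 2 * ρ * Real.cos t + ρ ^ 2) :=
    div_le_div₀ (by nlinarith) (by nlinarith) hpos hden
  calc 1 / (2 * Real.pi * (1 + D ^ 2)) / (1 - ρ)
      = 1 / (2 * Real.pi) * ((1 - ρ) / ((1 - ρ) ^ 2 * (1 + D ^ 2))) := by
        field_simp
    _ ≤ _ := mul_le_mul_of_nonneg_left e4 (by positivity)

lemma P_eq (ρ : ℝ) (f : ℝ → ℝ) (x : ℝ) : P ρ f x = ∫ t, f (x - t) * ext (pk ρ) t := by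
  rw [ext_integral (pk ρ) (fun t => f (x - t)), P, ← intervalIntegral.integral_const_mul]
  refine intervalIntegral.integral_congr fun t _ => ?_
  simp only [pk]; ring

lemma cont_P {f : ℝ → ℝ} (hf : AEStronglyMeasurable f volume) {M : ℝ} (hM : ∀ t, |f t| ≤ M)
    {α : ℝ} (hα : 0 < α) {C : ℝ}
    (hh : ∀ᶠ ρ : ℝ in 𝓝[<] 1, α / (1 - ρ) * hd α f (P ρ f) < C) : Continuous f := by
  set C' := max C 1 / α with hC'
  have hC'0 : 0 < C' := by positivity
  set s : ℕ → ℝ := fun n => 1 / ((n : ℝ) + 2) with hs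
  have hs' : ∀ n, 0 < s n := fun n => by rw [hs]; positivity
  have hs2 : ∀ n, s n ≤ 1 / 2 := fun n => by
    rw [hs]
    simp only
    apply div_le_div_of_nonneg_left (by norm_num) (by norm_num)
    have : (0:ℝ) ≤ n := Nat.cast_nonneg n
    linarith
  have htop : Tendsto (fun n : ℕ => (n : ℝ) + 2) atTop atTop :=
    tendsto_atTop_add_const_right _ _ tendsto_natCast_atTop_atTop
  have hs0 : Tendsto s atTop (𝓝 0) := by
    have := htop.inv_tendsto_atTop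
    refine this.congr fun n => ?_
    simp [hs]
  set k : ℕ → ℝ → ℝ := fun n => ext (pk (1 - s n)) with hk
  have hρ0 : ∀ n, (1:ℝ) / 2 ≤ 1 - s n := fun n => by linarith [hs2 n]
  have hρ1 : ∀ n, 1 - s n < 1 := fun n => by linarith [hs' n]
  refine core hf hM hα k s hs' hs0 ?_ ?_ ?_ ?_ ?_ hC'0 ?_
  · intro n t
    exact ext_nonneg (pk_nonneg (by linarith [hρ0 n]) (hρ1 n)) t
  · intro n
    exact ext_integrable (pk_cont (by linarith [hρ0 n]) (hρ1 n))
  · intro n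
    rw [hk]
    simp only
    rw [ext_integral']
    exact pk_mass (by linarith [hρ0 n]) (hρ1 n)
  · intro δ hδ
    have hub : ∀ n : ℕ, ∫ t in {t : ℝ | δ ≤ |t|}, k n t ≤
        2 * Real.pi * (Real.pi / (2 * δ ^ 2) * (1 - (1 - s n))) := by
      intro n
      refine ext_tail (pk_cont (by linarith [hρ0 n]) (hρ1 n)) hδ ?_ ?_
      · have := hs' n
        have := Real.pi_pos
        have : 0 < 1 - (1 - s n) := by linarith
        positivity
      · intro t ht1 ht2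
        exact pk_tail (hρ0 n) (hρ1 n) hδ t ht1 ht2
    refine squeeze_zero (fun n => ?_) hub ?_
    · refine integral_nonneg fun t => ?_
      exact ext_nonneg (pk_nonneg (by linarith [hρ0 n]) (hρ1 n)) t
    · have h := ((hs0.const_mul (Real.pi / (2 * δ ^ 2))).const_mul (2 * Real.pi))
      rw [mul_zero, mul_zero] at h
      refine h.congr fun n => ?_
      ring
  · intro D hD
    refine ⟨1 / (2 * Real.pi * (1 + D ^ 2)), by have := Real.pi_pos; positivity, ?_⟩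
    have hsm : ∀ᶠ n in atTop, D * s n < Real.pi := by
      have h := hs0.const_mul D
      rw [mul_zero] at h
      exact h.eventually (gt_mem_nhds Real.pi_pos)
    filter_upwards [hsm] with n hn t ht
    have hmem : t ∈ Ioc (-Real.pi) Real.pi := by
      have := abs_lt.mp (lt_of_le_of_lt ht hn)
      exact ⟨this.1, this.2.le⟩
    rw [hk]
    simp only [ext, indicator_of_mem hmem]
    have h1 : s n = 1 - (1 - s n) := by ring
    rw [h1] at ht ⊢
    have h2 := pk_low (ρ := 1 - s n) (by linarith [hρ0 n]) (hρ1 n) (D := D) t ht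
    convert h2 using 2 <;> ring
  · have h1 : Tendsto (fun n => 1 - s n) atTop (𝓝[<] 1) := by
      rw [tendsto_nhdsWithin_iff]
      refine ⟨?_, Eventually.of_forall fun n => hρ1 n⟩
      have := hs0.const_sub 1
      rwa [sub_zero] at this
    have h2 := h1.eventually hh
    filter_upwards [h2] with n hn
    have e : (fun x => ∫ t, f (x - t) * k n t) = P (1 - s n) f := by
      funext x
      rw [P_eq]
    rw [e, hC']
    have h3 : 1 - (1 - s n) = s n := by ring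
    rw [h3] at hn
    have h4 := hs' n
    rw [div_mul_eq_mul_div, div_lt_iff₀ h4] at hn
    rw [div_mul_eq_mul_div, lt_div_iff₀ hα]
    calc hd α f (P (1 - s n) f) * α = α * hd α f (P (1 - s n) f) := by ring
      _ < C * s n := hn
      _ ≤ _ := mul_le_mul_of_nonneg_right (le_max_left _ _) h4.le

end

end Pool.Agent.R256.Haus
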