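import Mathlib
import Pool.Agent.R256.Haus3

set_option autoImplicit false

open MeasureTheory Filter Topology Set

namespace Pool.Agent.R256.Haus

noncomputable section

/-- `a_n = 4^n (n!)²/(2n)!` -/
def aa (n : ℕ) : ℝ := 4 ^ n * (n.factorial : ℝ) ^ 2 / ((2 * n).factorial : ℝ)

lemma aa_pos (n : ℕ) : 0 < aa n := by
  unfold aa; positivity

lemma aa_zero : aa 0 = 1 := by simp [aa]

lemma aa_succ (n : ℕ) : aa (n + 1) = aa n * ((2 * n + 2) / (2 * n + 1)) := by
  unfold aa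
  have h1 : 2 * (n + 1) = (2 * n + 1) + 1 := by ring
  rw [h1, Nat.factorial_succ (2 * n + 1), Nat.factorial_succ (2 * n), Nat.factorial_succ n]
  have h2 : ((2 * n).factorial : ℝ) ≠ 0 := by positivity
  push_cast
  field_simp
  ring

lemma aa_sq (n : ℕ) : 2 * (n : ℝ) + 1 ≤ aa n ^ 2 := by
  induction n with
  | zero => simp [aa_zero]
  | succ n ih =>
    rw [aa_succ, mul_pow, div_pow, ← mul_div_assoc, le_div_iff₀ (by positivity)]
    push_cast
    have h : (0:ℝ) ≤ n := Nat.cast_nonneg n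
    have h2 := mul_le_mul_of_nonneg_right ih (sq_nonneg (2 * (n:ℝ) + 2))
    nlinarith

lemma aa_le (n : ℕ) : aa n ≤ n + 1 := by
  induction n with
  | zero => simp [aa_zero]
  | succ n ih =>
    rw [aa_succ]
    push_cast
    have h : (0:ℝ) ≤ n := Nat.cast_nonneg n
    rw [← mul_div_assoc, div_le_iff₀ (by positivity)]
    nlinarith [mul_le_mul_of_nonneg_right ih (by positivity : (0:ℝ) ≤ 2 * n + 2)]

lemma aa_prod (n : ℕ) : aa n * ∏ i ∈ Finset.range n, (2 * (i : ℝ) + 1) / (2 * i + 2) = 1 := by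
  induction n with
  | zero => simp [aa_zero]
  | succ n ih =>
    rw [Finset.prod_range_succ, aa_succ]
    have h : (0:ℝ) ≤ n := Nat.cast_nonneg n
    calc aa n * ((2 * n + 2) / (2 * n + 1)) * ((∏ i ∈ Finset.range n, (2 * (i : ℝ) + 1) / (2 * i + 2)) *
          ((2 * (n : ℝ) + 1) / (2 * n + 2)))
        = (aa n * ∏ i ∈ Finset.range n, (2 * (i : ℝ) + 1) / (2 * i + 2)) *
          (((2 * n + 2) / (2 * n + 1)) * ((2 * (n : ℝ) + 1) / (2 * n + 2))) := by ring
      _ = 1 := by rw [ih]; field_simp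

/-- the de la Vallée-Poussin kernel -/
def vk (n : ℕ) (t : ℝ) : ℝ := 1 / (2 * Real.pi) * (aa n * Real.cos (t / 2) ^ (2 * n))

lemma vk_nonneg (n : ℕ) (t : ℝ) : 0 ≤ vk n t := by
  unfold vk
  have := aa_pos n
  have := Real.pi_pos
  rw [pow_mul]
  positivity

lemma vk_cont (n : ℕ) : Continuous (vk n) := by
  unfold vk
  fun_prop

lemma vk_mass (n : ℕ) : ∫ t in (-Real.pi)..Real.pi, vk n t = 1 := by
  unfold vk
  rw [intervalIntegral.integral_const_mul, intervalIntegral.integral_const_mul]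
  have e1 : ∫ t in (-Real.pi)..Real.pi, Real.cos (t / 2) ^ (2 * n) =
      2 * ∫ u in (0:ℝ)..Real.pi, Real.sin u ^ (2 * n) := by
    have h := intervalIntegral.integral_comp_div_add
      (f := fun u => Real.sin u ^ (2 * n)) (a := -Real.pi) (b := Real.pi) (c := 2) two_ne_zero (Real.pi / 2)
    have h2 : -Real.pi / 2 + Real.pi / 2 = 0 := by ring
    have h3 : Real.pi / 2 + Real.pi / 2 = Real.pi := by ring
    rw [h2, h3, smul_eq_mul] at h
    rw [← h]
    refine intervalIntegral.integral_congr fun t _ => ?_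
    rw [Real.sin_add_pi_div_two]
  rw [e1, integral_sin_pow_even]
  have h := aa_prod n
  have hπ := Real.pi_pos
  calc 1 / (2 * Real.pi) * (aa n * (2 * (Real.pi * ∏ i ∈ Finset.range n, (2 * (i : ℝ) + 1) / (2 * i + 2))))
      = (1 / (2 * Real.pi) * (2 * Real.pi)) *
        (aa n * ∏ i ∈ Finset.range n, (2 * (i : ℝ) + 1) / (2 * i + 2)) := by ring
    _ = 1 := by rw [h]; field_simp

lemma vk_tail (n : ℕ) {δ : ℝ} (hδ : 0 < δ) (t : ℝ) (ht : δ ≤ |t|) (htp : |t| ≤ Real.pi) :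
    vk n t ≤ 1 / (2 * Real.pi) * ((n + 1) * |1 - δ ^ 2 / Real.pi ^ 2| ^ n) := by
  have hπ := Real.pi_pos
  unfold vk
  refine mul_le_mul_of_nonneg_left ?_ (by positivity)
  have hc := Real.cos_le_one_sub_mul_cos_sq htp
  have h1 : Real.cos (t / 2) ^ 2 = (1 + Real.cos t) / 2 := by
    have := Real.cos_sq (t / 2)
    rw [this]
    have : 2 * (t / 2) = t := by ring
    rw [this]; ring
  have h2 : Real.cos (t / 2) ^ 2 ≤ |1 - δ ^ 2 / Real.pi ^ 2| := by
    refine le_trans ?_ (le_abs_self _)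
    rw [h1]
    have e1 : 2 / Real.pi ^ 2 * δ ^ 2 ≤ 2 / Real.pi ^ 2 * t ^ 2 := by
      refine mul_le_mul_of_nonneg_left ?_ (by positivity)
      rw [← sq_abs t]
      exact pow_le_pow_left₀ hδ.le ht 2
    have e3 : δ ^ 2 / Real.pi ^ 2 = (2 / Real.pi ^ 2 * δ ^ 2) / 2 := by ring
    rw [e3]
    linarith
  rw [pow_mul]
  refine mul_le_mul (aa_le n) (pow_le_pow_left₀ (sq_nonneg _) h2 n) (by positivity) (by positivity)

lemma one_sub_ge_exp {y : ℝ} (h0 : 0 ≤ y) (h1 : y ≤ 1 / 2) : Real.exp (-(2 * y)) ≤ 1 - y := by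
  have h2 : 1 + 2 * y ≤ Real.exp (2 * y) := by linarith [Real.add_one_le_exp (2 * y)]
  rw [Real.exp_neg]
  have h3 : (Real.exp (2 * y))⁻¹ ≤ (1 + 2 * y)⁻¹ := inv_anti₀ (by linarith) h2
  refine h3.trans ?_
  rw [inv_le_iff_one_le_mul₀ (by linarith)]
  nlinarith

lemma vk_low (n : ℕ) {D : ℝ} (hD : 0 < D) (hn : D ^ 2 ≤ 4 * ((n + 1 : ℕ) : ℝ)) (t : ℝ)
    (ht : |t| ≤ D * (Real.sqrt ((n + 1 : ℕ) : ℝ))⁻¹) :
    Real.exp (-(D ^ 2 / 2)) / (2 * Real.pi) / (Real.sqrt ((n + 1 : ℕ) : ℝ))⁻¹ ≤ vk (n + 1) t := by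
  have hπ := Real.pi_pos
  have hp : (0:ℝ) < ((n + 1 : ℕ) : ℝ) := by positivity
  have hsq : Real.sqrt ((n + 1 : ℕ) : ℝ) ^ 2 = ((n + 1 : ℕ) : ℝ) := Real.sq_sqrt hp.le
  have h2 : t ^ 2 ≤ D ^ 2 / ((n + 1 : ℕ) : ℝ) := by
    have h2 : t ^ 2 ≤ (D * (Real.sqrt ((n + 1 : ℕ) : ℝ))⁻¹) ^ 2 := by
      rw [← sq_abs t]
      exact pow_le_pow_left₀ (abs_nonneg _) ht 2
    rwa [mul_pow, inv_pow, hsq] at h2
  set y := D ^ 2 / ((n + 1 : ℕ) : ℝ) / 8 with hy
  have hy0 : 0 ≤ y := by positivity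
  have hy1 : y ≤ 1 / 2 := by
    rw [hy, div_div, div_le_iff₀ (by positivity)]
    linarith
  have hcos : 1 - y ≤ Real.cos (t / 2) := by
    have e1 := Real.one_sub_sq_div_two_le_cos (x := t / 2)
    have e2 : (t / 2) ^ 2 / 2 = t ^ 2 / 8 := by ring
    rw [e2] at e1
    have : t ^ 2 / 8 ≤ y := by rw [hy]; linarith
    linarith
  have hexp := one_sub_ge_exp hy0 hy1
  have h3 : Real.exp (-(D ^ 2 / 2)) ≤ Real.cos (t / 2) ^ (2 * (n + 1)) := by
    have e1 : Real.exp (-(D ^ 2 / 2)) = Real.exp (-(2 * y)) ^ (2 * (n + 1)) := by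
      rw [← Real.exp_nat_mul]
      congr 1
      rw [hy]
      push_cast
      push_cast at hp
      field_simp
      ring
    rw [e1]
    exact pow_le_pow_left₀ (Real.exp_pos _).le (hexp.trans hcos) _
  have h4 : Real.sqrt ((n + 1 : ℕ) : ℝ) ≤ aa (n + 1) := by
    apply Real.sqrt_le_iff.mpr
    refine ⟨(aa_pos _).le, ?_⟩
    have := aa_sq (n + 1)
    linarith
  unfold vk
  rw [div_inv_eq_mul]
  calc Real.exp (-(D ^ 2 / 2)) / (2 * Real.pi) * Real.sqrt ((n + 1 : ℕ) : ℝ)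
      = 1 / (2 * Real.pi) * (Real.sqrt ((n + 1 : ℕ) : ℝ) * Real.exp (-(D ^ 2 / 2))) := by ring
    _ ≤ _ := by
      refine mul_le_mul_of_nonneg_left ?_ (by positivity)
      exact mul_le_mul h4 h3 (Real.exp_pos _).le (aa_pos _).le

lemma V_eq (n : ℕ) (f : ℝ → ℝ) (x : ℝ) : V n f x = ∫ t, f (x - t) * ext (vk n) t := by
  rw [ext_integral (vk n) (fun t => f (x - t)), V, ← intervalIntegral.integral_const_mul]
  refine intervalIntegral.integral_congr fun t _ => ?_
  simp only [vk, aa]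
  have h : (2 * Real.cos (t / 2)) ^ (2 * n) = 4 ^ n * Real.cos (t / 2) ^ (2 * n) := by
    rw [mul_pow, pow_mul]; norm_num
  rw [h]
  have hπ := Real.pi_pos
  field_simp

lemma cont_V {f : ℝ → ℝ} (hf : AEStronglyMeasurable f volume) {M : ℝ} (hM : ∀ t, |f t| ≤ M)
    {α : ℝ} (hα : 0 < α) {C : ℝ}
    (hh : ∀ᶠ n : ℕ in atTop, α * Real.sqrt n * hd α f (V n f) < C) : Continuous f := by
  have hπ := Real.pi_pos
  set C' := max C 1 / α with hC'
  have hC'0 : 0 < C' := by positivity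
  set k : ℕ → ℝ → ℝ := fun n => ext (vk (n + 1)) with hk
  set s : ℕ → ℝ := fun n => (Real.sqrt ((n + 1 : ℕ) : ℝ))⁻¹ with hs
  have hp : ∀ n : ℕ, (0:ℝ) < ((n + 1 : ℕ) : ℝ) := fun n => by positivity
  have hs' : ∀ n, 0 < s n := fun n => by
    have := hp n
    rw [hs]; positivity
  have htop : Tendsto (fun n : ℕ => ((n + 1 : ℕ) : ℝ)) atTop atTop :=
    tendsto_natCast_atTop_atTop.comp (tendsto_add_atTop_nat 1)
  have hs0 : Tendsto s atTop (𝓝 0) := (Real.tendsto_sqrt_atTop.comp htop).inv_tendsto_atTop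
  refine core hf hM hα k s hs' hs0 ?_ ?_ ?_ ?_ ?_ hC'0 ?_
  · intro n t
    exact ext_nonneg (vk_nonneg _) t
  · intro n
    exact ext_integrable (vk_cont _)
  · intro n
    rw [hk]
    simp only
    rw [ext_integral']
    exact vk_mass _
  · intro δ' hδ'
    -- reduce to `δ ≤ π`
    set δ := min δ' Real.pi with hδd
    have hδ : 0 < δ := lt_min hδ' hπ
    have hδπ : δ ≤ Real.pi := min_le_right _ _
    set q := |1 - δ ^ 2 / Real.pi ^ 2| with hq
    have hq0 : 0 ≤ q := abs_nonneg _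
    have hq1 : q < 1 := by
      have h1 : 0 < δ ^ 2 / Real.pi ^ 2 := by positivity
      have h2 : δ ^ 2 / Real.pi ^ 2 ≤ 1 := by
        rw [div_le_one (by positivity)]
        exact pow_le_pow_left₀ hδ.le hδπ 2
      rw [hq, abs_of_nonneg (by linarith)]
      linarith
    have hub : ∀ n : ℕ, ∫ t in {t : ℝ | δ' ≤ |t|}, k n t ≤
        2 * Real.pi * (1 / (2 * Real.pi) * (((n + 1 : ℕ) + 1) * q ^ (n + 1))) := by
      intro n
      refine ext_tail (vk_cont _) hδ' ?_ ?_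
      · positivity
      · intro t ht1 ht2
        exact vk_tail (n + 1) hδ t ((min_le_left _ _).trans ht1) ht2
    refine squeeze_zero (fun n => ?_) hub ?_
    · refine integral_nonneg fun t => ?_
      exact ext_nonneg (vk_nonneg _) t
    · have h1 : Tendsto (fun n : ℕ => (n : ℝ) * q ^ n) atTop (𝓝 0) :=
        tendsto_self_mul_const_pow_of_lt_one hq0 hq1
      have h2 : Tendsto (fun n : ℕ => q ^ n) atTop (𝓝 0) := tendsto_pow_atTop_nhds_zero_of_lt_one hq0 hq1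
      have h3 := (((h1.add h2).comp (tendsto_add_atTop_nat 1)).const_mul (1 / (2 * Real.pi))).const_mul
        (2 * Real.pi)
      simp only [add_zero, mul_zero] at h3
      refine h3.congr fun n => ?_
      simp only [Function.comp_apply]
      ring
  · intro D hD
    refine ⟨Real.exp (-(D ^ 2 / 2)) / (2 * Real.pi), by positivity, ?_⟩
    have hsm : ∀ᶠ n in atTop, D * s n < Real.pi := by
      have h := hs0.const_mul D
      rw [mul_zero] at h
      exact h.eventually (gt_mem_nhds hπ)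
    have hbig : ∀ᶠ n : ℕ in atTop, D ^ 2 ≤ 4 * ((n + 1 : ℕ) : ℝ) := by
      filter_upwards [htop.eventually_ge_atTop (D ^ 2 / 4)] with n hn
      linarith
    filter_upwards [hsm, hbig] with n hn hb t ht
    have hmem : t ∈ Ioc (-Real.pi) Real.pi := by
      have := abs_lt.mp (lt_of_le_of_lt ht hn)
      exact ⟨this.1, this.2.le⟩
    rw [hk]
    simp only [ext, indicator_of_mem hmem]
    exact vk_low n hD hb t ht
  · have h1 := (tendsto_add_atTop_nat 1).eventually hh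
    filter_upwards [h1] with n hn
    have e : (fun x => ∫ t, f (x - t) * k n t) = V (n + 1) f := by
      funext x
      rw [V_eq]
    rw [e, hC', hs]
    simp only
    have hq : 0 < Real.sqrt ((n + 1 : ℕ) : ℝ) := Real.sqrt_pos.mpr (hp n)
    rw [← div_eq_mul_inv, lt_div_iff₀ hq, lt_div_iff₀ hα]
    calc hd α f (V (n + 1) f) * √((n + 1 : ℕ) : ℝ) * α
        = α * √((n + 1 : ℕ) : ℝ) * hd α f (V (n + 1) f) := by ring
      _ < C := hn
      _ ≤ _ := le_max_left _ _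

end

end Pool.Agent.R256.Haus
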