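import Mathlib

set_option autoImplicit false

open Matrix ComplexConjugate Finset
open scoped ComplexOrder

namespace Pool.Agent.R256.Ker

noncomputable section

variable {X : Type}

/-- positive semidefinite functions (kernels) -/
def PSD (K : X → X → ℂ) : Prop :=
  ∀ (n : ℕ) (x : Fin n → X) (c : Fin n → ℂ), 0 ≤ ∑ i, ∑ j, c i * conj (c j) * K (x i) (x j)

lemma of_psd {M : Matrix X X ℂ} (hM : M.PosSemidef) : PSD (fun x y => M x y) := by
  intro n x c
  have h := (Matrix.posSemidef_iff_dotProduct_mulVec.mp (hM.submatrix x)).2 (fun i => conj (c i))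
  convert h using 1
  simp only [dotProduct, mulVec, Matrix.submatrix_apply, Pi.star_apply, Finset.mul_sum]
  refine Finset.sum_congr rfl fun i _ => Finset.sum_congr rfl fun j _ => ?_
  simp only [RCLike.star_def, Complex.conj_conj]
  ring

lemma PSD.diag {K : X → X → ℂ} (h : PSD K) (a : X) : 0 ≤ K a a := by
  have := h 1 (fun _ => a) (fun _ => 1)
  simpa using this

lemma PSD.herm {K : X → X → ℂ} (h : PSD K) (a b : X) : K b a = conj (K a b) := by
  have h1 := (Complex.le_def.mp (h.diag a)).2
  have h2 := (Complex.le_def.mp (h.diag b)).2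
  have h3 := (Complex.le_def.mp (h 2 ![a, b] ![1, 1])).2
  have h4 := (Complex.le_def.mp (h 2 ![a, b] ![1, Complex.I])).2
  simp only [Fin.sum_univ_two, Matrix.cons_val_zero, Matrix.cons_val_one, map_one, one_mul,
    mul_one, Complex.zero_im, Complex.add_im, Complex.conj_I, Complex.mul_im, Complex.neg_re,
    Complex.I_re, Complex.I_im, Complex.neg_im, Complex.mul_re] at h1 h2 h3 h4
  apply Complex.ext
  · rw [Complex.conj_re]; linarith
  · rw [Complex.conj_im]; linarith

lemma PSD.mat {K : X → X → ℂ} (h : PSD K) : (Matrix.of fun x y => K x y).PosSemidef := by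
  classical
  refine ⟨?_, fun v => ?_⟩
  · ext a b
    rw [Matrix.conjTranspose_apply, Matrix.of_apply, Matrix.of_apply, RCLike.star_def,
      ← h.herm b a]
  · have e := v.support.equivFin
    have := h v.support.card (fun i => (e.symm i : X)) (fun i => conj (v (e.symm i)))
    convert this using 1
    rw [Finsupp.sum]
    rw [← Finset.sum_coe_sort v.support]
    rw [← e.symm.sum_comp]
    refine Finset.sum_congr rfl fun i _ => ?_
    rw [Finsupp.sum, ← Finset.sum_coe_sort v.support, ← e.symm.sum_comp]
    refine Finset.sum_congr rfl fun j _ => ?_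
    simp only [RCLike.star_def, Complex.conj_conj, Matrix.of_apply]
    ring

lemma PSD.mul {K L : X → X → ℂ} (hK : PSD K) (hL : PSD L) : PSD (fun x y => K x y * L x y) := by
  have := of_psd (hK.mat.hadamard hL.mat)
  simpa [Matrix.hadamard_apply] using this

lemma PSD.add {K L : X → X → ℂ} (hK : PSD K) (hL : PSD L) : PSD (fun x y => K x y + L x y) := by
  intro n x c
  have := add_nonneg (hK n x c) (hL n x c)
  convert this using 1
  rw [← Finset.sum_add_distrib]
  refine Finset.sum_congr rfl fun i _ => ?_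
  rw [← Finset.sum_add_distrib]
  refine Finset.sum_congr rfl fun j _ => ?_
  ring

lemma PSD.smul {K : X → X → ℂ} (hK : PSD K) {a : ℝ} (ha : 0 ≤ a) :
    PSD (fun x y => (a : ℂ) * K x y) := by
  intro n x c
  have := mul_nonneg (Complex.zero_le_real.mpr ha) (hK n x c)
  convert this using 1
  rw [Finset.mul_sum]
  refine Finset.sum_congr rfl fun i _ => ?_
  rw [Finset.mul_sum]
  refine Finset.sum_congr rfl fun j _ => ?_
  ring

lemma psd_dyad (f : X → ℂ) : PSD (fun x y => f x * conj (f y)) := by
  intro n x c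
  have : ∑ i, ∑ j, c i * conj (c j) * (f (x i) * conj (f (x j))) =
      (∑ i, c i * f (x i)) * conj (∑ i, c i * f (x i)) := by
    rw [map_sum, Finset.sum_mul_sum]
    refine Finset.sum_congr rfl fun i _ => Finset.sum_congr rfl fun j _ => ?_
    rw [map_mul]; ring
  rw [this, Complex.mul_conj]
  exact Complex.zero_le_real.mpr (Complex.normSq_nonneg _)

lemma psd_one : PSD (fun _ _ : X => (1 : ℂ)) := by
  simpa using psd_dyad (fun _ : X => (1 : ℂ))

lemma PSD.congr {K L : X → X → ℂ} (hK : PSD K) (h : ∀ x y, L x y = K x y) : PSD L := by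
  intro n x c
  simp only [h]
  exact hK n x c

lemma PSD.pow {K : X → X → ℂ} (hK : PSD K) (m : ℕ) : PSD (fun x y => K x y ^ m) := by
  induction m with
  | zero => simpa using psd_one
  | succ m ih => exact (ih.mul hK).congr fun x y => by rw [pow_succ]

lemma PSD.hasSum {K : ℕ → X → X → ℂ} {L : X → X → ℂ} (hK : ∀ m, PSD (K m))
    (hs : ∀ x y, HasSum (fun m => K m x y) (L x y)) : PSD L := by
  intro n x c
  have h : HasSum (fun m => ∑ i, ∑ j, c i * conj (c j) * K m (x i) (x j))
      (∑ i, ∑ j, c i * conj (c j) * L (x i) (x j)) :=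
    hasSum_sum fun i _ => hasSum_sum fun j _ => (hs (x i) (x j)).mul_left _
  exact h.nonneg fun m => hK m n x c

lemma PSD.cs {K : X → X → ℂ} (hK : PSD K) (a b : X) :
    ‖K a b‖ ^ 2 ≤ (K a a).re * (K b b).re := by
  have hd := (hK.mat.submatrix ![a, b]).det_nonneg
  rw [Matrix.det_fin_two] at hd
  simp only [Matrix.submatrix_apply, Matrix.cons_val_zero, Matrix.cons_val_one, Matrix.of_apply] at hd
  rw [hK.herm a b, Complex.mul_conj] at hd
  have h1 := (Complex.le_def.mp (hK.diag a)).2
  have h2 := (Complex.le_def.mp (hK.diag b)).2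
  have h3 := (Complex.le_def.mp hd).1
  simp only [Complex.zero_im, Complex.zero_re, Complex.sub_re, Complex.mul_re, Complex.ofReal_re] at h1 h2 h3
  rw [← h1, ← h2] at h3
  rw [← Complex.normSq_eq_norm_sq]
  linarith

/-- the geometric series of a kernel -/
lemma PSD.geom {K : X → X → ℂ} (hK : PSD K) (h1 : ∀ x, (K x x).re < 1) :
    PSD (fun x y => (1 - K x y)⁻¹) := by
  refine PSD.hasSum (K := fun m x y => K x y ^ m) (fun m => hK.pow m) fun x y => ?_
  apply hasSum_geometric_of_norm_lt_one
  have h := hK.cs x y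
  have hx := (Complex.le_def.mp (hK.diag x)).1
  have hy := (Complex.le_def.mp (hK.diag y)).1
  simp only [Complex.zero_re] at hx hy
  have h2 : (K x x).re * (K y y).re < 1 := by
    nlinarith [h1 x, h1 y]
  by_contra hc
  push Not at hc
  nlinarith

lemma PSD.transpose {K : X → X → ℂ} (hK : PSD K) : PSD (fun x y => K y x) := by
  intro n x c
  have := hK n x (fun i => conj (c i))
  convert this using 1
  rw [Finset.sum_comm]
  refine Finset.sum_congr rfl fun i _ => Finset.sum_congr rfl fun j _ => ?_
  rw [Complex.conj_conj]; ring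

/-- feature maps -/
lemma PSD.feature {K : X → X → ℂ} (hK : PSD K) :
    ∃ (H : Type) (_ : NormedAddCommGroup H) (_ : InnerProductSpace ℂ H) (_ : CompleteSpace H)
      (Φ : X → H), ∀ x y, K x y = inner ℂ (Φ y) (Φ x) := by
  classical
  let L : Matrix X X (ℂ →L[ℂ] ℂ) := Matrix.of fun x y => K y x • (1 : ℂ →L[ℂ] ℂ)
  have hL : L.PosSemidef := by
    have := (RKHS.posSemidef_tfae (K := L)).out 0 2
    rw [this]
    refine ⟨?_, ?_⟩
    · ext a b
      simp only [L, Matrix.conjTranspose_apply, Matrix.of_apply]
      rw [star_smul, star_one, hK.herm b a]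
      simp
    · intro v
      have h2 := (Complex.le_def.mp (hK.transpose.mat.2 v)).1
      rw [Complex.zero_re] at h2
      refine h2.trans (le_of_eq ?_)
      simp only [RCLike.re_to_complex]
      congr 1
      refine Finset.sum_congr rfl fun i _ => Finset.sum_congr rfl fun j _ => ?_
      simp only [L, Matrix.of_apply, RCLike.star_def]
      simp [hK.herm i j]
      ring
  have : Fact L.PosSemidef := ⟨hL⟩
  refine ⟨RKHS.OfKernel L, inferInstance, inferInstance, inferInstance,
    fun x => RKHS.kerFun (RKHS.OfKernel L) x (1 : ℂ), fun x y => ?_⟩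
  rw [← RKHS.kernel_inner, RKHS.OfKernel.kernel_ofKernel]
  simp [L, hK.herm x y]

end

end Pool.Agent.R256.Ker
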