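import Mathlib
import Pool.Agent.R256.Ker1

set_option autoImplicit false

open ComplexConjugate Finset Filter Topology
open scoped ComplexOrder InnerProductSpace

namespace Pool.Agent.R256.Ker

noncomputable section

lemma riesz {E : Type} [NormedAddCommGroup E] [InnerProductSpace ℂ E] [CompleteSpace E] {X : Type}
    (Ψ : X → E) (a : X → ℂ)
    (h : ∀ (n : ℕ) (x : Fin n → X) (c : Fin n → ℂ), ‖∑ i, c i * a (x i)‖ ≤ ‖∑ i, c i • Ψ (x i)‖) :
    ∃ ψ : E, ‖ψ‖ ≤ 1 ∧ ∀ x, ⟪ψ, Ψ x⟫_ℂ = a x := by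
  classical
  let L : (X →₀ ℂ) →ₗ[ℂ] E := Finsupp.linearCombination ℂ Ψ
  let A : (X →₀ ℂ) →ₗ[ℂ] ℂ := Finsupp.linearCombination ℂ a
  have h' : ∀ v, ‖A v‖ ≤ ‖L v‖ := by
    intro v
    have e := v.support.equivFin
    have := h v.support.card (fun i => (e.symm i : X)) (fun i => v (e.symm i))
    convert this using 2
    · simp only [A, Finsupp.linearCombination_apply, Finsupp.sum]
      rw [← Finset.sum_coe_sort v.support, ← e.symm.sum_comp]
      simp
    · simp only [L, Finsupp.linearCombination_apply, Finsupp.sum]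
      rw [← Finset.sum_coe_sort v.support, ← e.symm.sum_comp]
  have hker : LinearMap.ker L ≤ LinearMap.ker A := by
    intro v hv
    rw [LinearMap.mem_ker] at hv ⊢
    have := h' v
    rw [hv, norm_zero] at this
    exact norm_le_zero_iff.mp this
  let f : LinearMap.range L →ₗ[ℂ] ℂ :=
    ((LinearMap.ker L).liftQ A hker) ∘ₗ L.quotKerEquivRange.symm.toLinearMap
  have hf : ∀ v, f ⟨L v, LinearMap.mem_range_self L v⟩ = A v := by
    intro v
    simp only [f, LinearMap.comp_apply]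
    have : L.quotKerEquivRange.symm.toLinearMap ⟨L v, LinearMap.mem_range_self L v⟩ =
        Submodule.Quotient.mk v := by
      rw [LinearEquiv.coe_toLinearMap, LinearEquiv.symm_apply_eq]
      rfl
    rw [this]
    rfl
  have hb : ∀ y, ‖f y‖ ≤ 1 * ‖y‖ := by
    rintro ⟨_, v, rfl⟩
    rw [hf v, one_mul]
    exact h' v
  obtain ⟨g, hg1, hg2⟩ := exists_extension_norm_eq (LinearMap.range L) (f.mkContinuous 1 hb)
  refine ⟨(InnerProductSpace.toDual ℂ E).symm g, ?_, fun x => ?_⟩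
  · rw [LinearIsometryEquiv.norm_map, hg2]
    exact LinearMap.mkContinuous_norm_le _ zero_le_one _
  · rw [InnerProductSpace.toDual_symm_apply]
    have h1 : L (Finsupp.single x 1) = Ψ x := by simp [L]
    have h2 := hg1 ⟨L (Finsupp.single x 1), LinearMap.mem_range_self L _⟩
    simp only [LinearMap.mkContinuous_apply] at h2
    rw [hf] at h2
    rw [h1] at h2
    rw [h2]
    simp [A]

lemma dft {H : Type} [NormedAddCommGroup H] [InnerProductSpace ℂ H] {M : ℕ} (hM : 0 < M)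
    (ζ : ℂ) (hζ : IsPrimitiveRoot ζ M) (u : ℕ → H) :
    ∑ j ∈ range M, ‖∑ n ∈ range M, (ζ ^ j) ^ n • u n‖ ^ 2 = M * ∑ n ∈ range M, ‖u n‖ ^ 2 := by
  have hn : ‖ζ‖ = 1 := hζ.norm'_eq_one hM.ne'
  have key : ∀ n ∈ range M, ∀ m ∈ range M,
      ∑ j ∈ range M, conj ((ζ ^ j) ^ n) * (ζ ^ j) ^ m = if n = m then (M : ℂ) else 0 := by
    intro n hn' m hm'
    rw [mem_range] at hn' hm'
    have hz0 : ζ ≠ 0 := hζ.ne_zero hM.ne'
    have hconj : conj ζ = ζ⁻¹ := by
      rw [Complex.inv_def, Complex.normSq_eq_norm_sq, hn]; simp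
    have e : ∀ j ∈ range M, conj ((ζ ^ j) ^ n) * (ζ ^ j) ^ m = (ζ⁻¹ ^ n * ζ ^ m) ^ j := by
      intro j _
      rw [map_pow, map_pow, hconj]
      ring
    rw [Finset.sum_congr rfl e]
    split_ifs with h
    · subst h
      rw [← mul_pow, inv_mul_cancel₀ hz0]
      simp
    · have hne : ζ⁻¹ ^ n * ζ ^ m ≠ 1 := by
        intro hc
        apply h
        have : ζ ^ m = ζ ^ n := by
          have h1 : ζ ^ n * (ζ⁻¹ ^ n * ζ ^ m) = ζ ^ n := by rw [hc, mul_one]
          rwa [← mul_assoc, ← mul_pow, mul_inv_cancel₀ hz0, one_pow, one_mul] at h1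
        exact (hζ.pow_inj hm' hn' this).symm
      rw [geom_sum_eq hne]
      have : (ζ⁻¹ ^ n * ζ ^ m) ^ M = 1 := by
        rw [mul_pow, ← pow_mul, ← pow_mul, mul_comm n M, mul_comm m M, pow_mul, pow_mul, inv_pow,
          hζ.pow_eq_one]
        simp
      rw [this]; simp
  have h2 : ((∑ j ∈ range M, ‖∑ n ∈ range M, (ζ ^ j) ^ n • u n‖ ^ 2 : ℝ) : ℂ) =
      ((M * ∑ n ∈ range M, ‖u n‖ ^ 2 : ℝ) : ℂ) := by
    push_cast
    calc ∑ j ∈ range M, (‖∑ n ∈ range M, (ζ ^ j) ^ n • u n‖ : ℂ) ^ 2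
        = ∑ j ∈ range M, ∑ n ∈ range M, ∑ m ∈ range M,
          (conj ((ζ ^ j) ^ n) * (ζ ^ j) ^ m) * ⟪u n, u m⟫_ℂ := by
          refine Finset.sum_congr rfl fun j _ => ?_
          have := inner_self_eq_norm_sq_to_K (𝕜 := ℂ) (∑ n ∈ range M, (ζ ^ j) ^ n • u n)
          simp only [Complex.coe_algebraMap] at this
          rw [← this, sum_inner]
          refine Finset.sum_congr rfl fun n _ => ?_
          rw [inner_sum]
          refine Finset.sum_congr rfl fun m _ => ?_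
          rw [inner_smul_left, inner_smul_right]
          ring
      _ = ∑ n ∈ range M, ∑ m ∈ range M, (∑ j ∈ range M, conj ((ζ ^ j) ^ n) * (ζ ^ j) ^ m) * ⟪u n, u m⟫_ℂ := by
          rw [Finset.sum_comm]
          refine Finset.sum_congr rfl fun n _ => ?_
          rw [Finset.sum_comm]
          refine Finset.sum_congr rfl fun m _ => ?_
          rw [Finset.sum_mul]
      _ = ∑ n ∈ range M, (M : ℂ) * ⟪u n, u n⟫_ℂ := by
          refine Finset.sum_congr rfl fun n hn' => ?_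
          rw [Finset.sum_congr rfl fun m hm' => by rw [key n hn' m hm']]
          simp only [ite_mul, zero_mul]
          rw [Finset.sum_ite_eq]
          simp [hn']
      _ = _ := by
          rw [Finset.mul_sum]
          refine Finset.sum_congr rfl fun n _ => ?_
          have := inner_self_eq_norm_sq_to_K (𝕜 := ℂ) (u n)
          simp only [Complex.coe_algebraMap] at this
          rw [this]
  exact_mod_cast h2

/-- structure lemma: extremality of the first two coefficients -/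
lemma extremal {H : Type} [NormedAddCommGroup H] [InnerProductSpace ℂ H] [CompleteSpace H]
    (ψ : ℕ → H) (hs : Summable fun n => ‖ψ n‖ ^ 2) (h1 : ∑' n, ‖ψ n‖ ^ 2 ≤ 1)
    (hv : ∀ z : ℂ, ‖z‖ ^ 2 < 1 / 2 →
      Real.sqrt 2 * ‖z‖ ≤ ‖∑' n : ℕ, (z ^ n * (Real.sqrt (n + 1) : ℂ)) • ψ n‖) :
    (∀ n, 2 ≤ n → ψ n = 0) ∧ ‖ψ 0‖ ^ 2 + ‖ψ 1‖ ^ 2 = 1 := by
  have hψ1 : ∀ n, ‖ψ n‖ ≤ 1 := by
    intro n
    have : ‖ψ n‖ ^ 2 ≤ 1 := (hs.le_tsum n fun j _ => sq_nonneg _).trans h1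
    nlinarith [norm_nonneg (ψ n)]
  have hcoef : ∀ n : ℕ, ((n : ℝ) + 1) / 2 ^ n ≤ 1 := by
    intro n
    rw [div_le_one (by positivity)]
    have := one_add_mul_le_pow (a := (1:ℝ)) (by norm_num) n
    have e : (1:ℝ) + 1 = 2 := by norm_num
    rw [e] at this
    linarith
  have hs2 : Summable fun n : ℕ => ((n : ℝ) + 1) / 2 ^ n * ‖ψ n‖ ^ 2 := by
    refine Summable.of_nonneg_of_le (fun n => by positivity) (fun n => ?_) hs
    exact mul_le_of_le_one_left (sq_nonneg _) (hcoef n)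
  set S := ∑' n : ℕ, ((n : ℝ) + 1) / 2 ^ n * ‖ψ n‖ ^ 2 with hS
  have hmain : ∀ ρ : ℝ, 0 < ρ → ρ ^ 2 < 1 / 2 → 2 * ρ ^ 2 ≤ S := by
    intro ρ hρ hρ2
    have hρ1 : ρ < 1 := by nlinarith
    have hgs : Summable fun n : ℕ => ((n : ℝ) + 1) * ρ ^ n := by
      have h1 := summable_pow_mul_geometric_of_norm_lt_one 1 (r := ρ)
        (by rw [Real.norm_eq_abs, abs_of_pos hρ]; exact hρ1)
      have h2 := summable_geometric_of_lt_one hρ.le hρ1
      refine (h1.add h2).congr fun n => ?_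
      ring
    have hsq1 : ∀ n : ℕ, Real.sqrt (n + 1) ≤ (n : ℝ) + 1 := by
      intro n
      rw [Real.sqrt_le_left (by positivity)]
      have : (0:ℝ) ≤ n := Nat.cast_nonneg n
      nlinarith
    have hbd : ∀ z : ℂ, ‖z‖ = ρ → ∀ n : ℕ, ‖(z ^ n * (Real.sqrt (n + 1) : ℂ)) • ψ n‖ ≤ ((n : ℝ) + 1) * ρ ^ n := by
      intro z hz n
      rw [norm_smul, norm_mul, norm_pow, hz, Complex.norm_real, Real.norm_eq_abs,
        abs_of_nonneg (Real.sqrt_nonneg _)]
      have := hsq1 n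
      have h3 := hψ1 n
      have h4 : 0 ≤ ρ ^ n := by positivity
      calc ρ ^ n * Real.sqrt (n + 1) * ‖ψ n‖ ≤ ρ ^ n * ((n : ℝ) + 1) * 1 := by gcongr
        _ = _ := by ring
    have hsum : ∀ z : ℂ, ‖z‖ = ρ → Summable fun n : ℕ => (z ^ n * (Real.sqrt (n + 1) : ℂ)) • ψ n :=
      fun z hz => Summable.of_norm_bounded hgs (hbd z hz)
    set T : ℕ → ℝ := fun M => ∑' n : ℕ, (((n + M : ℕ) : ℝ) + 1) * ρ ^ (n + M) with hT
    have hT0 : Tendsto T atTop (𝓝 0) := tendsto_sum_nat_add (fun n : ℕ => ((n : ℝ) + 1) * ρ ^ n)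
    have hpart : ∀ M : ℕ, ∀ z : ℂ, ‖z‖ = ρ →
        Real.sqrt 2 * ρ - T M ≤ ‖∑ n ∈ range M, (z ^ n * (Real.sqrt (n + 1) : ℂ)) • ψ n‖ := by
      intro M z hz
      have h3 := hv z (by rw [hz]; exact hρ2)
      rw [hz] at h3
      have h4 := (hsum z hz).sum_add_tsum_nat_add M
      have h5 : ‖∑' n : ℕ, (z ^ (n + M) * (Real.sqrt ((n + M : ℕ) + 1) : ℂ)) • ψ (n + M)‖ ≤ T M := by
        refine tsum_of_norm_bounded (g := fun n : ℕ => (((n + M : ℕ) : ℝ) + 1) * ρ ^ (n + M)) ?_ ?_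
        · exact ((summable_nat_add_iff M).mpr hgs).hasSum
        · intro n
          exact hbd z hz (n + M)
      rw [← h4] at h3
      have h6 := norm_add_le (∑ n ∈ range M, (z ^ n * (Real.sqrt (n + 1) : ℂ)) • ψ n)
        (∑' n : ℕ, (z ^ (n + M) * (Real.sqrt ((n + M : ℕ) + 1) : ℂ)) • ψ (n + M))
      linarith
    have hev : ∀ᶠ M in atTop, (Real.sqrt 2 * ρ - T M) ^ 2 ≤ S := by
      have hpos : ∀ᶠ M in atTop, T M < Real.sqrt 2 * ρ := by
        apply hT0.eventually (gt_mem_nhds _)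
        positivity
      filter_upwards [hpos, eventually_gt_atTop 0] with M hM1 hM0
      set ζ := Complex.exp (2 * Real.pi * Complex.I / M) with hζ
      have hprim : IsPrimitiveRoot ζ M := Complex.isPrimitiveRoot_exp M hM0.ne'
      have hn : ‖ζ‖ = 1 := hprim.norm'_eq_one hM0.ne'
      have h7 := dft hM0 ζ hprim (fun n => ((ρ : ℂ) ^ n * (Real.sqrt (n + 1) : ℂ)) • ψ n)
      have h8 : ∀ j ∈ range M, (Real.sqrt 2 * ρ - T M) ^ 2 ≤
          ‖∑ n ∈ range M, (ζ ^ j) ^ n • ((ρ : ℂ) ^ n * (Real.sqrt (n + 1) : ℂ)) • ψ n‖ ^ 2 := by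
        intro j _
        have h9 := hpart M (ζ ^ j * ρ) (by
          rw [norm_mul, norm_pow, hn, one_pow, one_mul, Complex.norm_real, Real.norm_eq_abs,
            abs_of_pos hρ])
        have e : ∑ n ∈ range M, (ζ ^ j) ^ n • ((ρ : ℂ) ^ n * (Real.sqrt (n + 1) : ℂ)) • ψ n =
            ∑ n ∈ range M, ((ζ ^ j * ρ) ^ n * (Real.sqrt (n + 1) : ℂ)) • ψ n := by
          refine Finset.sum_congr rfl fun n _ => ?_
          rw [smul_smul]
          congr 1
          ring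
        rw [e]
        exact pow_le_pow_left₀ (by linarith) h9 2
      have h10 := Finset.sum_le_sum h8
      rw [h7, Finset.sum_const, card_range, nsmul_eq_mul] at h10
      have hMp : (0:ℝ) < M := by exact_mod_cast hM0
      have h11 := le_of_mul_le_mul_left h10 hMp
      refine h11.trans ?_
      have h12 : ∀ n ∈ range M, ‖((ρ : ℂ) ^ n * (Real.sqrt (n + 1) : ℂ)) • ψ n‖ ^ 2 ≤
          ((n : ℝ) + 1) / 2 ^ n * ‖ψ n‖ ^ 2 := by
        intro n _
        rw [norm_smul, norm_mul, norm_pow, Complex.norm_real, Complex.norm_real, Real.norm_eq_abs,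
          abs_of_pos hρ, Real.norm_eq_abs, abs_of_nonneg (Real.sqrt_nonneg _), mul_pow, mul_pow,
          Real.sq_sqrt (by positivity)]
        have : (ρ ^ n) ^ 2 ≤ 1 / 2 ^ n := by
          rw [← pow_mul, mul_comm n 2, pow_mul, one_div, ← inv_pow]
          apply pow_le_pow_left₀ (by positivity)
          linarith
        calc (ρ ^ n) ^ 2 * ((n : ℝ) + 1) * ‖ψ n‖ ^ 2 ≤ 1 / 2 ^ n * ((n : ℝ) + 1) * ‖ψ n‖ ^ 2 := by
              gcongr
          _ = _ := by ring
      refine (Finset.sum_le_sum h12).trans ?_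
      exact hs2.sum_le_tsum _ fun n _ => by positivity
    have hlim : Tendsto (fun M => (Real.sqrt 2 * ρ - T M) ^ 2) atTop (𝓝 ((Real.sqrt 2 * ρ - 0) ^ 2)) :=
      (tendsto_const_nhds.sub hT0).pow 2
    have h13 := le_of_tendsto hlim hev
    rw [sub_zero, mul_pow, Real.sq_sqrt (by norm_num)] at h13
    exact h13
  have hS1 : 1 ≤ S := by
    by_contra hc
    push Not at hc
    have hS0 : 0 ≤ S := tsum_nonneg fun n => by positivity
    set ρ := Real.sqrt ((1 + S) / 4) with hρ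
    have hρsq : ρ ^ 2 = (1 + S) / 4 := Real.sq_sqrt (by linarith)
    have hρ0 : 0 < ρ := Real.sqrt_pos.mpr (by linarith)
    have := hmain ρ hρ0 (by rw [hρsq]; linarith)
    rw [hρsq] at this
    linarith
  have hzero : ∀ n : ℕ, (1 - ((n : ℝ) + 1) / 2 ^ n) * ‖ψ n‖ ^ 2 = 0 := by
    have hs3 : Summable fun n : ℕ => (1 - ((n : ℝ) + 1) / 2 ^ n) * ‖ψ n‖ ^ 2 := by
      refine (hs.sub hs2).congr fun n => ?_
      ring
    have hnn : ∀ n : ℕ, 0 ≤ (1 - ((n : ℝ) + 1) / 2 ^ n) * ‖ψ n‖ ^ 2 := fun n =>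
      mul_nonneg (by linarith [hcoef n]) (sq_nonneg _)
    have ht : ∑' n : ℕ, (1 - ((n : ℝ) + 1) / 2 ^ n) * ‖ψ n‖ ^ 2 ≤ 0 := by
      have : ∑' n : ℕ, (1 - ((n : ℝ) + 1) / 2 ^ n) * ‖ψ n‖ ^ 2 = (∑' n, ‖ψ n‖ ^ 2) - S := by
        rw [hS, ← hs.tsum_sub hs2]
        refine tsum_congr fun n => ?_
        ring
      rw [this]; linarith
    intro n
    have h14 := hs3.le_tsum n fun j _ => hnn j
    exact le_antisymm (h14.trans ht) (hnn n)
  have hz2 : ∀ n, 2 ≤ n → ψ n = 0 := by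
    intro n hn
    have h15 := hzero n
    have h16 : ((n : ℝ) + 1) / 2 ^ n < 1 := by
      rw [div_lt_one (by positivity)]
      have : n + 1 < 2 ^ n := by
        induction n, hn using Nat.le_induction with
        | base => norm_num
        | succ k hk ih =>
          rw [pow_succ]
          have := ih (hzero k)
          omega
      exact_mod_cast this
    rcases mul_eq_zero.mp h15 with h | h
    · linarith
    · exact norm_eq_zero.mp (pow_eq_zero_iff (two_ne_zero) |>.mp h)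
  refine ⟨hz2, ?_⟩
  have e1 : ∑' n, ‖ψ n‖ ^ 2 = ‖ψ 0‖ ^ 2 + ‖ψ 1‖ ^ 2 := by
    rw [tsum_eq_sum (s := range 2)]
    · rw [Finset.sum_range_succ, Finset.sum_range_succ, Finset.sum_range_zero, zero_add]
    · intro n hn
      rw [hz2 n (by rw [Finset.mem_range, not_lt] at hn; exact hn)]
      simp
  have e2 : S = ‖ψ 0‖ ^ 2 + ‖ψ 1‖ ^ 2 := by
    rw [hS, tsum_eq_sum (s := range 2)]
    · rw [Finset.sum_range_succ, Finset.sum_range_succ, Finset.sum_range_zero, zero_add]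
      norm_num
    · intro n hn
      rw [hz2 n (by rw [Finset.mem_range, not_lt] at hn; exact hn)]
      simp
  linarith

end

end Pool.Agent.R256.Ker
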