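import Mathlib
import Pool.Agent.R256.Ker2

set_option autoImplicit false

open ComplexConjugate Finset Filter Topology
open scoped ComplexOrder InnerProductSpace

namespace Pool.Agent.R256.Ker

noncomputable section

variable {X : Type}

lemma hs_congr {M : Type} [AddCommMonoid M] [TopologicalSpace M] {f g : ℕ → M} {a : M}
    (h : ∀ n, f n = g n) : HasSum f a ↔ HasSum g a := by rw [funext h]

lemma psd_gram {H : Type} [NormedAddCommGroup H] [InnerProductSpace ℂ H] (Φ : X → H) :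
    PSD (fun z w => ⟪Φ w, Φ z⟫_ℂ) := by
  intro n x c
  have e : ∑ i, ∑ j, c i * conj (c j) * ⟪Φ (x j), Φ (x i)⟫_ℂ =
      ((‖∑ i, c i • Φ (x i)‖ ^ 2 : ℝ) : ℂ) := by
    have := inner_self_eq_norm_sq_to_K (𝕜 := ℂ) (∑ i, c i • Φ (x i))
    simp only [Complex.coe_algebraMap] at this
    push_cast
    rw [← this, sum_inner, Finset.sum_comm]
    refine Finset.sum_congr rfl fun j _ => ?_
    rw [inner_sum]
    refine Finset.sum_congr rfl fun i _ => ?_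
    rw [inner_smul_left, inner_smul_right]
    ring
  rw [e]
  exact Complex.zero_le_real.mpr (sq_nonneg _)

lemma psd_schur {H : Type} [NormedAddCommGroup H] [InnerProductSpace ℂ H] (Φ : X → H) (p : H) :
    PSD (fun z w => ((‖p‖ ^ 2 : ℝ) : ℂ) * ⟪Φ w, Φ z⟫_ℂ - ⟪p, Φ z⟫_ℂ * conj ⟪p, Φ w⟫_ℂ) := by
  intro n x c
  set y := ∑ i, c i • Φ (x i) with hy
  have e : ∑ i, ∑ j, c i * conj (c j) * (((‖p‖ ^ 2 : ℝ) : ℂ) * ⟪Φ (x j), Φ (x i)⟫_ℂ -
      ⟪p, Φ (x i)⟫_ℂ * conj ⟪p, Φ (x j)⟫_ℂ) =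
      ((‖p‖ ^ 2 * ‖y‖ ^ 2 - ‖⟪p, y⟫_ℂ‖ ^ 2 : ℝ) : ℂ) := by
    have h1 : ∑ i, ∑ j, c i * conj (c j) * ⟪Φ (x j), Φ (x i)⟫_ℂ = ((‖y‖ ^ 2 : ℝ) : ℂ) := by
      have := inner_self_eq_norm_sq_to_K (𝕜 := ℂ) y
      simp only [Complex.coe_algebraMap] at this
      push_cast
      rw [← this, hy, sum_inner, Finset.sum_comm]
      refine Finset.sum_congr rfl fun j _ => ?_
      rw [inner_sum]
      refine Finset.sum_congr rfl fun i _ => ?_
      rw [inner_smul_left, inner_smul_right]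
      ring
    have h2 : ∑ i, ∑ j, c i * conj (c j) * (⟪p, Φ (x i)⟫_ℂ * conj ⟪p, Φ (x j)⟫_ℂ) =
        ((‖⟪p, y⟫_ℂ‖ ^ 2 : ℝ) : ℂ) := by
      have h3 : ⟪p, y⟫_ℂ = ∑ i, c i * ⟪p, Φ (x i)⟫_ℂ := by
        rw [hy, inner_sum]
        refine Finset.sum_congr rfl fun i _ => ?_
        rw [inner_smul_right]
      rw [← Complex.normSq_eq_norm_sq, ← Complex.mul_conj, h3, map_sum, Finset.sum_mul_sum]
      refine Finset.sum_congr rfl fun i _ => Finset.sum_congr rfl fun j _ => ?_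
      rw [map_mul]; ring
    push_cast
    push_cast at h1 h2
    rw [← h1, ← h2, Finset.mul_sum, ← Finset.sum_sub_distrib]
    refine Finset.sum_congr rfl fun i _ => ?_
    rw [Finset.mul_sum, ← Finset.sum_sub_distrib]
    refine Finset.sum_congr rfl fun j _ => ?_
    ring
  rw [e]
  apply Complex.zero_le_real.mpr
  have h := norm_inner_le_norm (𝕜 := ℂ) p y
  have h2 : ‖⟪p, y⟫_ℂ‖ ^ 2 ≤ (‖p‖ * ‖y‖) ^ 2 := pow_le_pow_left₀ (norm_nonneg _) h 2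
  rw [mul_pow] at h2
  linarith

/-- normalisation at a point -/
lemma PSD.normalise {K : X → X → ℂ} (hK : PSD K) (o : X) (h1 : (K o o).re < 1)
    (h2 : ∀ z, 1 - K z o ≠ 0) :
    PSD (fun z w => 1 - (1 - K z w) * (1 - K o o) / ((1 - K z o) * (1 - K o w))) := by
  obtain ⟨H, _, _, _, Φ, hΦ⟩ := hK.feature
  set ρ : ℝ := (K o o).re with hρ
  have hρK : K o o = (ρ : ℂ) := by
    apply Complex.ext
    · simp [hρ]
    · have := (Complex.le_def.mp (hK.diag o)).2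
      simp at this
      simp [← this]
  have g1 : PSD (fun z w => ((1 - ρ : ℝ) : ℂ) * ⟪Φ w - Φ o, Φ z - Φ o⟫_ℂ) :=
    (psd_gram fun z => Φ z - Φ o).smul (by linarith)
  have g2 : PSD (fun z w => (K z o - ρ) * conj (K w o - ρ)) := psd_dyad fun z => K z o - ρ
  have g3 : PSD (fun z w => (1 - K z o)⁻¹ * conj ((1 - K w o)⁻¹)) := psd_dyad fun z => (1 - K z o)⁻¹
  refine ((g1.add g2).mul g3).congr fun z w => ?_
  have hc : conj (K w o) = K o w := (hK.herm w o).symm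
  have e1 : ⟪Φ w - Φ o, Φ z - Φ o⟫_ℂ = K z w - K z o - K o w + K o o := by
    rw [inner_sub_left, inner_sub_right, inner_sub_right, ← hΦ, ← hΦ, ← hΦ, ← hΦ]
    ring
  rw [e1, map_sub, map_inv₀, map_sub, map_one, hc, Complex.conj_ofReal, hρK]
  have h3 := h2 z
  have h4 : 1 - K o w ≠ 0 := by
    intro h
    apply h2 w
    have : conj (1 - K w o) = 0 := by rw [map_sub, map_one, hc, h]
    exact (map_eq_zero _).mp this
  push_cast
  field_simp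
  ring

/-- structure of a dominating kernel: if `2 z w̄ ⪯ b F` on the disc of radius `1/√2` then `1 - F` is
a dyad times `1 - 2 z w̄ - Q`. -/
lemma structure_lemma (ι : X → ℂ) (hι : ∀ z, ‖ι z‖ ^ 2 < 1 / 2)
    (hsurj : ∀ z : ℂ, ‖z‖ ^ 2 < 1 / 2 → ∃ x, ι x = z)
    {F : X → X → ℂ} (hF : PSD F) (hF1 : ∀ z, (F z z).re < 1)
    (hK : PSD (fun z w => ((1 - ι z * conj (ι w)) ^ 2)⁻¹ * F z w - 2 * (ι z * conj (ι w)))) :
    ∃ (u : X → ℂ) (t : ℝ) (R : X → X → ℂ), (∀ z, u z ≠ 0) ∧ t < 1 ∧ PSD R ∧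
      ∀ z w, ((1 - t : ℝ) : ℂ) * (1 - F z w) = u z * conj (u w) * (1 - 2 * (ι z * conj (ι w))) - R z w := by
  obtain ⟨H, i1, i2, i3, Φ, hΦ⟩ := hF.feature
  have hΦ1 : ∀ z, ‖Φ z‖ < 1 := by
    intro z
    have h1 := inner_self_eq_norm_sq_to_K (𝕜 := ℂ) (Φ z)
    rw [← hΦ] at h1
    have h2 := hF1 z
    rw [h1] at h2
    simp only [Complex.coe_algebraMap, ← Complex.ofReal_pow, Complex.ofReal_re] at h2
    nlinarith [norm_nonneg (Φ z)]
  have hsqn : ∀ n : ℕ, (Real.sqrt (n + 1) : ℂ) * (Real.sqrt (n + 1) : ℂ) = (n : ℂ) + 1 := by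
    intro n
    rw [← Complex.ofReal_mul, Real.mul_self_sqrt (by positivity)]
    push_cast; ring
  have hsq0 : ∀ n : ℕ, Real.sqrt (n + 1) ^ 2 = (n : ℝ) + 1 := fun n => Real.sq_sqrt (by positivity)
  -- the vectors in `ℓ²`
  have hgeo : ∀ r : ℝ, 0 ≤ r → r < 1 → Summable fun n : ℕ => ((n : ℝ) + 1) * r ^ n := by
    intro r h0 h1
    have a1 := summable_pow_mul_geometric_of_norm_lt_one 1 (r := r)
      (by rw [Real.norm_eq_abs, abs_of_nonneg h0]; exact h1)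
    have a2 := summable_geometric_of_lt_one h0 h1
    refine (a1.add a2).congr fun n => ?_
    ring
  have hmem : ∀ z : X, Memℓp (fun n : ℕ => ((Real.sqrt (n + 1) : ℂ) * ι z ^ n) • Φ z) 2 := by
    intro z
    apply memℓp_gen
    have h2 : (2 : ENNReal).toReal = 2 := by norm_num
    rw [h2]
    have h3 := (hgeo (‖ι z‖ ^ 2) (by positivity) (by linarith [hι z])).mul_right (‖Φ z‖ ^ 2)
    refine h3.congr fun n => ?_
    rw [norm_smul, norm_mul, norm_pow, Complex.norm_real, Real.norm_eq_abs,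
      abs_of_nonneg (Real.sqrt_nonneg _)]
    rw [show ((2:ℝ)) = ((2:ℕ) : ℝ) by norm_num, Real.rpow_natCast, mul_pow, mul_pow, hsq0]
    ring
  let E := lp (fun _ : ℕ => H) 2
  let Ψ : X → E := fun z => ⟨_, hmem z⟩
  have hΨ : ∀ z w, ⟪Ψ w, Ψ z⟫_ℂ = ((1 - ι z * conj (ι w)) ^ 2)⁻¹ * F z w := by
    intro z w
    have h1 := lp.hasSum_inner (𝕜 := ℂ) (Ψ w) (Ψ z)
    have hx : ‖ι z * conj (ι w)‖ < 1 := by
      rw [norm_mul, RCLike.norm_conj]
      nlinarith [hι z, hι w, norm_nonneg (ι z), norm_nonneg (ι w), sq_nonneg (‖ι z‖ - ‖ι w‖)]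
    have h2 := hasSum_coe_mul_geometric_of_norm_lt_one hx
    have h3 := hasSum_geometric_of_norm_lt_one hx
    have h4 := (h2.add h3).mul_right (F z w)
    have h5 : HasSum (fun n : ℕ => ⟪(Ψ w : ∀ _ : ℕ, H) n, (Ψ z : ∀ _ : ℕ, H) n⟫_ℂ)
        ((ι z * conj (ι w) / (1 - ι z * conj (ι w)) ^ 2 + (1 - ι z * conj (ι w))⁻¹) * F z w) := by
      refine (hs_congr fun n => ?_).mpr h4
      show ⟪((Real.sqrt (n + 1) : ℂ) * ι w ^ n) • Φ w, ((Real.sqrt (n + 1) : ℂ) * ι z ^ n) • Φ z⟫_ℂ = _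
      rw [inner_smul_left, inner_smul_right, ← hΦ, map_mul, Complex.conj_ofReal, map_pow]
      have := hsqn n
      calc (Real.sqrt (n + 1) : ℂ) * conj (ι w) ^ n * ((Real.sqrt (n + 1) : ℂ) * ι z ^ n * F z w)
          = ((Real.sqrt (n + 1) : ℂ) * (Real.sqrt (n + 1) : ℂ)) * (ι z * conj (ι w)) ^ n * F z w := by
            rw [mul_pow]; ring
        _ = _ := by rw [this]; ring
    rw [h1.unique h5]
    congr 1
    have hne : 1 - ι z * conj (ι w) ≠ 0 := by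
      intro h
      rw [sub_eq_zero] at h
      rw [← h, norm_one] at hx
      exact lt_irrefl _ hx
    field_simp
    ring
  -- Riesz
  obtain ⟨ψ, hψn, hψ⟩ := riesz Ψ (fun z => (Real.sqrt 2 : ℂ) * ι z) (by
    intro n x c
    have h1 := (Complex.le_def.mp (hK n x c)).1
    have e : ∑ i, ∑ j, c i * conj (c j) * (((1 - ι (x i) * conj (ι (x j))) ^ 2)⁻¹ * F (x i) (x j) -
        2 * (ι (x i) * conj (ι (x j)))) =
        ((‖∑ i, c i • Ψ (x i)‖ ^ 2 - ‖∑ i, c i * ((Real.sqrt 2 : ℂ) * ι (x i))‖ ^ 2 : ℝ) : ℂ) := by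
      have h2 : ∑ i, ∑ j, c i * conj (c j) * ⟪Ψ (x j), Ψ (x i)⟫_ℂ = ((‖∑ i, c i • Ψ (x i)‖ ^ 2 : ℝ) : ℂ) := by
        have := inner_self_eq_norm_sq_to_K (𝕜 := ℂ) (∑ i, c i • Ψ (x i))
        simp only [Complex.coe_algebraMap] at this
        push_cast
        rw [← this, sum_inner, Finset.sum_comm]
        refine Finset.sum_congr rfl fun j _ => ?_
        rw [inner_sum]
        refine Finset.sum_congr rfl fun i _ => ?_
        rw [inner_smul_left, inner_smul_right]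
        ring
      have h3 : ∑ i, ∑ j, c i * conj (c j) * (2 * (ι (x i) * conj (ι (x j)))) =
          ((‖∑ i, c i * ((Real.sqrt 2 : ℂ) * ι (x i))‖ ^ 2 : ℝ) : ℂ) := by
        rw [← Complex.normSq_eq_norm_sq, ← Complex.mul_conj, map_sum, Finset.sum_mul_sum]
        refine Finset.sum_congr rfl fun i _ => Finset.sum_congr rfl fun j _ => ?_
        rw [map_mul, map_mul, Complex.conj_ofReal]
        have : (Real.sqrt 2 : ℂ) * (Real.sqrt 2 : ℂ) = 2 := by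
          rw [← Complex.ofReal_mul, Real.mul_self_sqrt (by norm_num)]; norm_num
        calc c i * conj (c j) * (2 * (ι (x i) * conj (ι (x j))))
            = ((Real.sqrt 2 : ℂ) * (Real.sqrt 2 : ℂ)) * (c i * conj (c j) * (ι (x i) * conj (ι (x j)))) := by
              rw [this]; ring
          _ = _ := by ring
      push_cast
      push_cast at h2 h3
      rw [← h2, ← h3, ← Finset.sum_sub_distrib]
      refine Finset.sum_congr rfl fun i _ => ?_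
      rw [← Finset.sum_sub_distrib]
      refine Finset.sum_congr rfl fun j _ => ?_
      rw [hΨ]
      ring
    rw [e, Complex.ofReal_re, Complex.zero_re] at h1
    have h4 : ‖∑ i, c i * ((Real.sqrt 2 : ℂ) * ι (x i))‖ ^ 2 ≤ ‖∑ i, c i • Ψ (x i)‖ ^ 2 := by linarith
    exact (pow_le_pow_iff_left₀ (norm_nonneg _) (norm_nonneg _) two_ne_zero).mp h4)
  set φ : ℕ → H := fun n => (ψ : ∀ _ : ℕ, H) n with hφ
  have hsumφ : HasSum (fun n => ‖φ n‖ ^ 2) (‖ψ‖ ^ 2) := by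
    have := lp.hasSum_norm (p := 2) (by norm_num) ψ
    have h2 : (2 : ENNReal).toReal = ((2 : ℕ) : ℝ) := by norm_num
    rw [h2, Real.rpow_natCast] at this
    refine (hs_congr fun n => ?_).mpr this
    rw [Real.rpow_natCast]
  have hφ1 : ∀ n, ‖φ n‖ ≤ 1 := fun n =>
    (lp.norm_apply_le_norm (by norm_num) ψ n).trans hψn
  have hser : ∀ z : X, HasSum (fun n : ℕ => ((Real.sqrt (n + 1) : ℂ) * ι z ^ n) * ⟪φ n, Φ z⟫_ℂ)
      ((Real.sqrt 2 : ℂ) * ι z) := by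
    intro z
    have h1 := lp.hasSum_inner (𝕜 := ℂ) ψ (Ψ z)
    rw [hψ] at h1
    refine (hs_congr fun n => ?_).mp h1
    show ⟪φ n, ((Real.sqrt (n + 1) : ℂ) * ι z ^ n) • Φ z⟫_ℂ = _
    rw [inner_smul_right]
  have hsq1 : ∀ n : ℕ, Real.sqrt (n + 1) ≤ (n : ℝ) + 1 := by
    intro n
    rw [Real.sqrt_le_left (by positivity)]
    have : (0:ℝ) ≤ n := Nat.cast_nonneg n
    nlinarith
  have hvv : ∀ z : ℂ, ‖z‖ ^ 2 < 1 / 2 →
      Real.sqrt 2 * ‖z‖ ≤ ‖∑' n : ℕ, (z ^ n * (Real.sqrt (n + 1) : ℂ)) • φ n‖ := by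
    intro z hz
    obtain ⟨x, hx⟩ := hsurj (conj z) (by rw [RCLike.norm_conj]; exact hz)
    have hz1 : ‖z‖ < 1 := by nlinarith [norm_nonneg z]
    have hsm : Summable fun n : ℕ => (z ^ n * (Real.sqrt (n + 1) : ℂ)) • φ n := by
      refine Summable.of_norm_bounded (hgeo ‖z‖ (norm_nonneg _) hz1) fun n => ?_
      rw [norm_smul, norm_mul, norm_pow, Complex.norm_real, Real.norm_eq_abs,
        abs_of_nonneg (Real.sqrt_nonneg _)]
      have h3 := hφ1 n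
      have h5 := hsq1 n
      calc ‖z‖ ^ n * Real.sqrt (n + 1) * ‖φ n‖ ≤ ‖z‖ ^ n * ((n : ℝ) + 1) * 1 := by gcongr
        _ = _ := by ring
    have h6 := (hsm.hasSum).mapL (innerSL ℂ (Φ x))
    simp only [innerSL_apply_apply] at h6
    have h7 := (Complex.hasSum_conj').mpr h6
    have h8 : HasSum (fun n : ℕ => ((Real.sqrt (n + 1) : ℂ) * ι x ^ n) * ⟪φ n, Φ x⟫_ℂ)
        ⟪∑' n : ℕ, (z ^ n * (Real.sqrt (n + 1) : ℂ)) • φ n, Φ x⟫_ℂ := by
      rw [inner_conj_symm] at h7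
      refine (hs_congr fun n => ?_).mp h7
      rw [inner_conj_symm, inner_smul_left, map_mul, Complex.conj_ofReal, map_pow, hx]
      ring
    have h9 := (hser x).unique h8
    have h10 := norm_inner_le_norm (𝕜 := ℂ) (∑' n : ℕ, (z ^ n * (Real.sqrt (n + 1) : ℂ)) • φ n) (Φ x)
    rw [← h9, norm_mul, Complex.norm_real, Real.norm_eq_abs, abs_of_nonneg (Real.sqrt_nonneg _), hx,
      RCLike.norm_conj] at h10
    refine h10.trans ?_
    exact mul_le_of_le_one_right (norm_nonneg _) (hΦ1 x).le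
  obtain ⟨hz2, hone⟩ := extremal φ hsumφ.summable (by
    rw [hsumφ.tsum_eq]
    exact pow_le_one₀ (norm_nonneg _) hψn) hvv
  -- two terms
  have htwo : ∀ z, ⟪φ 0, Φ z⟫_ℂ + (Real.sqrt 2 : ℂ) * ι z * ⟪φ 1, Φ z⟫_ℂ = (Real.sqrt 2 : ℂ) * ι z := by
    intro z
    have h1 := (hser z).tsum_eq
    rw [tsum_eq_sum (s := range 2)] at h1
    · rw [Finset.sum_range_succ, Finset.sum_range_succ, Finset.sum_range_zero, zero_add] at h1
      norm_num at h1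
      exact h1
    · intro n hn
      rw [hz2 n (by rw [Finset.mem_range, not_lt] at hn; exact hn)]
      simp
  have hvec : ∀ z : ℂ, ‖z‖ ^ 2 < 1 / 2 → Real.sqrt 2 * ‖z‖ ≤ ‖φ 0 + (z * (Real.sqrt 2 : ℂ)) • φ 1‖ := by
    intro z hz
    have h1 := hvv z hz
    rw [tsum_eq_sum (s := range 2)] at h1
    · rw [Finset.sum_range_succ, Finset.sum_range_succ, Finset.sum_range_zero, zero_add] at h1
      norm_num at h1
      exact h1
    · intro n hn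
      rw [hz2 n (by rw [Finset.mem_range, not_lt] at hn; exact hn)]
      simp
  -- orthogonality
  have horth : ⟪φ 0, φ 1⟫_ℂ = 0 := by
    by_contra hne
    set q := ⟪φ 0, φ 1⟫_ℂ with hq
    have hqn : 0 < ‖q‖ := norm_pos_iff.mpr hne
    have hρ : ∀ ρ : ℝ, 0 < ρ → ρ ^ 2 < 1 / 2 →
        2 * ρ ^ 2 ≤ ‖φ 0‖ ^ 2 + 2 * ρ ^ 2 * ‖φ 1‖ ^ 2 - 2 * Real.sqrt 2 * ρ * ‖q‖ := by
      intro ρ h0 h1
      set z : ℂ := -((ρ : ℂ) * (conj q / ‖q‖)) with hz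
      have hzn : ‖z‖ = ρ := by
        rw [hz, norm_neg, norm_mul, norm_div, RCLike.norm_conj, Complex.norm_real, Complex.norm_real,
          Real.norm_eq_abs, abs_of_pos h0, norm_norm, div_self hqn.ne', mul_one]
      have h2 := hvec z (by rw [hzn]; exact h1)
      have h3 : (Real.sqrt 2 * ‖z‖) ^ 2 ≤ ‖φ 0 + (z * (Real.sqrt 2 : ℂ)) • φ 1‖ ^ 2 :=
        pow_le_pow_left₀ (by positivity) h2 2
      rw [@norm_add_sq ℂ, inner_smul_right, norm_smul, mul_pow, mul_pow, hzn,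
        Real.sq_sqrt (by norm_num), norm_mul, hzn, ← hq, Complex.norm_real, Real.norm_eq_abs,
        abs_of_nonneg (Real.sqrt_nonneg _), mul_pow, Real.sq_sqrt (by norm_num)] at h3
      have h4 : z * (Real.sqrt 2 : ℂ) * q = ((-(ρ * Real.sqrt 2 * ‖q‖) : ℝ) : ℂ) := by
        rw [hz]
        have h5 : conj q * q = ((‖q‖ ^ 2 : ℝ) : ℂ) := by
          rw [← Complex.normSq_eq_conj_mul_self, Complex.normSq_eq_norm_sq]
        have hqn' : (‖q‖ : ℂ) ≠ 0 := by exact_mod_cast hqn.ne'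
        calc -((ρ : ℂ) * (conj q / ‖q‖)) * (Real.sqrt 2 : ℂ) * q
            = -((ρ : ℂ) * (Real.sqrt 2 : ℂ) * ((conj q * q) / ‖q‖)) := by ring
          _ = _ := by
            rw [h5]
            push_cast
            field_simp
      rw [h4] at h3
      simp only [RCLike.re_to_complex, Complex.ofReal_re] at h3
      linarith
    -- let ρ → 1/√2
    have hlim : Tendsto (fun ρ : ℝ => ‖φ 0‖ ^ 2 + 2 * ρ ^ 2 * ‖φ 1‖ ^ 2 - 2 * Real.sqrt 2 * ρ * ‖q‖ - 2 * ρ ^ 2)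
        (𝓝[<] (Real.sqrt (1 / 2))) (𝓝 (‖φ 0‖ ^ 2 + 2 * (Real.sqrt (1 / 2)) ^ 2 * ‖φ 1‖ ^ 2 -
          2 * Real.sqrt 2 * (Real.sqrt (1 / 2)) * ‖q‖ - 2 * (Real.sqrt (1 / 2)) ^ 2)) := by
      apply tendsto_nhdsWithin_of_tendsto_nhds
      apply Continuous.tendsto
      fun_prop
    have hev : ∀ᶠ ρ : ℝ in 𝓝[<] (Real.sqrt (1 / 2)),
        0 ≤ ‖φ 0‖ ^ 2 + 2 * ρ ^ 2 * ‖φ 1‖ ^ 2 - 2 * Real.sqrt 2 * ρ * ‖q‖ - 2 * ρ ^ 2 := by
      have h0 : (0:ℝ) < Real.sqrt (1 / 2) := by positivity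
      filter_upwards [Ioo_mem_nhdsLT h0] with ρ hρ'
      have h1 : ρ ^ 2 < 1 / 2 := by
        have h2 : Real.sqrt (1 / 2) ^ 2 = 1 / 2 := Real.sq_sqrt (by norm_num)
        rw [← h2]
        exact pow_lt_pow_left₀ hρ'.2 hρ'.1.le two_ne_zero
      linarith [hρ ρ hρ'.1 h1]
    have hfin := ge_of_tendsto hlim hev
    rw [Real.sq_sqrt (by norm_num)] at hfin
    have h5 : Real.sqrt 2 * Real.sqrt (1 / 2) = 1 := by
      rw [← Real.sqrt_mul (by norm_num)]; norm_num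
    have h6 : 2 * Real.sqrt 2 * Real.sqrt (1 / 2) * ‖q‖ = 2 * ‖q‖ := by
      calc 2 * Real.sqrt 2 * Real.sqrt (1 / 2) * ‖q‖ = 2 * (Real.sqrt 2 * Real.sqrt (1 / 2)) * ‖q‖ := by ring
        _ = _ := by rw [h5]; ring
    rw [h6] at hfin
    linarith
  -- the constant `t`
  set t : ℝ := ‖φ 1‖ ^ 2 with ht
  have hβ : ∀ z, ‖⟪φ 1, Φ z⟫_ℂ‖ < 1 := by
    intro z
    refine lt_of_le_of_lt (norm_inner_le_norm _ _) ?_
    calc ‖φ 1‖ * ‖Φ z‖ ≤ 1 * ‖Φ z‖ := mul_le_mul_of_nonneg_right (hφ1 1) (norm_nonneg _)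
      _ < 1 := by rw [one_mul]; exact hΦ1 z
  have hu : ∀ z, 1 - ⟪φ 1, Φ z⟫_ℂ ≠ 0 := by
    intro z h
    rw [sub_eq_zero] at h
    have := hβ z
    rw [← h, norm_one] at this
    exact lt_irrefl _ this
  have hs2 : (Real.sqrt 2 : ℂ) ≠ 0 := by
    have : Real.sqrt 2 ≠ 0 := by positivity
    exact_mod_cast this
  have ht1 : t < 1 := by
    by_contra hc
    push Not at hc
    have h0 : ‖φ 0‖ ^ 2 ≤ 0 := by linarith
    have h1 : φ 0 = 0 := by
      have := le_antisymm h0 (sq_nonneg _)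
      exact norm_eq_zero.mp (pow_eq_zero_iff two_ne_zero |>.mp this)
    obtain ⟨x, hx⟩ := hsurj (1 / 2) (by norm_num)
    have h2 := htwo x
    rw [h1, inner_zero_left, zero_add, hx] at h2
    have h3 : ⟪φ 1, Φ x⟫_ℂ = 1 := by
      have h4 : (Real.sqrt 2 : ℂ) * (1 / 2) ≠ 0 := by
        apply mul_ne_zero hs2; norm_num
      exact mul_left_cancel₀ h4 (by rw [h2, mul_one])
    apply hu x
    rw [h3, sub_self]
  have hα : ∀ z, ⟪φ 0, Φ z⟫_ℂ = (Real.sqrt 2 : ℂ) * ι z * (1 - ⟪φ 1, Φ z⟫_ℂ) := by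
    intro z
    linear_combination htwo z
  refine ⟨fun z => 1 - ⟪φ 1, Φ z⟫_ℂ, t, fun z w =>
    (((‖φ 0‖ ^ 2 : ℝ) : ℂ) * ⟪Φ w - φ 1, Φ z - φ 1⟫_ℂ - ⟪φ 0, Φ z - φ 1⟫_ℂ * conj ⟪φ 0, Φ w - φ 1⟫_ℂ) +
      ⟪φ 1, Φ z - φ 1⟫_ℂ * conj ⟪φ 1, Φ w - φ 1⟫_ℂ, hu, ht1, ?_, ?_⟩
  · exact (psd_schur (fun z => Φ z - φ 1) (φ 0)).add (psd_dyad fun z => ⟪φ 1, Φ z - φ 1⟫_ℂ)
  · intro z w
    have e0 : ((‖φ 0‖ ^ 2 : ℝ) : ℂ) = ((1 - t : ℝ) : ℂ) := by
      congr 1; linarith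
    have e1 : ⟪φ 1, φ 1⟫_ℂ = (t : ℂ) := by
      have := inner_self_eq_norm_sq_to_K (𝕜 := ℂ) (φ 1)
      simp only [Complex.coe_algebraMap] at this
      rw [this, ht]; push_cast; ring
    have e2 : ⟪Φ w, φ 1⟫_ℂ = conj ⟪φ 1, Φ w⟫_ℂ := (inner_conj_symm _ _).symm
    rw [e0]
    simp only [inner_sub_left, inner_sub_right, e1, horth, sub_zero, e2, ← hΦ, hα, map_sub, map_mul,
      map_one, Complex.conj_ofReal]
    have h22 : (Real.sqrt 2 : ℂ) * (Real.sqrt 2 : ℂ) = 2 := by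
      rw [← Complex.ofReal_mul, Real.mul_self_sqrt (by norm_num)]; norm_num
    push_cast
    linear_combination (-(ι z * conj (ι w) * (1 - ⟪φ 1, Φ z⟫_ℂ) * (1 - conj ⟪φ 1, Φ w⟫_ℂ))) * h22

end

end Pool.Agent.R256.Ker
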