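import Mathlib

/-!
Thresholds for essential self-adjointness of `(-1)^n d^{2n}/dx^{2n} + c / x^{2n}`: the polynomials
`D_{2n}(z;c)`, their reflection symmetry, and the strip criterion for the root count.
-/

set_option autoImplicit false

open Polynomial Finset Filter Topology

namespace Pool.Agent.R256.Thr

/-- The polynomial `D_{2n}(z;c) = ∏_{j=1}^{2n} (z - (j-1)) + (-1)^n c`. -/
noncomputable def D (n : ℕ) (c : ℝ) : ℂ[X] :=
  ∏ j ∈ range (2 * n), (X - C (j : ℂ)) + C ((-1 : ℂ) ^ n * (c : ℂ))

open Classical in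
/-- The number of roots of `D_{2n}(·;c)`, counted with multiplicity, with real part `> -1/2`. -/
noncomputable def rootCount (n : ℕ) (c : ℝ) : ℕ :=
  ((D n c).roots.filter (fun z : ℂ => -1 / 2 < z.re)).card

/-- `cn` is the threshold: exactly `n` of the `2n` roots of `D_{2n}(·;c)` have real part `> -1/2` if
and only if `c ≥ cn`. -/
def IsThreshold (n : ℕ) (cn : ℝ) : Prop := ∀ c : ℝ, rootCount n c = n ↔ cn ≤ c

noncomputable def P (n : ℕ) : ℂ[X] := ∏ j ∈ range (2 * n), (X - C (j : ℂ))

theorem D_eq (n : ℕ) (c : ℝ) : D n c = P n + C ((-1 : ℂ) ^ n * (c : ℂ)) := rfl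

theorem P_monic (n : ℕ) : (P n).Monic := monic_prod_of_monic _ _ fun j _ => monic_X_sub_C _

theorem P_natDegree (n : ℕ) : (P n).natDegree = 2 * n := by
  unfold P
  rw [natDegree_prod_of_monic _ _ fun j _ => monic_X_sub_C _,
    sum_congr rfl fun j _ => natDegree_X_sub_C _]
  simp

theorem D_natDegree (n : ℕ) (c : ℝ) : (D n c).natDegree = 2 * n := by
  rw [D_eq, natDegree_add_C, P_natDegree]

theorem D_monic {n : ℕ} (hn : 1 ≤ n) (c : ℝ) : (D n c).Monic := by
  rw [D_eq]
  refine (P_monic n).add_of_left ?_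
  refine lt_of_le_of_lt degree_C_le ?_
  rw [degree_eq_natDegree (P_monic n).ne_zero, P_natDegree]
  exact_mod_cast (by omega : 0 < 2 * n)

theorem eval_P (n : ℕ) (z : ℂ) : (P n).eval z = ∏ j ∈ range (2 * n), (z - (j : ℂ)) := by
  unfold P
  rw [eval_prod]
  simp

theorem eval_D (n : ℕ) (c : ℝ) (z : ℂ) :
    (D n c).eval z = (P n).eval z + (-1 : ℂ) ^ n * (c : ℂ) := by
  rw [D_eq]; simp

theorem eval_P_reflect (n : ℕ) (z : ℂ) :
    (P n).eval (2 * (n : ℂ) - 1 - z) = (P n).eval z := by
  rw [eval_P, eval_P, ← prod_range_reflect]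
  have : ∀ j ∈ range (2 * n), (2 * (n : ℂ) - 1 - z - ((2 * n - 1 - j : ℕ) : ℂ)) =
      (-1) * (z - (j : ℂ)) := by
    intro j hj
    have hj' : j + 1 ≤ 2 * n := by have := mem_range.mp hj; omega
    have h1 : ((2 * n - 1 - j : ℕ) : ℂ) = 2 * (n : ℂ) - 1 - j := by
      have h2 : 2 * n - 1 - j = 2 * n - (1 + j) := by omega
      rw [h2, Nat.cast_sub (by omega)]
      push_cast
      ring
    rw [h1]
    ring
  rw [prod_congr rfl this, prod_mul_distrib]
  simp [pow_mul]

theorem D_reflect (n : ℕ) (c : ℝ) : (D n c).comp (C (2 * (n : ℂ) - 1) - X) = D n c := by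
  refine Polynomial.funext fun z => ?_
  rw [eval_comp, eval_D, eval_D]
  simp only [eval_sub, eval_C, eval_X]
  rw [eval_P_reflect]

theorem D_roots_card (n : ℕ) (c : ℝ) : (D n c).roots.card = 2 * n := by
  rw [IsAlgClosed.card_roots_eq_natDegree, D_natDegree]

theorem D_prod {n : ℕ} (hn : 1 ≤ n) (c : ℝ) :
    ((D n c).roots.map fun a => X - C a).prod = D n c :=
  prod_multiset_X_sub_C_of_monic_of_roots_card_eq (D_monic hn c)
    (by rw [D_roots_card, D_natDegree])

theorem D_roots_reflect {n : ℕ} (hn : 1 ≤ n) (c : ℝ) :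
    (D n c).roots.map (fun a => 2 * (n : ℂ) - 1 - a) = (D n c).roots := by
  set R := (D n c).roots with hR
  have h1 : D n c = ((R.map fun a => 2 * (n : ℂ) - 1 - a).map fun a => X - C a).prod := by
    conv_lhs => rw [← D_reflect, ← D_prod hn c]
    rw [← hR, multiset_prod_comp, Multiset.map_map, Multiset.map_map]
    have h2 : (R.map ((fun p : ℂ[X] => p.comp (C (2 * (n : ℂ) - 1) - X)) ∘ fun a => X - C a)) =
        R.map (fun a => (-1 : ℂ[X]) * (X - C (2 * (n : ℂ) - 1 - a))) := by
      refine Multiset.map_congr rfl fun a _ => ?_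
      simp only [Function.comp, sub_comp, X_comp, C_comp, C_sub]
      ring
    rw [h2, Multiset.prod_map_mul]
    have h3 : (R.map fun _ => (-1 : ℂ[X])).prod = 1 := by
      rw [Multiset.map_const', Multiset.prod_replicate, hR, D_roots_card, pow_mul]
      simp
    rw [h3, one_mul]
    rfl
  conv_rhs => rw [hR, h1]
  rw [roots_multiset_prod_X_sub_C]

/-- there are exactly `n` roots with real part `> -1/2` iff there are no roots in the strip
`-1/2 < re z < 2n - 1/2` -/
theorem rootCount_eq_iff {n : ℕ} (hn : 1 ≤ n) (c : ℝ) :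
    rootCount n c = n ↔
      ∀ z : ℂ, -1 / 2 < z.re → z.re < 2 * n - 1 / 2 → (D n c).eval z ≠ 0 := by
  classical
  set R := (D n c).roots with hR
  have hcard : R.card = 2 * n := D_roots_card n c
  have hne : D n c ≠ 0 := (D_monic hn c).ne_zero
  have hrc : rootCount n c = R.countP (fun z : ℂ => -1 / 2 < z.re) := by
    unfold rootCount
    rw [Multiset.countP_eq_card_filter]
  have h1 := Multiset.card_eq_countP_add_countP (fun z : ℂ => -1 / 2 < z.re) R
  have h2 : R.countP (fun z : ℂ => ¬ (-1 / 2 < z.re)) =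
      R.countP (fun z : ℂ => ¬ (z.re < 2 * n - 1 / 2)) := by
    have hrr := D_roots_reflect hn c
    rw [← hR] at hrr
    conv_lhs => rw [← hrr, Multiset.countP_map]
    rw [Multiset.countP_eq_card_filter]
    congr 1
    refine Multiset.filter_congr fun z _ => ?_
    simp only [Complex.sub_re, Complex.mul_re, Complex.one_re, Complex.natCast_re,
      Complex.natCast_im, Complex.re_ofNat, Complex.im_ofNat, zero_mul, sub_zero, not_lt]
    constructor <;> intro h <;> linarith
  have hsplit : R.countP (fun z : ℂ => -1 / 2 < z.re) =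
      R.countP (fun z : ℂ => -1 / 2 < z.re ∧ z.re < 2 * n - 1 / 2) +
      R.countP (fun z : ℂ => ¬ (z.re < 2 * n - 1 / 2)) := by
    rw [Multiset.countP_eq_card_filter, Multiset.countP_eq_card_filter,
      Multiset.countP_eq_card_filter, ← Multiset.card_add]
    congr 1
    have h3 := Multiset.filter_add_not (fun z : ℂ => z.re < 2 * n - 1 / 2)
      (R.filter (fun z : ℂ => -1 / 2 < z.re))
    rw [← h3, Multiset.filter_filter, Multiset.filter_filter]
    congr 1
    · refine Multiset.filter_congr fun z _ => ?_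
      tauto
    · refine Multiset.filter_congr fun z _ => ?_
      constructor
      · rintro ⟨h, _⟩; exact h
      · intro h
        refine ⟨h, ?_⟩
        push Not at h
        have : (1 : ℝ) ≤ n := by exact_mod_cast hn
        linarith
  have hzero : rootCount n c = n ↔
      R.countP (fun z : ℂ => -1 / 2 < z.re ∧ z.re < 2 * n - 1 / 2) = 0 := by
    rw [hrc]
    omega
  rw [hzero, Multiset.countP_eq_zero]
  constructor
  · intro h z hz1 hz2 hz
    exact h z ((mem_roots hne).mpr hz) ⟨hz1, hz2⟩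
  · intro h z hz hz2
    exact h z hz2.1 hz2.2 ((mem_roots hne).mp hz)

end Pool.Agent.R256.Thr
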