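import Mathlib
import Pool.Agent.R256.Thr1

/-!
Thresholds for essential self-adjointness, II: identification of the threshold.
-/

set_option autoImplicit false

open Polynomial Finset Filter Topology

namespace Pool.Agent.R256.Thr

/-- `∑ arctan (y/(j+1/2))` -/
noncomputable def A (n : ℕ) (y : ℝ) : ℝ := ∑ j ∈ range (2 * n), Real.arctan (y / ((j : ℝ) + 1 / 2))

/-- `∏ sqrt ((j+1/2)^2 + y^2)` -/
noncomputable def R (n : ℕ) (y : ℝ) : ℝ :=
  ∏ j ∈ range (2 * n), Real.sqrt (((j : ℝ) + 1 / 2) ^ 2 + y ^ 2)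

theorem polar (x y : ℝ) (hx : 0 < x) : (x : ℂ) - (y : ℂ) * Complex.I =
    (Real.sqrt (x ^ 2 + y ^ 2) : ℂ) * Complex.exp (-((Real.arctan (y / x) : ℝ) : ℂ) * Complex.I) := by
  rw [Complex.exp_mul_I, ← Complex.ofReal_neg, ← Complex.ofReal_cos, ← Complex.ofReal_sin,
    Real.cos_neg, Real.sin_neg, Real.cos_arctan, Real.sin_arctan]
  have h1 : Real.sqrt (x ^ 2 + y ^ 2) = x * Real.sqrt (1 + (y / x) ^ 2) := by
    have : x ^ 2 + y ^ 2 = x ^ 2 * (1 + (y / x) ^ 2) := by field_simp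
    rw [this, Real.sqrt_mul (by positivity), Real.sqrt_sq hx.le]
  have hs : 0 < Real.sqrt (1 + (y / x) ^ 2) := Real.sqrt_pos.mpr (by positivity)
  rw [h1]
  have e1 : x * Real.sqrt (1 + (y / x) ^ 2) * (1 / Real.sqrt (1 + (y / x) ^ 2)) = x := by
    field_simp
  have e2 : x * Real.sqrt (1 + (y / x) ^ 2) * (-(y / x / Real.sqrt (1 + (y / x) ^ 2))) = -y := by
    field_simp
  calc (x : ℂ) - (y : ℂ) * Complex.I
      = ((x * Real.sqrt (1 + (y / x) ^ 2) * (1 / Real.sqrt (1 + (y / x) ^ 2)) : ℝ) : ℂ) +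
        ((x * Real.sqrt (1 + (y / x) ^ 2) * (-(y / x / Real.sqrt (1 + (y / x) ^ 2))) : ℝ) : ℂ) *
          Complex.I := by
          rw [e1, e2]; push_cast; ring
    _ = _ := by push_cast; ring

theorem eval_P_line (n : ℕ) (y : ℝ) :
    (P n).eval (-1 / 2 + (y : ℂ) * Complex.I) =
      (R n y : ℂ) * Complex.exp (-((A n y : ℝ) : ℂ) * Complex.I) := by
  rw [eval_P]
  have h1 : ∀ j ∈ range (2 * n), (-1 / 2 + (y : ℂ) * Complex.I - (j : ℂ)) =
      (-1) * ((Real.sqrt (((j : ℝ) + 1 / 2) ^ 2 + y ^ 2) : ℂ) *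
        Complex.exp (-((Real.arctan (y / ((j : ℝ) + 1 / 2)) : ℝ) : ℂ) * Complex.I)) := by
    intro j _
    rw [← polar ((j : ℝ) + 1 / 2) y (by positivity)]
    push_cast
    ring
  rw [prod_congr rfl h1, prod_mul_distrib, prod_mul_distrib, ← Complex.exp_sum]
  simp only [prod_const, card_range, pow_mul, neg_one_sq, one_pow, one_mul]
  unfold R A
  rw [← sum_mul, sum_neg_distrib]
  push_cast
  rfl

theorem A_strictMono {n : ℕ} (hn : 1 ≤ n) : StrictMono (A n) := by
  intro a b hab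
  refine sum_lt_sum_of_nonempty ⟨0, by simp; omega⟩ fun j _ => ?_
  exact Real.arctan_strictMono (by
    have : (0 : ℝ) < (j : ℝ) + 1 / 2 := by positivity
    exact div_lt_div_of_pos_right hab this)

theorem A_zero (n : ℕ) : A n 0 = 0 := by simp [A]

theorem A_neg (n : ℕ) (y : ℝ) : A n (-y) = - A n y := by
  unfold A
  rw [← sum_neg_distrib]
  refine sum_congr rfl fun j _ => ?_
  rw [neg_div, Real.arctan_neg]

theorem A_continuous (n : ℕ) : Continuous (A n) := by
  unfold A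
  refine continuous_finsetSum _ fun j _ => ?_
  exact Real.continuous_arctan.comp (continuous_id.div_const _)

theorem A_lt {n : ℕ} (hn : 1 ≤ n) (y : ℝ) : A n y < n * Real.pi := by
  have h1 : A n y < ∑ j ∈ range (2 * n), (Real.pi / 2) :=
    sum_lt_sum_of_nonempty ⟨0, by simp; omega⟩ fun j _ => Real.arctan_lt_pi_div_two _
  simp only [sum_const, card_range, nsmul_eq_mul] at h1
  push_cast at h1
  linarith

theorem A_tendsto (n : ℕ) : Tendsto (A n) atTop (𝓝 (n * Real.pi)) := by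
  have h1 : Tendsto (A n) atTop (𝓝 (∑ j ∈ range (2 * n), (Real.pi / 2))) := by
    unfold A
    refine tendsto_finsetSum _ fun j _ => ?_
    have h2 : Tendsto Real.arctan atTop (𝓝 (Real.pi / 2)) :=
      Real.tendsto_arctan_atTop.mono_right nhdsWithin_le_nhds
    exact h2.comp (tendsto_id.atTop_div_const (by positivity))
  simp only [sum_const, card_range, nsmul_eq_mul] at h1
  push_cast at h1
  convert h1 using 2
  ring

/-- the solution `y0 ≥ 0` of `A y0 = (n-1) π` -/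
theorem exists_y0 {n : ℕ} (hn : 1 ≤ n) : ∃ y : ℝ, 0 ≤ y ∧ A n y = (n - 1) * Real.pi := by
  have h1 : ((n : ℝ) - 1) * Real.pi < n * Real.pi := by nlinarith [Real.pi_pos]
  have h2 := (A_tendsto n).eventually (lt_mem_nhds h1)
  obtain ⟨Y, hY0, hY⟩ := ((eventually_ge_atTop (0 : ℝ)).and h2).exists
  have h3 : ((n : ℝ) - 1) * Real.pi ∈ Set.Icc (A n 0) (A n Y) := by
    rw [A_zero]
    refine ⟨mul_nonneg ?_ Real.pi_pos.le, hY.le⟩
    have : (1 : ℝ) ≤ n := by exact_mod_cast hn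
    linarith
  obtain ⟨y, hy, hy2⟩ := intermediate_value_Icc hY0 (A_continuous n).continuousOn h3
  exact ⟨y, hy.1, hy2⟩

theorem R_pos (n : ℕ) (y : ℝ) : 0 < R n y :=
  prod_pos fun j _ => Real.sqrt_pos.mpr (by positivity)

theorem R_mono (n : ℕ) {y z : ℝ} (h : |y| ≤ z) : R n y ≤ R n z := by
  unfold R
  refine prod_le_prod (fun j _ => Real.sqrt_nonneg _) fun j _ => Real.sqrt_le_sqrt ?_
  have : y ^ 2 ≤ z ^ 2 := sq_le_sq' (by linarith [neg_abs_le y]) (le_trans (le_abs_self y) h)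
  linarith

theorem A_abs {n : ℕ} (hn : 1 ≤ n) (y : ℝ) : A n |y| = |A n y| := by
  rcases le_total 0 y with h | h
  · rw [abs_of_nonneg h, abs_of_nonneg]
    rw [← A_zero n]; exact (A_strictMono hn).monotone h
  · rw [abs_of_nonpos h, A_neg, abs_of_nonpos]
    rw [← A_zero n]; exact (A_strictMono hn).monotone h

/-- a root of `D` on the line `re z = -1/2` for `c > 0` -/
theorem line_root {n : ℕ} (hn : 1 ≤ n) {c y y0 : ℝ} (hc : 0 < c)
    (hy0A : A n y0 = (n - 1) * Real.pi)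
    (h : (D n c).eval (-1 / 2 + (y : ℂ) * Complex.I) = 0) : c ≤ R n y0 := by
  rw [eval_D, eval_P_line] at h
  have h1 : (R n y : ℂ) * Complex.exp (-((A n y : ℝ) : ℂ) * Complex.I) = -((-1) ^ n * (c : ℂ)) :=
    eq_neg_of_add_eq_zero_left h
  have hexp : ‖Complex.exp (-((A n y : ℝ) : ℂ) * Complex.I)‖ = 1 := by
    rw [← Complex.ofReal_neg]; exact Complex.norm_exp_ofReal_mul_I _
  have h2 : R n y = c := by
    have := congrArg norm h1
    rw [norm_mul, hexp, norm_neg, norm_mul, norm_pow, norm_neg, norm_one, one_pow, one_mul, mul_one,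
      Complex.norm_real, Complex.norm_real, Real.norm_of_nonneg (R_pos n y).le,
      Real.norm_of_nonneg hc.le] at this
    exact this
  have h3 : Real.sin (A n y) = 0 := by
    have h4 := congrArg Complex.im h1
    rw [Complex.exp_mul_I, ← Complex.ofReal_neg, ← Complex.ofReal_cos, ← Complex.ofReal_sin] at h4
    have h5 : (-((-1) ^ n * (c : ℂ))).im = 0 := by
      have : (-((-1) ^ n * (c : ℂ))) = ((-((-1) ^ n * c) : ℝ) : ℂ) := by push_cast; ring
      rw [this, Complex.ofReal_im]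
    rw [h5] at h4
    simp only [Complex.mul_im, Complex.add_im, Complex.add_re, Complex.mul_re, Complex.ofReal_re,
      Complex.ofReal_im, Complex.I_re, Complex.I_im, mul_zero, mul_one, zero_mul, add_zero,
      zero_add, sub_zero, sub_self, Real.sin_neg] at h4
    have h6 := (R_pos n y).ne'
    have h7 : R n y * Real.sin (A n y) = 0 := by linarith
    exact (mul_eq_zero.mp h7).resolve_left h6
  obtain ⟨k, hk⟩ := Real.sin_eq_zero_iff.mp h3
  have h4 : |A n y| < n * Real.pi := by rw [← A_abs hn]; exact A_lt hn _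
  rw [← hk, abs_mul, abs_of_pos Real.pi_pos] at h4
  have h5 : |(k : ℝ)| < n := lt_of_mul_lt_mul_right h4 Real.pi_pos.le
  have h6 : |k| < (n : ℤ) := by
    have : ((|k| : ℤ) : ℝ) < ((n : ℤ) : ℝ) := by push_cast; exact h5
    exact_mod_cast this
  have h7 : |(k : ℝ)| ≤ n - 1 := by
    have : |k| ≤ (n : ℤ) - 1 := by omega
    have h8 : ((|k| : ℤ) : ℝ) ≤ (((n : ℤ) - 1 : ℤ) : ℝ) := by exact_mod_cast this
    push_cast at h8
    exact h8
  have h8 : A n |y| ≤ A n y0 := by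
    rw [A_abs hn, hy0A, ← hk, abs_mul, abs_of_pos Real.pi_pos]
    exact mul_le_mul_of_nonneg_right h7 Real.pi_pos.le
  have h9 : |y| ≤ y0 := (A_strictMono hn).le_iff_le.mp h8
  rw [← h2]
  exact R_mono n h9

/-- at `y0` there is a boundary root for the level `R n y0` -/
theorem eval_P_y0 {n : ℕ} (hn : 1 ≤ n) {y0 : ℝ} (hy0A : A n y0 = (n - 1) * Real.pi) :
    (P n).eval (-1 / 2 + (y0 : ℂ) * Complex.I) = -((-1) ^ n * (R n y0 : ℂ)) := by
  rw [eval_P_line, hy0A]
  obtain ⟨m, rfl⟩ : ∃ m, n = m + 1 := ⟨n - 1, by omega⟩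
  have h1 : (-((((m + 1 : ℕ) : ℝ) - 1) * Real.pi : ℝ) : ℂ) * Complex.I =
      -((m : ℂ) * (Real.pi * Complex.I)) := by
    push_cast; ring
  have h2 : Complex.exp (-((m : ℂ) * (Real.pi * Complex.I))) = (-1) ^ m := by
    rw [Complex.exp_neg, Complex.exp_nat_mul, Complex.exp_pi_mul_I]
    rw [← inv_pow]
    norm_num
  rw [h1, h2]
  ring

theorem eval_deriv_P (n : ℕ) (z : ℂ) (hz : ∀ j : ℕ, z - (j : ℂ) ≠ 0) :
    (derivative (P n)).eval z = (P n).eval z * ∑ j ∈ range (2 * n), (z - (j : ℂ))⁻¹ := by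
  classical
  rw [eval_P]
  unfold P
  rw [derivative_prod_finset, eval_finsetSum, mul_sum]
  refine sum_congr rfl fun i hi => ?_
  rw [derivative_X_sub_C, mul_one, eval_prod, ← mul_prod_erase _ _ hi]
  simp only [eval_sub, eval_X, eval_C]
  have := hz i
  field_simp

end Pool.Agent.R256.Thr
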