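import Mathlib
import Pool.Agent.R256.Thr2

/-!
Thresholds for essential self-adjointness, III: the threshold equals `R n y0`.
-/

set_option autoImplicit false

open Polynomial Finset Filter Topology

namespace Pool.Agent.R256.Thr

/-- just below `R n y0` there are roots in the strip -/
theorem root_below {n : ℕ} (hn : 1 ≤ n) {y0 : ℝ} (hy0A : A n y0 = (n - 1) * Real.pi) :
    ∀ᶠ t in 𝓝[>] (0 : ℝ), ∃ z : ℂ, -1 / 2 < z.re ∧ z.re < 2 * n - 1 / 2 ∧
      (D n (R n y0 - t)).eval z = 0 := by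
  set cs := R n y0 with hcs
  have hcs0 : 0 < cs := R_pos n y0
  set z0 : ℂ := -1 / 2 + (y0 : ℂ) * Complex.I with hz0
  have hz0re : z0.re = -1 / 2 := by
    rw [hz0]; simp
  have hne : ∀ j : ℕ, z0 - (j : ℂ) ≠ 0 := by
    intro j h
    have := congrArg Complex.re h
    rw [Complex.sub_re, hz0re] at this
    simp at this
    have h2 : (0 : ℝ) ≤ j := Nat.cast_nonneg j
    linarith
  set L : ℂ := ∑ j ∈ range (2 * n), (z0 - (j : ℂ))⁻¹ with hL
  have hLre : L.re < 0 := by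
    rw [hL, Complex.re_sum]
    refine sum_neg (fun j _ => ?_) ⟨0, by simp; omega⟩
    rw [Complex.inv_re]
    refine div_neg_of_neg_of_pos ?_ (Complex.normSq_pos.mpr (hne j))
    rw [Complex.sub_re, hz0re, Complex.natCast_re]
    have h2 : (0 : ℝ) ≤ j := Nat.cast_nonneg j
    linarith
  have hL0 : L ≠ 0 := by
    intro h
    rw [h] at hLre
    simp at hLre
  have hw0 : (P n).eval z0 = -((-1) ^ n * (cs : ℂ)) := eval_P_y0 hn hy0A
  have hw0ne : (P n).eval z0 ≠ 0 := by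
    rw [hw0]
    refine neg_ne_zero.mpr (mul_ne_zero (pow_ne_zero _ (by norm_num)) ?_)
    exact_mod_cast hcs0.ne'
  have hd : (derivative (P n)).eval z0 = (P n).eval z0 * L := eval_deriv_P n z0 hne
  have hdne : (P n).eval z0 * L ≠ 0 := mul_ne_zero hw0ne hL0
  have hf : HasStrictDerivAt (fun z => (P n).eval z) ((P n).eval z0 * L) z0 := by
    rw [← hd]; exact (P n).hasStrictDerivAt z0
  set g := hf.localInverse (fun z => (P n).eval z) ((P n).eval z0 * L) z0 hdne with hg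
  have hg1 : HasStrictDerivAt g ((P n).eval z0 * L)⁻¹ ((P n).eval z0) := hf.to_localInverse hdne
  have hg2 : ∀ᶠ w in 𝓝 ((P n).eval z0), (P n).eval (g w) = w :=
    HasStrictDerivAt.eventually_right_inverse hf hdne
  have hg3 : g ((P n).eval z0) = z0 :=
    HasStrictFDerivAt.localInverse_apply_image ..
  -- the path
  set w : ℝ → ℂ := fun t => -((-1) ^ n * ((cs - t : ℝ) : ℂ)) with hw
  have hw_zero : w 0 = (P n).eval z0 := by rw [hw0, hw]; simp
  have hwd : HasDerivAt w ((-1) ^ n) 0 := by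
    have h1 : HasDerivAt (fun t : ℝ => cs - t) (-1) 0 := by
      simpa using (hasDerivAt_id (0 : ℝ)).const_sub cs
    have h2 := h1.ofReal_comp
    have h3 := (h2.const_mul ((-1 : ℂ) ^ n)).neg
    refine HasDerivAt.congr_deriv h3 ?_
    rw [Complex.ofReal_neg, Complex.ofReal_one]
    ring
  have hwc : Tendsto w (𝓝 0) (𝓝 ((P n).eval z0)) := by
    rw [← hw_zero]; exact hwd.continuousAt
  have hgw : HasDerivAt (fun t => g (w t)) (((P n).eval z0 * L)⁻¹ * (-1) ^ n) 0 := by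
    have h1 : HasDerivAt g ((P n).eval z0 * L)⁻¹ (w 0) := by rw [hw_zero]; exact hg1.hasDerivAt
    exact HasDerivAt.comp (𝕜 := ℝ) (𝕜' := ℂ) 0 h1 hwd
  have hh : HasDerivAt (fun t => (g (w t)).re) (((P n).eval z0 * L)⁻¹ * (-1) ^ n).re 0 :=
    Complex.reCLM.hasFDerivAt.comp_hasDerivAt (0 : ℝ) hgw
  have hval : ((P n).eval z0 * L)⁻¹ * (-1) ^ n = -((cs : ℂ)⁻¹ * L⁻¹) := by
    rw [hw0]
    have h1 : ((-1 : ℂ) ^ n) ≠ 0 := pow_ne_zero _ (by norm_num)
    have h2 : (cs : ℂ) ≠ 0 := by exact_mod_cast hcs0.ne'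
    field_simp
  have hpos : 0 < (((P n).eval z0 * L)⁻¹ * (-1) ^ n).re := by
    rw [hval, Complex.neg_re, ← Complex.ofReal_inv, Complex.re_ofReal_mul, Complex.inv_re]
    have h1 : L.re / Complex.normSq L < 0 :=
      div_neg_of_neg_of_pos hLre (Complex.normSq_pos.mpr hL0)
    have h2 : 0 < cs⁻¹ := inv_pos.mpr hcs0
    nlinarith [mul_pos h2 (neg_pos.mpr h1)]
  -- eventual statements
  have e1 : ∀ᶠ t in 𝓝[>] (0 : ℝ), -1 / 2 < (g (w t)).re := by
    have h1 := hasDerivAt_iff_tendsto_slope.mp hh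
    have h2 := h1.eventually (lt_mem_nhds hpos)
    have h3 : ∀ᶠ t in 𝓝[>] (0 : ℝ), 0 < slope (fun t => (g (w t)).re) 0 t :=
      h2.filter_mono (nhdsWithin_mono _ fun t ht => ne_of_gt ht)
    filter_upwards [h3, self_mem_nhdsWithin] with t ht ht0
    rw [slope_def_field] at ht
    have ht0' : (0 : ℝ) < t := ht0
    rw [sub_zero] at ht
    have h4 : 0 < (g (w t)).re - (g (w 0)).re := by
      rcases div_pos_iff.mp ht with h | h
      · exact h.1
      · linarith [h.2]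
    rw [hw_zero, hg3, hz0re] at h4
    linarith
  have e2 : ∀ᶠ t in 𝓝[>] (0 : ℝ), (g (w t)).re < 2 * n - 1 / 2 := by
    have h1 : Tendsto (fun t => (g (w t)).re) (𝓝 0) (𝓝 (-1 / 2)) := by
      have := hh.continuousAt
      unfold ContinuousAt at this
      simp only [hw_zero, hg3, hz0re] at this
      exact this
    have h2 : (-1 / 2 : ℝ) < 2 * n - 1 / 2 := by
      have : (1 : ℝ) ≤ n := by exact_mod_cast hn
      linarith
    exact (h1.eventually (gt_mem_nhds h2)).filter_mono nhdsWithin_le_nhds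
  have e3 : ∀ᶠ t in 𝓝[>] (0 : ℝ), (P n).eval (g (w t)) = w t :=
    (hwc.eventually hg2).filter_mono nhdsWithin_le_nhds
  filter_upwards [e1, e2, e3] with t h1 h2 h3
  refine ⟨g (w t), h1, h2, ?_⟩
  rw [eval_D, h3]
  simp only [hw]
  ring

theorem norm_le_of_eval_D {n : ℕ} (hn : 1 ≤ n) {c K : ℝ} (hc : |c| ≤ K) {z : ℂ}
    (hz : (D n c).eval z = 0) : ‖z‖ ≤ 2 * n + K + 1 := by
  by_contra hcon
  push Not at hcon
  have hK : 0 ≤ K := le_trans (abs_nonneg c) hc
  have h1 : (P n).eval z = -((-1) ^ n * (c : ℂ)) := by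
    rw [eval_D] at hz
    exact eq_neg_of_add_eq_zero_left hz
  have h2 : ‖(P n).eval z‖ = |c| := by
    rw [h1, norm_neg, norm_mul, norm_pow, norm_neg, norm_one, one_pow, one_mul, Complex.norm_real,
      Real.norm_eq_abs]
  rw [eval_P, norm_prod] at h2
  have h3 : ∏ j ∈ range (2 * n), (K + 1) ≤ ∏ j ∈ range (2 * n), ‖z - (j : ℂ)‖ := by
    refine prod_le_prod (fun _ _ => by linarith) fun j hj => ?_
    have h4 : ‖z‖ - ‖(j : ℂ)‖ ≤ ‖z - (j : ℂ)‖ := norm_sub_norm_le _ _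
    have h5 : ‖(j : ℂ)‖ ≤ 2 * n := by
      rw [Complex.norm_natCast]
      have := mem_range.mp hj
      exact_mod_cast this.le
    linarith
  rw [prod_const, card_range, h2] at h3
  have h6 : (K + 1) ^ 1 ≤ (K + 1) ^ (2 * n) := pow_le_pow_right₀ (by linarith) (by omega)
  linarith

theorem threshold_ge {n : ℕ} (hn : 1 ≤ n) {cn : ℝ} (h : IsThreshold n cn) {y0 : ℝ}
    (hy0A : A n y0 = (n - 1) * Real.pi) : R n y0 ≤ cn := by
  by_contra hcon
  push Not at hcon
  have h1 := root_below hn hy0A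
  have h2 : ∀ᶠ t in 𝓝[>] (0 : ℝ), t < R n y0 - cn :=
    (gt_mem_nhds (by linarith : (0 : ℝ) < R n y0 - cn)).filter_mono nhdsWithin_le_nhds
  obtain ⟨t, ⟨z, hz1, hz2, hz3⟩, ht2⟩ := (h1.and h2).exists
  have h3 : rootCount n (R n y0 - t) = n := (h _).mpr (by linarith)
  exact (rootCount_eq_iff hn _).mp h3 z hz1 hz2 hz3

theorem threshold_le {n : ℕ} (hn : 1 ≤ n) {cn : ℝ} (h : IsThreshold n cn) {y0 : ℝ}
    (hy0A : A n y0 = (n - 1) * Real.pi) : cn ≤ R n y0 := by
  by_contra hcon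
  push Not at hcon
  have hcn0 : 0 < cn := lt_trans (R_pos n y0) hcon
  have hk : ∀ k : ℕ, ∃ z : ℂ, -1 / 2 < z.re ∧ z.re < 2 * n - 1 / 2 ∧
      (D n (cn - 1 / ((k : ℝ) + 1))).eval z = 0 := by
    intro k
    have h1 : ¬ rootCount n (cn - 1 / ((k : ℝ) + 1)) = n := by
      intro h2
      have h3 := (h _).mp h2
      have h4 : (0 : ℝ) < 1 / ((k : ℝ) + 1) := by positivity
      linarith
    rw [rootCount_eq_iff hn] at h1
    push Not at h1
    obtain ⟨z, h2, h3, h4⟩ := h1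
    exact ⟨z, h2, h3, h4⟩
  choose z hz1 hz2 hz3 using hk
  have hbd : ∀ k, z k ∈ Metric.closedBall (0 : ℂ) (2 * n + (cn + 1) + 1) := by
    intro k
    rw [mem_closedBall_zero_iff]
    refine norm_le_of_eval_D hn ?_ (hz3 k)
    have h4 : (0 : ℝ) < 1 / ((k : ℝ) + 1) := by positivity
    have h5 : 1 / ((k : ℝ) + 1) ≤ 1 := by
      rw [div_le_one (by positivity)]
      have : (0 : ℝ) ≤ k := Nat.cast_nonneg k
      linarith
    rw [abs_le]
    constructor <;> linarith
  obtain ⟨w, -, φ, hφ, hlim⟩ := (isCompact_closedBall (0 : ℂ) (2 * n + (cn + 1) + 1)).tendsto_subseq hbd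
  have hre : Tendsto (fun k => (z (φ k)).re) atTop (𝓝 w.re) :=
    (Complex.continuous_re.tendsto w).comp hlim
  have hw1 : -1 / 2 ≤ w.re := ge_of_tendsto' hre fun k => (hz1 _).le
  have hw2 : w.re ≤ 2 * n - 1 / 2 := le_of_tendsto' hre fun k => (hz2 _).le
  have hw3 : (D n cn).eval w = 0 := by
    rw [eval_D]
    have h1 : Tendsto (fun k => (P n).eval (z (φ k)) +
        (-1 : ℂ) ^ n * ((cn - 1 / ((φ k : ℝ) + 1) : ℝ) : ℂ)) atTop
        (𝓝 ((P n).eval w + (-1 : ℂ) ^ n * ((cn - 0 : ℝ) : ℂ))) := by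
      refine Tendsto.add (((P n).continuous.tendsto w).comp hlim) ?_
      refine Tendsto.const_mul _ ?_
      refine (Complex.continuous_ofReal.tendsto _).comp ?_
      refine Tendsto.const_sub _ ?_
      exact tendsto_one_div_add_atTop_nhds_zero_nat.comp hφ.tendsto_atTop
    have h2 : (fun k => (P n).eval (z (φ k)) +
        (-1 : ℂ) ^ n * ((cn - 1 / ((φ k : ℝ) + 1) : ℝ) : ℂ)) = fun _ => 0 := by
      funext k
      have := hz3 (φ k)
      rw [eval_D] at this
      exact this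
    rw [h2] at h1
    have h3 := tendsto_nhds_unique tendsto_const_nhds h1
    rw [sub_zero] at h3
    exact h3.symm
  have hno := (rootCount_eq_iff hn cn).mp ((h cn).mpr le_rfl)
  -- a root on the line
  have hline : ∃ v : ℂ, v.re = -1 / 2 ∧ (D n cn).eval v = 0 := by
    rcases hw1.lt_or_eq with h1 | h1
    · rcases hw2.lt_or_eq with h2 | h2
      · exact absurd hw3 (hno w h1 h2)
      · refine ⟨2 * (n : ℂ) - 1 - w, ?_, ?_⟩
        · simp only [Complex.sub_re, Complex.mul_re, Complex.one_re, Complex.natCast_re,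
            Complex.natCast_im, Complex.re_ofNat, Complex.im_ofNat, zero_mul, sub_zero]
          rw [h2]
          ring
        · rw [eval_D, eval_P_reflect, ← eval_D]
          exact hw3
    · exact ⟨w, h1.symm, hw3⟩
  obtain ⟨v, hv1, hv2⟩ := hline
  have hv3 : v = -1 / 2 + (v.im : ℂ) * Complex.I := by
    apply Complex.ext
    · rw [hv1]; simp
    · simp
  rw [hv3] at hv2
  exact absurd (line_root hn hcn0 hy0A hv2) (not_le.mpr hcon)

/-- **The threshold.** -/
theorem threshold_eq {n : ℕ} (hn : 1 ≤ n) {cn : ℝ} (h : IsThreshold n cn) :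
    ∃ y0 : ℝ, 0 ≤ y0 ∧ A n y0 = (n - 1) * Real.pi ∧ cn = R n y0 := by
  obtain ⟨y0, h0, hA⟩ := exists_y0 hn
  exact ⟨y0, h0, hA, le_antisymm (threshold_le hn h hA) (threshold_ge hn h hA)⟩

end Pool.Agent.R256.Thr
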