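import Mathlib
import Pool.Agent.R256.Thr3

/-!
Thresholds for essential self-adjointness, IV: the upper bound.
-/

set_option autoImplicit false

open Finset Filter Topology

namespace Pool.Agent.R256.Thr

theorem sum_half (N : ℕ) : ∑ j ∈ range N, ((j : ℝ) + 1 / 2) = (N : ℝ) ^ 2 / 2 := by
  induction N with
  | zero => simp
  | succ k ih => rw [sum_range_succ, ih]; push_cast; ring

theorem sum_arctan {n : ℕ} {y : ℝ} (hy : 0 < y) (hA : A n y = (n - 1) * Real.pi) :
    ∑ j ∈ range (2 * n), Real.arctan (((j : ℝ) + 1 / 2) / y) = Real.pi := by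
  have h1 : ∀ j ∈ range (2 * n), Real.arctan (((j : ℝ) + 1 / 2) / y) =
      Real.pi / 2 - Real.arctan (y / ((j : ℝ) + 1 / 2)) := by
    intro j _
    rw [← Real.arctan_inv_of_pos (by positivity), inv_div]
  rw [sum_congr rfl h1, sum_sub_distrib]
  unfold A at hA
  rw [hA]
  simp only [sum_const, card_range, nsmul_eq_mul]
  push_cast
  ring

theorem log_R {n : ℕ} {y : ℝ} (hy : 0 < y) :
    Real.log (R n y) = ∑ j ∈ range (2 * n), 1 / 2 * Real.log (((j : ℝ) + 1 / 2) ^ 2 + y ^ 2) := by
  unfold R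
  rw [Real.log_prod (fun j _ => (Real.sqrt_pos.mpr (by positivity)).ne')]
  refine sum_congr rfl fun j _ => ?_
  rw [Real.log_sqrt (by positivity)]
  ring

/-- the auxiliary function of part B -/
noncomputable def fB (n y x : ℝ) : ℝ :=
  1 / 2 * Real.log (x ^ 2 + y ^ 2) - x / n + y / n * Real.arctan (x / y)

theorem fB_deriv {n y : ℝ} (hn : 0 < n) (hy : 0 < y) (x : ℝ) :
    HasDerivAt (fB n y) (x * (n - x) / (n * (x ^ 2 + y ^ 2))) x := by
  unfold fB
  have h0 : (0 : ℝ) < x ^ 2 + y ^ 2 := by positivity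
  have h1 : HasDerivAt (fun x : ℝ => x ^ 2 + y ^ 2) (2 * x) x := by
    simpa using (hasDerivAt_pow 2 x).add_const (y ^ 2)
  have h2 := (h1.log h0.ne').const_mul (1 / 2)
  have h3 : HasDerivAt (fun x : ℝ => x / n) (1 / n) x := (hasDerivAt_id x).div_const n
  have h4 : HasDerivAt (fun x : ℝ => x / y) (1 / y) x := (hasDerivAt_id x).div_const y
  have h5 := (h4.arctan).const_mul (y / n)
  refine ((h2.sub h3).add h5).congr_deriv ?_
  have h6 : (1 : ℝ) + (x / y) ^ 2 = (x ^ 2 + y ^ 2) / y ^ 2 := by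
    field_simp
    ring
  rw [h6]
  field_simp
  ring

theorem fB_lt {n y : ℝ} (hn : 0 < n) (hy : 0 < y) {x : ℝ} (hx : 0 < x) (hxn : x ≠ n) :
    fB n y x < fB n y n := by
  have hcont : Continuous (fB n y) :=
    continuous_iff_continuousAt.mpr fun x => (fB_deriv hn hy x).continuousAt
  rcases lt_or_gt_of_ne hxn with h | h
  · have h1 : StrictMonoOn (fB n y) (Set.Icc 0 n) := by
      refine strictMonoOn_of_deriv_pos (convex_Icc 0 n) hcont.continuousOn fun z hz => ?_
      rw [interior_Icc] at hz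
      rw [(fB_deriv hn hy z).deriv]
      exact div_pos (mul_pos hz.1 (by linarith [hz.2])) (by positivity)
    exact h1 ⟨hx.le, h.le⟩ ⟨hn.le, le_rfl⟩ h
  · have h1 : StrictAntiOn (fB n y) (Set.Ici n) := by
      refine strictAntiOn_of_deriv_neg (convex_Ici n) hcont.continuousOn fun z hz => ?_
      rw [interior_Ici] at hz
      have hz' : n < z := hz
      rw [(fB_deriv hn hy z).deriv]
      refine div_neg_of_neg_of_pos ?_ (by positivity)
      nlinarith
    exact h1 (Set.mem_Ici.mpr le_rfl) (Set.mem_Ici.mpr h.le) h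

theorem sin_tangent {a b : ℝ} (ha : 0 ≤ a) (ha' : a ≤ Real.pi) (hb : 0 ≤ b) (hb' : b ≤ Real.pi) :
    Real.sin a ≤ Real.sin b + Real.cos b * (a - b) := by
  -- the function `sin t - cos b * t` has its maximum on `[0, π]` at `b`
  have hcont : Continuous (fun t => Real.sin t - Real.cos b * t) := by fun_prop
  have hd : ∀ t, HasDerivAt (fun t => Real.sin t - Real.cos b * t) (Real.cos t - Real.cos b) t := by
    intro t
    have h := (Real.hasDerivAt_sin t).sub ((hasDerivAt_id t).const_mul (Real.cos b))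
    rw [mul_one] at h
    exact h
  have key : Real.sin a - Real.cos b * a ≤ Real.sin b - Real.cos b * b := by
    rcases le_total a b with h | h
    · have h1 : MonotoneOn (fun t => Real.sin t - Real.cos b * t) (Set.Icc 0 b) := by
        refine monotoneOn_of_deriv_nonneg (convex_Icc 0 b) hcont.continuousOn
          (fun t _ => (hd t).differentiableAt.differentiableWithinAt) fun z hz => ?_
        rw [interior_Icc] at hz
        rw [(hd z).deriv]
        have := Real.cos_le_cos_of_nonneg_of_le_pi hz.1.le hb' hz.2.le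
        linarith
      exact h1 ⟨ha, h⟩ ⟨hb, le_rfl⟩ h
    · have h1 : AntitoneOn (fun t => Real.sin t - Real.cos b * t) (Set.Icc b Real.pi) := by
        refine antitoneOn_of_deriv_nonpos (convex_Icc b Real.pi) hcont.continuousOn
          (fun t _ => (hd t).differentiableAt.differentiableWithinAt) fun z hz => ?_
        rw [interior_Icc] at hz
        rw [(hd z).deriv]
        have := Real.cos_le_cos_of_nonneg_of_le_pi hb hz.2.le hz.1.le
        linarith
      exact h1 ⟨le_rfl, hb'⟩ ⟨h, ha'⟩ h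
  linarith

theorem log_sin_tangent {a b : ℝ} (ha : 0 < a) (ha' : a < Real.pi) (hb : 0 < b) (hb' : b < Real.pi) :
    Real.log (Real.sin a) ≤ Real.log (Real.sin b) + Real.cos b / Real.sin b * (a - b) := by
  have hsa : 0 < Real.sin a := Real.sin_pos_of_pos_of_lt_pi ha ha'
  have hsb : 0 < Real.sin b := Real.sin_pos_of_pos_of_lt_pi hb hb'
  have h1 := sin_tangent ha.le ha'.le hb.le hb'.le
  have h2 : Real.log (Real.sin a / Real.sin b) ≤ Real.sin a / Real.sin b - 1 :=
    Real.log_le_sub_one_of_pos (div_pos hsa hsb)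
  rw [Real.log_div hsa.ne' hsb.ne'] at h2
  have h3 : Real.sin a / Real.sin b - 1 ≤ Real.cos b / Real.sin b * (a - b) := by
    rw [div_sub_one hsb.ne', div_mul_eq_mul_div]
    exact div_le_div_of_nonneg_right (by linarith) hsb.le
  linarith

/-- **Upper bound.** -/
theorem upper {n : ℕ} (hn : 2 ≤ n) {y : ℝ} (hy : 0 < y) (hA : A n y = (n - 1) * Real.pi) :
    Real.log (R n y) < (2 * n) * Real.log (n / Real.sin (Real.pi / (2 * n))) := by
  have hn1 : (2 : ℝ) ≤ n := by exact_mod_cast hn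
  have hn0 : (0 : ℝ) < n := by linarith
  have hpi := Real.pi_pos
  have h1 : ∑ j ∈ range (2 * n), fB n y ((j : ℝ) + 1 / 2) < ∑ j ∈ range (2 * n), fB n y n := by
    refine sum_lt_sum_of_nonempty ⟨0, by simp; omega⟩ fun j _ => ?_
    refine fB_lt hn0 hy (by positivity) ?_
    intro h
    have h2 : (2 * (j : ℝ) + 1) = 2 * n := by linarith
    have h3 : 2 * j + 1 = 2 * n := by exact_mod_cast h2
    omega
  have h2 : ∑ j ∈ range (2 * n), fB n y ((j : ℝ) + 1 / 2) =
      Real.log (R n y) - 2 * n + y / n * Real.pi := by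
    have e1 : ∑ j ∈ range (2 * n), y / n * Real.arctan (((j : ℝ) + 1 / 2) / y) =
        y / n * Real.pi := by rw [← mul_sum, sum_arctan hy hA]
    unfold fB
    rw [sum_add_distrib, sum_sub_distrib, e1, ← log_R hy, ← sum_div, sum_half]
    push_cast
    field_simp
  have h3 : ∑ j ∈ range (2 * n), fB n y n =
      2 * n * (1 / 2 * Real.log ((n : ℝ) ^ 2 + y ^ 2)) - 2 * n + 2 * y * Real.arctan (n / y) := by
    simp only [sum_const, card_range, nsmul_eq_mul]
    unfold fB
    push_cast
    field_simp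
  rw [h2, h3] at h1
  -- the angle
  set Φ := Real.arctan (n / y) with hΦ
  have hΦ0 : 0 < Φ := Real.arctan_pos.mpr (by positivity)
  have hΦ1 : Φ < Real.pi := by linarith [Real.arctan_lt_pi_div_two ((n : ℝ) / y)]
  have hs : 0 < Real.sqrt (1 + ((n : ℝ) / y) ^ 2) := Real.sqrt_pos.mpr (by positivity)
  have hs2 : Real.sqrt ((n : ℝ) ^ 2 + y ^ 2) = y * Real.sqrt (1 + ((n : ℝ) / y) ^ 2) := by
    have : (n : ℝ) ^ 2 + y ^ 2 = y ^ 2 * (1 + ((n : ℝ) / y) ^ 2) := by field_simp; ring
    rw [this, Real.sqrt_mul (by positivity), Real.sqrt_sq hy.le]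
  have hcot : Real.cos Φ / Real.sin Φ = y / n := by
    rw [hΦ, Real.cos_arctan, Real.sin_arctan]
    field_simp
  have hsinΦ : Real.log (Real.sin Φ) = Real.log n - 1 / 2 * Real.log ((n : ℝ) ^ 2 + y ^ 2) := by
    have h4 : Real.sin Φ = n / Real.sqrt ((n : ℝ) ^ 2 + y ^ 2) := by
      rw [hΦ, Real.sin_arctan, hs2]
      field_simp
    rw [h4, Real.log_div hn0.ne' (Real.sqrt_pos.mpr (by positivity)).ne',
      Real.log_sqrt (by positivity)]
    ring
  have hφ0 : 0 < Real.pi / (2 * n) := by positivity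
  have hφ1 : Real.pi / (2 * n) < Real.pi := by
    rw [div_lt_iff₀ (by positivity)]
    nlinarith
  have h4 := log_sin_tangent hφ0 hφ1 hΦ0 hΦ1
  rw [hcot, hsinΦ] at h4
  have hsφ : 0 < Real.sin (Real.pi / (2 * n)) := Real.sin_pos_of_pos_of_lt_pi hφ0 hφ1
  rw [Real.log_div hn0.ne' hsφ.ne']
  have h5 : y / n * (Real.pi / (2 * n) - Φ) * (2 * n) = y / n * Real.pi - 2 * y * Φ := by
    field_simp
  have h6 := mul_le_mul_of_nonneg_left h4 (by positivity : (0 : ℝ) ≤ 2 * n)
  nlinarith

end Pool.Agent.R256.Thr
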