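import Mathlib
import Pool.Agent.R256.Thr4

/-!
Thresholds for essential self-adjointness, V: the lower bound for `n ≥ 7`.
-/

set_option autoImplicit false

open Finset Filter Topology

namespace Pool.Agent.R256.Thr

theorem S2 (N : ℕ) : ∑ j ∈ range N, ((j : ℝ) + 1 / 2) ^ 2 = (N : ℝ) ^ 3 / 3 - N / 12 := by
  induction N with
  | zero => simp
  | succ k ih => rw [sum_range_succ, ih]; push_cast; ring

theorem S3 (N : ℕ) : ∑ j ∈ range N, ((j : ℝ) + 1 / 2) ^ 3 = (N : ℝ) ^ 4 / 4 - N ^ 2 / 8 := by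
  induction N with
  | zero => simp
  | succ k ih => rw [sum_range_succ, ih]; push_cast; ring

theorem S4 (N : ℕ) : ∑ j ∈ range N, ((j : ℝ) + 1 / 2) ^ 4 ≤ (N : ℝ) ^ 5 / 5 := by
  induction N with
  | zero => simp
  | succ k ih =>
    rw [sum_range_succ]
    have hk : (0 : ℝ) ≤ k := Nat.cast_nonneg k
    have h : (0 : ℝ) ≤ ((k + 1 : ℝ) ^ 5 / 5 - (k : ℝ) ^ 5 / 5) - ((k : ℝ) + 1 / 2) ^ 4 := by
      ring_nf; positivity
    push_cast
    linarith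

theorem S5 (N : ℕ) : (N : ℝ) ^ 6 / 6 - 5 * N ^ 4 / 24 ≤ ∑ j ∈ range N, ((j : ℝ) + 1 / 2) ^ 5 := by
  induction N with
  | zero => simp
  | succ k ih =>
    rw [sum_range_succ]
    have hk : (0 : ℝ) ≤ k := Nat.cast_nonneg k
    have h : (0 : ℝ) ≤ ((k : ℝ) + 1 / 2) ^ 5 - (((k + 1 : ℝ) ^ 6 / 6 - 5 * (k + 1 : ℝ) ^ 4 / 24) -
      ((k : ℝ) ^ 6 / 6 - 5 * (k : ℝ) ^ 4 / 24)) := by
      ring_nf; positivity
    push_cast
    linarith

theorem S6 (N : ℕ) : (N : ℝ) ^ 7 / 7 - N ^ 5 / 4 ≤ ∑ j ∈ range N, ((j : ℝ) + 1 / 2) ^ 6 := by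
  induction N with
  | zero => simp
  | succ k ih =>
    rw [sum_range_succ]
    have hk : (0 : ℝ) ≤ k := Nat.cast_nonneg k
    have h : (0 : ℝ) ≤ ((k : ℝ) + 1 / 2) ^ 6 - (((k + 1 : ℝ) ^ 7 / 7 - (k + 1 : ℝ) ^ 5 / 4) -
      ((k : ℝ) ^ 7 / 7 - (k : ℝ) ^ 5 / 4)) := by
      ring_nf; positivity
    push_cast
    linarith

theorem S7 (N : ℕ) : ∑ j ∈ range N, ((j : ℝ) + 1 / 2) ^ 7 ≤ (N : ℝ) ^ 8 / 8 := by
  induction N with
  | zero => simp
  | succ k ih =>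
    rw [sum_range_succ]
    have hk : (0 : ℝ) ≤ k := Nat.cast_nonneg k
    have h : (0 : ℝ) ≤ ((k + 1 : ℝ) ^ 8 / 8 - (k : ℝ) ^ 8 / 8) - ((k : ℝ) + 1 / 2) ^ 7 := by
      ring_nf; positivity
    push_cast
    linarith

theorem S8 (N : ℕ) : ∑ j ∈ range N, ((j : ℝ) + 1 / 2) ^ 8 ≤ (N : ℝ) ^ 9 / 9 := by
  induction N with
  | zero => simp
  | succ k ih =>
    rw [sum_range_succ]
    have hk : (0 : ℝ) ≤ k := Nat.cast_nonneg k
    have h : (0 : ℝ) ≤ ((k + 1 : ℝ) ^ 9 / 9 - (k : ℝ) ^ 9 / 9) - ((k : ℝ) + 1 / 2) ^ 8 := by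
      ring_nf; positivity
    push_cast
    linarith

theorem mono_nonneg {f f' : ℝ → ℝ} (h0 : f 0 = 0) (hd : ∀ x, 0 ≤ x → HasDerivAt f (f' x) x)
    (hf' : ∀ x, 0 ≤ x → 0 ≤ f' x) {x : ℝ} (hx : 0 ≤ x) : 0 ≤ f x := by
  have h1 : MonotoneOn f (Set.Ici 0) := by
    refine monotoneOn_of_deriv_nonneg (convex_Ici 0)
      (fun z hz => (hd z hz).continuousAt.continuousWithinAt) (fun z hz => ?_) fun z hz => ?_
    · rw [interior_Ici] at hz
      exact (hd z (le_of_lt hz)).differentiableAt.differentiableWithinAt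
    · rw [interior_Ici] at hz
      rw [(hd z (le_of_lt hz)).deriv]
      exact hf' z (le_of_lt hz)
  rw [← h0]
  exact h1 (Set.mem_Ici.mpr le_rfl) (Set.mem_Ici.mpr hx) hx

theorem arctan_ge7 {t : ℝ} (ht : 0 ≤ t) :
    t - t ^ 3 / 3 + t ^ 5 / 5 - t ^ 7 / 7 ≤ Real.arctan t := by
  have h := mono_nonneg (f := fun t => Real.arctan t - (t - t ^ 3 / 3 + t ^ 5 / 5 - t ^ 7 / 7))
    (f' := fun t => t ^ 8 / (1 + t ^ 2)) (by simp) (fun x _ => ?_) (fun x _ => by positivity) ht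
  · linarith
  · have h1 := (Real.hasDerivAt_arctan x)
    have h2 : HasDerivAt (fun t : ℝ => t - t ^ 3 / 3 + t ^ 5 / 5 - t ^ 7 / 7)
        (1 - (3 * x ^ 2) / 3 + (5 * x ^ 4) / 5 - (7 * x ^ 6) / 7) x := by
      have a1 := hasDerivAt_id x
      have a3 := (hasDerivAt_pow 3 x).div_const 3
      have a5 := (hasDerivAt_pow 5 x).div_const 5
      have a7 := (hasDerivAt_pow 7 x).div_const 7
      refine (((a1.sub a3).add a5).sub a7).congr_deriv ?_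
      norm_num
    refine (h1.sub h2).congr_deriv ?_
    have : (1 : ℝ) + x ^ 2 ≠ 0 := by positivity
    field_simp
    ring

theorem arctan_ge3 {t : ℝ} (ht : 0 ≤ t) : t - t ^ 3 / 3 ≤ Real.arctan t := by
  have h := mono_nonneg (f := fun t => Real.arctan t - (t - t ^ 3 / 3))
    (f' := fun t => t ^ 4 / (1 + t ^ 2)) (by simp) (fun x _ => ?_) (fun x _ => by positivity) ht
  · linarith
  · have h1 := (Real.hasDerivAt_arctan x)
    have h2 : HasDerivAt (fun t : ℝ => t - t ^ 3 / 3) (1 - (3 * x ^ 2) / 3) x := by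
      have a1 := hasDerivAt_id x
      have a3 := (hasDerivAt_pow 3 x).div_const 3
      refine (a1.sub a3).congr_deriv ?_
      norm_num
    refine (h1.sub h2).congr_deriv ?_
    have : (1 : ℝ) + x ^ 2 ≠ 0 := by positivity
    field_simp
    ring

theorem log_ge4 {s : ℝ} (hs : 0 ≤ s) :
    s - s ^ 2 / 2 + s ^ 3 / 3 - s ^ 4 / 4 ≤ Real.log (1 + s) := by
  have h := mono_nonneg (f := fun s => Real.log (1 + s) - (s - s ^ 2 / 2 + s ^ 3 / 3 - s ^ 4 / 4))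
    (f' := fun s => s ^ 4 / (1 + s)) (by simp) (fun x hx => ?_) (fun x hx => by positivity) hs
  · linarith
  · have h0 : (0 : ℝ) < 1 + x := by linarith
    have h1 : HasDerivAt (fun s : ℝ => Real.log (1 + s)) (1 / (1 + x)) x :=
      ((hasDerivAt_id x).const_add 1).log h0.ne'
    have h2 : HasDerivAt (fun s : ℝ => s - s ^ 2 / 2 + s ^ 3 / 3 - s ^ 4 / 4)
        (1 - (2 * x) / 2 + (3 * x ^ 2) / 3 - (4 * x ^ 3) / 4) x := by
      have a1 := hasDerivAt_id x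
      have a2 := (hasDerivAt_pow 2 x).div_const 2
      have a3 := (hasDerivAt_pow 3 x).div_const 3
      have a4 := (hasDerivAt_pow 4 x).div_const 4
      refine (((a1.sub a2).add a3).sub a4).congr_deriv ?_
      norm_num
    refine (h1.sub h2).congr_deriv ?_
    field_simp
    ring

theorem log_one_sub_ge {a : ℝ} (ha : 0 ≤ a) (ha' : a ≤ 1 / 4) :
    -a - a ^ 2 / 2 - a ^ 3 / 3 - a ^ 4 / 3 ≤ Real.log (1 - a) := by
  have hd : ∀ x, x ∈ Set.Icc (0 : ℝ) (1 / 4) →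
      HasDerivAt (fun a : ℝ => Real.log (1 - a) - (-a - a ^ 2 / 2 - a ^ 3 / 3 - a ^ 4 / 3))
      (x ^ 3 * (1 / 3 - 4 / 3 * x) / (1 - x)) x := by
    intro x hx
    have h0 : (0 : ℝ) < 1 - x := by linarith [hx.2]
    have h1 : HasDerivAt (fun s : ℝ => Real.log (1 - s)) (-1 / (1 - x)) x :=
      ((hasDerivAt_id x).const_sub 1).log h0.ne'
    have h2 : HasDerivAt (fun a : ℝ => -a - a ^ 2 / 2 - a ^ 3 / 3 - a ^ 4 / 3)
        (-1 - (2 * x) / 2 - (3 * x ^ 2) / 3 - (4 * x ^ 3) / 3) x := by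
      have a1 := (hasDerivAt_id x).neg
      have a2 := (hasDerivAt_pow 2 x).div_const 2
      have a3 := (hasDerivAt_pow 3 x).div_const 3
      have a4 := (hasDerivAt_pow 4 x).div_const 3
      refine (((a1.sub a2).sub a3).sub a4).congr_deriv ?_
      norm_num
    refine (h1.sub h2).congr_deriv ?_
    field_simp
    ring
  have h1 : MonotoneOn (fun a : ℝ => Real.log (1 - a) - (-a - a ^ 2 / 2 - a ^ 3 / 3 - a ^ 4 / 3))
      (Set.Icc 0 (1 / 4)) := by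
    refine monotoneOn_of_deriv_nonneg (convex_Icc 0 (1 / 4))
      (fun z hz => (hd z hz).continuousAt.continuousWithinAt) (fun z hz => ?_) fun z hz => ?_
    · rw [interior_Icc] at hz
      exact (hd z ⟨hz.1.le, hz.2.le⟩).differentiableAt.differentiableWithinAt
    · rw [interior_Icc] at hz
      rw [(hd z ⟨hz.1.le, hz.2.le⟩).deriv]
      have h2 := hz.1
      have h3 := hz.2
      refine div_nonneg (mul_nonneg (by positivity) (by linarith)) (by linarith)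
  have h2 := h1 (Set.left_mem_Icc.mpr (by norm_num)) ⟨ha, ha'⟩ ha
  simp at h2
  linarith

/-- `y0 ≥ 2N` for `n ≥ 7` -/
theorem y0_ge {n : ℕ} (hn : 7 ≤ n) {y : ℝ} (hy : 0 < y)
    (hs : ∑ j ∈ range (2 * n), Real.arctan (((j : ℝ) + 1 / 2) / y) = Real.pi) :
    2 * (2 * (n : ℝ)) ≤ y := by
  by_contra hcon
  push Not at hcon
  have hn' : (7 : ℝ) ≤ n := by exact_mod_cast hn
  have h1 : ∑ j ∈ range (2 * n), (((j : ℝ) + 1 / 2) / (4 * n) -
      (((j : ℝ) + 1 / 2) / (4 * n)) ^ 3 / 3) ≤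
      ∑ j ∈ range (2 * n), Real.arctan (((j : ℝ) + 1 / 2) / y) := by
    refine sum_le_sum fun j _ => ?_
    refine le_trans (arctan_ge3 (by positivity)) ?_
    refine Real.arctan_strictMono.monotone ?_
    exact div_le_div_of_nonneg_left (by positivity) hy (by linarith)
  have h2 : ∑ j ∈ range (2 * n), (((j : ℝ) + 1 / 2) / (4 * n) -
      (((j : ℝ) + 1 / 2) / (4 * n)) ^ 3 / 3) =
      (∑ j ∈ range (2 * n), ((j : ℝ) + 1 / 2)) / (4 * n) -
        (∑ j ∈ range (2 * n), ((j : ℝ) + 1 / 2) ^ 3) / (3 * (4 * n) ^ 3) := by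
    rw [sum_sub_distrib, sum_div, sum_div]
    congr 1
    refine sum_congr rfl fun j _ => ?_
    field_simp
  rw [h2, hs, S3, sum_half] at h1
  push_cast at h1
  have h3 : (2 * (n : ℝ)) ^ 2 / 2 / (4 * n) = n / 2 := by field_simp; ring
  have h4 : ((2 * (n : ℝ)) ^ 4 / 4 - (2 * n) ^ 2 / 8) / (3 * (4 * n) ^ 3) ≤ n / 48 := by
    rw [div_le_iff₀ (by positivity)]
    have : (0 : ℝ) ≤ (2 * n) ^ 2 / 8 := by positivity
    nlinarith
  rw [h3] at h1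
  have := Real.pi_lt_d2
  linarith

/-- the final polynomial inequality -/
theorem poly_ineq {s q : ℝ} (hs0 : 0 < s) (hs : s ≤ 1 / 4) (hq0 : 0 ≤ q) (hq : q ≤ 1 / 196) :
    ∃ a : ℝ, a = s / 6 - s * q / 12 - s ^ 2 / 15 + s ^ 2 * q / 12 + s ^ 3 / 28 ∧ 0 ≤ a ∧
      a ≤ 1 / 20 ∧
      0 < (-a - a ^ 2 / 2 - a ^ 3 / 3 - a ^ 4 / 3) +
        (s / 6 - s * q / 24 - s ^ 2 / 20 + s ^ 3 / 42 - s ^ 3 * q / 24 - s ^ 4 / 72) := by
  refine ⟨_, rfl, ?_⟩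
  set a := s / 6 - s * q / 12 - s ^ 2 / 15 + s ^ 2 * q / 12 + s ^ 3 / 28 with ha
  have hsq0 : 0 ≤ s * q := mul_nonneg hs0.le hq0
  have hs2 : 0 < s ^ 2 := by positivity
  have hs3 : 0 < s ^ 3 := by positivity
  have hs4 : 0 < s ^ 4 := by positivity
  have hs2le : s ^ 2 ≤ s / 4 := by nlinarith
  have hs3le : s ^ 3 ≤ s ^ 2 / 4 := by nlinarith
  have hs4le : s ^ 4 ≤ s ^ 2 / 16 := by nlinarith
  have hsqle : s * q ≤ s / 196 := by nlinarith
  have hs2q0 : 0 ≤ s ^ 2 * q := mul_nonneg hs2.le hq0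
  have hs2q : s ^ 2 * q ≤ s ^ 2 / 196 := by nlinarith
  have hs2q' : s ^ 2 * q ≤ s * q / 4 := by nlinarith
  have hs3q' : s ^ 3 * q ≤ s * q / 16 := by
    have : s ^ 3 * q = s * (s ^ 2 * q) := by ring
    rw [this]
    have h2 : s * (s ^ 2 * q) ≤ s * (s * q / 4) := mul_le_mul_of_nonneg_left hs2q' hs0.le
    nlinarith
  have ha0 : 0 ≤ a := by
    rw [ha]; nlinarith
  have hau : a ≤ s / 6 - 57 / 1000 * s ^ 2 := by
    rw [ha]; nlinarith
  have hau1 : a ≤ s / 6 := by linarith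
  have ha20 : a ≤ 1 / 20 := by linarith
  refine ⟨ha0, ha20, ?_⟩
  have hsu0 : 0 ≤ s / 6 - 57 / 1000 * s ^ 2 := le_trans ha0 hau
  have h2 : a ^ 2 ≤ (s / 6 - 57 / 1000 * s ^ 2) ^ 2 := pow_le_pow_left₀ ha0 hau 2
  have h3 : a ^ 3 ≤ (s / 6) ^ 3 := pow_le_pow_left₀ ha0 hau1 3
  have h4 : a ^ 4 ≤ (s / 6) ^ 4 := pow_le_pow_left₀ ha0 hau1 4
  have e : (-a) + (s / 6 - s * q / 24 - s ^ 2 / 20 + s ^ 3 / 42 - s ^ 3 * q / 24 - s ^ 4 / 72) =
      s * q / 24 + s ^ 2 / 60 - s ^ 2 * q / 12 - s ^ 3 / 84 - s ^ 3 * q / 24 - s ^ 4 / 72 := by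
    rw [ha]; ring
  have h5 : (s / 6 - 57 / 1000 * s ^ 2) ^ 2 = s ^ 2 / 36 - 57 / 3000 * s ^ 3 +
      3249 / 1000000 * s ^ 4 := by ring
  have h6 : (s / 6) ^ 3 = s ^ 3 / 216 := by ring
  have h7 : (s / 6) ^ 4 = s ^ 4 / 1296 := by ring
  rw [h5] at h2
  rw [h6] at h3
  rw [h7] at h4
  nlinarith

/-- **Lower bound for `n ≥ 7`.** -/
theorem lower7 {n : ℕ} (hn : 7 ≤ n) {y : ℝ} (hy : 0 < y) (hA : A n y = (n - 1) * Real.pi) :
    (2 * n) * Real.log (2 * (n : ℝ) ^ 2 / Real.pi) < Real.log (R n y) := by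
  have hs := sum_arctan hy hA
  have hyN := y0_ge hn hy hs
  have hn' : (7 : ℝ) ≤ n := by exact_mod_cast hn
  have hpi := Real.pi_pos
  set N : ℝ := 2 * n with hN
  have hN0 : 0 < N := by positivity
  have hN14 : 14 ≤ N := by linarith
  set s : ℝ := N ^ 2 / y ^ 2 with hsd
  set q : ℝ := 1 / N ^ 2 with hqd
  have hs0 : 0 < s := by positivity
  have hs1 : s ≤ 1 / 4 := by
    rw [hsd, div_le_iff₀ (by positivity)]
    nlinarith
  have hq0 : 0 ≤ q := by positivity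
  have hq1 : q ≤ 1 / 196 := by
    rw [hqd, div_le_div_iff₀ (by positivity) (by norm_num)]
    nlinarith
  obtain ⟨a, ha, ha0, ha1, hpol⟩ := poly_ineq hs0 hs1 hq0 hq1
  -- (1)
  have h1 : N ^ 2 / (2 * y) * (1 - a) ≤ Real.pi := by
    have e1 : ∑ j ∈ range (2 * n), (((j : ℝ) + 1 / 2) / y - (((j : ℝ) + 1 / 2) / y) ^ 3 / 3 +
        (((j : ℝ) + 1 / 2) / y) ^ 5 / 5 - (((j : ℝ) + 1 / 2) / y) ^ 7 / 7) ≤ Real.pi := by
      rw [← hs]
      exact sum_le_sum fun j _ => arctan_ge7 (by positivity)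
    have e2 : ∑ j ∈ range (2 * n), (((j : ℝ) + 1 / 2) / y - (((j : ℝ) + 1 / 2) / y) ^ 3 / 3 +
        (((j : ℝ) + 1 / 2) / y) ^ 5 / 5 - (((j : ℝ) + 1 / 2) / y) ^ 7 / 7) =
        (∑ j ∈ range (2 * n), ((j : ℝ) + 1 / 2)) / y -
        (∑ j ∈ range (2 * n), ((j : ℝ) + 1 / 2) ^ 3) / (3 * y ^ 3) +
        (∑ j ∈ range (2 * n), ((j : ℝ) + 1 / 2) ^ 5) / (5 * y ^ 5) -
        (∑ j ∈ range (2 * n), ((j : ℝ) + 1 / 2) ^ 7) / (7 * y ^ 7) := by
      rw [sum_div, sum_div, sum_div, sum_div, ← sum_sub_distrib, ← sum_add_distrib,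
        ← sum_sub_distrib]
      refine sum_congr rfl fun j _ => ?_
      field_simp
    rw [e2, sum_half, S3] at e1
    have e5 := S5 (2 * n)
    have e7 := S7 (2 * n)
    push_cast at e1 e5 e7
    rw [← hN] at e1 e5 e7
    have f5 : (N ^ 6 / 6 - 5 * N ^ 4 / 24) / (5 * y ^ 5) ≤
        (∑ j ∈ range (2 * n), ((j : ℝ) + 1 / 2) ^ 5) / (5 * y ^ 5) :=
      div_le_div_of_nonneg_right e5 (by positivity)
    have f7 : (∑ j ∈ range (2 * n), ((j : ℝ) + 1 / 2) ^ 7) / (7 * y ^ 7) ≤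
        (N ^ 8 / 8) / (7 * y ^ 7) :=
      div_le_div_of_nonneg_right e7 (by positivity)
    have e : N ^ 2 / (2 * y) * (1 - a) = N ^ 2 / 2 / y - (N ^ 4 / 4 - N ^ 2 / 8) / (3 * y ^ 3) +
        (N ^ 6 / 6 - 5 * N ^ 4 / 24) / (5 * y ^ 5) - (N ^ 8 / 8) / (7 * y ^ 7) := by
      rw [ha, hsd, hqd]
      field_simp
      ring
    rw [e]
    linarith
  -- (2)
  have h2 : N * (Real.log y + (s / 6 - s * q / 24 - s ^ 2 / 20 + s ^ 3 / 42 - s ^ 3 * q / 24 -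
      s ^ 4 / 72)) ≤ Real.log (R n y) := by
    rw [log_R hy]
    have e0 : ∀ j ∈ range (2 * n), 1 / 2 * Real.log (((j : ℝ) + 1 / 2) ^ 2 + y ^ 2) =
        Real.log y + 1 / 2 * Real.log (1 + (((j : ℝ) + 1 / 2) / y) ^ 2) := by
      intro j _
      have : ((j : ℝ) + 1 / 2) ^ 2 + y ^ 2 = y ^ 2 * (1 + (((j : ℝ) + 1 / 2) / y) ^ 2) := by
        field_simp; ring
      rw [this, Real.log_mul (by positivity) (by positivity), Real.log_pow]
      push_cast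
      ring
    rw [sum_congr rfl e0, sum_add_distrib]
    have e1 : ∑ j ∈ range (2 * n), (1 / 2 * ((((j : ℝ) + 1 / 2) / y) ^ 2 -
        ((((j : ℝ) + 1 / 2) / y) ^ 2) ^ 2 / 2 + ((((j : ℝ) + 1 / 2) / y) ^ 2) ^ 3 / 3 -
        ((((j : ℝ) + 1 / 2) / y) ^ 2) ^ 4 / 4)) ≤
        ∑ j ∈ range (2 * n), 1 / 2 * Real.log (1 + (((j : ℝ) + 1 / 2) / y) ^ 2) :=
      sum_le_sum fun j _ => mul_le_mul_of_nonneg_left (log_ge4 (by positivity)) (by norm_num)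
    have e2 : ∑ j ∈ range (2 * n), (1 / 2 * ((((j : ℝ) + 1 / 2) / y) ^ 2 -
        ((((j : ℝ) + 1 / 2) / y) ^ 2) ^ 2 / 2 + ((((j : ℝ) + 1 / 2) / y) ^ 2) ^ 3 / 3 -
        ((((j : ℝ) + 1 / 2) / y) ^ 2) ^ 4 / 4)) =
        (∑ j ∈ range (2 * n), ((j : ℝ) + 1 / 2) ^ 2) / (2 * y ^ 2) -
        (∑ j ∈ range (2 * n), ((j : ℝ) + 1 / 2) ^ 4) / (4 * y ^ 4) +
        (∑ j ∈ range (2 * n), ((j : ℝ) + 1 / 2) ^ 6) / (6 * y ^ 6) -
        (∑ j ∈ range (2 * n), ((j : ℝ) + 1 / 2) ^ 8) / (8 * y ^ 8) := by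
      rw [sum_div, sum_div, sum_div, sum_div, ← sum_sub_distrib, ← sum_add_distrib,
        ← sum_sub_distrib]
      refine sum_congr rfl fun j _ => ?_
      field_simp
      ring
    rw [e2, S2] at e1
    have e4 := S4 (2 * n)
    have e6 := S6 (2 * n)
    have e8 := S8 (2 * n)
    push_cast at e1 e4 e6 e8
    rw [← hN] at e1 e4 e6 e8
    have f4 : (∑ j ∈ range (2 * n), ((j : ℝ) + 1 / 2) ^ 4) / (4 * y ^ 4) ≤
        (N ^ 5 / 5) / (4 * y ^ 4) :=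
      div_le_div_of_nonneg_right e4 (by positivity)
    have f6 : (N ^ 7 / 7 - N ^ 5 / 4) / (6 * y ^ 6) ≤
        (∑ j ∈ range (2 * n), ((j : ℝ) + 1 / 2) ^ 6) / (6 * y ^ 6) :=
      div_le_div_of_nonneg_right e6 (by positivity)
    have f8 : (∑ j ∈ range (2 * n), ((j : ℝ) + 1 / 2) ^ 8) / (8 * y ^ 8) ≤
        (N ^ 9 / 9) / (8 * y ^ 8) :=
      div_le_div_of_nonneg_right e8 (by positivity)
    have e : N * (Real.log y + (s / 6 - s * q / 24 - s ^ 2 / 20 + s ^ 3 / 42 - s ^ 3 * q / 24 -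
        s ^ 4 / 72)) = N * Real.log y + ((N ^ 3 / 3 - N / 12) / (2 * y ^ 2) -
        (N ^ 5 / 5) / (4 * y ^ 4) + (N ^ 7 / 7 - N ^ 5 / 4) / (6 * y ^ 6) -
        (N ^ 9 / 9) / (8 * y ^ 8)) := by
      rw [hsd, hqd]
      field_simp
      ring
    rw [e]
    have e9 : ∑ j ∈ range (2 * n), Real.log y = N * Real.log y := by
      simp only [sum_const, card_range, nsmul_eq_mul]
      push_cast
      rw [hN]
    rw [e9]
    linarith
  -- (3)
  have h3 : Real.log (2 * (n : ℝ) ^ 2 / Real.pi) + Real.log (1 - a) ≤ Real.log y := by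
    rw [← Real.log_mul (by positivity) (by linarith)]
    refine Real.log_le_log (mul_pos (by positivity) (by linarith)) ?_
    rw [div_mul_eq_mul_div, div_le_iff₀ hpi]
    have e1 := mul_le_mul_of_nonneg_left h1 hy.le
    have e2 : y * (N ^ 2 / (2 * y) * (1 - a)) = 2 * (n : ℝ) ^ 2 * (1 - a) := by
      rw [hN]; field_simp
    rw [e2] at e1
    exact e1
  have h4 := log_one_sub_ge ha0 (by linarith)
  have h5 : Real.log (2 * (n : ℝ) ^ 2 / Real.pi) < Real.log y + (s / 6 - s * q / 24 - s ^ 2 / 20 +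
      s ^ 3 / 42 - s ^ 3 * q / 24 - s ^ 4 / 72) := by linarith
  exact lt_of_lt_of_le (mul_lt_mul_of_pos_left h5 hN0) h2

end Pool.Agent.R256.Thr
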