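import Mathlib
import Pool.Agent.R256.Thr5

/-!
Thresholds for essential self-adjointness, VI: the lower bound for small `n`, and the bounds.
-/

set_option autoImplicit false

open Polynomial Finset Filter Topology

namespace Pool.Agent.R256.Thr

/-- `∏_{j<k} (j + 1/2 - i y) = ab.1 - i ab.2` -/
def ab (y : ℚ) : ℕ → ℚ × ℚ
  | 0 => (1, 0)
  | k + 1 => ((ab y k).1 * ((k : ℚ) + 1 / 2) - (ab y k).2 * y,
      (ab y k).2 * ((k : ℚ) + 1 / 2) + (ab y k).1 * y)

theorem prod_ab (y : ℚ) (k : ℕ) : ∏ j ∈ range k, (((j : ℂ) + 1 / 2) - (y : ℂ) * Complex.I) =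
    ((ab y k).1 : ℂ) - ((ab y k).2 : ℂ) * Complex.I := by
  induction k with
  | zero => simp [ab]
  | succ k ih =>
    rw [prod_range_succ, ih, ab]
    push_cast
    ring_nf
    rw [Complex.I_sq]
    ring

theorem R_sin (n : ℕ) (y : ℚ) : R n (y : ℝ) * Real.sin (A n (y : ℝ)) = ((ab y (2 * n)).2 : ℝ) := by
  have h1 := eval_P_line n (y : ℝ)
  have h2 : (P n).eval (-1 / 2 + ((y : ℝ) : ℂ) * Complex.I) =
      ((ab y (2 * n)).1 : ℂ) - ((ab y (2 * n)).2 : ℂ) * Complex.I := by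
    rw [← prod_ab, eval_P]
    have h3 : ∀ j ∈ range (2 * n), (-1 / 2 + ((y : ℝ) : ℂ) * Complex.I - (j : ℂ)) =
        (-1) * (((j : ℂ) + 1 / 2) - (y : ℂ) * Complex.I) := by
      intro j _
      push_cast
      ring
    rw [prod_congr rfl h3, prod_mul_distrib]
    simp [pow_mul]
  rw [h2, Complex.exp_mul_I, ← Complex.ofReal_neg, ← Complex.ofReal_cos, ← Complex.ofReal_sin] at h1
  have h4 := congrArg Complex.im h1
  simp only [Complex.mul_im, Complex.add_im, Complex.add_re, Complex.mul_re, Complex.ofReal_re,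
      Complex.ofReal_im, Complex.I_re, Complex.I_im, mul_zero, mul_one, zero_mul, add_zero,
      zero_add, sub_self, Real.sin_neg, Complex.sub_im, Complex.ratCast_im, Complex.ratCast_re] at h4
  linarith

theorem arctan_le {t : ℝ} (ht : 0 ≤ t) : Real.arctan t ≤ t := by
  have h := mono_nonneg (f := fun t => t - Real.arctan t)
    (f' := fun t => t ^ 2 / (1 + t ^ 2)) (by simp) (fun x _ => ?_) (fun x _ => by positivity) ht
  · linarith
  · refine ((hasDerivAt_id x).sub (Real.hasDerivAt_arctan x)).congr_deriv ?_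
    have : (1 : ℝ) + x ^ 2 ≠ 0 := by positivity
    field_simp
    ring

theorem A_le_of_ab {n : ℕ} (y : ℚ) (hy : 0 < y) (hy2 : (n : ℚ) ^ 2 ≤ 3 * y)
    (hb : 0 ≤ (-1) ^ n * (ab y (2 * n)).2) (hn : 1 ≤ n) : A n (y : ℝ) ≤ (n - 1) * Real.pi := by
  have hy' : (0 : ℝ) < y := by exact_mod_cast hy
  set B := n * Real.pi - A n (y : ℝ) with hB
  have hB0 : 0 < B := by have := A_lt hn (y : ℝ); linarith
  have hB1 : B = ∑ j ∈ range (2 * n), Real.arctan (((j : ℝ) + 1 / 2) / y) := by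
    have h1 : ∀ j ∈ range (2 * n), Real.arctan (((j : ℝ) + 1 / 2) / y) =
        Real.pi / 2 - Real.arctan (y / ((j : ℝ) + 1 / 2)) := by
      intro j _
      rw [← Real.arctan_inv_of_pos (by positivity), inv_div]
    rw [sum_congr rfl h1, sum_sub_distrib, hB]
    unfold A
    simp only [sum_const, card_range, nsmul_eq_mul]
    push_cast
    ring
  have hB2 : B ≤ 2 * (n : ℝ) ^ 2 / y := by
    rw [hB1]
    have h1 : ∑ j ∈ range (2 * n), Real.arctan (((j : ℝ) + 1 / 2) / y) ≤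
        ∑ j ∈ range (2 * n), ((j : ℝ) + 1 / 2) / y :=
      sum_le_sum fun j _ => arctan_le (by positivity)
    rw [← sum_div, sum_half] at h1
    refine h1.trans (le_of_eq ?_)
    push_cast
    ring
  have hB3 : B < 2 * Real.pi := by
    refine lt_of_le_of_lt hB2 ?_
    rw [div_lt_iff₀ hy']
    have h1 : ((n : ℝ)) ^ 2 ≤ 3 * y := by exact_mod_cast hy2
    have h2 := Real.pi_gt_three
    nlinarith
  have hsin : Real.sin B ≤ 0 := by
    have h1 : Real.sin B = -((-1) ^ n * Real.sin (A n (y : ℝ))) := by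
      rw [hB, Real.sin_sub, Real.sin_nat_mul_pi, Real.cos_nat_mul_pi]
      ring
    have h2 := R_sin n y
    have h3 := R_pos n (y : ℝ)
    have h4 : (0 : ℝ) ≤ (-1) ^ n * ((ab y (2 * n)).2 : ℝ) := by exact_mod_cast hb
    rw [← h2] at h4
    have h5 : 0 ≤ R n (y : ℝ) * ((-1) ^ n * Real.sin (A n (y : ℝ))) := by
      have : R n (y : ℝ) * ((-1) ^ n * Real.sin (A n (y : ℝ))) =
        (-1) ^ n * (R n (y : ℝ) * Real.sin (A n (y : ℝ))) := by ring
      rw [this]; exact h4
    have h6 := nonneg_of_mul_nonneg_right h5 h3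
    rw [h1]; linarith
  have hBpi : Real.pi ≤ B := by
    by_contra hcon
    push Not at hcon
    exact absurd (Real.sin_pos_of_pos_of_lt_pi hB0 hcon) (not_lt.mpr hsin)
  have : A n (y : ℝ) = n * Real.pi - B := by rw [hB]; ring
  rw [this]
  linarith

/-- `∏_{j<k} ((j+1/2)^2 + y^2)` -/
def pr (y : ℚ) : ℕ → ℚ
  | 0 => 1
  | k + 1 => pr y k * (((k : ℚ) + 1 / 2) ^ 2 + y ^ 2)

theorem R_sq (n : ℕ) (y : ℚ) : R n (y : ℝ) ^ 2 = (pr y (2 * n) : ℝ) := by
  have h : ∀ k : ℕ, (∏ j ∈ range k, Real.sqrt (((j : ℝ) + 1 / 2) ^ 2 + (y : ℝ) ^ 2)) ^ 2 =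
      (pr y k : ℝ) := by
    intro k
    induction k with
    | zero => simp [pr]
    | succ k ih =>
      rw [prod_range_succ, mul_pow, ih, pr, Real.sq_sqrt (by positivity)]
      push_cast
      ring
  exact h (2 * n)

theorem lower_special {n : ℕ} (hn : 1 ≤ n) (y : ℚ) (hy : 0 < y) (hy2 : (n : ℚ) ^ 2 ≤ 3 * y)
    (hb : 0 ≤ (-1) ^ n * (ab y (2 * n)).2)
    (hp : (2 * (n : ℚ) ^ 2 / (31415 / 10000)) ^ (4 * n) < pr y (2 * n))
    {y0 : ℝ} (hA : A n y0 = (n - 1) * Real.pi) :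
    (2 * (n : ℝ) ^ 2 / Real.pi) ^ (2 * n) < R n y0 := by
  have hy' : (0 : ℝ) < y := by exact_mod_cast hy
  have hn0 : (0 : ℝ) < n := by exact_mod_cast hn
  have h1 := A_le_of_ab y hy hy2 hb hn
  rw [← hA] at h1
  have h2 : (y : ℝ) ≤ y0 := (A_strictMono hn).le_iff_le.mp h1
  have h3 : R n (y : ℝ) ≤ R n y0 := R_mono n (by rw [abs_of_pos hy']; exact h2)
  refine lt_of_lt_of_le ?_ h3
  have h4 : ((2 * (n : ℝ) ^ 2 / Real.pi) ^ (2 * n)) ^ 2 < R n (y : ℝ) ^ 2 := by
    rw [R_sq, ← pow_mul]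
    have h5 : ((2 * (n : ℝ) ^ 2 / (31415 / 10000)) ^ (4 * n)) < (pr y (2 * n) : ℝ) := by
      have h6 := (Rat.cast_lt (K := ℝ)).mpr hp
      push_cast at h6
      exact h6
    refine lt_of_le_of_lt ?_ h5
    have e : 2 * n * 2 = 4 * n := by ring
    rw [e]
    refine pow_le_pow_left₀ (by positivity) ?_ _
    refine div_le_div_of_nonneg_left (by positivity) (by norm_num) ?_
    have := Real.pi_gt_d4
    linarith
  exact lt_of_pow_lt_pow_left₀ 2 (R_pos n _).le h4

/-- the lower bound for all `n ≥ 2` -/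
theorem lower {n : ℕ} (hn : 2 ≤ n) {y : ℝ} (hy : 0 < y) (hA : A n y = (n - 1) * Real.pi) :
    (2 * (n : ℝ) ^ 2 / Real.pi) ^ (2 * n) < R n y := by
  rcases Nat.lt_or_ge n 7 with h7 | h7
  · have hn' : n = 2 ∨ n = 3 ∨ n = 4 ∨ n = 5 ∨ n = 6 := by omega
    rcases hn' with rfl | rfl | rfl | rfl | rfl
    · exact lower_special (by norm_num) (33 / 20) (by norm_num) (by norm_num)
        (by norm_num [ab]) (by norm_num [pr]) hA
    · exact lower_special (by norm_num) (19 / 4) (by norm_num) (by norm_num)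
        (by norm_num [ab]) (by norm_num [pr]) hA
    · exact lower_special (by norm_num) (1837 / 200) (by norm_num) (by norm_num)
        (by norm_num [ab]) (by norm_num [pr]) hA
    · exact lower_special (by norm_num) (14899 / 1000) (by norm_num) (by norm_num)
        (by norm_num [ab]) (by norm_num [pr]) hA
    · exact lower_special (by norm_num) (2189 / 100) (by norm_num) (by norm_num)
        (by norm_num [ab]) (by norm_num [pr]) hA
  · have h1 := lower7 h7 hy hA
    have hn0 : (0 : ℝ) < n := by exact_mod_cast (by omega : 0 < n)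
    have hpi := Real.pi_pos
    have h2 : Real.log ((2 * (n : ℝ) ^ 2 / Real.pi) ^ (2 * n)) < Real.log (R n y) := by
      rw [Real.log_pow]
      push_cast
      exact h1
    exact (Real.log_lt_log_iff (by positivity) (R_pos n y)).mp h2

theorem A_one_zero {y : ℝ} (hA : A 1 y = ((1 : ℕ) - 1 : ℝ) * Real.pi) : y = 0 := by
  have h1 : A 1 y = A 1 0 := by rw [hA, A_zero]; simp
  exact (A_strictMono (le_refl 1)).injective h1

theorem R_one : R 1 0 = 3 / 4 := by
  unfold R
  have h1 : Real.sqrt ((((0 : ℕ) : ℝ) + 1 / 2) ^ 2 + 0 ^ 2) = 1 / 2 := by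
    rw [show (((0 : ℕ) : ℝ) + 1 / 2) ^ 2 + 0 ^ 2 = (1 / 2 : ℝ) ^ 2 by norm_num]
    exact Real.sqrt_sq (by norm_num)
  have h2 : Real.sqrt ((((1 : ℕ) : ℝ) + 1 / 2) ^ 2 + 0 ^ 2) = 3 / 2 := by
    rw [show (((1 : ℕ) : ℝ) + 1 / 2) ^ 2 + 0 ^ 2 = (3 / 2 : ℝ) ^ 2 by norm_num]
    exact Real.sqrt_sq (by norm_num)
  rw [show 2 * 1 = 2 by norm_num, prod_range_succ, prod_range_succ, prod_range_zero, h1, h2]
  norm_num

/-- **Main theorem.** -/
theorem main {n : ℕ} (hn : 1 ≤ n) {cn : ℝ} (h : IsThreshold n cn) :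
    0 < cn ∧ 2 * (n : ℝ) ^ 2 / Real.pi < cn ^ (1 / (2 * (n : ℝ))) ∧
      cn ^ (1 / (2 * (n : ℝ))) < n / Real.sin (Real.pi / (2 * n)) := by
  obtain ⟨y0, hy0, hA, rfl⟩ := threshold_eq hn h
  have hn0 : (0 : ℝ) < n := by exact_mod_cast hn
  have hpi := Real.pi_pos
  have hR := R_pos n y0
  refine ⟨hR, ?_⟩
  have hup : R n y0 < (n / Real.sin (Real.pi / (2 * n))) ^ (2 * n) ∧
      (2 * (n : ℝ) ^ 2 / Real.pi) ^ (2 * n) < R n y0 := by
    rcases Nat.lt_or_ge n 2 with h2 | h2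
    · obtain rfl : n = 1 := by omega
      obtain rfl := A_one_zero hA
      rw [R_one]
      constructor
      · norm_num
      · have h3 := Real.pi_gt_three
        have h4 : 2 * ((1 : ℕ) : ℝ) ^ 2 / Real.pi < 2 / 3 := by
          rw [div_lt_div_iff₀ hpi (by norm_num)]
          push_cast
          linarith
        have h5 : (2 * ((1 : ℕ) : ℝ) ^ 2 / Real.pi) ^ (2 * 1) < (2 / 3) ^ (2 * 1) :=
          pow_lt_pow_left₀ h4 (by positivity) (by norm_num)
        refine h5.trans ?_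
        norm_num
    · have hy : 0 < y0 := by
        rcases hy0.lt_or_eq with h3 | h3
        · exact h3
        · rw [← h3, A_zero] at hA
          have h4 : (2 : ℝ) ≤ n := by exact_mod_cast h2
          nlinarith
      refine ⟨?_, lower h2 hy hA⟩
      have h3 := upper h2 hy hA
      have hsφ : 0 < Real.sin (Real.pi / (2 * n)) := by
        refine Real.sin_pos_of_pos_of_lt_pi (by positivity) ?_
        rw [div_lt_iff₀ (by positivity)]
        have h4 : (2 : ℝ) ≤ n := by exact_mod_cast h2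
        nlinarith
      have h4 : Real.log (R n y0) < Real.log ((n / Real.sin (Real.pi / (2 * n))) ^ (2 * n)) := by
        rw [Real.log_pow]
        push_cast
        exact h3
      exact (Real.log_lt_log_iff hR (by positivity)).mp h4
  have hsφ : 0 < Real.sin (Real.pi / (2 * n)) := by
    refine Real.sin_pos_of_pos_of_lt_pi (by positivity) ?_
    rw [div_lt_iff₀ (by positivity)]
    have h4 : (1 : ℝ) ≤ n := by exact_mod_cast hn
    nlinarith
  have hroot : ∀ a : ℝ, 0 < a → (a ^ (2 * n)) ^ (1 / (2 * (n : ℝ))) = a := by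
    intro a ha
    rw [← Real.rpow_natCast, ← Real.rpow_mul ha.le]
    have : ((2 * n : ℕ) : ℝ) * (1 / (2 * (n : ℝ))) = 1 := by
      push_cast; field_simp
    rw [this, Real.rpow_one]
  constructor
  · rw [← hroot (2 * (n : ℝ) ^ 2 / Real.pi) (by positivity)]
    exact Real.rpow_lt_rpow (by positivity) hup.2 (by positivity)
  · rw [← hroot (n / Real.sin (Real.pi / (2 * n))) (by positivity)]
    exact Real.rpow_lt_rpow hR.le hup.1 (by positivity)

end Pool.Agent.R256.Thr
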