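import Mathlib

/-!
Upper semi-Fredholm spectra of weighted composition operators, I: the local functions.
-/

set_option autoImplicit false

open Filter Topology Metric

namespace Pool.Agent.R256.Usf

/-- the exponent `β + iτ` -/
noncomputable def cc (τ β : ℝ) : ℂ := (β : ℂ) + (τ : ℂ) * Complex.I

/-- the basic function `p^(β²+iτ) - p^(β+iτ)` -/
noncomputable def F (τ β : ℝ) (p : ℂ) : ℂ := p ^ cc τ (β ^ 2) - p ^ cc τ β

/-- `exp(π|τ|/2)` -/
noncomputable def E (τ : ℝ) : ℝ := Real.exp (Real.pi / 2 * |τ|)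

noncomputable def Q (u : ℂ) : ℂ := (1 - u) / 2

theorem E_pos (τ : ℝ) : 0 < E τ := Real.exp_pos _

theorem one_le_E (τ : ℝ) : 1 ≤ E τ := Real.one_le_exp (by positivity)

theorem cc_re (τ β : ℝ) : (cc τ β).re = β := by simp [cc]

theorem cc_im (τ β : ℝ) : (cc τ β).im = τ := by simp [cc]

theorem cc_ne {τ β : ℝ} (hβ : 0 < β) : cc τ β ≠ 0 := by
  intro h
  have := congrArg Complex.re h
  rw [cc_re] at this
  simp at this
  linarith

theorem norm_cpow_le {τ β : ℝ} (hβ : 0 < β) {p : ℂ} (h0 : 0 ≤ p.re) (h1 : ‖p‖ ≤ 1) :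
    ‖p ^ cc τ β‖ ≤ E τ := by
  rcases eq_or_ne p 0 with rfl | hp
  · rw [Complex.zero_cpow (cc_ne hβ), norm_zero]; exact (E_pos τ).le
  · rw [Complex.norm_cpow_of_ne_zero hp, cc_re, cc_im, div_eq_mul_inv, ← Real.exp_neg]
    have h2 : ‖p‖ ^ β ≤ 1 := Real.rpow_le_one (norm_nonneg _) h1 hβ.le
    have h3 : Real.exp (-(p.arg * τ)) ≤ E τ := by
      refine Real.exp_le_exp.mpr ?_
      have h4 : |p.arg * τ| ≤ Real.pi / 2 * |τ| := by
        rw [abs_mul]
        exact mul_le_mul_of_nonneg_right (Complex.abs_arg_le_pi_div_two_iff.mpr h0) (abs_nonneg _)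
      linarith [neg_abs_le (p.arg * τ)]
    calc ‖p‖ ^ β * Real.exp (-(p.arg * τ)) ≤ 1 * E τ :=
          mul_le_mul h2 h3 (Real.exp_pos _).le zero_le_one
      _ = E τ := one_mul _

theorem norm_F_le {τ β : ℝ} (hβ : 0 < β) {p : ℂ} (h0 : 0 ≤ p.re) (h1 : ‖p‖ ≤ 1) :
    ‖F τ β p‖ ≤ 2 * E τ := by
  unfold F
  refine (norm_sub_le _ _).trans ?_
  have a1 := norm_cpow_le (τ := τ) (by positivity : 0 < β ^ 2) h0 h1
  have a2 := norm_cpow_le (τ := τ) hβ h0 h1
  linarith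

theorem F_eq_exp {τ β : ℝ} {p : ℂ} (hp : p ≠ 0) :
    F τ β p = Complex.exp (Complex.log p * (τ * Complex.I)) *
      (Complex.exp (Complex.log p * (β ^ 2 : ℝ)) - Complex.exp (Complex.log p * β)) := by
  unfold F cc
  rw [Complex.cpow_def_of_ne_zero hp, Complex.cpow_def_of_ne_zero hp, mul_sub, ← Complex.exp_add,
    ← Complex.exp_add]
  congr 2 <;> ring

theorem norm_log_le {κ : ℝ} (hκ : 0 < κ) {p : ℂ} (h0 : 0 ≤ p.re) (h1 : ‖p‖ ≤ 1) (h2 : κ ≤ ‖p‖) :
    ‖Complex.log p‖ ≤ -Real.log κ + Real.pi / 2 := by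
  have e : Complex.log p = (Real.log ‖p‖ : ℂ) + (p.arg : ℂ) * Complex.I := rfl
  rw [e]
  refine (norm_add_le _ _).trans ?_
  rw [norm_mul, Complex.norm_I, mul_one, Complex.norm_real, Complex.norm_real, Real.norm_eq_abs,
    Real.norm_eq_abs]
  have h3 : |p.arg| ≤ Real.pi / 2 := Complex.abs_arg_le_pi_div_two_iff.mpr h0
  have h4 : |Real.log ‖p‖| ≤ -Real.log κ := by
    rw [abs_of_nonpos (Real.log_nonpos (norm_nonneg _) h1)]
    have := Real.log_le_log hκ h2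
    linarith
  linarith

theorem norm_exp_it {τ : ℝ} {p : ℂ} (h0 : 0 ≤ p.re) :
    ‖Complex.exp (Complex.log p * (τ * Complex.I))‖ ≤ E τ := by
  rw [Complex.norm_exp]
  refine Real.exp_le_exp.mpr ?_
  have e : (Complex.log p * (τ * Complex.I)).re = -(p.arg * τ) := by
    simp [Complex.mul_re, Complex.log_im]
  rw [e]
  have h4 : |p.arg * τ| ≤ Real.pi / 2 * |τ| := by
    rw [abs_mul]
    exact mul_le_mul_of_nonneg_right (Complex.abs_arg_le_pi_div_two_iff.mpr h0) (abs_nonneg _)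
  linarith [neg_abs_le (p.arg * τ)]

/-- away from `0` the function `F` is small -/
theorem F_small (τ : ℝ) {κ : ℝ} (hκ : 0 < κ) {ε : ℝ} (hε : 0 < ε) :
    ∃ β0 : ℝ, 0 < β0 ∧ β0 ≤ 1 ∧ ∀ β : ℝ, 0 < β → β ≤ β0 → ∀ p : ℂ, 0 ≤ p.re → ‖p‖ ≤ 1 →
      κ ≤ ‖p‖ → ‖F τ β p‖ ≤ ε := by
  set K : ℝ := |-Real.log κ + Real.pi / 2| + 1 with hK
  have hK1 : 1 ≤ K := by rw [hK]; linarith [abs_nonneg (-Real.log κ + Real.pi / 2)]
  have hE := E_pos τ
  refine ⟨min (1 / K) (ε / (4 * E τ * K)), by positivity, ?_, ?_⟩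
  · refine (min_le_left _ _).trans ?_
    rw [div_le_one (by linarith)]
    exact hK1
  · intro β hβ hβ0 p h0 h1 h2
    have hp : p ≠ 0 := by
      intro h; rw [h, norm_zero] at h2; linarith
    have hβ1 : β ≤ 1 / K := hβ0.trans (min_le_left _ _)
    have hβ2 : β ≤ ε / (4 * E τ * K) := hβ0.trans (min_le_right _ _)
    have hβK : β * K ≤ 1 := by rwa [le_div_iff₀ (by linarith)] at hβ1
    have hβle : β ≤ 1 := by nlinarith
    have hβE : β * (4 * E τ * K) ≤ ε := by rwa [le_div_iff₀ (by positivity)] at hβ2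
    have hL : ‖Complex.log p‖ ≤ K := by
      have := norm_log_le hκ h0 h1 h2
      have h3 := le_abs_self (-Real.log κ + Real.pi / 2)
      linarith
    rw [F_eq_exp hp, norm_mul]
    have a1 : ‖Complex.log p * β‖ ≤ β * K := by
      rw [norm_mul, Complex.norm_real, Real.norm_of_nonneg hβ.le]
      nlinarith [norm_nonneg (Complex.log p)]
    have a2 : ‖Complex.log p * (β ^ 2 : ℝ)‖ ≤ β * K := by
      rw [norm_mul, Complex.norm_real, Real.norm_of_nonneg (by positivity)]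
      have : β ^ 2 ≤ β := by nlinarith
      nlinarith [norm_nonneg (Complex.log p)]
    have b1 := Complex.norm_exp_sub_one_le (a1.trans hβK)
    have b2 := Complex.norm_exp_sub_one_le (a2.trans hβK)
    have c1 : ‖Complex.exp (Complex.log p * (β ^ 2 : ℝ)) - Complex.exp (Complex.log p * β)‖ ≤
        4 * (β * K) := by
      have e : Complex.exp (Complex.log p * (β ^ 2 : ℝ)) - Complex.exp (Complex.log p * β) =
        (Complex.exp (Complex.log p * (β ^ 2 : ℝ)) - 1) - (Complex.exp (Complex.log p * β) - 1) := by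
        ring
      rw [e]
      refine (norm_sub_le _ _).trans ?_
      linarith
    calc _ ≤ E τ * (4 * (β * K)) := mul_le_mul (norm_exp_it h0) c1 (norm_nonneg _) hE.le
      _ = β * (4 * E τ * K) := by ring
      _ ≤ ε := hβE

theorem Q_re {u : ℂ} (hu : ‖u‖ ≤ 1) : 0 ≤ (Q u).re := by
  unfold Q
  have : u.re ≤ 1 := (Complex.re_le_norm u).trans hu
  simp
  linarith

theorem Q_norm {u : ℂ} (hu : ‖u‖ ≤ 1) : ‖Q u‖ ≤ 1 := by
  unfold Q
  rw [norm_div]
  have : ‖(1 : ℂ) - u‖ ≤ 2 := by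
    refine (norm_sub_le _ _).trans ?_
    rw [norm_one]; linarith
  simp
  linarith

theorem Q_neg (u : ℂ) : Q (-u) = 1 - Q u := by unfold Q; ring

theorem Q_sq (u : ℂ) : Q (u ^ 2) = 2 * (Q u * Q (-u)) := by unfold Q; ring

theorem Q_re_pos {u : ℂ} (hu : ‖u‖ ≤ 1) (h : Q u ≠ 0) : 0 < (Q u).re := by
  rcases (Q_re hu).lt_or_eq with h1 | h1
  · exact h1
  · exfalso
    apply h
    unfold Q at h1 ⊢
    have h2 : u.re = 1 := by simp at h1; linarith
    have h3 : u.im = 0 := by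
      have h4 : u.re ^ 2 + u.im ^ 2 ≤ 1 := by
        have h5 : ‖u‖ ^ 2 ≤ 1 := pow_le_one₀ (norm_nonneg _) hu
        rw [← Complex.normSq_eq_norm_sq, Complex.normSq_apply] at h5
        nlinarith
      rw [h2] at h4
      nlinarith
    have h4 : u = 1 := Complex.ext (by rw [h2]; simp) (by rw [h3]; simp)
    rw [h4]; simp

theorem F_zero {τ β : ℝ} (hβ : 0 < β) : F τ β 0 = 0 := by
  unfold F
  rw [Complex.zero_cpow (cc_ne hβ), Complex.zero_cpow (cc_ne (by positivity)), sub_zero]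

theorem F_one (τ β : ℝ) : F τ β 1 = 0 := by
  unfold F
  rw [Complex.one_cpow, Complex.one_cpow, sub_self]

/-- `2^{iτ}` -/
noncomputable def tw (τ : ℝ) : ℂ := Complex.exp ((Real.log 2 * τ : ℝ) * Complex.I)

theorem norm_tw (τ : ℝ) : ‖tw τ‖ = 1 := Complex.norm_exp_ofReal_mul_I _

/-- comparison near `0` -/
theorem F_near {τ β : ℝ} (hβ : 0 < β) (hβ1 : β ≤ 1) {u : ℂ} (hu : ‖u‖ ≤ 1) {κ : ℝ}
    (hκ : κ ≤ 1 / 2) (h : ‖Q u‖ ≤ κ) (hsm : β + (1 + |τ|) * (3 / 2 * κ) ≤ 1) :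
    ‖F τ β (Q (u ^ 2)) - tw τ * F τ β (Q u)‖ ≤ 4 * E τ * (β + (1 + |τ|) * (3 / 2 * κ)) := by
  have hE := E_pos τ
  have hκ0 : 0 ≤ κ := (norm_nonneg _).trans h
  have hrhs : 0 ≤ 4 * E τ * (β + (1 + |τ|) * (3 / 2 * κ)) := by positivity
  rcases eq_or_ne (Q u) 0 with hp | hp
  · rw [Q_sq, hp, zero_mul, mul_zero, F_zero hβ, mul_zero, sub_zero, norm_zero]
    exact hrhs
  have hu' : ‖-u‖ ≤ 1 := by rwa [norm_neg]
  have hp'n : Q (-u) = 1 + (-Q u) := by rw [Q_neg]; ring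
  have hp' : Q (-u) ≠ 0 := by
    intro h2
    rw [Q_neg] at h2
    have h3 : Q u = 1 := by linear_combination -h2
    rw [h3, norm_one] at h
    linarith
  have hre := Q_re_pos hu hp
  have hre' := Q_re_pos hu' hp'
  set p := Q u with hpdef
  set p' := Q (-u) with hp'def
  have harg : p.arg + p'.arg ∈ Set.Ioc (-Real.pi) Real.pi := by
    have a1 : |p.arg| < Real.pi / 2 := Complex.abs_arg_lt_pi_div_two_iff.mpr (Or.inl hre)
    have a2 : |p'.arg| < Real.pi / 2 := Complex.abs_arg_lt_pi_div_two_iff.mpr (Or.inl hre')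
    rw [abs_lt] at a1 a2
    constructor <;> linarith [a1.1, a1.2, a2.1, a2.2]
  have hlog : Complex.log (Q (u ^ 2)) = (Real.log 2 : ℂ) + Complex.log p + Complex.log p' := by
    rw [Q_sq, show (2 : ℂ) = ((2 : ℝ) : ℂ) by norm_num,
      Complex.log_ofReal_mul (by norm_num) (mul_ne_zero hp hp'), Complex.log_mul hp hp' harg,
      add_assoc]
  have hq : Q (u ^ 2) ≠ 0 := by rw [Q_sq]; exact mul_ne_zero two_ne_zero (mul_ne_zero hp hp')
  have hlogp' : ‖Complex.log p'‖ ≤ 3 / 2 * κ := by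
    rw [hp'n]
    refine (Complex.norm_log_one_add_half_le_self (by rw [norm_neg]; exact h.trans hκ)).trans ?_
    rw [norm_neg]
    linarith
  have key : ∀ γ : ℝ, 0 < γ → γ ≤ β →
      ‖Q (u ^ 2) ^ cc τ γ - tw τ * p ^ cc τ γ‖ ≤ 2 * E τ * (β + (1 + |τ|) * (3 / 2 * κ)) := by
    intro γ hγ hγβ
    have e1 : Q (u ^ 2) ^ cc τ γ = tw τ * (p ^ cc τ γ *
        Complex.exp ((Real.log 2 : ℂ) * γ + cc τ γ * Complex.log p')) := by
      rw [Complex.cpow_def_of_ne_zero hq, Complex.cpow_def_of_ne_zero hp, hlog]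
      unfold tw
      rw [← Complex.exp_add, ← Complex.exp_add]
      congr 1
      unfold cc
      push_cast
      ring
    have e2 : Q (u ^ 2) ^ cc τ γ - tw τ * p ^ cc τ γ = tw τ * (p ^ cc τ γ *
        (Complex.exp ((Real.log 2 : ℂ) * γ + cc τ γ * Complex.log p') - 1)) := by
      rw [e1]; ring
    have e3 : ‖(Real.log 2 : ℂ) * γ + cc τ γ * Complex.log p'‖ ≤
        β + (1 + |τ|) * (3 / 2 * κ) := by
      refine (norm_add_le _ _).trans ?_
      have g1 : ‖(Real.log 2 : ℂ) * γ‖ ≤ β := by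
        rw [← Complex.ofReal_mul, Complex.norm_real, Real.norm_of_nonneg
          (mul_nonneg (Real.log_nonneg (by norm_num)) hγ.le)]
        have := Real.log_two_lt_d9
        nlinarith
      have g2 : ‖cc τ γ‖ ≤ 1 + |τ| := by
        unfold cc
        refine (norm_add_le _ _).trans ?_
        rw [norm_mul, Complex.norm_I, mul_one, Complex.norm_real, Complex.norm_real,
          Real.norm_of_nonneg hγ.le, Real.norm_eq_abs]
        linarith
      rw [norm_mul (cc τ γ)]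
      have g3 : ‖cc τ γ‖ * ‖Complex.log p'‖ ≤ (1 + |τ|) * (3 / 2 * κ) :=
        mul_le_mul g2 hlogp' (norm_nonneg _) (by positivity)
      linarith
    have e4 := Complex.norm_exp_sub_one_le (e3.trans hsm)
    rw [e2, norm_mul, norm_tw, one_mul, norm_mul]
    have e5 := norm_cpow_le (τ := τ) hγ (Q_re hu) (Q_norm hu)
    calc _ ≤ E τ * (2 * (β + (1 + |τ|) * (3 / 2 * κ))) :=
          mul_le_mul e5 (e4.trans (by linarith)) (norm_nonneg _) hE.le
      _ = _ := by ring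
  unfold F
  have e : Q (u ^ 2) ^ cc τ (β ^ 2) - Q (u ^ 2) ^ cc τ β - tw τ * (p ^ cc τ (β ^ 2) - p ^ cc τ β) =
      (Q (u ^ 2) ^ cc τ (β ^ 2) - tw τ * p ^ cc τ (β ^ 2)) -
        (Q (u ^ 2) ^ cc τ β - tw τ * p ^ cc τ β) := by ring
  rw [e]
  refine (norm_sub_le _ _).trans ?_
  have k1 := key (β ^ 2) (by positivity) (by nlinarith)
  have k2 := key β hβ le_rfl
  linarith

/-- **Key uniform limit.** -/
theorem G_small (τ : ℝ) {ε : ℝ} (hε : 0 < ε) :
    ∃ β0 : ℝ, 0 < β0 ∧ β0 ≤ 1 ∧ ∀ β : ℝ, 0 < β → β ≤ β0 → ∀ u : ℂ, ‖u‖ ≤ 1 →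
      ‖F τ β (Q (u ^ 2)) - tw τ * (F τ β (Q u) + F τ β (Q (-u)))‖ ≤ ε := by
  have hE := E_pos τ
  set κ : ℝ := min (1 / 2) (min (1 / (4 * (1 + |τ|))) (ε / (24 * E τ * (1 + |τ|)))) with hκd
  have hκ0 : 0 < κ := by
    have := abs_nonneg τ
    refine lt_min (by norm_num) (lt_min (by positivity) (by positivity))
  have hκ1 : κ ≤ 1 / 2 := min_le_left _ _
  have hκ2 : κ ≤ 1 / (4 * (1 + |τ|)) := (min_le_right _ _).trans (min_le_left _ _)
  have hκ3 : κ ≤ ε / (24 * E τ * (1 + |τ|)) := (min_le_right _ _).trans (min_le_right _ _)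
  have ht : 0 < 1 + |τ| := by have := abs_nonneg τ; linarith
  rw [le_div_iff₀ (by positivity)] at hκ2 hκ3
  obtain ⟨β1, h10, h11, hβ1⟩ := F_small τ hκ0 (show (0 : ℝ) < ε / 3 by positivity)
  refine ⟨min β1 (min (1 / 2) (ε / (16 * E τ))), ?_, ?_, ?_⟩
  · exact lt_min h10 (lt_min (by norm_num) (by positivity))
  · exact (min_le_left _ _).trans h11
  intro β hβ hβ0
  have hβa : β ≤ β1 := hβ0.trans (min_le_left _ _)
  have hβb : β ≤ 1 / 2 := hβ0.trans ((min_le_right _ _).trans (min_le_left _ _))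
  have hβc : β ≤ ε / (16 * E τ) := hβ0.trans ((min_le_right _ _).trans (min_le_right _ _))
  rw [le_div_iff₀ (by positivity)] at hβc
  have main : ∀ u : ℂ, ‖u‖ ≤ 1 → ‖Q u‖ ≤ ‖Q (-u)‖ →
      ‖F τ β (Q (u ^ 2)) - tw τ * (F τ β (Q u) + F τ β (Q (-u)))‖ ≤ ε := by
    intro u hu hle
    have hu' : ‖-u‖ ≤ 1 := by rwa [norm_neg]
    have hu2 : ‖u ^ 2‖ ≤ 1 := by rw [norm_pow]; exact pow_le_one₀ (norm_nonneg _) hu
    have hhalf : 1 / 2 ≤ ‖Q (-u)‖ := by
      have h1 : (1 : ℝ) ≤ ‖Q u‖ + ‖Q (-u)‖ := by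
        have h2 : Q u + Q (-u) = 1 := by rw [Q_neg]; ring
        have h3 := norm_add_le (Q u) (Q (-u))
        rw [h2, norm_one] at h3
        exact h3
      linarith
    have hFm : ‖F τ β (Q (-u))‖ ≤ ε / 3 :=
      hβ1 β hβ hβa _ (Q_re hu') (Q_norm hu') (hκ1.trans hhalf)
    rcases le_total ‖Q u‖ κ with h | h
    · have hsm : β + (1 + |τ|) * (3 / 2 * κ) ≤ 1 := by nlinarith
      have h1 := F_near hβ (by linarith) hu hκ1 h hsm
      have h2 : 4 * E τ * (β + (1 + |τ|) * (3 / 2 * κ)) ≤ ε / 2 := by nlinarith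
      have e : F τ β (Q (u ^ 2)) - tw τ * (F τ β (Q u) + F τ β (Q (-u))) =
          (F τ β (Q (u ^ 2)) - tw τ * F τ β (Q u)) - tw τ * F τ β (Q (-u)) := by ring
      rw [e]
      refine (norm_sub_le _ _).trans ?_
      rw [norm_mul, norm_tw, one_mul]
      linarith
    · have h1 : ‖F τ β (Q u)‖ ≤ ε / 3 := hβ1 β hβ hβa _ (Q_re hu) (Q_norm hu) h
      have h2 : κ ≤ ‖Q (u ^ 2)‖ := by
        rw [Q_sq, norm_mul, norm_mul]
        have : ‖(2 : ℂ)‖ = 2 := by simp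
        rw [this]
        nlinarith
      have h3 : ‖F τ β (Q (u ^ 2))‖ ≤ ε / 3 := hβ1 β hβ hβa _ (Q_re hu2) (Q_norm hu2) h2
      refine (norm_sub_le _ _).trans ?_
      rw [norm_mul, norm_tw, one_mul]
      have := norm_add_le (F τ β (Q u)) (F τ β (Q (-u)))
      linarith
  intro u hu
  rcases le_total ‖Q u‖ ‖Q (-u)‖ with h | h
  · exact main u hu h
  · have h1 := main (-u) (by rwa [norm_neg]) (by rwa [neg_neg])
    rw [neg_neg, neg_sq, add_comm (F τ β (Q (-u)))] at h1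
    exact h1

/-- lower bound for `F` near `0` -/
theorem F_large (τ : ℝ) {β : ℝ} (hβ : 0 < β) (hβ1 : β ≤ 1 / 8) :
    1 / 2 ≤ ‖F τ β ((Real.exp (-(1 / (4 * β ^ 2))) : ℝ) : ℂ)‖ := by
  set p : ℝ := Real.exp (-(1 / (4 * β ^ 2))) with hp
  have hp0 : 0 < p := Real.exp_pos _
  have hpne : (p : ℂ) ≠ 0 := by exact_mod_cast hp0.ne'
  rw [F_eq_exp hpne, norm_mul]
  have hlog : Complex.log (p : ℂ) = ((-(1 / (4 * β ^ 2)) : ℝ) : ℂ) := by
    rw [← Complex.ofReal_log hp0.le, hp, Real.log_exp]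
  rw [hlog]
  have e1 : ‖Complex.exp (((-(1 / (4 * β ^ 2)) : ℝ) : ℂ) * (τ * Complex.I))‖ = 1 := by
    have : ((-(1 / (4 * β ^ 2)) : ℝ) : ℂ) * (τ * Complex.I) =
      ((-(1 / (4 * β ^ 2)) * τ : ℝ) : ℂ) * Complex.I := by push_cast; ring
    rw [this]; exact Complex.norm_exp_ofReal_mul_I _
  rw [e1, one_mul, ← Complex.ofReal_mul, ← Complex.ofReal_mul, ← Complex.ofReal_exp,
    ← Complex.ofReal_exp, ← Complex.ofReal_sub, Complex.norm_real]
  have e2 : -(1 / (4 * β ^ 2)) * β ^ 2 = -(1 / 4) := by field_simp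
  have e3 : -(1 / (4 * β ^ 2)) * β ≤ -2 := by
    have : -(1 / (4 * β ^ 2)) * β = -(1 / (4 * β)) := by field_simp
    rw [this]
    have h2 : (2 : ℝ) ≤ 1 / (4 * β) := by
      rw [le_div_iff₀ (by positivity)]; linarith
    linarith
  rw [e2]
  have f1 : (3 / 4 : ℝ) ≤ Real.exp (-(1 / 4)) := by
    have := Real.add_one_le_exp (-(1 / 4) : ℝ)
    linarith
  have f2 : Real.exp (-(1 / (4 * β ^ 2)) * β) ≤ 1 / 4 := by
    refine (Real.exp_le_exp.mpr e3).trans ?_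
    rw [Real.exp_neg, show (1 / 4 : ℝ) = 4⁻¹ by norm_num]
    refine inv_anti₀ (by norm_num) ?_
    have h1 := Real.add_one_le_exp (1 : ℝ)
    have h2 : Real.exp 2 = Real.exp 1 * Real.exp 1 := by rw [← Real.exp_add]; norm_num
    rw [h2]
    nlinarith
  refine le_trans ?_ (le_abs_self _)
  linarith

/-! ### The bump functions -/

/-- the bump function at `x` -/
noncomputable def h (τ β : ℝ) (x z : ℂ) : ℂ := F τ β (Q ((starRingEnd ℂ) x * z))

theorem norm_conj_mul {x z : ℂ} (hx : ‖x‖ = 1) (hz : ‖z‖ ≤ 1) : ‖(starRingEnd ℂ) x * z‖ ≤ 1 := by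
  rw [norm_mul, Complex.norm_conj, hx, one_mul]; exact hz

theorem norm_h_le {τ β : ℝ} (hβ : 0 < β) {x z : ℂ} (hx : ‖x‖ = 1) (hz : ‖z‖ ≤ 1) :
    ‖h τ β x z‖ ≤ 2 * E τ :=
  norm_F_le hβ (Q_re (norm_conj_mul hx hz)) (Q_norm (norm_conj_mul hx hz))

theorem norm_Q_conj {x z : ℂ} (hx : ‖x‖ = 1) : ‖Q ((starRingEnd ℂ) x * z)‖ = ‖z - x‖ / 2 := by
  unfold Q
  rw [norm_div]
  have e : (1 : ℂ) - (starRingEnd ℂ) x * z = (starRingEnd ℂ) x * (x - z) := by
    have h1 : (starRingEnd ℂ) x * x = 1 := by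
      rw [mul_comm, Complex.mul_conj, Complex.normSq_eq_norm_sq, hx]; simp
    rw [mul_sub, h1]
  rw [e, norm_mul, Complex.norm_conj, hx, one_mul, norm_sub_rev]
  simp

theorem h_small (τ : ℝ) {κ : ℝ} (hκ : 0 < κ) {ε : ℝ} (hε : 0 < ε) :
    ∃ β0 : ℝ, 0 < β0 ∧ β0 ≤ 1 ∧ ∀ β : ℝ, 0 < β → β ≤ β0 → ∀ x z : ℂ, ‖x‖ = 1 → ‖z‖ ≤ 1 →
      κ ≤ ‖z - x‖ → ‖h τ β x z‖ ≤ ε := by
  obtain ⟨β0, h0, h1, hb⟩ := F_small τ (half_pos hκ) hε
  refine ⟨β0, h0, h1, fun β hβ hβ0 x z hx hz hd => ?_⟩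
  refine hb β hβ hβ0 _ (Q_re (norm_conj_mul hx hz)) (Q_norm (norm_conj_mul hx hz)) ?_
  rw [norm_Q_conj hx]
  linarith

/-- multiplication by a continuous function acts near `x` as multiplication by its value -/
theorem mul_h_small {w : ℂ → ℂ} (hw : ContinuousOn w (closedBall 0 1)) (τ : ℝ) {x : ℂ}
    (hx : ‖x‖ = 1) {ε : ℝ} (hε : 0 < ε) :
    ∃ β0 : ℝ, 0 < β0 ∧ β0 ≤ 1 ∧ ∀ β : ℝ, 0 < β → β ≤ β0 → ∀ z : ℂ, ‖z‖ ≤ 1 →
      ‖(w z - w x) * h τ β x z‖ ≤ ε := by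
  have hE := E_pos τ
  obtain ⟨B, hB⟩ : ∃ B, ∀ z ∈ closedBall (0 : ℂ) 1, ‖w z‖ ≤ B :=
    (isCompact_closedBall (0 : ℂ) 1).exists_bound_of_continuousOn hw
  have hxm : x ∈ closedBall (0 : ℂ) 1 := by rw [mem_closedBall_zero_iff, hx]
  have hB0 : 0 ≤ B := (norm_nonneg _).trans (hB x hxm)
  obtain ⟨δ, hδ, hδ2⟩ := Metric.continuousWithinAt_iff.mp (hw x hxm) (ε / (2 * E τ)) (by positivity)
  obtain ⟨β0, h0, h1, hb⟩ := h_small τ hδ (show 0 < ε / (2 * B + 1) by positivity)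
  refine ⟨β0, h0, h1, fun β hβ hβ0 z hz => ?_⟩
  have hzm : z ∈ closedBall (0 : ℂ) 1 := by rwa [mem_closedBall_zero_iff]
  rw [norm_mul]
  rcases lt_or_ge (dist z x) δ with h | h
  · have a1 := hδ2 hzm h
    rw [dist_eq_norm] at a1
    have a2 := norm_h_le (τ := τ) hβ hx hz
    calc ‖w z - w x‖ * ‖Usf.h τ β x z‖ ≤ ε / (2 * E τ) * (2 * E τ) :=
          mul_le_mul a1.le a2 (norm_nonneg _) (by positivity)
      _ = ε := by field_simp
  · rw [dist_eq_norm] at h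
    have a1 := hb β hβ hβ0 x z hx hz h
    have a2 : ‖w z - w x‖ ≤ 2 * B + 1 := by
      refine (norm_sub_le _ _).trans ?_
      have := hB z hzm
      have := hB x hxm
      linarith
    calc ‖w z - w x‖ * ‖Usf.h τ β x z‖ ≤ (2 * B + 1) * (ε / (2 * B + 1)) :=
          mul_le_mul a2 a1 (norm_nonneg _) (by positivity)
      _ = ε := by field_simp

/-- **Local action of `T`.** -/
theorem T_h_small {w : ℂ → ℂ} (hw : ContinuousOn w (closedBall 0 1)) (τ : ℝ) {s : ℂ}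
    (hs : ‖s‖ = 1) {ε : ℝ} (hε : 0 < ε) :
    ∃ β0 : ℝ, 0 < β0 ∧ β0 ≤ 1 ∧ ∀ β : ℝ, 0 < β → β ≤ β0 → ∀ z : ℂ, ‖z‖ ≤ 1 →
      ‖w z * h τ β (s ^ 2) (z ^ 2) - tw τ * (w s * h τ β s z + w (-s) * h τ β (-s) z)‖ ≤ ε := by
  obtain ⟨B, hB⟩ : ∃ B, ∀ z ∈ closedBall (0 : ℂ) 1, ‖w z‖ ≤ B :=
    (isCompact_closedBall (0 : ℂ) 1).exists_bound_of_continuousOn hw
  have hsm : s ∈ closedBall (0 : ℂ) 1 := by rw [mem_closedBall_zero_iff, hs]
  have hB0 : 0 ≤ B := (norm_nonneg _).trans (hB s hsm)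
  have hs' : ‖-s‖ = 1 := by rwa [norm_neg]
  obtain ⟨β1, h10, h11, hb1⟩ := G_small τ (show 0 < ε / (3 * (B + 1)) by positivity)
  obtain ⟨β2, h20, h21, hb2⟩ := mul_h_small hw τ hs (show 0 < ε / 3 by positivity)
  obtain ⟨β3, h30, h31, hb3⟩ := mul_h_small hw τ hs' (show 0 < ε / 3 by positivity)
  refine ⟨min β1 (min β2 β3), lt_min h10 (lt_min h20 h30), (min_le_left _ _).trans h11,
    fun β hβ hβ0 z hz => ?_⟩
  have c1 := hβ0.trans (min_le_left _ _)
  have c2 := hβ0.trans ((min_le_right _ _).trans (min_le_left _ _))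
  have c3 := hβ0.trans ((min_le_right _ _).trans (min_le_right _ _))
  set u := (starRingEnd ℂ) s * z with hu
  have hu1 : ‖u‖ ≤ 1 := norm_conj_mul hs hz
  have e1 : h τ β (s ^ 2) (z ^ 2) = F τ β (Q (u ^ 2)) := by
    unfold h; rw [hu, map_pow, mul_pow]
  have e2 : h τ β s z = F τ β (Q u) := rfl
  have e3 : h τ β (-s) z = F τ β (Q (-u)) := by
    unfold h; rw [hu, map_neg, neg_mul]
  have a1 := hb1 β hβ c1 u hu1
  have a2 := hb2 β hβ c2 z hz
  have a3 := hb3 β hβ c3 z hz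
  have hzm : z ∈ closedBall (0 : ℂ) 1 := by rwa [mem_closedBall_zero_iff]
  have e : w z * h τ β (s ^ 2) (z ^ 2) - tw τ * (w s * h τ β s z + w (-s) * h τ β (-s) z) =
      w z * (F τ β (Q (u ^ 2)) - tw τ * (F τ β (Q u) + F τ β (Q (-u)))) +
      tw τ * ((w z - w s) * h τ β s z) + tw τ * ((w z - w (-s)) * h τ β (-s) z) := by
    rw [e1, e2, e3]; ring
  rw [e]
  refine (norm_add₃_le).trans ?_
  have b2 : ‖tw τ * ((w z - w s) * h τ β s z)‖ ≤ ε / 3 := by
    rw [norm_mul, norm_tw, one_mul]; exact a2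
  have b3 : ‖tw τ * ((w z - w (-s)) * h τ β (-s) z)‖ ≤ ε / 3 := by
    rw [norm_mul, norm_tw, one_mul]; exact a3
  rw [norm_mul (w z)]
  have a4 : ‖w z‖ * ‖F τ β (Q (u ^ 2)) - tw τ * (F τ β (Q u) + F τ β (Q (-u)))‖ ≤ ε / 3 := by
    calc _ ≤ (B + 1) * (ε / (3 * (B + 1))) :=
          mul_le_mul (by linarith [hB z hzm]) a1 (norm_nonneg _) (by positivity)
      _ = ε / 3 := by field_simp
  linarith

/-- analyticity and continuity of the bump functions -/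
theorem h_inA {τ β : ℝ} (hβ : 0 < β) {x : ℂ} (hx : ‖x‖ = 1) :
    ContinuousOn (h τ β x) (closedBall 0 1) ∧ DifferentiableOn ℂ (h τ β x) (ball 0 1) := by
  have hpow : ∀ γ : ℝ, 0 < γ →
      ContinuousOn (fun z : ℂ => Q ((starRingEnd ℂ) x * z) ^ cc τ γ) (closedBall 0 1) ∧
      DifferentiableOn ℂ (fun z : ℂ => Q ((starRingEnd ℂ) x * z) ^ cc τ γ) (ball 0 1) := by
    intro γ hγ
    have hQd : Differentiable ℂ (fun z : ℂ => Q ((starRingEnd ℂ) x * z)) := by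
      unfold Q; fun_prop
    constructor
    · intro z hz
      rw [mem_closedBall_zero_iff] at hz
      rcases eq_or_ne (Q ((starRingEnd ℂ) x * z)) 0 with h0 | h0
      · -- at the singular point
        have ht : Tendsto (fun z : ℂ => E τ * ‖Q ((starRingEnd ℂ) x * z)‖ ^ γ)
            (𝓝[closedBall 0 1] z) (𝓝 0) := by
          have c1 : Continuous (fun z : ℂ => E τ * ‖Q ((starRingEnd ℂ) x * z)‖ ^ γ) :=
            continuous_const.mul ((hQd.continuous.norm).rpow_const fun _ => Or.inr hγ.le)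
          have c2 := c1.tendsto z
          rw [h0, norm_zero, Real.zero_rpow hγ.ne', mul_zero] at c2
          exact c2.mono_left nhdsWithin_le_nhds
        have hz0 : (fun z : ℂ => Q ((starRingEnd ℂ) x * z) ^ cc τ γ) z = 0 := by
          show Q ((starRingEnd ℂ) x * z) ^ cc τ γ = 0
          rw [h0, Complex.zero_cpow (cc_ne hγ)]
        unfold ContinuousWithinAt
        rw [hz0]
        refine squeeze_zero_norm' ?_ ht
        filter_upwards [self_mem_nhdsWithin] with y hy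
        rw [mem_closedBall_zero_iff] at hy
        rcases eq_or_ne (Q ((starRingEnd ℂ) x * y)) 0 with h1 | h1
        · rw [h1, Complex.zero_cpow (cc_ne hγ), norm_zero, Real.zero_rpow hγ.ne', mul_zero]
        · rw [Complex.norm_cpow_of_ne_zero h1, cc_re, cc_im, div_eq_mul_inv, ← Real.exp_neg,
            mul_comm]
          refine mul_le_mul_of_nonneg_right ?_ (Real.rpow_nonneg (norm_nonneg _) _)
          refine Real.exp_le_exp.mpr ?_
          have h4 : |(Q ((starRingEnd ℂ) x * y)).arg * τ| ≤ Real.pi / 2 * |τ| := by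
            rw [abs_mul]
            exact mul_le_mul_of_nonneg_right
              (Complex.abs_arg_le_pi_div_two_iff.mpr (Q_re (norm_conj_mul hx hy))) (abs_nonneg _)
          linarith [neg_abs_le ((Q ((starRingEnd ℂ) x * y)).arg * τ)]
      · have h1 : Q ((starRingEnd ℂ) x * z) ∈ Complex.slitPlane :=
          Or.inl (Q_re_pos (norm_conj_mul hx hz) h0)
        exact ((hQd.continuous.continuousAt).cpow continuousAt_const h1).continuousWithinAt
    · intro z hz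
      rw [mem_ball_zero_iff] at hz
      have h0 : Q ((starRingEnd ℂ) x * z) ≠ 0 := by
        intro h0
        have h1 := norm_Q_conj (z := z) hx
        rw [h0, norm_zero] at h1
        have h2 : z = x := by
          have : ‖z - x‖ = 0 := by linarith
          exact sub_eq_zero.mp (norm_eq_zero.mp this)
        rw [h2, hx] at hz
        exact lt_irrefl _ hz
      have h1 : Q ((starRingEnd ℂ) x * z) ∈ Complex.slitPlane :=
        Or.inl (Q_re_pos (norm_conj_mul hx hz.le) h0)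
      exact ((hQd z).cpow (differentiableAt_const _) h1).differentiableWithinAt
  have a1 := hpow (β ^ 2) (by positivity)
  have a2 := hpow β hβ
  exact ⟨a1.1.sub a2.1, a1.2.sub a2.2⟩

end Pool.Agent.R256.Usf
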