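import Mathlib
import Pool.Agent.R256.Usf1

/-!
Upper semi-Fredholm spectra of weighted composition operators, II: functions of the disc algebra
vanishing exactly on a given countable closed subset of the circle, logarithmically slowly.
-/

set_option autoImplicit false

open Filter Topology Metric

namespace Pool.Agent.R256.Usf

/-- the term `log (2/(1 - conj ζ z))` -/
noncomputable def LL (ζ z : ℂ) : ℂ := -Complex.log (Q ((starRingEnd ℂ) ζ * z))

/-- the series -/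
noncomputable def gg (ζ : ℕ → ℂ) (z : ℂ) : ℂ := ∑' n : ℕ, ((1 / 2 : ℝ) ^ (n + 1) : ℂ) * LL (ζ n) z

noncomputable def ep (n : ℕ) : ℝ := (1 / 2 : ℝ) ^ (n + 1)

theorem ep_pos (n : ℕ) : 0 < ep n := by unfold ep; positivity

theorem ep_summable : Summable ep := by
  unfold ep
  exact (summable_nat_add_iff 1).mpr (summable_geometric_of_lt_one (by norm_num) (by norm_num))

theorem ep_tsum : ∑' n, ep n = 1 := by
  unfold ep
  simp_rw [pow_succ']
  rw [tsum_mul_left, tsum_geometric_of_lt_one (by norm_num) (by norm_num)]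
  norm_num

theorem gg_eq (ζ : ℕ → ℂ) (z : ℂ) : gg ζ z = ∑' n : ℕ, (ep n : ℂ) * LL (ζ n) z := by
  unfold gg ep
  simp

theorem LL_re_nonneg {ζ z : ℂ} (hζ : ‖ζ‖ = 1) (hz : ‖z‖ ≤ 1) : 0 ≤ (LL ζ z).re := by
  unfold LL
  rw [Complex.neg_re, Complex.log_re]
  have := Real.log_nonpos (norm_nonneg _) (Q_norm (norm_conj_mul hζ hz))
  linarith

theorem LL_norm {ζ z : ℂ} (hζ : ‖ζ‖ = 1) (hz : ‖z‖ ≤ 1) {d : ℝ} (hd : 0 < d)
    (h : d ≤ ‖z - ζ‖) : ‖LL ζ z‖ ≤ Real.log (2 / d) + Real.pi / 2 := by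
  unfold LL
  rw [norm_neg]
  have h1 := norm_log_le (half_pos hd) (Q_re (norm_conj_mul hζ hz)) (Q_norm (norm_conj_mul hζ hz))
    (by rw [norm_Q_conj hζ]; linarith)
  have h2 : -Real.log (d / 2) = Real.log (2 / d) := by
    rw [← Real.log_inv, inv_div]
  rw [h2] at h1
  exact h1

theorem LL_re_ge {ζ z : ℂ} (hζ : ‖ζ‖ = 1) (hne : z ≠ ζ) {d : ℝ}
    (h : ‖z - ζ‖ ≤ d) : Real.log (2 / d) ≤ (LL ζ z).re := by
  unfold LL
  rw [Complex.neg_re, Complex.log_re, norm_Q_conj hζ]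
  have h0 : 0 < ‖z - ζ‖ := norm_pos_iff.mpr (sub_ne_zero.mpr hne)
  have hd : 0 < d := h0.trans_le h
  have h2 : -Real.log (‖z - ζ‖ / 2) = Real.log (2 / ‖z - ζ‖) := by
    rw [← Real.log_inv, inv_div]
  rw [h2]
  exact Real.log_le_log (by positivity) (div_le_div_of_nonneg_left (by norm_num) h0 h)

theorem Q_ne_of_ne {ζ z : ℂ} (hζ : ‖ζ‖ = 1) (hne : z ≠ ζ) : Q ((starRingEnd ℂ) ζ * z) ≠ 0 := by
  intro h
  have h1 := norm_Q_conj (z := z) hζ
  rw [h, norm_zero] at h1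
  exact hne (sub_eq_zero.mp (norm_eq_zero.mp (by linarith)))

theorem LL_differentiableAt {ζ z : ℂ} (hζ : ‖ζ‖ = 1) (hz : ‖z‖ ≤ 1) (hne : z ≠ ζ) :
    DifferentiableAt ℂ (LL ζ) z := by
  unfold LL
  have hQd : Differentiable ℂ (fun z : ℂ => Q ((starRingEnd ℂ) ζ * z)) := by
    unfold Q; fun_prop
  exact ((hQd z).clog (Or.inl (Q_re_pos (norm_conj_mul hζ hz) (Q_ne_of_ne hζ hne)))).neg

variable {ζ : ℕ → ℂ}

theorem term_norm (hζ : ∀ n, ‖ζ n‖ = 1) {z : ℂ} (hz : ‖z‖ ≤ 1) {d : ℝ} (hd : 0 < d)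
    (h : ∀ n, d ≤ ‖z - ζ n‖) (n : ℕ) :
    ‖(ep n : ℂ) * LL (ζ n) z‖ ≤ ep n * (Real.log (2 / d) + Real.pi / 2) := by
  rw [norm_mul, Complex.norm_real, Real.norm_of_nonneg (ep_pos n).le]
  exact mul_le_mul_of_nonneg_left (LL_norm (hζ n) hz hd (h n)) (ep_pos n).le

theorem gg_summable (hζ : ∀ n, ‖ζ n‖ = 1) {z : ℂ} (hz : ‖z‖ ≤ 1) {d : ℝ} (hd : 0 < d)
    (h : ∀ n, d ≤ ‖z - ζ n‖) : Summable fun n : ℕ => (ep n : ℂ) * LL (ζ n) z :=
  Summable.of_norm_bounded (ep_summable.mul_right _) (term_norm hζ hz hd h)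

theorem gg_norm (hζ : ∀ n, ‖ζ n‖ = 1) {z : ℂ} (hz : ‖z‖ ≤ 1) {d : ℝ} (hd : 0 < d)
    (h : ∀ n, d ≤ ‖z - ζ n‖) : ‖gg ζ z‖ ≤ Real.log (2 / d) + Real.pi / 2 := by
  rw [gg_eq]
  have h1 := tsum_of_norm_bounded (ep_summable.mul_right (Real.log (2 / d) + Real.pi / 2)).hasSum
    (term_norm hζ hz hd h)
  rw [tsum_mul_right, ep_tsum, one_mul] at h1
  exact h1

theorem gg_re_ge (hζ : ∀ n, ‖ζ n‖ = 1) {z : ℂ} (hz : ‖z‖ ≤ 1) {d : ℝ} (hd : 0 < d)
    (h : ∀ n, d ≤ ‖z - ζ n‖) (n : ℕ) : ep n * (LL (ζ n) z).re ≤ (gg ζ z).re := by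
  rw [gg_eq, Complex.re_tsum (gg_summable hζ hz hd h)]
  have h1 : ∀ m, ((ep m : ℂ) * LL (ζ m) z).re = ep m * (LL (ζ m) z).re := fun m => by
    rw [Complex.re_ofReal_mul]
  have h2 : Summable fun m => ep m * (LL (ζ m) z).re := by
    have := (Complex.hasSum_re (gg_summable hζ hz hd h).hasSum).summable
    simpa [h1] using this
  simp_rw [h1]
  exact h2.le_tsum n fun m _ => mul_nonneg (ep_pos m).le (LL_re_nonneg (hζ m) hz)

theorem gg_re_nonneg (hζ : ∀ n, ‖ζ n‖ = 1) {z : ℂ} (hz : ‖z‖ ≤ 1) {d : ℝ} (hd : 0 < d)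
    (h : ∀ n, d ≤ ‖z - ζ n‖) : 0 ≤ (gg ζ z).re :=
  (mul_nonneg (ep_pos 0).le (LL_re_nonneg (hζ 0) hz)).trans (gg_re_ge hζ hz hd h 0)

open Classical in
/-- the function vanishing exactly on the range of `ζ` -/
noncomputable def vv (ζ : ℕ → ℂ) (z : ℂ) : ℂ := if z ∈ Set.range ζ then 0 else (1 + gg ζ z)⁻¹

theorem vv_zero (n : ℕ) : vv ζ (ζ n) = 0 := by unfold vv; simp

theorem vv_eq {z : ℂ} (hz : z ∉ Set.range ζ) : vv ζ z = (1 + gg ζ z)⁻¹ := by
  unfold vv; rw [if_neg hz]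

theorem exists_gap (hcl : IsClosed (Set.range ζ)) {z : ℂ} (hz : z ∉ Set.range ζ) :
    ∃ d : ℝ, 0 < d ∧ ∀ y : ℂ, ‖y - z‖ < d → ∀ n, d ≤ ‖y - ζ n‖ := by
  have h1 : (Set.range ζ)ᶜ ∈ 𝓝 z := hcl.isOpen_compl.mem_nhds hz
  obtain ⟨ε, hε, hε2⟩ := Metric.mem_nhds_iff.mp h1
  refine ⟨ε / 2, half_pos hε, fun y hy n => ?_⟩
  by_contra hcon
  push Not at hcon
  have h2 : ζ n ∈ ball z ε := by
    rw [mem_ball, dist_eq_norm]
    have e : ζ n - z = (y - z) - (y - ζ n) := by ring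
    rw [e]
    refine (norm_sub_le _ _).trans_lt ?_
    linarith
  exact hε2 h2 ⟨n, rfl⟩

theorem one_add_gg_ne (hζ : ∀ n, ‖ζ n‖ = 1) {z : ℂ} (hz : ‖z‖ ≤ 1) {d : ℝ} (hd : 0 < d)
    (h : ∀ n, d ≤ ‖z - ζ n‖) : 1 + gg ζ z ≠ 0 := by
  intro h0
  have h1 := congrArg Complex.re h0
  rw [Complex.add_re, Complex.one_re, Complex.zero_re] at h1
  have := gg_re_nonneg hζ hz hd h
  linarith

theorem one_le_norm (hζ : ∀ n, ‖ζ n‖ = 1) {z : ℂ} (hz : ‖z‖ ≤ 1) {d : ℝ} (hd : 0 < d)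
    (h : ∀ n, d ≤ ‖z - ζ n‖) : 1 ≤ ‖1 + gg ζ z‖ := by
  have h1 := gg_re_nonneg hζ hz hd h
  have h2 := Complex.re_le_norm (1 + gg ζ z)
  rw [Complex.add_re, Complex.one_re] at h2
  linarith

theorem gg_continuousWithinAt (hζ : ∀ n, ‖ζ n‖ = 1) (hcl : IsClosed (Set.range ζ)) {z : ℂ}
    (hz : ‖z‖ ≤ 1) (hzr : z ∉ Set.range ζ) : ContinuousWithinAt (gg ζ) (closedBall 0 1) z := by
  obtain ⟨d, hd, hd2⟩ := exists_gap hcl hzr
  have h1 : ContinuousOn (fun z => ∑' n : ℕ, (ep n : ℂ) * LL (ζ n) z)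
      (closedBall 0 1 ∩ ball z d) := by
    refine continuousOn_tsum (u := fun n => ep n * (Real.log (2 / d) + Real.pi / 2)) ?_
      (ep_summable.mul_right _) ?_
    · intro n y hy
      have hy1 : ‖y‖ ≤ 1 := mem_closedBall_zero_iff.mp hy.1
      have hy2 : ‖y - z‖ < d := by have := mem_ball.mp hy.2; rwa [dist_eq_norm] at this
      have hne : y ≠ ζ n := by
        intro h
        have := hd2 y hy2 n
        rw [h, sub_self, norm_zero] at this
        linarith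
      exact ((LL_differentiableAt (hζ n) hy1 hne).continuousAt.const_mul _).continuousWithinAt
    · intro n y hy
      have hy1 : ‖y‖ ≤ 1 := mem_closedBall_zero_iff.mp hy.1
      have hy2 : ‖y - z‖ < d := by have := mem_ball.mp hy.2; rwa [dist_eq_norm] at this
      exact term_norm hζ hy1 hd (hd2 y hy2) n
  have h2 : gg ζ = fun z => ∑' n : ℕ, (ep n : ℂ) * LL (ζ n) z := funext fun z => gg_eq ζ z
  rw [h2]
  have h3 := h1 z ⟨mem_closedBall_zero_iff.mpr hz, mem_ball_self hd⟩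
  exact (continuousWithinAt_inter (ball_mem_nhds z hd)).mp h3

theorem vv_continuousOn (hζ : ∀ n, ‖ζ n‖ = 1) (hcl : IsClosed (Set.range ζ)) :
    ContinuousOn (vv ζ) (closedBall 0 1) := by
  intro z hz
  rw [mem_closedBall_zero_iff] at hz
  by_cases hzr : z ∈ Set.range ζ
  · obtain ⟨n, rfl⟩ := hzr
    unfold ContinuousWithinAt
    rw [vv_zero]
    rw [Metric.tendsto_nhdsWithin_nhds]
    intro ε hε
    set δ : ℝ := 2 * Real.exp (-(1 / (ε * ep n))) with hδ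
    have hep := ep_pos n
    refine ⟨δ, by positivity, fun {y} hy hyd => ?_⟩
    rw [dist_zero_right]
    have hy1 : ‖y‖ ≤ 1 := mem_closedBall_zero_iff.mp hy
    by_cases hyr : y ∈ Set.range ζ
    · obtain ⟨m, rfl⟩ := hyr
      rw [vv_zero, norm_zero]; exact hε
    · rw [vv_eq hyr]
      obtain ⟨d, hd, hd2⟩ := exists_gap hcl hyr
      have hd3 := hd2 y (by rw [sub_self, norm_zero]; exact hd)
      have hne : y ≠ ζ n := fun h => hyr ⟨n, h.symm⟩
      rw [dist_eq_norm] at hyd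
      have h1 := LL_re_ge (hζ n) hne hyd.le
      have h2 : Real.log (2 / δ) = 1 / (ε * ep n) := by
        rw [hδ]
        have : 2 / (2 * Real.exp (-(1 / (ε * ep n)))) = Real.exp (1 / (ε * ep n)) := by
          rw [Real.exp_neg]; field_simp
        rw [this, Real.log_exp]
      rw [h2] at h1
      have h3 := gg_re_ge hζ hy1 hd hd3 n
      have h4 : ep n * (1 / (ε * ep n)) ≤ (gg ζ y).re :=
        (mul_le_mul_of_nonneg_left h1 hep.le).trans h3
      have h5 : ep n * (1 / (ε * ep n)) = 1 / ε := by field_simp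
      rw [h5] at h4
      have h6 := Complex.re_le_norm (1 + gg ζ y)
      rw [Complex.add_re, Complex.one_re] at h6
      rw [norm_inv]
      have h7 : 1 / ε < ‖1 + gg ζ y‖ := by linarith
      rw [inv_lt_comm₀ (by linarith [one_div_pos.mpr hε]) hε, ← one_div]
      exact h7
  · obtain ⟨d, hd, hd2⟩ := exists_gap hcl hzr
    have h1 : ContinuousWithinAt (fun z => (1 + gg ζ z)⁻¹) (closedBall 0 1) z :=
      (continuousWithinAt_const.add (gg_continuousWithinAt hζ hcl hz hzr)).inv₀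
        (one_add_gg_ne hζ hz hd (hd2 z (by rw [sub_self, norm_zero]; exact hd)))
    refine h1.congr_of_eventuallyEq ?_ (vv_eq hzr)
    have h2 : ∀ᶠ y in 𝓝 z, y ∉ Set.range ζ := hcl.isOpen_compl.mem_nhds hzr
    filter_upwards [nhdsWithin_le_nhds h2] with y hy
    exact vv_eq hy

theorem vv_differentiableOn (hζ : ∀ n, ‖ζ n‖ = 1) :
    DifferentiableOn ℂ (vv ζ) (ball 0 1) := by
  have hnr : ∀ z : ℂ, z ∈ ball (0 : ℂ) 1 → z ∉ Set.range ζ := by
    rintro z hz ⟨n, rfl⟩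
    rw [mem_ball_zero_iff, hζ n] at hz
    exact lt_irrefl _ hz
  have hgap : ∀ z : ℂ, ∀ n, 1 - ‖z‖ ≤ ‖z - ζ n‖ := by
    intro z n
    have := norm_sub_norm_le (ζ n) z
    rw [hζ n, norm_sub_rev] at this
    exact this
  intro z hz
  have hz1 : ‖z‖ < 1 := mem_ball_zero_iff.mp hz
  set ρ : ℝ := (1 - ‖z‖) / 2 with hρ
  have hρ0 : 0 < ρ := by rw [hρ]; linarith
  have hsub : ∀ y ∈ ball z ρ, ‖y‖ ≤ 1 - ρ := by
    intro y hy
    rw [mem_ball, dist_eq_norm] at hy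
    have : ‖y‖ ≤ ‖y - z‖ + ‖z‖ := by
      have := norm_add_le (y - z) z
      rwa [sub_add_cancel] at this
    rw [hρ] at hy ⊢
    linarith
  have h1 : DifferentiableOn ℂ (fun z => ∑' n : ℕ, (ep n : ℂ) * LL (ζ n) z) (ball z ρ) := by
    refine Complex.differentiableOn_tsum_of_summable_norm
      (u := fun n => ep n * (Real.log (2 / ρ) + Real.pi / 2)) (ep_summable.mul_right _) ?_
      isOpen_ball ?_
    · intro n y hy
      have hy1 := hsub y hy
      have hne : y ≠ ζ n := by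
        intro h; rw [h, hζ n] at hy1; linarith
      exact ((LL_differentiableAt (hζ n) (by linarith) hne).const_mul _).differentiableWithinAt
    · intro n y hy
      have hy1 := hsub y hy
      exact term_norm hζ (by linarith) hρ0 (fun m => by have := hgap y m; linarith) n
  have h2 : gg ζ = fun z => ∑' n : ℕ, (ep n : ℂ) * LL (ζ n) z := funext fun z => gg_eq ζ z
  have h3 : DifferentiableAt ℂ (gg ζ) z := by
    rw [h2]
    exact (h1 z (mem_ball_self hρ0)).differentiableAt (isOpen_ball.mem_nhds (mem_ball_self hρ0))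
  have h4 : DifferentiableAt ℂ (fun z => (1 + gg ζ z)⁻¹) z :=
    ((differentiableAt_const _).add h3).inv
      (one_add_gg_ne hζ hz1.le (by linarith : 0 < 1 - ‖z‖) (hgap z))
  have h5 : vv ζ =ᶠ[𝓝 z] fun z => (1 + gg ζ z)⁻¹ := by
    filter_upwards [isOpen_ball.mem_nhds hz] with y hy
    exact vv_eq (hnr y hy)
  exact (h4.congr_of_eventuallyEq h5).differentiableWithinAt

/-- Lipschitz estimate for the series -/
theorem gg_lip (hζ : ∀ n, ‖ζ n‖ = 1) {a b : ℂ} (ha : ‖a‖ ≤ 1) (hb : ‖b‖ ≤ 1)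
    (hra : ∀ n, 1 / 4 ≤ (Q ((starRingEnd ℂ) (ζ n) * a)).re)
    (hrb : ∀ n, 1 / 4 ≤ (Q ((starRingEnd ℂ) (ζ n) * b)).re) :
    ‖gg ζ a - gg ζ b‖ ≤ 2 * ‖a - b‖ := by
  have hgap : ∀ z : ℂ, (∀ n, 1 / 4 ≤ (Q ((starRingEnd ℂ) (ζ n) * z)).re) →
      ∀ n, 1 / 2 ≤ ‖z - ζ n‖ := by
    intro z hz n
    have h1 := (hz n).trans (Complex.re_le_norm _)
    rw [norm_Q_conj (hζ n)] at h1
    linarith
  have hL : ∀ n, ‖LL (ζ n) a - LL (ζ n) b‖ ≤ 2 * ‖a - b‖ := by
    intro n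
    unfold LL
    have h1 : ∀ x ∈ {c : ℂ | (1 / 4 : ℝ) ≤ c.re}, HasDerivWithinAt Complex.log x⁻¹
        {c : ℂ | (1 / 4 : ℝ) ≤ c.re} x := by
      intro x hx
      have hx' : (1 / 4 : ℝ) ≤ x.re := hx
      exact (Complex.hasDerivAt_log (Or.inl (by linarith))).hasDerivWithinAt
    have h2 : ∀ x ∈ {c : ℂ | (1 / 4 : ℝ) ≤ c.re}, ‖x⁻¹‖ ≤ 4 := by
      intro x hx
      have hx' : (1 / 4 : ℝ) ≤ x.re := hx
      rw [norm_inv]
      have h3 : (1 / 4 : ℝ) ≤ ‖x‖ := hx'.trans (Complex.re_le_norm x)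
      have h4 := inv_anti₀ (by norm_num : (0 : ℝ) < 1 / 4) h3
      norm_num at h4
      exact h4
    have h3 := Convex.norm_image_sub_le_of_norm_hasDerivWithin_le h1 h2
      (convex_halfSpace_re_ge (1 / 4)) (hra n) (hrb n)
    have h4 : Q ((starRingEnd ℂ) (ζ n) * b) - Q ((starRingEnd ℂ) (ζ n) * a) =
        (starRingEnd ℂ) (ζ n) * (a - b) / 2 := by unfold Q; ring
    rw [h4, norm_div, norm_mul, Complex.norm_conj, hζ n, one_mul] at h3
    have h5 : -Complex.log (Q ((starRingEnd ℂ) (ζ n) * a)) -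
        -Complex.log (Q ((starRingEnd ℂ) (ζ n) * b)) =
        Complex.log (Q ((starRingEnd ℂ) (ζ n) * b)) -
        Complex.log (Q ((starRingEnd ℂ) (ζ n) * a)) := by ring
    rw [h5]
    refine h3.trans (le_of_eq ?_)
    simp
    ring
  rw [gg_eq, gg_eq, ← (gg_summable hζ ha (by norm_num) (hgap a hra)).tsum_sub
    (gg_summable hζ hb (by norm_num) (hgap b hrb))]
  have h1 := tsum_of_norm_bounded (f := fun n => (ep n : ℂ) * LL (ζ n) a - (ep n : ℂ) * LL (ζ n) b)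
    (ep_summable.mul_right (2 * ‖a - b‖)).hasSum (fun n => by
      rw [← mul_sub, norm_mul, Complex.norm_real, Real.norm_of_nonneg (ep_pos n).le]
      exact mul_le_mul_of_nonneg_left (hL n) (ep_pos n).le)
  rw [tsum_mul_right, ep_tsum, one_mul] at h1
  exact h1

/-! ### The slowly varying factor -/

/-- `log (4/(1-z))` -/
noncomputable def VV (z : ℂ) : ℂ := (Real.log 2 : ℂ) - Complex.log (Q z)

open Classical in
/-- `1 + 10 / log (4/(1-z))`, with value `1` at `1` -/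
noncomputable def uu (z : ℂ) : ℂ := if z = 1 then 1 else 1 + 10 * (VV z)⁻¹

theorem VV_re (z : ℂ) : (VV z).re = Real.log 2 - Real.log ‖Q z‖ := by
  unfold VV
  rw [Complex.sub_re, Complex.ofReal_re, Complex.log_re]

theorem VV_re_ge {z : ℂ} (hz : ‖z‖ ≤ 1) : Real.log 2 ≤ (VV z).re := by
  rw [VV_re]
  have := Real.log_nonpos (norm_nonneg _) (Q_norm hz)
  linarith

theorem VV_im {z : ℂ} (hz : ‖z‖ ≤ 1) : |(VV z).im| ≤ Real.pi / 2 := by
  unfold VV
  rw [Complex.sub_im, Complex.ofReal_im, Complex.log_im, zero_sub, abs_neg]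
  exact Complex.abs_arg_le_pi_div_two_iff.mpr (Q_re hz)

theorem VV_ne {z : ℂ} (hz : ‖z‖ ≤ 1) : VV z ≠ 0 := by
  intro h
  have h1 := VV_re_ge hz
  rw [h, Complex.zero_re] at h1
  have := Real.log_pos (by norm_num : (1 : ℝ) < 2)
  linarith

theorem Q_ne_one {z : ℂ} (hne : z ≠ 1) : Q z ≠ 0 := by
  unfold Q
  intro h
  apply hne
  have h2 : (1 : ℂ) - z = 0 := by
    have := congrArg (fun t => t * 2) h
    simpa using this
  exact (sub_eq_zero.mp h2).symm

theorem VV_differentiableAt {z : ℂ} (hz : ‖z‖ ≤ 1) (hne : z ≠ 1) : DifferentiableAt ℂ VV z := by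
  unfold VV
  have hQd : Differentiable ℂ Q := by unfold Q; fun_prop
  exact (differentiableAt_const _).sub ((hQd z).clog (Or.inl (Q_re_pos hz (Q_ne_one hne))))

theorem uu_one : uu 1 = 1 := by unfold uu; simp

theorem uu_eq {z : ℂ} (hne : z ≠ 1) : uu z = 1 + 10 * (VV z)⁻¹ := by unfold uu; rw [if_neg hne]

theorem uu_continuousOn : ContinuousOn uu (closedBall 0 1) := by
  intro z hz
  rw [mem_closedBall_zero_iff] at hz
  by_cases h1 : z = 1
  · subst h1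
    unfold ContinuousWithinAt
    rw [uu_one, Metric.tendsto_nhdsWithin_nhds]
    intro ε hε
    set δ : ℝ := 2 * Real.exp (-(10 / ε)) with hδ
    refine ⟨δ, by positivity, fun {y} hy hyd => ?_⟩
    have hy1 : ‖y‖ ≤ 1 := mem_closedBall_zero_iff.mp hy
    by_cases hy2 : y = 1
    · rw [hy2, uu_one, dist_self]; exact hε
    · rw [uu_eq hy2, dist_eq_norm, add_sub_cancel_left, norm_mul, norm_inv]
      have h2 : ‖Q y‖ = ‖y - 1‖ / 2 := by
        unfold Q
        rw [norm_div, norm_sub_rev]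
        simp
      have h0 : 0 < ‖y - 1‖ := norm_pos_iff.mpr (sub_ne_zero.mpr hy2)
      have h3 : 10 / ε < (VV y).re := by
        rw [VV_re, h2]
        rw [dist_eq_norm] at hyd
        have h4 : Real.log (‖y - 1‖ / 2) < Real.log (Real.exp (-(10 / ε))) := by
          refine Real.log_lt_log (by positivity) ?_
          rw [hδ] at hyd
          linarith
        rw [Real.log_exp] at h4
        have := Real.log_pos (by norm_num : (1 : ℝ) < 2)
        linarith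
      have h5 := Complex.re_le_norm (VV y)
      have h6 : 10 / ε < ‖VV y‖ := by linarith
      have h7 : 0 < ‖VV y‖ := lt_trans (by positivity) h6
      rw [div_lt_iff₀ hε] at h6
      have h8 : ‖(10 : ℂ)‖ = 10 := by simp
      rw [h8, ← div_eq_mul_inv, div_lt_iff₀ h7]
      linarith
  · have h2 : ContinuousAt (fun z => 1 + 10 * (VV z)⁻¹) z :=
      continuousAt_const.add (((VV_differentiableAt hz h1).continuousAt.inv₀ (VV_ne hz)).const_mul 10)
    refine (h2.continuousWithinAt).congr_of_eventuallyEq ?_ (uu_eq h1)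
    have h3 : ∀ᶠ y in 𝓝 z, y ≠ 1 := isOpen_ne.mem_nhds h1
    filter_upwards [nhdsWithin_le_nhds h3] with y hy
    exact uu_eq hy

theorem uu_differentiableOn : DifferentiableOn ℂ uu (ball 0 1) := by
  intro z hz
  have hz1 : ‖z‖ < 1 := mem_ball_zero_iff.mp hz
  have hne : z ≠ 1 := by rintro rfl; simp at hz1
  have h2 : DifferentiableAt ℂ (fun z => 1 + 10 * (VV z)⁻¹) z :=
    (differentiableAt_const _).add (((VV_differentiableAt hz1.le hne).inv (VV_ne hz1.le)).const_mul 10)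
  have h3 : uu =ᶠ[𝓝 z] fun z => 1 + 10 * (VV z)⁻¹ := by
    have h3 : ∀ᶠ y in 𝓝 z, y ≠ 1 := isOpen_ne.mem_nhds hne
    filter_upwards [h3] with y hy
    exact uu_eq hy
  exact (h2.congr_of_eventuallyEq h3).differentiableWithinAt

theorem inv_VV_re {z : ℂ} (hz : ‖z‖ ≤ 1) : 0 ≤ ((VV z)⁻¹).re := by
  rw [Complex.inv_re]
  refine div_nonneg ?_ (Complex.normSq_nonneg _)
  have := VV_re_ge hz
  have := Real.log_pos (by norm_num : (1 : ℝ) < 2)
  linarith

theorem one_le_norm_uu {z : ℂ} (hz : ‖z‖ ≤ 1) : 1 ≤ ‖uu z‖ := by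
  by_cases h : z = 1
  · rw [h, uu_one, norm_one]
  · rw [uu_eq h]
    have h1 := Complex.re_le_norm (1 + 10 * (VV z)⁻¹)
    have h2 : (1 + 10 * (VV z)⁻¹).re = 1 + 10 * ((VV z)⁻¹).re := by simp
    rw [h2] at h1
    have := inv_VV_re hz
    linarith

/-- lower bound for the slowly varying factor -/
theorem norm_uu_ge {z : ℂ} (hz : ‖z‖ ≤ 1) (hne : z ≠ 1) {m : ℕ} (hm : 1 ≤ m)
    (h : (1 / 2 : ℝ) ^ m * 4 ≤ ‖z - 1‖) : ((m : ℝ) + 2) / m ≤ ‖uu z‖ := by
  have hm' : (1 : ℝ) ≤ m := by exact_mod_cast hm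
  have hl2 := Real.log_two_lt_d9
  have hl2' := Real.log_two_gt_d9
  have hpi := Real.pi_lt_d2
  have hpi0 := Real.pi_pos
  set x := (VV z).re with hx
  set y := (VV z).im with hy
  have hx1 : Real.log 2 ≤ x := VV_re_ge hz
  have hy1 : |y| ≤ Real.pi / 2 := VV_im hz
  have hx2 : x ≤ m * Real.log 2 := by
    rw [hx, VV_re]
    have h2 : ‖Q z‖ = ‖z - 1‖ / 2 := by
      unfold Q
      rw [norm_div, norm_sub_rev]
      simp
    have h3 : Real.log ((1 / 2 : ℝ) ^ m * 2) ≤ Real.log ‖Q z‖ := by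
      refine Real.log_le_log (by positivity) ?_
      rw [h2]; linarith
    have h4 : Real.log ((1 / 2 : ℝ) ^ m * 2) = -(m * Real.log 2) + Real.log 2 := by
      rw [Real.log_mul (by positivity) (by norm_num), Real.log_pow, one_div, Real.log_inv]
      ring
    rw [h4] at h3
    linarith
  have hy2 : y ^ 2 ≤ 2.5 := by
    have h1 : y ^ 2 ≤ (Real.pi / 2) ^ 2 := sq_le_sq' (by linarith [neg_abs_le y]) ((le_abs_self y).trans hy1)
    nlinarith
  have hden : 0 < x ^ 2 + y ^ 2 := by nlinarith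
  have h1 : 1 / (5 * m) ≤ ((VV z)⁻¹).re := by
    rw [Complex.inv_re, Complex.normSq_apply, ← hx, ← hy, div_le_div_iff₀ (by positivity) (by nlinarith)]
    have h2 : x * x ≤ x * (m * Real.log 2) := mul_le_mul_of_nonneg_left hx2 (by linarith)
    have h3 : x * (m * Real.log 2) ≤ 0.7 * (m * x) := by
      have : 0 ≤ (m : ℝ) * x := by nlinarith
      nlinarith
    have h4 : y * y ≤ 3.7 * (m * x) := by
      have : (0.69 : ℝ) ≤ m * x := by nlinarith
      nlinarith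
    linarith
  rw [uu_eq hne]
  have h2 := Complex.re_le_norm (1 + 10 * (VV z)⁻¹)
  have h3 : (1 + 10 * (VV z)⁻¹).re = 1 + 10 * ((VV z)⁻¹).re := by simp
  rw [h3] at h2
  have h4 : ((m : ℝ) + 2) / m = 1 + 10 * (1 / (5 * m)) := by field_simp; ring
  rw [h4]
  linarith

end Pool.Agent.R256.Usf
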