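import Mathlib
import Pool.Agent.R256.Usf1

/-!
Upper semi-Fredholm spectra of weighted composition operators, III: approximate eigenvectors
carried by a periodic orbit and a backward orbit leaving it.
-/

set_option autoImplicit false

open Filter Topology Metric Finset

namespace Pool.Agent.R256.Usf

/-- membership in the disc algebra -/
def InA (f : ℂ → ℂ) : Prop := ContinuousOn f (closedBall 0 1) ∧ DifferentiableOn ℂ f (ball 0 1)

/-- the supremum norm over the closed unit disc -/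
noncomputable def nrm (f : ℂ → ℂ) : ℝ := ⨆ z : closedBall (0 : ℂ) 1, ‖f z‖

/-- the weighted composition operator `f ↦ w · f(z²)` -/
def TT (w f : ℂ → ℂ) : ℂ → ℂ := fun z => w z * f (z ^ 2)

/-- `l` is in the upper semi-Fredholm spectrum -/
def InUsf (w : ℂ → ℂ) (l : ℂ) : Prop :=
  ∃ x : ℕ → ℂ → ℂ, (∀ n, InA (x n) ∧ nrm (x n) = 1) ∧
    Tendsto (fun n => nrm (fun z => TT w (x n) z - l * x n z)) atTop (𝓝 0) ∧
    ¬ ∃ φ : ℕ → ℕ, StrictMono φ ∧ ∃ g : ℂ → ℂ, InA g ∧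
      Tendsto (fun n => nrm (fun z => x (φ n) z - g z)) atTop (𝓝 0)

theorem nrm_le {f : ℂ → ℂ} {c : ℝ} (h : ∀ z, ‖z‖ ≤ 1 → ‖f z‖ ≤ c) : nrm f ≤ c := by
  have : Nonempty (closedBall (0 : ℂ) 1) := ⟨⟨0, by simp⟩⟩
  exact ciSup_le fun z => h z (mem_closedBall_zero_iff.mp z.2)

theorem le_nrm {f : ℂ → ℂ} (hf : ContinuousOn f (closedBall 0 1)) {z : ℂ} (hz : ‖z‖ ≤ 1) :
    ‖f z‖ ≤ nrm f := by
  obtain ⟨B, hB⟩ : ∃ B, ∀ z ∈ closedBall (0 : ℂ) 1, ‖f z‖ ≤ B :=
    (isCompact_closedBall (0 : ℂ) 1).exists_bound_of_continuousOn hf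
  have hbd : BddAbove (Set.range fun z : closedBall (0 : ℂ) 1 => ‖f z‖) := by
    refine ⟨B, ?_⟩
    rintro _ ⟨z, rfl⟩
    exact hB z z.2
  exact le_ciSup hbd ⟨z, mem_closedBall_zero_iff.mpr hz⟩

theorem nrm_nonneg (f : ℂ → ℂ) : 0 ≤ nrm f := Real.iSup_nonneg fun _ => norm_nonneg _

theorem TT_cont {w f : ℂ → ℂ} (hw : ContinuousOn w (closedBall 0 1))
    (hf : ContinuousOn f (closedBall 0 1)) : ContinuousOn (TT w f) (closedBall 0 1) := by
  unfold TT
  refine hw.mul (hf.comp (continuous_pow 2).continuousOn fun z hz => ?_)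
  rw [mem_closedBall_zero_iff] at hz ⊢
  rw [norm_pow]
  exact pow_le_one₀ (norm_nonneg _) hz

/-- passage from approximate eigenvectors to the spectrum -/
theorem inUsf_of_approx {w : ℂ → ℂ} (hw : InA w) {l : ℂ}
    (H : ∀ ε : ℝ, 0 < ε → ∃ f : ℂ → ℂ, InA f ∧ (∀ z, ‖z‖ ≤ 1 → ‖w z * f (z ^ 2) - l * f z‖ ≤ ε) ∧
      (∀ z, ‖z‖ ≤ 1 - ε → ‖f z‖ ≤ ε) ∧ ∃ z, ‖z‖ ≤ 1 ∧ 1 / 4 ≤ ‖f z‖) : InUsf w l := by
  choose f hf1 hf2 hf3 hf4 using fun n : ℕ => H (1 / ((n : ℝ) + 1)) (by positivity)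
  have hN : ∀ n, 1 / 4 ≤ nrm (f n) := fun n => by
    obtain ⟨z, hz, hz2⟩ := hf4 n
    exact hz2.trans (le_nrm (hf1 n).1 hz)
  have hN0 : ∀ n, 0 < nrm (f n) := fun n => lt_of_lt_of_le (by norm_num) (hN n)
  set x : ℕ → ℂ → ℂ := fun n z => ((nrm (f n))⁻¹ : ℝ) * f n z with hx
  have hxA : ∀ n, InA (x n) := fun n =>
    ⟨continuousOn_const.mul (hf1 n).1, (differentiableOn_const _).mul (hf1 n).2⟩
  have hnx : ∀ n z, ‖x n z‖ = (nrm (f n))⁻¹ * ‖f n z‖ := fun n z => by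
    rw [hx]
    simp only [norm_mul, Complex.norm_real]
    rw [Real.norm_of_nonneg (inv_nonneg.mpr (nrm_nonneg _))]
  have hx1 : ∀ n, nrm (x n) = 1 := by
    intro n
    apply le_antisymm
    · refine nrm_le fun z hz => ?_
      rw [hnx, inv_mul_le_one₀ (hN0 n)]
      exact le_nrm (hf1 n).1 hz
    · have h1 : nrm (f n) ≤ nrm (f n) * nrm (x n) := by
        refine nrm_le fun z hz => ?_
        have h2 := le_nrm (hxA n).1 hz
        rw [hnx] at h2
        have h3 := mul_le_mul_of_nonneg_left h2 (hN0 n).le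
        rw [← mul_assoc, mul_inv_cancel₀ (hN0 n).ne', one_mul] at h3
        exact h3
      have h2 := hN0 n
      nlinarith
  have hinv : ∀ n, (nrm (f n))⁻¹ ≤ 4 := fun n => by
    have := inv_anti₀ (by norm_num : (0 : ℝ) < 1 / 4) (hN n)
    norm_num at this
    exact this
  refine ⟨x, fun n => ⟨hxA n, hx1 n⟩, ?_, ?_⟩
  · have h1 : ∀ n, nrm (fun z => TT w (x n) z - l * x n z) ≤ 4 * (1 / ((n : ℝ) + 1)) := by
      intro n
      refine nrm_le fun z hz => ?_
      have e : TT w (x n) z - l * x n z = ((nrm (f n))⁻¹ : ℝ) * (w z * f n (z ^ 2) - l * f n z) := by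
        unfold TT
        rw [hx]
        ring
      rw [e, norm_mul, Complex.norm_real, Real.norm_of_nonneg (inv_nonneg.mpr (nrm_nonneg _))]
      exact mul_le_mul (hinv n) (hf2 n z hz) (norm_nonneg _) (by norm_num)
    refine squeeze_zero (fun n => nrm_nonneg _) h1 ?_
    have := (tendsto_one_div_add_atTop_nhds_zero_nat (𝕜 := ℝ)).const_mul 4
    rwa [mul_zero] at this
  · rintro ⟨φ, hφ, g, hg, hlim⟩
    have hφ' := hφ.tendsto_atTop
    have hsub : ∀ n, ContinuousOn (fun z => x (φ n) z - g z) (closedBall 0 1) := fun n =>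
      (hxA _).1.sub hg.1
    have hg0 : ∀ z, ‖z‖ < 1 → g z = 0 := by
      intro z hz
      have h1 : ∀ᶠ n : ℕ in atTop, ‖x (φ n) z‖ ≤ 4 * (1 / ((φ n : ℝ) + 1)) := by
        have h2 : ∀ᶠ n : ℕ in atTop, 1 / ((φ n : ℝ) + 1) < 1 - ‖z‖ :=
          (tendsto_one_div_add_atTop_nhds_zero_nat.comp hφ').eventually
            (gt_mem_nhds (by linarith))
        filter_upwards [h2] with n hn
        rw [hnx]
        exact mul_le_mul (hinv _) (hf3 _ z (by linarith)) (norm_nonneg _) (by norm_num)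
      have h2 : Tendsto (fun n => 4 * (1 / ((φ n : ℝ) + 1)) + nrm (fun z => x (φ n) z - g z)) atTop
          (𝓝 0) := by
        have h3 := ((tendsto_one_div_add_atTop_nhds_zero_nat (𝕜 := ℝ)).comp hφ').const_mul 4
        have h4 := h3.add hlim
        simpa using h4
      have h3 : ∀ᶠ n : ℕ in atTop, ‖g z‖ ≤ 4 * (1 / ((φ n : ℝ) + 1)) +
          nrm (fun z => x (φ n) z - g z) := by
        filter_upwards [h1] with n hn
        have h5 := le_nrm (hsub n) hz.le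
        have e : g z = x (φ n) z - (x (φ n) z - g z) := by ring
        have h6 : ‖g z‖ ≤ ‖x (φ n) z‖ + ‖x (φ n) z - g z‖ := by
          rw [e]
          refine (norm_sub_le _ _).trans ?_
          simp
        linarith
      have h4 : ‖g z‖ ≤ 0 := ge_of_tendsto h2 h3
      exact norm_le_zero_iff.mp h4
    have hg1 : ∀ z, ‖z‖ ≤ 1 → g z = 0 := by
      intro z hz
      have hcl : z ∈ closure (ball (0 : ℂ) 1) := by
        rw [closure_ball _ one_ne_zero]
        exact mem_closedBall_zero_iff.mpr hz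
      have hc : ContinuousWithinAt g (ball 0 1) z :=
        (hg.1 z (mem_closedBall_zero_iff.mpr hz)).mono ball_subset_closedBall
      have : (𝓝[ball (0 : ℂ) 1] z).NeBot := mem_closure_iff_nhdsWithin_neBot.mp hcl
      have h1 : Tendsto g (𝓝[ball (0 : ℂ) 1] z) (𝓝 0) := by
        refine tendsto_const_nhds.congr' ?_
        filter_upwards [self_mem_nhdsWithin] with y hy
        exact (hg0 y (mem_ball_zero_iff.mp hy)).symm
      exact tendsto_nhds_unique hc h1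
    have h1 : ∀ n, 1 ≤ nrm (fun z => x (φ n) z - g z) := by
      intro n
      rw [← hx1 (φ n)]
      refine nrm_le fun z hz => ?_
      have h2 := le_nrm (hsub n) hz
      simp only [hg1 z hz, sub_zero] at h2 ⊢
      exact h2
    have h2 := ge_of_tendsto' hlim h1
    linarith

theorem ev_of {P : ℝ → Prop} (h : ∃ β0 : ℝ, 0 < β0 ∧ β0 ≤ 1 ∧ ∀ β : ℝ, 0 < β → β ≤ β0 → P β) :
    ∀ᶠ β in 𝓝[>] (0 : ℝ), P β := by
  obtain ⟨β0, h0, _, h2⟩ := h
  have h3 : Set.Ioc (0 : ℝ) β0 ∈ 𝓝[>] (0 : ℝ) := Ioc_mem_nhdsGT h0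
  filter_upwards [h3] with β hβ
  exact h2 β hβ.1 hβ.2

/-- the test point -/
noncomputable def zst (β : ℝ) (x : ℂ) : ℂ := x * (1 - 2 * ((Real.exp (-(1 / (4 * β ^ 2))) : ℝ) : ℂ))

theorem zst_norm {β : ℝ} {x : ℂ} (hx : ‖x‖ = 1) : ‖zst β x‖ ≤ 1 := by
  unfold zst
  rw [norm_mul, hx, one_mul]
  have e : (1 : ℂ) - 2 * ((Real.exp (-(1 / (4 * β ^ 2))) : ℝ) : ℂ) =
      ((1 - 2 * Real.exp (-(1 / (4 * β ^ 2))) : ℝ) : ℂ) := by push_cast; ring
  rw [e, Complex.norm_real, Real.norm_eq_abs, abs_le]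
  have h0 := Real.exp_pos (-(1 / (4 * β ^ 2)))
  have h1 : Real.exp (-(1 / (4 * β ^ 2))) ≤ 1 := by
    rw [Real.exp_le_one_iff]
    have : 0 ≤ 1 / (4 * β ^ 2) := by positivity
    linarith
  constructor <;> linarith

theorem zst_h {τ β : ℝ} (hβ : 0 < β) (hβ1 : β ≤ 1 / 8) {x : ℂ} (hx : ‖x‖ = 1) :
    1 / 2 ≤ ‖h τ β x (zst β x)‖ := by
  unfold h zst
  have e : Q ((starRingEnd ℂ) x * (x * (1 - 2 * ((Real.exp (-(1 / (4 * β ^ 2))) : ℝ) : ℂ)))) =
      ((Real.exp (-(1 / (4 * β ^ 2))) : ℝ) : ℂ) := by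
    rw [← mul_assoc, mul_comm ((starRingEnd ℂ) x) x, Complex.mul_conj, Complex.normSq_eq_norm_sq, hx]
    unfold Q
    push_cast
    ring
  rw [e]
  exact F_large τ hβ hβ1

theorem zst_near {x : ℂ} (hx : ‖x‖ = 1) {κ : ℝ} (hκ : 0 < κ) :
    ∀ᶠ β in 𝓝[>] (0 : ℝ), ‖zst β x - x‖ ≤ κ := by
  refine ev_of ⟨min 1 (κ / 8), by positivity, min_le_left _ _, fun β hβ hβ0 => ?_⟩
  have hβ1 : β ≤ 1 := hβ0.trans (min_le_left _ _)
  have hβ2 : β ≤ κ / 8 := hβ0.trans (min_le_right _ _)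
  have e : zst β x - x = -(x * ((2 * Real.exp (-(1 / (4 * β ^ 2))) : ℝ) : ℂ)) := by
    unfold zst; push_cast; ring
  rw [e, norm_neg, norm_mul, hx, one_mul, Complex.norm_real, Real.norm_of_nonneg (by positivity)]
  have h1 : Real.exp (-(1 / (4 * β ^ 2))) ≤ 4 * β ^ 2 := by
    rw [Real.exp_neg]
    have h2 : 1 / (4 * β ^ 2) ≤ Real.exp (1 / (4 * β ^ 2)) := by
      have := Real.add_one_le_exp (1 / (4 * β ^ 2))
      linarith
    have h3 := inv_anti₀ (by positivity) h2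
    rw [one_div, inv_inv] at h3
    rw [one_div]
    exact h3
  nlinarith

theorem far_small (τ : ℝ) {x y : ℂ} (hx : ‖x‖ = 1) (hy : ‖y‖ = 1) (hne : y ≠ x) {ε : ℝ}
    (hε : 0 < ε) : ∀ᶠ β in 𝓝[>] (0 : ℝ), ‖h τ β y (zst β x)‖ ≤ ε := by
  have hκ : 0 < ‖y - x‖ / 2 := half_pos (norm_pos_iff.mpr (sub_ne_zero.mpr hne))
  filter_upwards [zst_near hx hκ, ev_of (h_small τ hκ hε)] with β h1 h2
  refine h2 y (zst β x) hy (zst_norm hx) ?_
  have h3 : ‖y - x‖ ≤ ‖zst β x - y‖ + ‖zst β x - x‖ := by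
    have e : y - x = -(zst β x - y) + (zst β x - x) := by ring
    rw [e]
    refine (norm_add_le _ _).trans ?_
    rw [norm_neg]
  linarith

/-- **Approximate eigenvectors along a periodic orbit and a backward orbit.** -/
theorem inUsf_of_orbit {w : ℂ → ℂ} (hw : InA w) {k : ℕ} (hk : 1 ≤ k) (s t : ℕ → ℂ)
    (hs1 : ∀ j, ‖s j‖ = 1) (ht1 : ∀ m, ‖t m‖ = 1) (hss : ∀ j, s (j + 1) = s j ^ 2)
    (hper : s k = s 0) (ht0 : t 0 = -s (k - 1)) (htt : ∀ m, t (m + 1) ^ 2 = t m)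
    (hz1 : ∀ j, j + 1 < k → w (-s j) = 0) (hz2 : ∀ m, w (-t (m + 1)) = 0)
    (hwt : Tendsto (fun m => ‖w (t m)‖) atTop (𝓝 1))
    (hP : 1 < ‖∏ j ∈ range k, w (s j)‖) (hd1 : ∀ j, 0 < j → j < k → s j ≠ s 0)
    (hd2 : ∀ m, t m ≠ s 0) {l : ℂ} (hl : ‖l‖ ^ k = ‖∏ j ∈ range k, w (s j)‖) : InUsf w l := by
  have hk0 : k ≠ 0 := by omega
  set P : ℂ := ∏ j ∈ range k, w (s j) with hPd
  -- `|l| > 1`
  have hl1 : 1 < ‖l‖ := by
    by_contra hcon
    push Not at hcon
    have := pow_le_one₀ (norm_nonneg l) hcon (n := k)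
    linarith
  -- the root `μ`
  obtain ⟨μ, hμ⟩ := IsAlgClosed.exists_pow_nat_eq P (show 0 < k by omega)
  have hμn : ‖μ‖ = ‖l‖ := by
    have h1 : ‖μ‖ ^ k = ‖l‖ ^ k := by rw [← norm_pow, hμ, hl]
    exact (pow_left_inj₀ (norm_nonneg _) (norm_nonneg _) hk0).mp h1
  have hμ0 : μ ≠ 0 := by
    intro h; rw [h, norm_zero] at hμn; linarith
  -- the exponent
  obtain ⟨τ, hτ⟩ : ∃ τ : ℝ, tw τ * μ = l := by
    have hlog : Real.log 2 ≠ 0 := (Real.log_pos (by norm_num)).ne'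
    refine ⟨(l / μ).arg / Real.log 2, ?_⟩
    have h1 : tw ((l / μ).arg / Real.log 2) = l / μ := by
      unfold tw
      have e : Real.log 2 * ((l / μ).arg / Real.log 2) = (l / μ).arg := by field_simp
      rw [e]
      have h2 := Complex.norm_mul_exp_arg_mul_I (l / μ)
      rw [norm_div, hμn, div_self (by linarith : ‖l‖ ≠ 0), Complex.ofReal_one, one_mul] at h2
      exact h2
    rw [h1, div_mul_cancel₀ _ hμ0]
  -- coefficients
  set a : ℕ → ℂ := fun j => ∏ i ∈ Ico j k, w (s i) / μ with ha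
  set b : ℕ → ℂ := fun m => ∏ i ∈ range (m + 1), w (t i) / μ with hb
  have hak : a k = 1 := by simp [ha]
  have ha0 : a 0 = 1 := by
    simp only [ha]
    rw [← range_eq_Ico, prod_div_distrib, prod_const, card_range, ← hPd, hμ]
    have hP0 : P ≠ 0 := by
      intro h; rw [h, norm_zero] at hP; linarith
    exact div_self hP0
  have hastep : ∀ j, j < k → μ * a j = a (j + 1) * w (s j) := by
    intro j hj
    simp only [ha]
    rw [prod_eq_prod_Ico_succ_bot hj]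
    field_simp
  have hb0 : μ * b 0 = w (t 0) := by
    simp only [hb]
    rw [zero_add, prod_range_one]
    field_simp
  have hbstep : ∀ m, μ * b (m + 1) = b m * w (t (m + 1)) := by
    intro m
    simp only [hb]
    rw [prod_range_succ]
    field_simp
  -- `b` tends to zero
  have hblim : Tendsto (fun m => ‖b m‖) atTop (𝓝 0) := by
    obtain ⟨ρ, hρ1, hρ2⟩ : ∃ ρ : ℝ, 1 < ρ ∧ ρ < ‖l‖ := exists_between hl1
    obtain ⟨M0, hM0⟩ := eventually_atTop.mp (hwt.eventually (gt_mem_nhds hρ1))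
    have hq : ρ / ‖l‖ < 1 := by rw [div_lt_one (by linarith)]; exact hρ2
    have hq0 : 0 ≤ ρ / ‖l‖ := by positivity
    have hstep : ∀ m, M0 ≤ m → ‖b (m + 1)‖ ≤ ρ / ‖l‖ * ‖b m‖ := by
      intro m hm
      have h1 := congrArg norm (hbstep m)
      rw [norm_mul, norm_mul, hμn] at h1
      have h2 := (hM0 (m + 1) (by omega)).le
      have hl0 : 0 < ‖l‖ := by linarith
      rw [div_mul_eq_mul_div, le_div_iff₀ hl0, mul_comm, h1, mul_comm]
      exact mul_le_mul_of_nonneg_right h2 (norm_nonneg _)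
    have hind : ∀ m, ‖b (M0 + m)‖ ≤ (ρ / ‖l‖) ^ m * ‖b M0‖ := by
      intro m
      induction m with
      | zero => simp
      | succ m ih =>
        have h1 := hstep (M0 + m) (by omega)
        have h2 := mul_le_mul_of_nonneg_left ih hq0
        rw [← add_assoc]
        refine h1.trans (h2.trans (le_of_eq ?_))
        ring
    have h1 : Tendsto (fun m => ‖b (M0 + m)‖) atTop (𝓝 0) := by
      refine squeeze_zero (fun _ => norm_nonneg _) hind ?_
      have := (tendsto_pow_atTop_nhds_zero_of_lt_one hq0 hq).mul_const ‖b M0‖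
      rwa [zero_mul] at this
    have h2 : Tendsto (fun m => ‖b (m + M0)‖) atTop (𝓝 0) := by
      simpa [add_comm] using h1
    exact (tendsto_add_atTop_iff_nat M0).mp h2
  -- the approximation
  refine inUsf_of_approx hw fun ε hε => ?_
  have hE := E_pos τ
  obtain ⟨M, hM⟩ : ∃ M, ‖b (M + 1)‖ < ε / (4 * E τ * ‖l‖ + 1) := by
    have h1 := (hblim.comp (tendsto_add_atTop_nat 1)).eventually
      (gt_mem_nhds (show (0 : ℝ) < ε / (4 * E τ * ‖l‖ + 1) by positivity))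
    exact h1.exists
  set S : ℝ := (∑ j ∈ range k, ‖a (j + 1)‖) + (∑ j ∈ range k, ‖a j‖) +
    (∑ m ∈ range (M + 1), ‖b m‖) + 1 with hS
  have hSa : 0 ≤ ∑ j ∈ range k, ‖a (j + 1)‖ := sum_nonneg fun _ _ => norm_nonneg _
  have hSb : 0 ≤ ∑ j ∈ range k, ‖a j‖ := sum_nonneg fun _ _ => norm_nonneg _
  have hSc : 0 ≤ ∑ m ∈ range (M + 1), ‖b m‖ := sum_nonneg fun _ _ => norm_nonneg _
  have hS1 : 1 ≤ S := by rw [hS]; linarith
  set ε1 : ℝ := min (ε / (2 * S)) (1 / (4 * S)) with hε1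
  have hε10 : 0 < ε1 := lt_min (by positivity) (by positivity)
  have hε1a : S * ε1 ≤ ε / 2 := by
    have h1 : ε1 ≤ ε / (2 * S) := min_le_left _ _
    rw [le_div_iff₀ (by positivity)] at h1
    linarith
  have hε1b : S * ε1 ≤ 1 / 4 := by
    have h1 : ε1 ≤ 1 / (4 * S) := min_le_right _ _
    rw [le_div_iff₀ (by positivity)] at h1
    linarith
  -- eventual conditions
  have c1 : ∀ᶠ β in 𝓝[>] (0 : ℝ), ∀ j ∈ range k, ∀ z : ℂ, ‖z‖ ≤ 1 →
      ‖w z * h τ β (s j ^ 2) (z ^ 2) - tw τ * (w (s j) * h τ β (s j) z +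
        w (-s j) * h τ β (-s j) z)‖ ≤ ε1 :=
    (eventually_all_finset (range k)).mpr fun j _ => ev_of (T_h_small hw.1 τ (hs1 j) hε10)
  have c2 : ∀ᶠ β in 𝓝[>] (0 : ℝ), ∀ m ∈ range (M + 1), ∀ z : ℂ, ‖z‖ ≤ 1 →
      ‖w z * h τ β (t (m + 1) ^ 2) (z ^ 2) - tw τ * (w (t (m + 1)) * h τ β (t (m + 1)) z +
        w (-t (m + 1)) * h τ β (-t (m + 1)) z)‖ ≤ ε1 :=
    (eventually_all_finset (range (M + 1))).mpr fun m _ =>
      ev_of (T_h_small hw.1 τ (ht1 (m + 1)) hε10)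
  have c3 := ev_of (h_small τ hε hε10)
  have c4 : ∀ᶠ β in 𝓝[>] (0 : ℝ), 0 < β ∧ β ≤ 1 / 8 :=
    ev_of ⟨1 / 8, by norm_num, by norm_num, fun β h1 h2 => ⟨h1, h2⟩⟩
  have c5 : ∀ᶠ β in 𝓝[>] (0 : ℝ), ∀ j ∈ range (k - 1), ‖h τ β (s (j + 1)) (zst β (s 0))‖ ≤ ε1 :=
    (eventually_all_finset (range (k - 1))).mpr fun j hj =>
      far_small τ (hs1 0) (hs1 (j + 1)) (hd1 (j + 1) (by omega)
        (by have := mem_range.mp hj; omega)) hε10
  have c6 : ∀ᶠ β in 𝓝[>] (0 : ℝ), ∀ m ∈ range (M + 1), ‖h τ β (t m) (zst β (s 0))‖ ≤ ε1 :=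
    (eventually_all_finset (range (M + 1))).mpr fun m _ =>
      far_small τ (hs1 0) (ht1 m) (hd2 m) hε10
  obtain ⟨β, d1, d2, d3, ⟨hβ, hβ8⟩, d5, d6⟩ :=
    (c1.and (c2.and (c3.and (c4.and (c5.and c6))))).exists
  set f : ℂ → ℂ := fun z => (∑ j ∈ range k, a j * h τ β (s j) z) +
    ∑ m ∈ range (M + 1), b m * h τ β (t m) z with hf
  refine ⟨f, ⟨?_, ?_⟩, ?_, ?_, ?_⟩
  · refine ContinuousOn.add (continuousOn_finsetSum _ fun j _ => ?_)
      (continuousOn_finsetSum _ fun m _ => ?_)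
    · exact continuousOn_const.mul (h_inA hβ (hs1 j)).1
    · exact continuousOn_const.mul (h_inA hβ (ht1 m)).1
  · refine DifferentiableOn.add (DifferentiableOn.fun_sum fun j _ => ?_)
      (DifferentiableOn.fun_sum fun m _ => ?_)
    · exact (differentiableOn_const _).mul (h_inA hβ (hs1 j)).2
    · exact (differentiableOn_const _).mul (h_inA hβ (ht1 m)).2
  · -- the main estimate
    intro z hz
    have hshift : ∑ j ∈ range k, a j * h τ β (s j) (z ^ 2) =
        ∑ j ∈ range k, a (j + 1) * h τ β (s (j + 1)) (z ^ 2) := by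
      have e1 := sum_range_succ (fun j => a j * h τ β (s j) (z ^ 2)) k
      have e2 := sum_range_succ' (fun j => a j * h τ β (s j) (z ^ 2)) k
      rw [e1] at e2
      rw [hak, hper, ha0] at e2
      exact add_right_cancel e2
    have hlast : ∑ j ∈ range k, a (j + 1) * (tw τ * (w (-s j) * h τ β (-s j) z)) =
        l * (b 0 * h τ β (t 0) z) := by
      rw [sum_eq_single (k - 1)]
      · rw [Nat.sub_add_cancel hk, hak, ← ht0, ← hb0, ← hτ]
        ring
      · intro j hj hjk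
        have := mem_range.mp hj
        rw [hz1 j (by omega)]
        ring
      · intro hcon
        exact absurd (mem_range.mpr (by omega)) hcon
    have hfirst : ∑ j ∈ range k, a (j + 1) * (tw τ * (w (s j) * h τ β (s j) z)) =
        l * ∑ j ∈ range k, a j * h τ β (s j) z := by
      rw [mul_sum]
      refine sum_congr rfl fun j hj => ?_
      have h1 := hastep j (mem_range.mp hj)
      rw [← hτ]
      linear_combination (-(tw τ * h τ β (s j) z)) * h1
    have htail : ∑ m ∈ range (M + 1), b m * (tw τ * (w (t (m + 1)) * h τ β (t (m + 1)) z)) =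
        l * ∑ m ∈ range (M + 1), b (m + 1) * h τ β (t (m + 1)) z := by
      rw [mul_sum]
      refine sum_congr rfl fun m hm => ?_
      have h1 := hbstep m
      rw [← hτ]
      linear_combination (-(tw τ * h τ β (t (m + 1)) z)) * h1
    have htele : (∑ m ∈ range (M + 1), b (m + 1) * h τ β (t (m + 1)) z) + b 0 * h τ β (t 0) z =
        (∑ m ∈ range (M + 1), b m * h τ β (t m) z) + b (M + 1) * h τ β (t (M + 1)) z := by
      rw [← sum_range_succ' (fun m => b m * h τ β (t m) z) (M + 1),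
        sum_range_succ (fun m => b m * h τ β (t m) z) (M + 1)]
    have hR1 : ∑ j ∈ range k, a (j + 1) * (w z * h τ β (s j ^ 2) (z ^ 2) -
        tw τ * (w (s j) * h τ β (s j) z + w (-s j) * h τ β (-s j) z)) =
        (w z * ∑ j ∈ range k, a j * h τ β (s j) (z ^ 2)) -
        l * (∑ j ∈ range k, a j * h τ β (s j) z) - l * (b 0 * h τ β (t 0) z) := by
      rw [hshift, ← hfirst, ← hlast, mul_sum, ← sum_sub_distrib, ← sum_sub_distrib]
      refine sum_congr rfl fun j _ => ?_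
      rw [hss j]
      ring
    have hR2 : ∑ m ∈ range (M + 1), b m * (w z * h τ β (t (m + 1) ^ 2) (z ^ 2) -
        tw τ * (w (t (m + 1)) * h τ β (t (m + 1)) z + w (-t (m + 1)) * h τ β (-t (m + 1)) z)) =
        (w z * ∑ m ∈ range (M + 1), b m * h τ β (t m) (z ^ 2)) -
        l * ∑ m ∈ range (M + 1), b (m + 1) * h τ β (t (m + 1)) z := by
      rw [← htail, mul_sum, ← sum_sub_distrib]
      refine sum_congr rfl fun m _ => ?_
      rw [htt m, hz2 m]
      ring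
    have hmain : w z * f (z ^ 2) - l * f z =
        (∑ j ∈ range k, a (j + 1) * (w z * h τ β (s j ^ 2) (z ^ 2) -
        tw τ * (w (s j) * h τ β (s j) z + w (-s j) * h τ β (-s j) z))) +
        (∑ m ∈ range (M + 1), b m * (w z * h τ β (t (m + 1) ^ 2) (z ^ 2) -
        tw τ * (w (t (m + 1)) * h τ β (t (m + 1)) z + w (-t (m + 1)) * h τ β (-t (m + 1)) z))) +
        l * (b (M + 1) * h τ β (t (M + 1)) z) := by
      rw [hR1, hR2, hf]
      linear_combination l * htele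
    rw [hmain]
    refine norm_add₃_le.trans ?_
    have n1 : ‖∑ j ∈ range k, a (j + 1) * (w z * h τ β (s j ^ 2) (z ^ 2) -
        tw τ * (w (s j) * h τ β (s j) z + w (-s j) * h τ β (-s j) z))‖ ≤
        (∑ j ∈ range k, ‖a (j + 1)‖) * ε1 := by
      refine (norm_sum_le _ _).trans ?_
      rw [sum_mul]
      refine sum_le_sum fun j hj => ?_
      rw [norm_mul]
      exact mul_le_mul_of_nonneg_left (d1 j hj z hz) (norm_nonneg _)
    have n2 : ‖∑ m ∈ range (M + 1), b m * (w z * h τ β (t (m + 1) ^ 2) (z ^ 2) -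
        tw τ * (w (t (m + 1)) * h τ β (t (m + 1)) z + w (-t (m + 1)) * h τ β (-t (m + 1)) z))‖ ≤
        (∑ m ∈ range (M + 1), ‖b m‖) * ε1 := by
      refine (norm_sum_le _ _).trans ?_
      rw [sum_mul]
      refine sum_le_sum fun m hm => ?_
      rw [norm_mul]
      exact mul_le_mul_of_nonneg_left (d2 m hm z hz) (norm_nonneg _)
    have n3 : ‖l * (b (M + 1) * h τ β (t (M + 1)) z)‖ ≤ ε / 2 := by
      rw [norm_mul, norm_mul]
      have g1 := norm_h_le (τ := τ) hβ (ht1 (M + 1)) hz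
      have g2 : ‖b (M + 1)‖ * (4 * E τ * ‖l‖ + 1) ≤ ε := by
        rw [lt_div_iff₀ (by positivity)] at hM
        exact hM.le
      have g3 : ‖b (M + 1)‖ * ‖h τ β (t (M + 1)) z‖ ≤ ‖b (M + 1)‖ * (2 * E τ) :=
        mul_le_mul_of_nonneg_left g1 (norm_nonneg _)
      have g4 := mul_le_mul_of_nonneg_left g3 (norm_nonneg l)
      have g5 := norm_nonneg (b (M + 1))
      nlinarith
    have n4 : (∑ j ∈ range k, ‖a (j + 1)‖) * ε1 + (∑ m ∈ range (M + 1), ‖b m‖) * ε1 ≤ S * ε1 := by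
      rw [hS]
      nlinarith
    linarith
  · -- smallness inside
    intro z hz
    have hz1' : ‖z‖ ≤ 1 := by linarith
    have hdist : ∀ x : ℂ, ‖x‖ = 1 → ε ≤ ‖z - x‖ := by
      intro x hx
      have := norm_sub_norm_le x z
      rw [hx, norm_sub_rev] at this
      linarith
    have n1 : ‖∑ j ∈ range k, a j * h τ β (s j) z‖ ≤ (∑ j ∈ range k, ‖a j‖) * ε1 := by
      refine (norm_sum_le _ _).trans ?_
      rw [sum_mul]
      refine sum_le_sum fun j hj => ?_
      rw [norm_mul]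
      exact mul_le_mul_of_nonneg_left (d3 _ z (hs1 j) hz1' (hdist _ (hs1 j))) (norm_nonneg _)
    have n2 : ‖∑ m ∈ range (M + 1), b m * h τ β (t m) z‖ ≤
        (∑ m ∈ range (M + 1), ‖b m‖) * ε1 := by
      refine (norm_sum_le _ _).trans ?_
      rw [sum_mul]
      refine sum_le_sum fun m hm => ?_
      rw [norm_mul]
      exact mul_le_mul_of_nonneg_left (d3 _ z (ht1 m) hz1' (hdist _ (ht1 m))) (norm_nonneg _)
    have n4 : (∑ j ∈ range k, ‖a j‖) * ε1 + (∑ m ∈ range (M + 1), ‖b m‖) * ε1 ≤ S * ε1 := by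
      rw [hS]
      nlinarith
    rw [hf]
    refine (norm_add_le _ _).trans ?_
    linarith
  · -- the lower bound
    refine ⟨zst β (s 0), zst_norm (hs1 0), ?_⟩
    obtain ⟨k', rfl⟩ : ∃ k', k = k' + 1 := ⟨k - 1, by omega⟩
    have g0 := zst_h (τ := τ) hβ hβ8 (hs1 0)
    have n1 : ‖∑ j ∈ range k', a (j + 1) * h τ β (s (j + 1)) (zst β (s 0))‖ ≤
        (∑ j ∈ range (k' + 1), ‖a (j + 1)‖) * ε1 := by
      refine (norm_sum_le _ _).trans ?_
      rw [sum_mul, sum_range_succ]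
      refine le_add_of_le_of_nonneg (sum_le_sum fun j hj => ?_) (by positivity)
      rw [norm_mul]
      exact mul_le_mul_of_nonneg_left (d5 j (by simpa using hj)) (norm_nonneg _)
    have n2 : ‖∑ m ∈ range (M + 1), b m * h τ β (t m) (zst β (s 0))‖ ≤
        (∑ m ∈ range (M + 1), ‖b m‖) * ε1 := by
      refine (norm_sum_le _ _).trans ?_
      rw [sum_mul]
      refine sum_le_sum fun m hm => ?_
      rw [norm_mul]
      exact mul_le_mul_of_nonneg_left (d6 m hm) (norm_nonneg _)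
    have n4 : (∑ j ∈ range (k' + 1), ‖a (j + 1)‖) * ε1 + (∑ m ∈ range (M + 1), ‖b m‖) * ε1 ≤
        S * ε1 := by
      rw [hS]
      nlinarith
    have e : f (zst β (s 0)) = h τ β (s 0) (zst β (s 0)) +
        ((∑ j ∈ range k', a (j + 1) * h τ β (s (j + 1)) (zst β (s 0))) +
        ∑ m ∈ range (M + 1), b m * h τ β (t m) (zst β (s 0))) := by
      rw [hf]
      simp only
      rw [sum_range_succ', ha0]
      ring
    rw [e]
    have h1 : ‖h τ β (s 0) (zst β (s 0))‖ -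
        ‖(∑ j ∈ range k', a (j + 1) * h τ β (s (j + 1)) (zst β (s 0))) +
        ∑ m ∈ range (M + 1), b m * h τ β (t m) (zst β (s 0))‖ ≤
        ‖h τ β (s 0) (zst β (s 0)) +
        ((∑ j ∈ range k', a (j + 1) * h τ β (s (j + 1)) (zst β (s 0))) +
        ∑ m ∈ range (M + 1), b m * h τ β (t m) (zst β (s 0)))‖ := norm_sub_le_norm_add _ _
    have h2 := norm_add_le (∑ j ∈ range k', a (j + 1) * h τ β (s (j + 1)) (zst β (s 0)))
      (∑ m ∈ range (M + 1), b m * h τ β (t m) (zst β (s 0)))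
    linarith

end Pool.Agent.R256.Usf
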