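import Mathlib
import Pool.Agent.R256.Usf2
import Pool.Agent.R256.Usf3

/-!
Upper semi-Fredholm spectra of weighted composition operators, IV: the orbits, the zero set and the
weight.
-/

set_option autoImplicit false

open Filter Topology Metric Finset

namespace Pool.Agent.R256.Usf

/-- `exp(2πix)` -/
noncomputable def e (x : ℝ) : ℂ := Complex.exp (((2 * Real.pi * x : ℝ) : ℂ) * Complex.I)

theorem e_norm (x : ℝ) : ‖e x‖ = 1 := Complex.norm_exp_ofReal_mul_I _

theorem e_add (x y : ℝ) : e (x + y) = e x * e y := by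
  unfold e
  rw [← Complex.exp_add]
  congr 1
  push_cast
  ring

theorem e_zero : e 0 = 1 := by simp [e]

theorem e_two (x : ℝ) : e (2 * x) = e x ^ 2 := by rw [two_mul, e_add, sq]

theorem e_int_one : e 1 = 1 := by
  unfold e
  have : ((2 * Real.pi * 1 : ℝ) : ℂ) * Complex.I = 2 * Real.pi * Complex.I := by push_cast; ring
  rw [this, Complex.exp_two_pi_mul_I]

theorem e_one_add (x : ℝ) : e (1 + x) = e x := by rw [e_add, e_int_one, one_mul]

theorem e_half : e (1 / 2) = -1 := by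
  unfold e
  have : ((2 * Real.pi * (1 / 2) : ℝ) : ℂ) * Complex.I = Real.pi * Complex.I := by push_cast; ring
  rw [this, Complex.exp_pi_mul_I]

theorem e_half_add (x : ℝ) : e (1 / 2 + x) = -e x := by rw [e_add, e_half]; ring

theorem e_neg (x : ℝ) : e (-x) = (starRingEnd ℂ) (e x) := by
  unfold e
  rw [← Complex.exp_conj]
  congr 1
  rw [map_mul, Complex.conj_ofReal, Complex.conj_I]
  push_cast
  ring

theorem e_re (x : ℝ) : (e x).re = Real.cos (2 * Real.pi * x) := by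
  unfold e
  rw [Complex.exp_ofReal_mul_I_re]

theorem e_sub_one (x : ℝ) : ‖e x - 1‖ = ‖2 * Real.sin (Real.pi * x)‖ := by
  have h := Complex.norm_exp_I_mul_ofReal_sub_one (2 * Real.pi * x)
  unfold e
  rw [mul_comm, h]
  congr 3
  ring

theorem e_lower {x : ℝ} (hx : |x| ≤ 1 / 2) : 4 * |x| ≤ ‖e x - 1‖ := by
  rw [e_sub_one, norm_mul, Real.norm_eq_abs, Real.norm_eq_abs, abs_two]
  have hpi := Real.pi_pos
  have h1 : |Real.sin (Real.pi * x)| = Real.sin (Real.pi * |x|) := by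
    rcases le_total 0 x with h | h
    · rw [abs_of_nonneg h] at hx ⊢
      rw [abs_of_nonneg]
      exact Real.sin_nonneg_of_nonneg_of_le_pi (by positivity) (by nlinarith)
    · rw [abs_of_nonpos h] at hx ⊢
      have : Real.sin (Real.pi * x) = -Real.sin (Real.pi * -x) := by
        rw [← Real.sin_neg]; ring_nf
      rw [this, abs_neg, abs_of_nonneg]
      exact Real.sin_nonneg_of_nonneg_of_le_pi (mul_nonneg hpi.le (by linarith)) (by nlinarith)
  rw [h1]
  have h2 := Real.mul_le_sin (x := Real.pi * |x|) (by positivity) (by nlinarith [abs_nonneg x])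
  have h3 : 2 / Real.pi * (Real.pi * |x|) = 2 * |x| := by field_simp
  rw [h3] at h2
  linarith

theorem e_upper (x : ℝ) : ‖e x - 1‖ ≤ 2 * Real.pi * |x| := by
  have h := Real.norm_exp_I_mul_ofReal_sub_one_le (x := 2 * Real.pi * x)
  unfold e
  rw [mul_comm]
  refine h.trans (le_of_eq ?_)
  rw [Real.norm_eq_abs, abs_mul, abs_of_pos (by positivity : (0 : ℝ) < 2 * Real.pi)]

theorem e_dist (x y : ℝ) : ‖e x - e y‖ = ‖e (x - y) - 1‖ := by
  have h1 : e x = e (x - y) * e y := by rw [← e_add]; ring_nf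
  have h2 : e x - e y = (e (x - y) - 1) * e y := by rw [h1]; ring
  rw [h2, norm_mul, e_norm, mul_one]

theorem e_continuous : Continuous e := by
  unfold e
  fun_prop

theorem e_mem (x : ℝ) : e x ∈ closedBall (0 : ℂ) 1 := by
  rw [mem_closedBall_zero_iff, e_norm]

/-! ### the orbits -/

/-- `2^k - 1` -/
noncomputable def DD (k : ℕ) : ℝ := 2 ^ k - 1

theorem DD_ge {k : ℕ} (hk : 2 ≤ k) : 3 ≤ DD k := by
  unfold DD
  have : (2 : ℝ) ^ 2 ≤ 2 ^ k := pow_le_pow_right₀ (by norm_num) hk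
  linarith

/-- the periodic orbit -/
noncomputable def sp (k j : ℕ) : ℂ := e (2 ^ j / DD k)

/-- the tail -/
noncomputable def tp (k m : ℕ) : ℂ := e (1 / (2 ^ (m + 1) * DD k))

/-- `2^k/(2^k-1)` -/
noncomputable def cK (k : ℕ) : ℝ := 2 ^ k / DD k

theorem cK_eq {k : ℕ} (hk : 2 ≤ k) : cK k = 1 + 1 / DD k := by
  have := DD_ge hk
  unfold cK
  have h : (2 : ℝ) ^ k = DD k + 1 := by unfold DD; ring
  rw [h]
  field_simp

theorem cK_gt {k : ℕ} (hk : 2 ≤ k) : 1 < cK k := by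
  have := DD_ge hk
  rw [cK_eq hk]
  have : 0 < 1 / DD k := by positivity
  linarith

theorem cK_le {k : ℕ} (hk : 2 ≤ k) : cK k ≤ 4 / 3 := by
  have := DD_ge hk
  rw [cK_eq hk]
  have : 1 / DD k ≤ 1 / 3 := one_div_le_one_div_of_le (by norm_num) this
  linarith

theorem cK_tendsto : Tendsto cK atTop (𝓝 1) := by
  have h1 : Tendsto (fun k : ℕ => (1 / 2 : ℝ) ^ k) atTop (𝓝 0) :=
    tendsto_pow_atTop_nhds_zero_of_lt_one (by norm_num) (by norm_num)
  have h2 : Tendsto (fun k : ℕ => 1 / (1 - (1 / 2 : ℝ) ^ k)) atTop (𝓝 (1 / (1 - 0))) :=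
    (tendsto_const_nhds.div (tendsto_const_nhds.sub h1) (by norm_num))
  rw [sub_zero, div_one] at h2
  refine h2.congr fun k => ?_
  unfold cK DD
  have h3 : (2 : ℝ) ^ k ≠ 0 := by positivity
  rw [one_div, one_div, inv_pow, ← one_div]
  field_simp

/-! ### the zero set -/

theorem closed_of {S : Set ℝ} {a : ℝ} (ha : a ∈ S) (hS : ∀ x ∈ S, a ≤ x)
    (h : ∀ δ : ℝ, 0 < δ → ∃ T : Set ℝ, T ⊆ S ∧ IsClosed T ∧ ∀ x ∈ S, a + δ ≤ x → x ∈ T) :
    IsClosed S := by
  refine isClosed_of_closure_subset fun x hx => ?_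
  have h1 : a ≤ x := by
    have : closure S ⊆ Set.Ici a := closure_minimal hS isClosed_Ici
    exact this hx
  rcases h1.lt_or_eq with h2 | h2
  · obtain ⟨T, hT1, hT2, hT3⟩ := h ((x - a) / 2) (by linarith)
    have h3 : closure S ⊆ Set.Iic (a + (x - a) / 2) ∪ T := by
      refine closure_minimal (fun y hy => ?_) (isClosed_Iic.union hT2)
      rcases le_total y (a + (x - a) / 2) with h4 | h4
      · exact Or.inl h4
      · exact Or.inr (hT3 y hy h4)
    rcases h3 hx with h4 | h4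
    · have h5 : x ≤ a + (x - a) / 2 := h4
      exfalso; linarith
    · exact hT1 h4
  · rw [← h2]; exact ha

def Cs (i : ℕ) : Set ℝ :=
  {x | x = (1 / 2) ^ (i + 1) ∨ ∃ k : ℕ, 2 ≤ k ∧ i ≠ k ∧ x = (1 / 2) ^ (i + 1) * cK k}

def ZZ : Set ℝ := {x | x = 0 ∨ ∃ i : ℕ, 1 ≤ i ∧ x ∈ Cs i}

theorem Cs_bounds {i : ℕ} {x : ℝ} (hx : x ∈ Cs i) :
    (1 / 2 : ℝ) ^ (i + 1) ≤ x ∧ x ≤ (1 / 2) ^ (i + 1) * (4 / 3) := by
  have h0 : (0 : ℝ) < (1 / 2) ^ (i + 1) := by positivity
  rcases hx with h | ⟨k, hk, _, h⟩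
  · rw [h]; constructor <;> linarith
  · rw [h]
    have h1 := cK_gt hk
    have h2 := cK_le hk
    constructor <;> nlinarith

theorem Cs_closed (i : ℕ) : IsClosed (Cs i) := by
  refine closed_of (a := (1 / 2) ^ (i + 1)) (Or.inl rfl) (fun x hx => (Cs_bounds hx).1) ?_
  intro δ hδ
  have h0 : (0 : ℝ) < (1 / 2) ^ (i + 1) := by positivity
  have h1 : Tendsto (fun k => (1 / 2 : ℝ) ^ (i + 1) * cK k) atTop (𝓝 ((1 / 2) ^ (i + 1) * 1)) :=
    cK_tendsto.const_mul _
  obtain ⟨K, hK⟩ := eventually_atTop.mp (h1.eventually (gt_mem_nhds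
    (show (1 / 2 : ℝ) ^ (i + 1) * 1 < (1 / 2) ^ (i + 1) + δ by linarith)))
  refine ⟨{x | ∃ k : ℕ, k < K ∧ 2 ≤ k ∧ i ≠ k ∧ x = (1 / 2) ^ (i + 1) * cK k}, ?_, ?_, ?_⟩
  · rintro x ⟨k, _, h2, h3, h4⟩
    exact Or.inr ⟨k, h2, h3, h4⟩
  · refine Set.Finite.isClosed ?_
    refine (Set.toFinite ((fun k : ℕ => (1 / 2 : ℝ) ^ (i + 1) * cK k) '' (Finset.range K : Set ℕ))).subset ?_
    rintro x ⟨k, h1, h2, h3, h4⟩
    exact ⟨k, by simpa using h1, h4.symm⟩
  · intro x hx hx2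
    rcases hx with h | ⟨k, hk, hik, h⟩
    · rw [h] at hx2; exfalso; linarith
    · refine ⟨k, ?_, hk, hik, h⟩
      by_contra hcon
      push Not at hcon
      have := hK k hcon
      rw [← h] at this
      linarith

theorem ZZ_bounds {x : ℝ} (hx : x ∈ ZZ) : 0 ≤ x ∧ x ≤ 1 / 3 := by
  rcases hx with h | ⟨i, hi, h⟩
  · rw [h]; norm_num
  · obtain ⟨h1, h2⟩ := Cs_bounds h
    have h3 : (1 / 2 : ℝ) ^ (i + 1) ≤ (1 / 2) ^ 2 :=
      pow_le_pow_of_le_one (by norm_num) (by norm_num) (by omega)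
    have h4 : (0 : ℝ) < (1 / 2) ^ (i + 1) := by positivity
    constructor
    · linarith
    · norm_num at h3 ⊢
      linarith

theorem ZZ_closed : IsClosed ZZ := by
  refine closed_of (a := 0) (Or.inl rfl) (fun x hx => (ZZ_bounds hx).1) ?_
  intro δ hδ
  have h1 : Tendsto (fun i : ℕ => (1 / 2 : ℝ) ^ (i + 1) * (4 / 3)) atTop (𝓝 (0 * (4 / 3))) :=
    ((tendsto_pow_atTop_nhds_zero_of_lt_one (by norm_num) (by norm_num)).comp
      (tendsto_add_atTop_nat 1)).mul_const _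
  rw [zero_mul] at h1
  obtain ⟨I, hI⟩ := eventually_atTop.mp (h1.eventually (gt_mem_nhds hδ))
  refine ⟨⋃ i ∈ (Finset.Ico 1 I : Set ℕ), Cs i, ?_, ?_, ?_⟩
  · intro x hx
    simp only [Set.mem_iUnion] at hx
    obtain ⟨i, hi, hx⟩ := hx
    have hi' : 1 ≤ i ∧ i < I := by simpa using hi
    exact Or.inr ⟨i, hi'.1, hx⟩
  · exact (Finset.finite_toSet _).isClosed_biUnion fun i _ => Cs_closed i
  · intro x hx hx2
    rcases hx with h | ⟨i, hi, h⟩
    · rw [h] at hx2; exfalso; linarith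
    · simp only [Set.mem_iUnion]
      refine ⟨i, ?_, h⟩
      by_contra hcon
      have hi2 : I ≤ i := by
        by_contra hh
        apply hcon
        simp
        omega
      have h3 := hI i hi2
      have h4 := (Cs_bounds h).2
      linarith

theorem ZZ_countable : ZZ.Countable := by
  have h : ZZ ⊆ {0} ∪ (Set.range (fun i : ℕ => (1 / 2 : ℝ) ^ (i + 1)) ∪
      Set.range (fun p : ℕ × ℕ => (1 / 2 : ℝ) ^ (p.1 + 1) * cK p.2)) := by
    rintro x (h | ⟨i, hi, h | ⟨k, hk, hik, h⟩⟩)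
    · exact Or.inl h
    · exact Or.inr (Or.inl ⟨i, h.symm⟩)
    · exact Or.inr (Or.inr ⟨(i, k), h.symm⟩)
  exact ((Set.countable_singleton 0).union
    ((Set.countable_range _).union (Set.countable_range _))).mono h

/-- the zero set on the circle -/
def ZC : Set ℂ := (fun x => -e x) '' ZZ

theorem ZC_closed : IsClosed ZC := by
  have h1 : IsCompact ZZ :=
    Metric.isCompact_of_isClosed_isBounded ZZ_closed
      ((Metric.isBounded_Icc (0 : ℝ) (1 / 3)).subset fun x hx => ⟨(ZZ_bounds hx).1, (ZZ_bounds hx).2⟩)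
  exact (h1.image e_continuous.neg).isClosed

theorem exists_enum : ∃ ζ : ℕ → ℂ, ZC = Set.range ζ :=
  (ZZ_countable.image _).exists_eq_range ⟨-e 0, 0, Or.inl rfl, rfl⟩

/-- an enumeration of the zero set -/
noncomputable def zt : ℕ → ℂ := exists_enum.choose

theorem zt_range : ZC = Set.range zt := exists_enum.choose_spec

theorem zt_mem (n : ℕ) : ∃ y ∈ ZZ, zt n = -e y := by
  have : zt n ∈ ZC := by rw [zt_range]; exact ⟨n, rfl⟩
  obtain ⟨y, hy, h⟩ := this
  exact ⟨y, hy, h.symm⟩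

theorem zt_norm (n : ℕ) : ‖zt n‖ = 1 := by
  obtain ⟨y, _, h⟩ := zt_mem n
  rw [h, norm_neg, e_norm]

theorem zt_closed : IsClosed (Set.range zt) := by rw [← zt_range]; exact ZC_closed

theorem Q_re_e {x : ℝ} (hx0 : 0 ≤ x) (hx1 : x ≤ 1 / 3) (n : ℕ) :
    1 / 4 ≤ (Q ((starRingEnd ℂ) (zt n) * e x)).re := by
  obtain ⟨y, hy, h⟩ := zt_mem n
  obtain ⟨hy0, hy1⟩ := ZZ_bounds hy
  have h1 : (starRingEnd ℂ) (zt n) * e x = -e (x - y) := by
    rw [h, map_neg, neg_mul, ← e_neg, ← e_add]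
    congr 2
    ring
  rw [h1]
  unfold Q
  have h2 : ((1 - -e (x - y)) / 2).re = (1 + Real.cos (2 * Real.pi * (x - y))) / 2 := by
    rw [sub_neg_eq_add]
    have : ((1 + e (x - y)) / 2).re = (1 + (e (x - y)).re) / 2 := by simp
    rw [this, e_re]
  rw [h2]
  have hpi := Real.pi_pos
  have h3 : Real.cos (2 * Real.pi / 3) ≤ Real.cos (2 * Real.pi * (x - y)) := by
    rw [← Real.cos_abs (2 * Real.pi * (x - y))]
    refine Real.cos_le_cos_of_nonneg_of_le_pi (abs_nonneg _) (by linarith) ?_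
    rw [abs_mul, abs_of_pos (by positivity : (0 : ℝ) < 2 * Real.pi)]
    have h4 : |x - y| ≤ 1 / 3 := by rw [abs_le]; constructor <;> linarith
    nlinarith
  have h4 : Real.cos (2 * Real.pi / 3) = -(1 / 2) := by
    have : 2 * Real.pi / 3 = Real.pi - Real.pi / 3 := by ring
    rw [this, Real.cos_pi_sub, Real.cos_pi_div_three]
  rw [h4] at h3
  linarith

theorem gap_e {x : ℝ} (hx0 : 0 ≤ x) (hx1 : x ≤ 1 / 3) (n : ℕ) : 1 / 2 ≤ ‖e x - zt n‖ := by
  have h1 := (Q_re_e hx0 hx1 n).trans (Complex.re_le_norm _)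
  rw [norm_Q_conj (zt_norm n)] at h1
  linarith

theorem not_mem_e {x : ℝ} (hx0 : 0 ≤ x) (hx1 : x ≤ 1 / 3) : e x ∉ Set.range zt := by
  rintro ⟨n, h⟩
  have := gap_e hx0 hx1 n
  rw [h, sub_self, norm_zero] at this
  linarith

/-! ### the weight -/

/-- the weight -/
noncomputable def ww (z : ℂ) : ℂ := (1 + gg zt 1) * uu z * vv zt z

theorem ww_inA : InA ww :=
  ⟨(continuousOn_const.mul uu_continuousOn).mul (vv_continuousOn zt_norm zt_closed),
    ((differentiableOn_const _).mul uu_differentiableOn).mul (vv_differentiableOn zt_norm)⟩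

theorem ww_zero {x : ℝ} (hx : x ∈ ZZ) : ww (-e x) = 0 := by
  have h1 : -e x ∈ Set.range zt := by rw [← zt_range]; exact ⟨x, hx, rfl⟩
  obtain ⟨n, hn⟩ := h1
  unfold ww
  rw [← hn, vv_zero, mul_zero]

theorem one_le_g1 : 1 ≤ ‖1 + gg zt 1‖ := by
  have := one_le_norm zt_norm (z := 1) (by simp) (d := 1 / 2) (by norm_num)
    (fun n => by have := gap_e (le_refl 0) (by norm_num) n; rwa [e_zero] at this)
  exact this

theorem ww_one : ww 1 = 1 := by
  unfold ww
  have h1 : (1 : ℂ) ∉ Set.range zt := by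
    have := not_mem_e (le_refl 0) (by norm_num : (0 : ℝ) ≤ 1 / 3)
    rwa [e_zero] at this
  have h2 : 1 + gg zt 1 ≠ 0 := by
    intro h
    have := one_le_g1
    rw [h, norm_zero] at this
    linarith
  rw [uu_one, vv_eq h1, mul_one, mul_inv_cancel₀ h2]

theorem ww_norm_ge {x : ℝ} (hx0 : 0 ≤ x) (hx1 : x ≤ 1 / 3) :
    Real.exp (-(4 * Real.pi * x)) * ‖uu (e x)‖ ≤ ‖ww (e x)‖ := by
  unfold ww
  rw [vv_eq (not_mem_e hx0 hx1), norm_mul, norm_mul, norm_inv]
  have hg1 := one_le_g1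
  have hlip : ‖gg zt (e x) - gg zt 1‖ ≤ 2 * ‖e x - 1‖ :=
    gg_lip zt_norm (e_norm x).le (by simp) (Q_re_e hx0 hx1)
      (fun n => by have := Q_re_e (le_refl 0) (by norm_num) n; rwa [e_zero] at this)
  have hup := e_upper x
  rw [abs_of_nonneg hx0] at hup
  have hpi := Real.pi_pos
  have h1 : ‖1 + gg zt (e x)‖ ≤ ‖1 + gg zt 1‖ * Real.exp (4 * Real.pi * x) := by
    have h2 : 1 + gg zt (e x) = (1 + gg zt 1) + (gg zt (e x) - gg zt 1) := by ring
    have h3 : ‖1 + gg zt (e x)‖ ≤ ‖1 + gg zt 1‖ + 4 * Real.pi * x := by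
      rw [h2]
      refine (norm_add_le _ _).trans ?_
      linarith
    have h4 := Real.add_one_le_exp (4 * Real.pi * x)
    have h5 : 0 ≤ 4 * Real.pi * x := by positivity
    nlinarith
  have h6 : 0 < ‖1 + gg zt (e x)‖ := by
    have := one_le_norm zt_norm (z := e x) (e_norm x).le (d := 1 / 2) (by norm_num)
      (gap_e hx0 hx1)
    linarith
  have h7 : Real.exp (-(4 * Real.pi * x)) ≤ ‖1 + gg zt 1‖ * ‖1 + gg zt (e x)‖⁻¹ := by
    rw [← div_eq_mul_inv, le_div_iff₀ h6, Real.exp_neg]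
    have h8 : 0 < Real.exp (4 * Real.pi * x) := Real.exp_pos _
    rw [inv_mul_le_iff₀ h8]
    linarith
  calc Real.exp (-(4 * Real.pi * x)) * ‖uu (e x)‖
      ≤ (‖1 + gg zt 1‖ * ‖1 + gg zt (e x)‖⁻¹) * ‖uu (e x)‖ :=
        mul_le_mul_of_nonneg_right h7 (norm_nonneg _)
    _ = _ := by ring

/-! ### separation -/

theorem sep {k : ℕ} (hk : 2 ≤ k) {y : ℝ} (hy : y ∈ ZZ) :
    (1 / 2 : ℝ) ^ (2 * k + 2) ≤ |(1 / 2) ^ (k + 1) * cK k - y| := by
  have hD := DD_ge hk
  have hpow : (1 / 2 : ℝ) ^ k * 2 ^ k = 1 := by rw [← mul_pow]; norm_num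
  have hp0 : (0 : ℝ) < (1 / 2) ^ k := by positivity
  set p : ℝ := (1 / 2) ^ k with hp
  have hp4 : p ≤ 1 / 4 := by
    have : (1 / 2 : ℝ) ^ k ≤ (1 / 2) ^ 2 := pow_le_pow_of_le_one (by norm_num) (by norm_num) hk
    norm_num at this
    linarith
  have e1 : (1 / 2 : ℝ) ^ (2 * k + 2) = p * p / 4 := by
    rw [hp]; ring
  have e2 : (1 / 2 : ℝ) ^ (k + 1) = p / 2 := by rw [hp]; ring
  rw [e1, e2]
  have hc1 := cK_gt hk
  have hc2 := cK_le hk
  rcases hy with h | ⟨i, hi, h⟩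
  · rw [h, sub_zero, abs_of_nonneg (by positivity)]
    nlinarith
  · obtain ⟨hb1, hb2⟩ := Cs_bounds h
    rcases lt_trichotomy i k with hik | hik | hik
    · -- `i < k`
      have h1 : p ≤ (1 / 2 : ℝ) ^ (i + 1) :=
        pow_le_pow_of_le_one (by norm_num) (by norm_num) (by omega)
      rw [abs_of_nonpos (by nlinarith)]
      nlinarith
    · -- `i = k`
      subst hik
      rw [e2] at hb1 hb2
      have hDinv : p ≤ 1 / DD i := by
        rw [le_div_iff₀ (by linarith)]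
        unfold DD
        nlinarith
      rcases h with h | ⟨k', hk', hne, h⟩
      · rw [h, e2, cK_eq hk]
        have e3 : p / 2 * (1 + 1 / DD i) - p / 2 = p / 2 * (1 / DD i) := by ring
        rw [e3, abs_of_nonneg (by positivity)]
        nlinarith
      · rw [h, e2, ← mul_sub, abs_mul, abs_of_pos (by positivity : (0 : ℝ) < p / 2)]
        have h2 : p / 2 ≤ |cK i - cK k'| := by
          rw [cK_eq hk, cK_eq hk']
          have e3 : (1 + 1 / DD i) - (1 + 1 / DD k') = 1 / DD i - 1 / DD k' := by ring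
          rw [e3]
          have hD' := DD_ge hk'
          rcases lt_or_gt_of_ne hne with hlt | hlt
          · -- `i < k'`
            have h3 : 2 * DD i + 1 ≤ DD k' := by
              unfold DD
              have : (2 : ℝ) ^ (i + 1) ≤ 2 ^ k' := pow_le_pow_right₀ (by norm_num) (by omega)
              rw [pow_succ] at this
              linarith
            have h4 : 1 / DD k' ≤ 1 / (2 * DD i) :=
              one_div_le_one_div_of_le (by linarith) (by linarith)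
            have h5 : 1 / (2 * DD i) = (1 / DD i) / 2 := by field_simp
            rw [h5] at h4
            refine le_trans ?_ (le_abs_self _)
            linarith
          · -- `k' < i`
            have h3 : 2 * DD k' + 1 ≤ DD i := by
              unfold DD
              have : (2 : ℝ) ^ (k' + 1) ≤ 2 ^ i := pow_le_pow_right₀ (by norm_num) (by omega)
              rw [pow_succ] at this
              linarith
            have h4 : 1 / DD i ≤ 1 / (2 * DD k') :=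
              one_div_le_one_div_of_le (by linarith) (by linarith)
            have h5 : 1 / (2 * DD k') = (1 / DD k') / 2 := by field_simp
            rw [h5] at h4
            rw [abs_sub_comm]
            refine le_trans ?_ (le_abs_self _)
            linarith
        nlinarith
    · -- `k < i`
      have h1 : (1 / 2 : ℝ) ^ (i + 1) ≤ p / 4 := by
        have : (1 / 2 : ℝ) ^ (i + 1) ≤ (1 / 2) ^ (k + 2) :=
          pow_le_pow_of_le_one (by norm_num) (by norm_num) (by omega)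
        refine this.trans (le_of_eq ?_)
        rw [hp]; ring
      rw [abs_of_nonneg (by nlinarith)]
      nlinarith

theorem tp_zero_angle {k : ℕ} (hk : 2 ≤ k) : (1 / 2 : ℝ) ^ (k + 1) * cK k = 1 / (2 ^ (0 + 1) * DD k) := by
  have hD := DD_ge hk
  have hpow : (1 / 2 : ℝ) ^ k * 2 ^ k = 1 := by rw [← mul_pow]; norm_num
  unfold cK
  rw [pow_succ]
  field_simp
  linarith

theorem sp_last {k : ℕ} (hk : 2 ≤ k) : sp k (k - 1) = -tp k 0 := by
  have hD := DD_ge hk
  unfold sp tp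
  rw [← e_half_add]
  congr 1
  have h1 : (2 : ℝ) ^ k = DD k + 1 := by unfold DD; ring
  have h2 : (2 : ℝ) ^ k = 2 * 2 ^ (k - 1) := by
    obtain ⟨m, rfl⟩ : ∃ m, k = m + 1 := ⟨k - 1, by omega⟩
    rw [Nat.add_sub_cancel, pow_succ]; ring
  field_simp
  norm_num
  linarith

/-- the value of the weight at the last point of the orbit -/
theorem ww_last {k : ℕ} (hk : 2 ≤ k) : 1 / (2 * (k : ℝ) + 4) ≤ ‖ww (sp k (k - 1))‖ := by
  have hk' : (2 : ℝ) ≤ k := by exact_mod_cast hk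
  have hD := DD_ge hk
  have hz : ‖sp k (k - 1)‖ = 1 := e_norm _
  set x0 : ℝ := (1 / 2 : ℝ) ^ (k + 1) * cK k with hx0
  have hx0b : 0 ≤ x0 ∧ x0 ≤ 1 / 3 := by
    rw [hx0, tp_zero_angle hk]
    constructor
    · positivity
    · rw [div_le_div_iff₀ (by positivity) (by norm_num)]
      norm_num
      linarith
  have hsp : sp k (k - 1) = -e x0 := by
    rw [sp_last hk, hx0, tp_zero_angle hk]; rfl
  have hgap : ∀ n, (1 / 2 : ℝ) ^ (2 * k) ≤ ‖sp k (k - 1) - zt n‖ := by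
    intro n
    obtain ⟨y, hy, h⟩ := zt_mem n
    rw [h, hsp]
    have h1 : -e x0 - -e y = -(e x0 - e y) := by ring
    rw [h1, norm_neg, e_dist]
    have hyb := ZZ_bounds hy
    have h2 := e_lower (x := x0 - y) (by rw [abs_le]; constructor <;> linarith [hx0b.1, hx0b.2, hyb.1, hyb.2])
    have h3 := sep hk hy
    rw [← hx0] at h3
    have h4 : (1 / 2 : ℝ) ^ (2 * k) = 4 * (1 / 2) ^ (2 * k + 2) := by ring
    rw [h4]
    linarith
  have hd0 : (0 : ℝ) < (1 / 2) ^ (2 * k) := by positivity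
  have hnr : sp k (k - 1) ∉ Set.range zt := by
    rintro ⟨n, h⟩
    have := hgap n
    rw [h, sub_self, norm_zero] at this
    linarith
  unfold ww
  rw [vv_eq hnr, norm_mul, norm_mul, norm_inv]
  have hg := gg_norm zt_norm hz.le hd0 hgap
  have hlog : Real.log (2 / (1 / 2) ^ (2 * k)) = (2 * k + 1) * Real.log 2 := by
    have : (2 : ℝ) / (1 / 2) ^ (2 * k) = 2 ^ (2 * k + 1) := by
      rw [one_div, inv_pow, div_inv_eq_mul, pow_succ]; ring
    rw [this, Real.log_pow]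
    push_cast
    ring
  rw [hlog] at hg
  have hl2 := Real.log_two_lt_d9
  have hpi := Real.pi_lt_d2
  have h1 : ‖1 + gg zt (sp k (k - 1))‖ ≤ 2 * k + 4 := by
    refine (norm_add_le _ _).trans ?_
    rw [norm_one]
    nlinarith
  have h0 : 0 < ‖1 + gg zt (sp k (k - 1))‖ := by
    have := one_le_norm zt_norm hz.le hd0 hgap
    linarith
  have h2 : 1 / (2 * (k : ℝ) + 4) ≤ ‖1 + gg zt (sp k (k - 1))‖⁻¹ := by
    rw [← one_div]
    exact one_div_le_one_div_of_le h0 h1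
  have h3 := one_le_norm_uu hz.le
  have h4 := one_le_g1
  have h5 : 1 ≤ ‖1 + gg zt 1‖ * ‖uu (sp k (k - 1))‖ := by nlinarith
  have h6 : 0 ≤ ‖1 + gg zt (sp k (k - 1))‖⁻¹ := inv_nonneg.mpr (norm_nonneg _)
  nlinarith

/-! ### the product over the orbit -/

theorem prod_tele (n : ℕ) : ∏ i ∈ range n, (((i : ℝ) + 4) / ((i : ℝ) + 2)) =
    ((n : ℝ) + 2) * (n + 3) / 6 := by
  induction n with
  | zero => norm_num
  | succ n ih =>
    rw [prod_range_succ, ih]
    push_cast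
    field_simp
    ring

theorem geom_half {k : ℕ} (hk : 2 ≤ k) : ∑ j ∈ range (k - 1), (2 : ℝ) ^ j / DD k ≤ 1 / 2 := by
  have hD := DD_ge hk
  rw [← sum_div, div_le_iff₀ (by linarith)]
  have h1 : ∑ j ∈ range (k - 1), (2 : ℝ) ^ j = 2 ^ (k - 1) - 1 := by
    rw [geom_sum_eq (by norm_num)]; norm_num
  have h2 : (2 : ℝ) ^ k = 2 * 2 ^ (k - 1) := by
    obtain ⟨m, rfl⟩ : ∃ m, k = m + 1 := ⟨k - 1, by omega⟩
    rw [Nat.add_sub_cancel, pow_succ]; ring
  rw [h1]
  unfold DD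
  rw [h2]
  linarith

theorem angle_bounds {k j : ℕ} (hk : 2 ≤ k) (hj : j + 1 < k) :
    0 < (2 : ℝ) ^ j / DD k ∧ (2 : ℝ) ^ j / DD k ≤ 1 / 3 ∧ (1 / 2 : ℝ) ^ (k - j) ≤ 2 ^ j / DD k := by
  have hD := DD_ge hk
  have h4 : (2 : ℝ) ^ k = 4 * 2 ^ (k - 2) := by
    obtain ⟨m, rfl⟩ : ∃ m, k = m + 2 := ⟨k - 2, by omega⟩
    rw [Nat.add_sub_cancel, pow_add]; ring
  have h5 : (2 : ℝ) ^ j ≤ 2 ^ (k - 2) := pow_le_pow_right₀ (by norm_num) (by omega)
  refine ⟨by positivity, ?_, ?_⟩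
  · rw [div_le_div_iff₀ (by linarith) (by norm_num)]
    have h6 : (1 : ℝ) ≤ 2 ^ (k - 2) := one_le_pow₀ (by norm_num)
    unfold DD
    rw [h4]
    linarith
  · rw [le_div_iff₀ (by linarith)]
    have h6 : (1 / 2 : ℝ) ^ (k - j) * 2 ^ k = 2 ^ j := by
      obtain ⟨m, rfl⟩ : ∃ m, k = j + m := ⟨k - j, by omega⟩
      rw [Nat.add_sub_cancel_left, pow_add, mul_comm, mul_assoc, ← mul_pow]
      norm_num
    have h7 : (0 : ℝ) < (1 / 2) ^ (k - j) := by positivity
    unfold DD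
    nlinarith

/-- lower bound of the product over the orbit -/
theorem prod_lower {k : ℕ} (hk : 2 ≤ k) :
    Real.exp (-(2 * Real.pi)) * (k + 1) / 12 ≤ ‖∏ j ∈ range k, ww (sp k j)‖ := by
  have hpi := Real.pi_pos
  have hk' : (2 : ℝ) ≤ k := by exact_mod_cast hk
  rw [norm_prod]
  have hsplit : ∏ j ∈ range k, ‖ww (sp k j)‖ =
      (∏ j ∈ range (k - 1), ‖ww (sp k j)‖) * ‖ww (sp k (k - 1))‖ := by
    rw [← prod_range_succ]
    congr 2
    omega
  rw [hsplit]
  have h1 : ∏ j ∈ range (k - 1), (Real.exp (-(4 * Real.pi * (2 ^ j / DD k))) *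
      ((((k - j : ℕ) : ℝ) + 2) / ((k - j : ℕ) : ℝ))) ≤ ∏ j ∈ range (k - 1), ‖ww (sp k j)‖ := by
    refine prod_le_prod (fun j _ => by positivity) fun j hj => ?_
    have hj' : j + 1 < k := by have := mem_range.mp hj; omega
    obtain ⟨a1, a2, a3⟩ := angle_bounds hk hj'
    refine le_trans ?_ (ww_norm_ge a1.le a2)
    refine mul_le_mul_of_nonneg_left ?_ (Real.exp_pos _).le
    have h3 := e_lower (x := 2 ^ j / DD k) (by rw [abs_of_pos a1]; linarith)
    rw [abs_of_pos a1] at h3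
    refine norm_uu_ge (e_norm _).le ?_ (by omega) ?_
    · intro h
      rw [h, sub_self, norm_zero] at h3
      linarith
    · linarith
  rw [prod_mul_distrib] at h1
  have h2 : Real.exp (-(2 * Real.pi)) ≤
      ∏ j ∈ range (k - 1), Real.exp (-(4 * Real.pi * (2 ^ j / DD k))) := by
    rw [← Real.exp_sum]
    refine Real.exp_le_exp.mpr ?_
    rw [sum_neg_distrib, ← mul_sum]
    have := geom_half hk
    nlinarith
  have h3 : ∏ j ∈ range (k - 1), ((((k - j : ℕ) : ℝ) + 2) / ((k - j : ℕ) : ℝ)) =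
      ((k : ℝ) + 1) * (k + 2) / 6 := by
    have h4 := prod_range_reflect (fun j => (((k - j : ℕ) : ℝ) + 2) / ((k - j : ℕ) : ℝ)) (k - 1)
    rw [← h4]
    have h5 : ∀ j ∈ range (k - 1), (((k - (k - 1 - 1 - j) : ℕ) : ℝ) + 2) /
        ((k - (k - 1 - 1 - j) : ℕ) : ℝ) = ((j : ℝ) + 4) / ((j : ℝ) + 2) := by
      intro j hj
      have hj' := mem_range.mp hj
      have h6 : k - (k - 1 - 1 - j) = j + 2 := by omega
      rw [h6]
      push_cast
      ring
    rw [prod_congr rfl h5, prod_tele]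
    have h6 : ((k - 1 : ℕ) : ℝ) = (k : ℝ) - 1 := by
      rw [Nat.cast_sub (by omega)]; simp
    rw [h6]
    ring
  rw [h3] at h1
  have h4 := ww_last hk
  have h5 : Real.exp (-(2 * Real.pi)) * (((k : ℝ) + 1) * (k + 2) / 6) ≤
      ∏ j ∈ range (k - 1), ‖ww (sp k j)‖ :=
    (mul_le_mul_of_nonneg_right h2 (by positivity)).trans h1
  have h6 : Real.exp (-(2 * Real.pi)) * (((k : ℝ) + 1) * (k + 2) / 6) * (1 / (2 * (k : ℝ) + 4)) ≤
      (∏ j ∈ range (k - 1), ‖ww (sp k j)‖) * ‖ww (sp k (k - 1))‖ :=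
    mul_le_mul h5 h4 (by positivity) (prod_nonneg fun _ _ => norm_nonneg _)
  refine le_trans (le_of_eq ?_) h6
  field_simp
  ring

/-- the product is larger than `1` for large `k` -/
theorem prod_gt : ∀ᶠ k : ℕ in atTop, 1 < ‖∏ j ∈ range k, ww (sp k j)‖ := by
  have h1 : Tendsto (fun k : ℕ => Real.exp (-(2 * Real.pi)) * ((k : ℝ) + 1) / 12) atTop atTop := by
    refine Tendsto.atTop_div_const (by norm_num) ?_
    refine Tendsto.const_mul_atTop (Real.exp_pos _) ?_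
    exact tendsto_atTop_add_const_right _ _ tendsto_natCast_atTop_atTop
  filter_upwards [h1.eventually_gt_atTop 1, eventually_ge_atTop 2] with k h2 h3
  exact h2.trans_le (prod_lower h3)

/-- the product grows subexponentially -/
theorem prod_lt {ε : ℝ} (hε : 0 < ε) :
    ∀ᶠ k : ℕ in atTop, ‖∏ j ∈ range k, ww (sp k j)‖ < (1 + ε) ^ k := by
  obtain ⟨B, hB⟩ : ∃ B, ∀ z ∈ closedBall (0 : ℂ) 1, ‖ww z‖ ≤ B :=
    (isCompact_closedBall (0 : ℂ) 1).exists_bound_of_continuousOn ww_inA.1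
  have hB1 : 1 ≤ B := by
    have := hB 1 (by simp)
    rwa [ww_one, norm_one] at this
  -- closeness to `1`
  have h1m : (1 : ℂ) ∈ closedBall (0 : ℂ) 1 := by simp
  have hc : ContinuousWithinAt (fun x => ‖ww (e x)‖) (Set.univ) 0 := by
    have h2 : ContinuousWithinAt ww (closedBall 0 1) (e 0) := by rw [e_zero]; exact ww_inA.1 1 h1m
    exact (h2.comp e_continuous.continuousWithinAt fun x _ => e_mem x).norm
  rw [continuousWithinAt_univ] at hc
  have hc0 : ‖ww (e 0)‖ < 1 + ε / 2 := by rw [e_zero, ww_one, norm_one]; linarith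
  obtain ⟨δ, hδ, hδ2⟩ := Metric.eventually_nhds_iff.mp (hc.eventually (gt_mem_nhds hc0))
  obtain ⟨m0, hm0⟩ : ∃ m0 : ℕ, (1 / 2 : ℝ) ^ m0 < δ := exists_pow_lt_of_lt_one hδ (by norm_num)
  have hsmall : ∀ k j : ℕ, 2 ≤ k → j + 1 + m0 ≤ k → ‖ww (sp k j)‖ ≤ 1 + ε / 2 := by
    intro k j hk hj
    have hD := DD_ge hk
    refine (hδ2 (y := 2 ^ j / DD k) ?_).le
    rw [Real.dist_eq, sub_zero, abs_of_nonneg (by positivity)]
    refine lt_of_le_of_lt ?_ hm0
    rw [div_le_iff₀ (by linarith)]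
    have h6 : (1 / 2 : ℝ) ^ m0 * 2 ^ (j + 1 + m0) = 2 ^ (j + 1) := by
      rw [pow_add _ (j + 1), mul_comm, mul_assoc, ← mul_pow]
      norm_num
    have h7 : (2 : ℝ) ^ (j + 1 + m0) ≤ 2 ^ k := pow_le_pow_right₀ (by norm_num) hj
    have h8 : (0 : ℝ) < (1 / 2) ^ m0 := by positivity
    have h9 : (1 / 2 : ℝ) ^ m0 ≤ 1 := pow_le_one₀ (by norm_num) (by norm_num)
    have h10 : (1 : ℝ) ≤ 2 ^ j := one_le_pow₀ (by norm_num)
    have h11 : (2 : ℝ) ^ (j + 1) = 2 * 2 ^ j := by rw [pow_succ]; ring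
    have h12 : (2 : ℝ) ^ (j + 1) ≤ (1 / 2) ^ m0 * 2 ^ k := by
      rw [← h6]
      exact mul_le_mul_of_nonneg_left h7 h8.le
    unfold DD
    rw [h11] at h12
    linarith
  have hq : 1 < (1 + ε) / (1 + ε / 2) := by
    rw [one_lt_div (by linarith)]; linarith
  have hlim : Tendsto (fun k : ℕ => ((1 + ε) / (1 + ε / 2)) ^ k) atTop atTop :=
    tendsto_pow_atTop_atTop_of_one_lt hq
  filter_upwards [hlim.eventually_gt_atTop (B ^ m0), eventually_ge_atTop (m0 + 2)] with k h2 h3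
  have hk2 : 2 ≤ k := by omega
  rw [norm_prod, ← prod_range_mul_prod_Ico _ (show k - m0 ≤ k by omega)]
  have a1 : ∏ j ∈ range (k - m0), ‖ww (sp k j)‖ ≤ (1 + ε / 2) ^ k := by
    have b1 : ∏ j ∈ range (k - m0), ‖ww (sp k j)‖ ≤ ∏ j ∈ range (k - m0), (1 + ε / 2) :=
      prod_le_prod (fun _ _ => norm_nonneg _) fun j hj =>
        hsmall k j hk2 (by have := mem_range.mp hj; omega)
    rw [prod_const, card_range] at b1
    exact b1.trans (pow_le_pow_right₀ (by linarith) (by omega))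
  have a2 : ∏ j ∈ Ico (k - m0) k, ‖ww (sp k j)‖ ≤ B ^ m0 := by
    have b1 : ∏ j ∈ Ico (k - m0) k, ‖ww (sp k j)‖ ≤ ∏ j ∈ Ico (k - m0) k, B :=
      prod_le_prod (fun _ _ => norm_nonneg _) fun j _ => hB _ (e_mem _)
    rw [prod_const, Nat.card_Ico, show k - (k - m0) = m0 by omega] at b1
    exact b1
  have a3 := mul_le_mul a1 a2 (prod_nonneg fun _ _ => norm_nonneg _) (by positivity)
  refine a3.trans_lt ?_
  rw [div_pow, lt_div_iff₀ (by positivity)] at h2
  linarith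

/-- **The spectrum.** -/
theorem spectrum_orbit {k : ℕ} (hk : 2 ≤ k) (hP : 1 < ‖∏ j ∈ range k, ww (sp k j)‖) {l : ℂ}
    (hl : ‖l‖ ^ k = ‖∏ j ∈ range k, ww (sp k j)‖) : InUsf ww l := by
  have hD := DD_ge hk
  have hD0 : DD k ≠ 0 := by linarith
  have hpow2 : (2 : ℝ) ^ k = DD k + 1 := by unfold DD; ring
  refine inUsf_of_orbit ww_inA (by omega) (sp k) (tp k) (fun j => e_norm _) (fun m => e_norm _)
    ?_ ?_ ?_ ?_ ?_ ?_ ?_ hP ?_ ?_ hl
  · intro j
    unfold sp
    rw [← e_two]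
    congr 1
    rw [pow_succ]
    ring
  · unfold sp
    rw [pow_zero, ← e_one_add (1 / DD k)]
    congr 1
    rw [hpow2]
    field_simp
  · rw [sp_last hk, neg_neg]
  · intro m
    unfold tp
    rw [← e_two]
    congr 1
    rw [pow_succ (2 : ℝ) (m + 1)]
    field_simp
  · intro j hj
    unfold sp
    refine ww_zero (Or.inr ⟨k - 1 - j, by omega, Or.inr ⟨k, hk, by omega, ?_⟩⟩)
    have h1 : k - 1 - j + 1 = k - j := by omega
    rw [h1]
    unfold cK
    have h6 : (1 / 2 : ℝ) ^ (k - j) * 2 ^ k = 2 ^ j := by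
      obtain ⟨m, rfl⟩ : ∃ m, k = j + m := ⟨k - j, by omega⟩
      rw [Nat.add_sub_cancel_left, pow_add, mul_comm, mul_assoc, ← mul_pow]
      norm_num
    rw [← mul_div_assoc, h6]
  · intro m
    unfold tp
    refine ww_zero (Or.inr ⟨m + 1 + k, by omega, Or.inr ⟨k, hk, by omega, ?_⟩⟩)
    unfold cK
    have h6 : (1 / 2 : ℝ) ^ (m + 1 + k + 1) * 2 ^ k = 1 / 2 ^ (m + 1 + 1) := by
      rw [show m + 1 + k + 1 = (m + 1 + 1) + k by ring, pow_add, mul_assoc, ← mul_pow,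
        show (1 / 2 : ℝ) * 2 = 1 by norm_num, one_pow, mul_one, one_div, inv_pow, one_div]
    rw [← mul_div_assoc, h6]
    field_simp
  · have h1m : (1 : ℂ) ∈ closedBall (0 : ℂ) 1 := by simp
    have h2 : ContinuousWithinAt ww (closedBall 0 1) 1 := ww_inA.1 1 h1m
    have h3 : Tendsto (fun m => tp k m) atTop (𝓝[closedBall 0 1] 1) := by
      refine tendsto_nhdsWithin_iff.mpr ⟨?_, Eventually.of_forall fun m => e_mem _⟩
      rw [← e_zero]
      refine (e_continuous.tendsto 0).comp ?_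
      have h4 : Tendsto (fun m : ℕ => (1 / 2 : ℝ) ^ (m + 1) * (1 / DD k)) atTop
          (𝓝 (0 * (1 / DD k))) :=
        ((tendsto_pow_atTop_nhds_zero_of_lt_one (by norm_num) (by norm_num)).comp
          (tendsto_add_atTop_nat 1)).mul_const _
      rw [zero_mul] at h4
      refine h4.congr fun m => ?_
      rw [one_div, inv_pow]
      field_simp
    have h4 := (h2.tendsto.comp h3).norm
    rw [ww_one, norm_one] at h4
    exact h4
  · intro j hj0 hjk h
    have h1 : ‖sp k j - sp k 0‖ = 0 := by rw [h, sub_self, norm_zero]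
    unfold sp at h1
    rw [e_dist] at h1
    have h2 : (2 : ℝ) ≤ 2 ^ j := by
      have : (2 : ℝ) ^ 1 ≤ 2 ^ j := pow_le_pow_right₀ (by norm_num) hj0
      linarith
    have h3 : (2 : ℝ) ^ k = 2 * 2 ^ (k - 1) := by
      obtain ⟨m, rfl⟩ : ∃ m, k = m + 1 := ⟨k - 1, by omega⟩
      rw [Nat.add_sub_cancel, pow_succ]; ring
    have h4 : (2 : ℝ) ^ j ≤ 2 ^ (k - 1) := pow_le_pow_right₀ (by norm_num) (by omega)
    have h5 : (2 : ℝ) ^ j / DD k - 2 ^ 0 / DD k = (2 ^ j - 1) / DD k := by ring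
    rw [h5] at h1
    have h6 : 0 < ((2 : ℝ) ^ j - 1) / DD k := div_pos (by linarith) (by linarith)
    have h7 := e_lower (x := (2 ^ j - 1) / DD k) (by
      rw [abs_of_pos h6, div_le_iff₀ (by linarith)]
      unfold DD
      rw [h3]
      linarith)
    rw [h1, abs_of_pos h6] at h7
    linarith
  · intro m h
    have h1 : ‖tp k m - sp k 0‖ = 0 := by rw [h, sub_self, norm_zero]
    unfold sp tp at h1
    rw [e_dist] at h1
    have h2 : (2 : ℝ) ≤ 2 ^ (m + 1) := by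
      have : (2 : ℝ) ^ 1 ≤ 2 ^ (m + 1) := pow_le_pow_right₀ (by norm_num) (by omega)
      linarith
    have h5 : 1 / (2 ^ (m + 1) * DD k) - 2 ^ 0 / DD k = -((1 - 1 / 2 ^ (m + 1)) / DD k) := by
      field_simp
      ring
    have h8 : 1 / (2 : ℝ) ^ (m + 1) ≤ 1 / 2 := one_div_le_one_div_of_le (by norm_num) h2
    have h9 : 0 < 1 / (2 : ℝ) ^ (m + 1) := by positivity
    rw [h5] at h1
    have h6 : 0 < (1 - 1 / (2 : ℝ) ^ (m + 1)) / DD k := div_pos (by linarith) (by linarith)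
    have h7 := e_lower (x := -((1 - 1 / (2 : ℝ) ^ (m + 1)) / DD k)) (by
      rw [abs_neg, abs_of_pos h6, div_le_iff₀ (by linarith)]
      linarith)
    rw [h1, abs_neg, abs_of_pos h6] at h7
    linarith

/-- **Main theorem.** -/
theorem main (ε : ℝ) (hε : 0 < ε) : ∃ r : ℝ, 1 < r ∧ r < 1 + ε ∧ ∀ l : ℂ, ‖l‖ = r → InUsf ww l := by
  obtain ⟨k, h1, h2, h3⟩ := (prod_gt.and ((prod_lt hε).and (eventually_ge_atTop 2))).exists
  set P := ‖∏ j ∈ range k, ww (sp k j)‖ with hP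
  have hk0 : (k : ℝ) ≠ 0 := by
    have : (2 : ℝ) ≤ k := by exact_mod_cast h3
    linarith
  have hpow : (P ^ (1 / (k : ℝ))) ^ k = P := by
    rw [← Real.rpow_natCast, ← Real.rpow_mul (by linarith), one_div, inv_mul_cancel₀ hk0,
      Real.rpow_one]
  refine ⟨P ^ (1 / (k : ℝ)), Real.one_lt_rpow h1 (by positivity), ?_, ?_⟩
  · by_contra hcon
    push Not at hcon
    have h4 := pow_le_pow_left₀ (by linarith) hcon k
    rw [hpow] at h4
    linarith
  · intro l hl
    refine spectrum_orbit h3 h1 ?_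
    rw [hl, hpow]

end Pool.Agent.R256.Usf
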